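import Pool.Agent.AXS.ChainDefs

/-!
# The calculus of chains of lists
-/

set_option autoImplicit false

open Set Metric MeasureTheory Topology

namespace Pool.Agent.AXS

theorem pr_single {X A : Type*} [AddCommGroup A] (f : List X → A) (l : List X) (k : ℤ) :
    pr f (Finsupp.single l k) = k • f l := by
  simp [pr]

@[simp] theorem pr_single_one {X A : Type*} [AddCommGroup A] (f : List X → A) (l : List X) :
    pr f (Finsupp.single l 1) = f l := by
  rw [pr_single, one_smul]

theorem cn_single {X : Type*} (x : X) (l : List X) (k : ℤ) :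
    cn x (Finsupp.single l k) = Finsupp.single (x :: l) k :=
  Finsupp.mapDomain_single

theorem Ch.hom_ext {X A : Type*} [AddCommGroup A] {φ ψ : Ch X →+ A}
    (h : ∀ l : List X, φ (Finsupp.single l 1) = ψ (Finsupp.single l 1)) : φ = ψ := by
  apply Finsupp.addHom_ext
  intro l k
  have e : Finsupp.single l k = k • (Finsupp.single l 1 : Ch X) := by
    rw [Finsupp.smul_single, smul_eq_mul, mul_one]
  rw [e, map_zsmul, map_zsmul, h]

theorem pr_cn {X A : Type*} [AddCommGroup A] (f : List X → A) (x : X) (c : Ch X) :
    pr f (cn x c) = pr (fun w => f (x :: w)) c := by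
  have : (pr f).comp (cn x) = pr (fun w => f (x :: w)) := by
    apply Ch.hom_ext
    intro l
    rw [AddMonoidHom.comp_apply, cn_single, pr_single_one, pr_single_one]
  exact DFunLike.congr_fun this c

theorem pr_add_fun {X A : Type*} [AddCommGroup A] (f f' : List X → A) (c : Ch X) :
    pr (fun w => f w + f' w) c = pr f c + pr f' c := by
  have : pr (fun w => f w + f' w) = pr f + pr f' := by
    apply Ch.hom_ext
    intro l
    rw [AddMonoidHom.add_apply, pr_single_one, pr_single_one, pr_single_one]
  rw [this, AddMonoidHom.add_apply]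

theorem pr_sub_fun {X A : Type*} [AddCommGroup A] (f f' : List X → A) (c : Ch X) :
    pr (fun w => f w - f' w) c = pr f c - pr f' c := by
  have : pr (fun w => f w - f' w) = pr f - pr f' := by
    apply Ch.hom_ext
    intro l
    rw [AddMonoidHom.sub_apply, pr_single_one, pr_single_one, pr_single_one]
  rw [this, AddMonoidHom.sub_apply]

theorem pr_neg_fun {X A : Type*} [AddCommGroup A] (f : List X → A) (c : Ch X) :
    pr (fun w => - f w) c = - pr f c := by
  have : pr (fun w => - f w) = - pr f := by
    apply Ch.hom_ext
    intro l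
    rw [AddMonoidHom.neg_apply, pr_single_one, pr_single_one]
  rw [this, AddMonoidHom.neg_apply]

/-- A homomorphism applied after `pr`. -/
theorem pr_hom {X A A' : Type*} [AddCommGroup A] [AddCommGroup A'] (φ : A →+ A') (f : List X → A)
    (c : Ch X) : φ (pr f c) = pr (fun w => φ (f w)) c := by
  have : φ.comp (pr f) = pr (fun w => φ (f w)) := by
    apply Ch.hom_ext
    intro l
    rw [AddMonoidHom.comp_apply, pr_single_one, pr_single_one]
  exact DFunLike.congr_fun this c

/-- `pr` only depends on the values on the support. -/
theorem pr_congr {X A : Type*} [AddCommGroup A] (f f' : List X → A) (c : Ch X)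
    (h : ∀ l ∈ c.support, f l = f' l) : pr f c = pr f' c := by
  have e : ∀ g : List X → A, pr g c = c.sum fun l k => k • g l := fun g => rfl
  rw [e, e]
  apply Finsupp.sum_congr
  intro l hl
  rw [h l hl]

theorem pr_bdl {X V : Type*} [AddCommGroup V] (f : List X → V) (l : List X) : pr f (bdl l) = dd f l := by
  induction l generalizing f with
  | nil => exact map_zero _
  | cons x v ih =>
    have : bdl (x :: v) = Finsupp.single v 1 - cn x (bdl v) := rfl
    rw [this, map_sub, pr_single_one, pr_cn, ih, dd_cons]

theorem bd_single {X : Type*} (l : List X) : bd (Finsupp.single l 1) = bdl l := pr_single_one _ _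

theorem bd_cn {X : Type*} (x : X) (c : Ch X) : bd (cn x c) = c - cn x (bd c) := by
  have : bd.comp (cn x) = AddMonoidHom.id (Ch X) - (cn x).comp bd := by
    apply Ch.hom_ext
    intro l
    rw [AddMonoidHom.comp_apply, AddMonoidHom.sub_apply, AddMonoidHom.comp_apply, cn_single,
      bd_single, bd_single]
    rfl
  exact DFunLike.congr_fun this c

theorem bd_bdl {X : Type*} (l : List X) : bd (bdl l) = 0 := by
  induction l with
  | nil => exact map_zero _
  | cons x v ih =>
    have : bdl (x :: v) = Finsupp.single v 1 - cn x (bdl v) := rfl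
    rw [this, map_sub, bd_single, bd_cn, ih, map_zero, sub_zero, sub_self]

theorem bd_bd {X : Type*} (c : Ch X) : bd (bd c) = 0 := by
  have : (bd (X := X)).comp bd = 0 := by
    apply Ch.hom_ext
    intro l
    rw [AddMonoidHom.comp_apply, bd_single, bd_bdl]
    rfl
  exact DFunLike.congr_fun this c

theorem pr_bd {X V : Type*} [AddCommGroup V] (f : List X → V) (c : Ch X) :
    pr f (bd c) = pr (dd f) c := by
  have : (pr f).comp bd = pr (dd f) := by
    apply Ch.hom_ext
    intro l
    rw [AddMonoidHom.comp_apply, bd_single, pr_bdl, pr_single_one]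
  exact DFunLike.congr_fun this c

/-- The support of the cone. -/
theorem supp_cn {X : Type*} (x : X) (c : Ch X) (w : List X) (hw : w ∈ (cn x c).support) :
    ∃ v ∈ c.support, w = x :: v := by
  classical
  have h := Finsupp.mapDomain_support hw
  obtain ⟨v, hv, rfl⟩ := Finset.mem_image.1 h
  exact ⟨v, hv, rfl⟩

theorem supp_single {X : Type*} (l w : List X) (k : ℤ)
    (hw : w ∈ (Finsupp.single l k : Ch X).support) : w = l := by
  classical
  have h := Finsupp.support_single_subset hw
  simpa using h

theorem supp_sub {X : Type*} (c c' : Ch X) (w : List X) (hw : w ∈ (c - c').support) :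
    w ∈ c.support ∨ w ∈ c'.support := by
  classical
  exact Finset.mem_union.1 (Finsupp.support_sub hw)

theorem supp_add {X : Type*} (c c' : Ch X) (w : List X) (hw : w ∈ (c + c').support) :
    w ∈ c.support ∨ w ∈ c'.support := by
  classical
  exact Finset.mem_union.1 (Finsupp.support_add hw)

/-- Every list in the support of `bdl l` is a face of `l`. -/
theorem supp_bdl {X : Type*} (l w : List X) (hw : w ∈ (bdl l).support) :
    w ⊆ l ∧ w.length + 1 = l.length := by
  induction l generalizing w with
  | nil =>
    have : bdl ([] : List X) = 0 := rfl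
    rw [this] at hw
    simp at hw
  | cons x v ih =>
    have : bdl (x :: v) = Finsupp.single v 1 - cn x (bdl v) := rfl
    rw [this] at hw
    rcases supp_sub _ _ _ hw with h | h
    · obtain rfl := supp_single _ _ _ h
      exact ⟨List.subset_cons_self x w, rfl⟩
    · obtain ⟨w', hw', rfl⟩ := supp_cn _ _ _ h
      obtain ⟨h1, h2⟩ := ih w' hw'
      refine ⟨?_, by simp only [List.length_cons, h2]⟩
      intro y hy
      rcases List.mem_cons.1 hy with rfl | hy
      · exact List.mem_cons_self
      · exact List.mem_cons_of_mem _ (h1 hy)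

/-- Supports of `pr`. -/
theorem supp_pr {X Y : Type*} (f : List X → Ch Y) (c : Ch X) (w : List Y) (hw : w ∈ (pr f c).support) :
    ∃ l ∈ c.support, w ∈ (f l).support := by
  classical
  have e : pr f c = c.sum fun l k => k • f l := rfl
  rw [e] at hw
  have h := Finsupp.support_sum hw
  rw [Finset.mem_biUnion] at h
  obtain ⟨l, hl, h⟩ := h
  exact ⟨l, hl, Finsupp.support_smul h⟩

/-- The boundary is natural. -/
theorem pr_map_bdl {X Y : Type*} (g : X → Y) (v : List X) :
    pr (fun w => (Finsupp.single (w.map g) 1 : Ch Y)) (bdl v) = bdl (v.map g) := by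
  induction v with
  | nil => exact map_zero _
  | cons x v ih =>
    have e1 : bdl (x :: v) = Finsupp.single v 1 - cn x (bdl v) := rfl
    have e2 : bdl ((x :: v).map g) = Finsupp.single (v.map g) 1 - cn (g x) (bdl (v.map g)) := rfl
    rw [e1, e2, map_sub, pr_single_one, pr_cn, ← ih, pr_hom]
    have e3 : (fun w => (Finsupp.single ((x :: w).map g) 1 : Ch Y)) =
        fun w => cn (g x) (Finsupp.single (w.map g) 1) := by
      funext w
      rw [cn_single, List.map_cons]
    rw [e3]

theorem bd_pz {X : Type*} (g g' : X → X) (l : List X) :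
    bd (pz g g' l) + pr (pz g g') (bdl l) =
      Finsupp.single (l.map g') 1 - Finsupp.single (l.map g) 1 := by
  induction l with
  | nil =>
    have e1 : pz g g' ([] : List X) = 0 := rfl
    have e2 : bdl ([] : List X) = 0 := rfl
    rw [e1, e2, map_zero, map_zero, add_zero, List.map_nil, List.map_nil, sub_self]
  | cons x v ih =>
    have e1 : pz g g' (x :: v) =
        Finsupp.single (g x :: g' x :: v.map g') 1 - cn (g x) (pz g g' v) := rfl
    have e2 : bdl (x :: v) = Finsupp.single v 1 - cn x (bdl v) := rfl
    have e3 : bdl (g x :: g' x :: v.map g') = Finsupp.single (g' x :: v.map g') 1 -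
        cn (g x) (Finsupp.single (v.map g') 1 - cn (g' x) (bdl (v.map g'))) := rfl
    have e4 : pr (fun w => pz g g' (x :: w)) (bdl v) =
        cn (g x) (cn (g' x) (bdl (v.map g'))) - cn (g x) (pr (pz g g') (bdl v)) := by
      have : (fun w => pz g g' (x :: w)) = fun w =>
          (cn (g x) (cn (g' x) (Finsupp.single (w.map g') 1)) - cn (g x) (pz g g' w) : Ch X) := by
        funext w
        rw [cn_single, cn_single]
        rfl
      rw [this, pr_sub_fun, ← pr_map_bdl, pr_hom, pr_hom, pr_hom]
    have ih' : cn (g x) (bd (pz g g' v)) = cn (g x) (Finsupp.single (v.map g') 1) -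
        cn (g x) (Finsupp.single (v.map g) 1) - cn (g x) (pr (pz g g') (bdl v)) := by
      rw [← map_sub, ← ih, map_add]
      abel
    rw [e1, e2, map_sub, map_sub, bd_single, e3, bd_cn, pr_single_one, pr_cn, e4, ih', map_sub,
      List.map_cons, List.map_cons, ← cn_single (g x) (v.map g)]
    abel

theorem supp_pz {X : Type*} (g g' : X → X) (l w : List X) (hw : w ∈ (pz g g' l).support) :
    w ⊆ l.map g ++ l.map g' ∧ w.length = l.length + 1 := by
  induction l generalizing w with
  | nil =>
    have : pz g g' ([] : List X) = 0 := rfl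
    rw [this] at hw
    simp at hw
  | cons x v ih =>
    have : pz g g' (x :: v) =
        Finsupp.single (g x :: (x :: v).map g') 1 - cn (g x) (pz g g' v) := rfl
    rw [this] at hw
    rcases supp_sub _ _ _ hw with h | h
    · obtain rfl := supp_single _ _ _ h
      refine ⟨?_, by simp⟩
      intro y hy
      simp only [List.mem_append, List.mem_cons, List.map_cons] at hy ⊢
      tauto
    · obtain ⟨w', hw', rfl⟩ := supp_cn _ _ _ h
      obtain ⟨h1, h2⟩ := ih w' hw'
      refine ⟨?_, by simp only [List.length_cons, h2]⟩
      intro y hy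
      rcases List.mem_cons.1 hy with rfl | hy
      · simp
      · have := h1 hy
        simp only [List.mem_append, List.mem_cons, List.map_cons] at this ⊢
        tauto

end Pool.Agent.AXS
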