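import Pool.Agent.AXS.Defs

/-!
# Chains of lists: definitions
-/

set_option autoImplicit false

open Set Metric MeasureTheory Topology

namespace Pool.Agent.AXS

/-- Chains: formal sums of lists. Note that the complex is augmented: `∂ [y] = []`. -/
abbrev Ch (X : Type*) := List X →₀ ℤ

/-- The cone. -/
noncomputable def cn {X : Type*} (x : X) : Ch X →+ Ch X := Finsupp.mapDomain.addMonoidHom (fun l => x :: l)

/-- The boundary of a list. -/
noncomputable def bdl {X : Type*} : List X → Ch X
  | [] => 0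
  | x :: v => Finsupp.single v 1 - cn x (bdl v)

/-- Extend a map from lists to an abelian group to chains. -/
noncomputable def pr {X A : Type*} [AddCommGroup A] (f : List X → A) : Ch X →+ A :=
  Finsupp.liftAddHom fun l => (zmultiplesHom A (f l))

/-- The boundary. -/
noncomputable def bd {X : Type*} : Ch X →+ Ch X := pr bdl

/-- `X` is locally contractible. -/
def LocContr (X : Type*) [TopologicalSpace X] : Prop :=
  ∀ x : X, ∀ U ∈ 𝓝 x, ∃ V ∈ 𝓝 x, ∃ H : ℝ × X → X, ContinuousOn H (Icc 0 1 ×ˢ V) ∧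
    (∀ y ∈ V, H (0, y) = y) ∧ (∃ c, ∀ y ∈ V, H (1, y) = c) ∧ ∀ t ∈ Icc (0 : ℝ) 1, ∀ y ∈ V, H (t, y) ∈ U

/-- The prism between two maps. -/
noncomputable def pz {X : Type*} (g g' : X → X) : List X → Ch X
  | [] => 0
  | x :: v => Finsupp.single (g x :: (x :: v).map g') 1 - cn (g x) (pz g g' v)

/-- The data of a chain map `lam` from the `δ`-small lists of length `≤ K` to `η`-small chains within `ε`. -/
def IsLam {X : Type*} [MetricSpace X] (K : ℕ) (ε δ η : ℝ) (lam : List X → Ch X) : Prop :=
  lam [] = Finsupp.single [] 1 ∧ ∀ l : List X, l.length ≤ K → Sm δ l →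
    (∀ w ∈ (lam l).support, w.length = l.length ∧ Sm η w ∧ ∀ y ∈ w, ∀ x ∈ l, dist y x < ε) ∧
    bd (lam l) = pr lam (bdl l)

end Pool.Agent.AXS
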