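import Pool.Agent.AXS.Defs

/-!
# Coefficients

Finiteness of the cohomology of the relative complex passes to extensions of coefficients.
-/

set_option autoImplicit false

open Set Metric MeasureTheory

namespace Pool.Agent.AXS

section Coef91

variable {X : Type*} [MetricSpace X] {V₁ V₂ V₃ : Type*} [AddCommGroup V₁] [AddCommGroup V₂]
    [AddCommGroup V₃]

/-- Change of coefficients. -/
def coM91 (α : V₁ →+ V₂) : Co X V₁ →+ Co X V₂ where
  toFun f := fun l => α (f l)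
  map_zero' := by funext l; exact map_zero α
  map_add' f g := by funext l; exact map_add α (f l) (g l)

omit [MetricSpace X] in
theorem coM91_apply (α : V₁ →+ V₂) (f : Co X V₁) (l : List X) : coM91 α f l = α (f l) := rfl

omit [MetricSpace X] in
theorem dH_coM91 (α : V₁ →+ V₂) (f : Co X V₁) : dH (coM91 α f) = coM91 α (dH f) :=
  funext fun u => dd_comp α u f

theorem coM91_mem (α : V₁ →+ V₂) {T : List X → Prop} {j : ℕ} {f : Co X V₁} (hf : f ∈ DT T j) :
    coM91 α f ∈ DT T j := by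
  obtain ⟨ε, hε, h⟩ := hf
  exact ⟨ε, hε, fun l hl hs hT => by rw [coM91_apply, h l hl hs hT, map_zero]⟩

theorem mem_of_coM91 (α : V₁ →+ V₂) (hα : Function.Injective α) {T : List X → Prop} {j : ℕ}
    {f : Co X V₁} (hf : coM91 α f ∈ DT T j) : f ∈ DT T j := by
  obtain ⟨ε, hε, h⟩ := hf
  exact ⟨ε, hε, fun l hl hs hT => hα (by rw [map_zero]; exact h l hl hs hT)⟩

theorem coM91_BB (α : V₁ →+ V₂) {T : List X → Prop} {j : ℕ} {f : Co X V₁}
    (hf : f ∈ BB (dH : Co X V₁ →+ Co X V₁) (DT T) (DT All) j) :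
    coM91 α f ∈ BB (dH : Co X V₂ →+ Co X V₂) (DT T) (DT All) j := by
  cases j with
  | zero => exact coM91_mem α hf
  | succ j =>
    obtain ⟨g, hg, h⟩ := mem_BB_succ.1 hf
    refine mem_BB_succ.2 ⟨coM91 α g, coM91_mem α hg, ?_⟩
    rw [dH_coM91, ← map_sub]
    exact coM91_mem α h

theorem coM91_ZZ (α : V₁ →+ V₂) {T : List X → Prop} {j : ℕ} {f : Co X V₁}
    (hf : f ∈ ZZ (dH : Co X V₁ →+ Co X V₁) (DT T) (DT All) j) :
    coM91 α f ∈ ZZ (dH : Co X V₂ →+ Co X V₂) (DT T) (DT All) j := by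
  refine mem_ZZ.2 ⟨coM91_mem α hf.1, ?_⟩
  rw [dH_coM91]
  exact coM91_mem α hf.2

/-- A cocycle whose image vanishes comes from a cocycle. -/
theorem coef_core91 (α : V₁ →+ V₂) (β : V₂ →+ V₃) (hα : Function.Injective α)
    (hex : ∀ v, β v = 0 ↔ ∃ w, α w = v) {T : List X → Prop} {j : ℕ} {y : Co X V₂}
    (hy : y ∈ ZZ (dH : Co X V₂ →+ Co X V₂) (DT T) (DT All) j)
    (hb : coM91 β y ∈ (DT All j : AddSubgroup (Co X V₃))) :
    ∃ z ∈ ZZ (dH : Co X V₁ →+ Co X V₁) (DT T) (DT All) j,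
      y - coM91 α z ∈ (DT All j : AddSubgroup (Co X V₂)) := by
  classical
  let z : Co X V₁ := fun l => if h : ∃ w, α w = y l then Classical.choose h else 0
  have hz : ∀ l, β (y l) = 0 → α (z l) = y l := by
    intro l hl
    have h : ∃ w, α w = y l := (hex _).1 hl
    have : z l = Classical.choose h := dif_pos h
    rw [this]
    exact Classical.choose_spec h
  have hz0 : ∀ l, y l = 0 → z l = 0 := by
    intro l hl
    apply hα
    rw [hz l (by rw [hl, map_zero]), hl, map_zero]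
  have hD : y - coM91 α z ∈ (DT All j : AddSubgroup (Co X V₂)) := by
    obtain ⟨ε, hε, h⟩ := hb
    refine ⟨ε, hε, fun l hl hs hT => ?_⟩
    rw [Co.sub_apply, coM91_apply, hz l (h l hl hs hT), sub_self]
  refine ⟨z, mem_ZZ.2 ⟨?_, ?_⟩, hD⟩
  · obtain ⟨ε, hε, h⟩ := hy.1
    exact ⟨ε, hε, fun l hl hs hT => hz0 l (h l hl hs hT)⟩
  · apply mem_of_coM91 α hα
    rw [← dH_coM91]
    have e : dH (coM91 α z) = dH y - dH (y - coM91 α z) := by
      rw [map_sub]; abel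
    rw [e]
    exact (DT All (j + 1)).sub_mem hy.2 (dH_mem_DT her_all j _ hD)

/-- Lifting of cochains. -/
theorem coef_lift91 (β : V₂ →+ V₃) (hβ : Function.Surjective β) {T : List X → Prop} {j : ℕ}
    {g : Co X V₃} (hg : g ∈ DT T j) : ∃ g' : Co X V₂, g' ∈ DT T j ∧ coM91 β g' = g := by
  classical
  let g' : Co X V₂ := fun l => if g l = 0 then 0 else Classical.choose (hβ (g l))
  refine ⟨g', ?_, ?_⟩
  · obtain ⟨ε, hε, h⟩ := hg
    exact ⟨ε, hε, fun l hl hs hT => if_pos (h l hl hs hT)⟩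
  · funext l
    rw [coM91_apply]
    by_cases h : g l = 0
    · have : g' l = 0 := if_pos h
      rw [this, map_zero, h]
    · have : g' l = Classical.choose (hβ (g l)) := if_neg h
      rw [this]
      exact Classical.choose_spec (hβ (g l))

theorem coef_exact91 (α : V₁ →+ V₂) (β : V₂ →+ V₃) (hα : Function.Injective α)
    (hβ : Function.Surjective β) (hex : ∀ v, β v = 0 ↔ ∃ w, α w = v) {T : List X → Prop}
    (hT : Her T) {j : ℕ} {y : Co X V₂}
    (hy : y ∈ ZZ (dH : Co X V₂ →+ Co X V₂) (DT T) (DT All) j)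
    (hb : coM91 β y ∈ BB (dH : Co X V₃ →+ Co X V₃) (DT T) (DT All) j) :
    ∃ z ∈ ZZ (dH : Co X V₁ →+ Co X V₁) (DT T) (DT All) j,
      y - coM91 α z ∈ BB (dH : Co X V₂ →+ Co X V₂) (DT T) (DT All) j := by
  cases j with
  | zero => exact coef_core91 α β hα hex hy hb
  | succ j =>
    obtain ⟨g, hg, h⟩ := mem_BB_succ.1 hb
    obtain ⟨g', hg', rfl⟩ := coef_lift91 β hβ hg
    have hy' : y - dH g' ∈ ZZ (dH : Co X V₂ →+ Co X V₂) (DT T) (DT All) (j + 1) := by
      refine mem_ZZ.2 ⟨(DT T (j + 1)).sub_mem hy.1 (dH_mem_DT hT j _ hg'), ?_⟩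
      have e : dH (y - dH g') = dH y := by
        rw [map_sub]
        have : dH (dH g') = 0 := funext fun u => dd_dd u g'
        rw [this, sub_zero]
      rw [e]
      exact hy.2
    have hb' : coM91 β (y - dH g') ∈ (DT All (j + 1) : AddSubgroup (Co X V₃)) := by
      rw [map_sub, ← dH_coM91]
      exact h
    obtain ⟨z, hz, hz'⟩ := coef_core91 α β hα hex hy' hb'
    refine ⟨z, hz, mem_BB_succ.2 ⟨g', hg', ?_⟩⟩
    have e : y - coM91 α z - dH g' = y - dH g' - coM91 α z := by abel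
    rw [e]
    exact hz'

end Coef91

theorem finH_coef {X : Type*} [MetricSpace X] {V₁ V₂ V₃ : Type*} [AddCommGroup V₁] [AddCommGroup V₂]
    [AddCommGroup V₃] (α : V₁ →+ V₂) (β : V₂ →+ V₃) (hα : Function.Injective α)
    (hβ : Function.Surjective β) (hex : ∀ v, β v = 0 ↔ ∃ w, α w = v) {T : List X → Prop}
    (hT : Her T) {j : ℕ} (h₁ : FinH (dH : Co X V₁ →+ Co X V₁) (DT T) (DT All) j)
    (h₃ : FinH (dH : Co X V₃ →+ Co X V₃) (DT T) (DT All) j) :
    FinH (dH : Co X V₂ →+ Co X V₂) (DT T) (DT All) j := by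
  classical
  obtain ⟨S₁, hS₁, hS₁z, h₁⟩ := h₁
  obtain ⟨S₃, hS₃, hS₃z, h₃⟩ := h₃
  let P : Co X V₃ → Co X V₂ → Prop := fun s y =>
    y ∈ ZZ (dH : Co X V₂ →+ Co X V₂) (DT T) (DT All) j ∧
      coM91 β y - s ∈ BB (dH : Co X V₃ →+ Co X V₃) (DT T) (DT All) j
  let q : Co X V₃ → Co X V₂ := fun s => if h : ∃ y, P s y then Classical.choose h else 0
  have hq : ∀ s, (∃ y, P s y) → P s (q s) := by
    intro s h
    have : q s = Classical.choose h := dif_pos h
    rw [this]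
    exact Classical.choose_spec h
  have hqZ : ∀ s, q s ∈ ZZ (dH : Co X V₂ →+ Co X V₂) (DT T) (DT All) j := by
    intro s
    by_cases h : ∃ y, P s y
    · exact (hq s h).1
    · have : q s = 0 := dif_neg h
      rw [this]
      exact (ZZ (dH : Co X V₂ →+ Co X V₂) (DT T) (DT All) j).zero_mem
  refine ⟨Set.image2 (fun s t => q s + coM91 α t) S₃ S₁, hS₃.image2 _ hS₁, ?_, ?_⟩
  · rintro _ ⟨s, hs, t, ht, rfl⟩
    exact (ZZ (dH : Co X V₂ →+ Co X V₂) (DT T) (DT All) j).add_mem (hqZ s) (coM91_ZZ α (hS₁z t ht))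
  · intro y hy
    obtain ⟨s, hs, hys⟩ := h₃ _ (coM91_ZZ β hy)
    have hP := hq s ⟨y, hy, hys⟩
    have hd : y - q s ∈ ZZ (dH : Co X V₂ →+ Co X V₂) (DT T) (DT All) j :=
      (ZZ (dH : Co X V₂ →+ Co X V₂) (DT T) (DT All) j).sub_mem hy hP.1
    have hb : coM91 β (y - q s) ∈ BB (dH : Co X V₃ →+ Co X V₃) (DT T) (DT All) j := by
      have e : coM91 β (y - q s) = (coM91 β y - s) - (coM91 β (q s) - s) := by
        rw [map_sub]; abel
      rw [e]
      exact (BB (dH : Co X V₃ →+ Co X V₃) (DT T) (DT All) j).sub_mem hys hP.2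
    obtain ⟨z, hz, hz'⟩ := coef_exact91 α β hα hβ hex hT hd hb
    obtain ⟨t, ht, hzt⟩ := h₁ z hz
    refine ⟨q s + coM91 α t, ⟨s, hs, t, ht, rfl⟩, ?_⟩
    have e : y - (q s + coM91 α t) = (y - q s - coM91 α z) + coM91 α (z - t) := by
      rw [map_sub]; abel
    rw [e]
    exact (BB (dH : Co X V₂ →+ Co X V₂) (DT T) (DT All) j).add_mem hz' (coM91_BB α hzt)

/-- The map `x ↦ 2 x` from `ℤ / 2^k` to `ℤ / 2^(k+1)`. -/
theorem exists_mul_two91 (k : ℕ) : ∃ α : ZMod (2 ^ k) →+ ZMod (2 ^ (k + 1)),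
    ∀ n : ℤ, α (n : ZMod (2 ^ k)) = ((2 * n : ℤ) : ZMod (2 ^ (k + 1))) := by
  have h0 : (zmultiplesHom (ZMod (2 ^ (k + 1))) (2 : ZMod (2 ^ (k + 1)))) ((2 ^ k : ℕ) : ℤ) = 0 := by
    rw [zmultiplesHom_apply, zsmul_eq_mul]
    have : (((2 ^ k : ℕ) : ℤ) : ZMod (2 ^ (k + 1))) * 2 = ((2 ^ (k + 1) : ℕ) : ZMod (2 ^ (k + 1))) := by
      push_cast
      exact (pow_succ _ _).symm
    rw [this]
    exact ZMod.natCast_self _
  refine ⟨ZMod.lift (2 ^ k) ⟨zmultiplesHom (ZMod (2 ^ (k + 1))) (2 : ZMod (2 ^ (k + 1))), h0⟩, ?_⟩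
  intro n
  rw [ZMod.lift_coe]
  change n • (2 : ZMod (2 ^ (k + 1))) = _
  rw [zsmul_eq_mul]
  push_cast
  ring

theorem finH_two_pow {X : Type*} [MetricSpace X] {T : List X → Prop} (hT : Her T) {j : ℕ}
    (h : FinH (dH : Co X (ZMod 2) →+ Co X (ZMod 2)) (DT T) (DT All) j) (m : ℕ) :
    FinH (dH : Co X (ZMod (2 ^ (m + 1))) →+ Co X (ZMod (2 ^ (m + 1)))) (DT T) (DT All) j := by
  induction m with
  | zero =>
    have e : (2 : ℕ) ^ (0 + 1) = 2 := rfl
    rw [e]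
    exact h
  | succ m ih =>
    obtain ⟨α, hα⟩ := exists_mul_two91 (m + 1)
    have hd : 2 ∣ 2 ^ (m + 1 + 1) := dvd_pow_self 2 (Nat.succ_ne_zero _)
    refine finH_coef α (ZMod.castHom hd (ZMod 2)).toAddMonoidHom ?_ ?_ ?_ hT ih h
    · rw [injective_iff_map_eq_zero]
      intro x hx
      obtain ⟨n, rfl⟩ := ZMod.intCast_surjective x
      rw [hα, ZMod.intCast_zmod_eq_zero_iff_dvd] at hx
      rw [ZMod.intCast_zmod_eq_zero_iff_dvd]
      push_cast at hx ⊢
      rw [pow_succ, mul_comm] at hx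
      exact (mul_dvd_mul_iff_left (by norm_num : (2 : ℤ) ≠ 0)).1 hx
    · intro x
      obtain ⟨n, rfl⟩ := ZMod.intCast_surjective x
      exact ⟨(n : ZMod (2 ^ (m + 1 + 1))), map_intCast (ZMod.castHom hd (ZMod 2)) n⟩
    · intro v
      obtain ⟨n, rfl⟩ := ZMod.intCast_surjective v
      have e : (ZMod.castHom hd (ZMod 2)).toAddMonoidHom (n : ZMod (2 ^ (m + 1 + 1))) =
          (n : ZMod 2) := map_intCast (ZMod.castHom hd (ZMod 2)) n
      rw [e, ZMod.intCast_zmod_eq_zero_iff_dvd]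
      constructor
      · rintro ⟨k, hk⟩
        refine ⟨(k : ZMod (2 ^ (m + 1))), ?_⟩
        rw [hα, hk]
        rfl
      · rintro ⟨w, hw⟩
        obtain ⟨k, rfl⟩ := ZMod.intCast_surjective w
        rw [hα, ZMod.intCast_eq_intCast_iff] at hw
        have h2 : (2 : ℤ) ∣ ((2 ^ (m + 1 + 1) : ℕ) : ℤ) := by exact_mod_cast hd
        have h3 := (Int.ModEq.dvd hw)
        have h4 : (2 : ℤ) ∣ n - 2 * k := h2.trans h3
        have h5 : (2 : ℤ) ∣ n := by
          have := dvd_add h4 (Dvd.intro k rfl : (2 : ℤ) ∣ 2 * k)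
          simpa using this
        exact_mod_cast h5

end Pool.Agent.AXS
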