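import Pool.Agent.AXS.GenPos49

/-! # General position for invariant maps, the form of the stubs -/

set_option autoImplicit false

open Set Metric MeasureTheory

namespace Pool.Agent.AXS

theorem genpos {X : Type*} [MetricSpace X] [CompactSpace X] [MeasurableSpace X] [BorelSpace X] {n : ℕ}
    (hX : (μH[(n : ℝ) + 1] : Measure X) univ = 0) {B : Type*} [Group B] [Finite B] [MulAction B X]
    [ContinuousConstSMul B X] {N : ℕ} (u : X → Fin N → ℝ) (hu : Continuous u)
    (huB : ∀ (b : B) x, u (b • x) = u x) {h η : ℝ} (hh : 0 < h) (hη : 0 < η) :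
    ∃ v : X → Fin N → ℝ, Continuous v ∧ (∀ (b : B) x, v (b • x) = v x) ∧ (∀ x, dist (u x) (v x) < η) ∧
      ∀ x, ∀ I : Finset (Fin N), (∀ i ∈ I, ∃ m : ℤ, v x i = h * m) → I.card ≤ n := by
  classical
  obtain ⟨v, hv, hvB, hd, hc⟩ :=
    _root_.AXS.genpos49 hX (fun b : B => continuous_const_smul b) u hu huB hh hη
  refine ⟨v, hv, hvB, fun x => ?_, fun x I hI => ?_⟩
  · rw [dist_comm]
    exact hd x
  · refine le_trans (Finset.card_le_card ?_) (hc x)
    intro i hi
    rw [Finset.mem_filter]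
    obtain ⟨m, hm⟩ := hI i hi
    exact ⟨Finset.mem_univ _, m, by rw [hm, mul_comm]⟩

end Pool.Agent.AXS
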