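import Mathlib

/-!
# Row Q: colours and pieces from a map in general position with respect to a grid (helper61)
-/

set_option autoImplicit false

namespace Pool.Agent.AXS

open Filter Topology

/-- distance to the grid `hZ` -/
noncomputable def gd61 (h r : ℝ) : ℝ := |r - h * round (r / h)|

lemma gd61_nonneg (h r : ℝ) : 0 ≤ gd61 h r := abs_nonneg _

lemma gd61_le {h : ℝ} (hh : 0 < h) (r : ℝ) (m : ℤ) : gd61 h r ≤ |r - h * m| := by
  have h1 := round_le (r / h) m
  have e1 : r - h * round (r / h) = h * (r / h - round (r / h)) := by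
    field_simp
  have e2 : r - h * m = h * (r / h - m) := by
    field_simp
  unfold gd61
  rw [e1, e2, abs_mul, abs_mul]
  exact mul_le_mul_of_nonneg_left h1 (abs_nonneg h)

lemma gd61_lip {h : ℝ} (hh : 0 < h) (r s : ℝ) : gd61 h r ≤ gd61 h s + |r - s| := by
  have h1 := gd61_le hh r (round (s / h))
  have h2 : |r - h * round (s / h)| ≤ |r - s| + |s - h * round (s / h)| := by
    have : r - h * round (s / h) = (r - s) + (s - h * round (s / h)) := by ring
    rw [this]; exact abs_add_le _ _
  unfold gd61 at *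
  linarith

lemma gd61_cont {h : ℝ} (hh : 0 < h) : Continuous (gd61 h) := by
  rw [Metric.continuous_iff]
  intro b e he
  refine ⟨e, he, fun a ha => ?_⟩
  rw [Real.dist_eq] at *
  rw [abs_lt]
  have h1 := gd61_lip hh a b
  have h2 := gd61_lip hh b a
  rw [abs_sub_comm b a] at h2
  constructor <;> linarith

lemma gd61_eq_zero {h : ℝ} (r : ℝ) (h0 : gd61 h r = 0) : ∃ m : ℤ, r = h * m := by
  unfold gd61 at h0
  rw [abs_eq_zero] at h0
  exact ⟨round (r / h), by linarith⟩

/-- a positive number below all small distances but `n` -/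
lemma gap61 {X : Type*} [MetricSpace X] [CompactSpace X] {N n : ℕ}
    (v : X → Fin N → ℝ) (hv : Continuous v) {h : ℝ} (hh : 0 < h)
    (hG : ∀ x, ∀ S : Finset (Fin N), (∀ i ∈ S, ∃ m : ℤ, v x i = h * m) → S.card ≤ n) :
    ∃ τ : ℝ, 0 < τ ∧ τ ≤ h / 4 ∧
      ∀ x, (Finset.univ.filter (fun i => gd61 h (v x i) < τ)).card ≤ n := by
  classical
  have key : ∀ S ∈ Finset.powersetCard (n + 1) (Finset.univ : Finset (Fin N)),
      ∀ᶠ c in 𝓝[>] (0 : ℝ), ∀ x, c ≤ ∑ i ∈ S, gd61 h (v x i) := by
    intro S hS
    have hS' := (Finset.mem_powersetCard.1 hS).2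
    have hcont : Continuous (fun x => ∑ i ∈ S, gd61 h (v x i)) :=
      continuous_finsetSum _ (fun i _ => (gd61_cont hh).comp ((continuous_apply i).comp hv))
    have hpos : ∀ x ∈ (Set.univ : Set X), (0 : ℝ) < ∑ i ∈ S, gd61 h (v x i) := by
      intro x _
      by_contra hcon
      have hz : ∑ i ∈ S, gd61 h (v x i) = 0 :=
        le_antisymm (not_lt.1 hcon) (Finset.sum_nonneg (fun i _ => gd61_nonneg _ _))
      rw [Finset.sum_eq_zero_iff_of_nonneg (fun i _ => gd61_nonneg _ _)] at hz
      have := hG x S (fun i hi => gd61_eq_zero _ (hz i hi))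
      omega
    obtain ⟨a, ha, hle⟩ := isCompact_univ.exists_forall_le' hcont.continuousOn hpos
    have : ∀ᶠ c in 𝓝[>] (0 : ℝ), c < a :=
      (eventually_lt_nhds ha).filter_mono nhdsWithin_le_nhds
    filter_upwards [this] with c hc x
    exact hc.le.trans (hle x (Set.mem_univ _))
  have key2 : ∀ᶠ c in 𝓝[>] (0 : ℝ),
      ∀ S ∈ Finset.powersetCard (n + 1) (Finset.univ : Finset (Fin N)),
      ∀ x, c ≤ ∑ i ∈ S, gd61 h (v x i) :=
    (Filter.eventually_all_finset _).2 key
  obtain ⟨c, hc, hc0⟩ := (key2.and self_mem_nhdsWithin).exists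
  have hc0' : (0 : ℝ) < c := hc0
  have hn : (0 : ℝ) < (n : ℝ) + 1 := by positivity
  refine ⟨min (c / (n + 1)) (h / 4), ?_, min_le_right _ _, ?_⟩
  · exact lt_min (div_pos hc0' hn) (by positivity)
  intro x
  by_contra hcon
  rw [not_le] at hcon
  obtain ⟨S, hS, hcard⟩ := Finset.exists_subset_card_eq (Nat.succ_le_of_lt hcon)
  have h1 := hc S (Finset.mem_powersetCard.2 ⟨Finset.subset_univ _, hcard⟩) x
  have h2 : ∑ i ∈ S, gd61 h (v x i) < ∑ i ∈ S, c / (n + 1) := by
    apply Finset.sum_lt_sum_of_nonempty
    · rw [← Finset.card_pos, hcard]; omega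
    · intro i hi
      have := (Finset.mem_filter.1 (hS hi)).2
      exact lt_of_lt_of_le this (min_le_left _ _)
  rw [Finset.sum_const, hcard, nsmul_eq_mul] at h2
  have h3 : ((n + 1 : ℕ) : ℝ) * (c / (n + 1)) = c := by
    push_cast
    field_simp
  rw [h3] at h2
  linarith

/-- COLOURS AND PIECES.  From a map `v` such that at most `n` coordinates of `v x` lie in the
grid `hℤ`: colours `κ (v x) < n + 1` and pieces `P (v x)`; near points of the same
colour are in the same piece, and a piece has diameter at most `2 h` for `v`.  (Cut `[0, τ)` in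
`n + 1` intervals; at most `n` distances lie there, the colour is an empty interval.) -/
theorem pieces {X : Type*} [MetricSpace X] [CompactSpace X] {n N : ℕ} (v : X → Fin N → ℝ)
    (hv : Continuous v) {h : ℝ} (hh : 0 < h)
    (hgen : ∀ x, ∀ I : Finset (Fin N), (∀ i ∈ I, ∃ m : ℤ, v x i = h * m) → I.card ≤ n) :
    ∃ (δ : ℝ) (κ : (Fin N → ℝ) → ℕ) (P : (Fin N → ℝ) → ℕ × Finset (Fin N) × (Fin N → ℤ)), 0 < δ ∧
      (∀ x, κ (v x) < n + 1) ∧
      (∀ x y, κ (v x) = κ (v y) → dist (v x) (v y) < δ → P (v x) = P (v y)) ∧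
      (∀ x y, P (v x) = P (v y) → dist (v x) (v y) ≤ 2 * h) := by
  classical
  obtain ⟨τ, hτ, hτh, hcard⟩ := gap61 v hv hh hgen
  have hn : (0 : ℝ) < (n : ℝ) + 1 := by positivity
  set η : ℝ := τ / (n + 1) with hη
  have hη0 : 0 < η := div_pos hτ hn
  have hητ : η * (n + 1) = τ := by rw [hη]; field_simp
  have hηle : η ≤ τ := by
    have : η * 1 ≤ η * (n + 1) := mul_le_mul_of_nonneg_left (by
      have : (0 : ℝ) ≤ (n : ℝ) := Nat.cast_nonneg n
      linarith) hη0.le
    linarith
  -- good colours
  let Good : (Fin N → ℝ) → Fin (n + 1) → Prop := fun u k =>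
    ∀ i, ¬ (η * (k : ℕ) ≤ gd61 h (u i) ∧ gd61 h (u i) < η * ((k : ℕ) + 1))
  let kap : (Fin N → ℝ) → Fin (n + 1) := fun u =>
    if hk : ∃ k, Good u k then Classical.choose hk else 0
  have hex : ∀ x, ∃ k, Good (v x) k := by
    intro x
    by_contra hcon
    push Not at hcon
    have hc2 : ∀ k : Fin (n + 1), ∃ i, η * (k : ℕ) ≤ gd61 h (v x i) ∧
        gd61 h (v x i) < η * ((k : ℕ) + 1) := by
      intro k
      have := hcon k
      simp only [Good] at this
      push Not at this
      exact this
    choose f hf using hc2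
    have hinj : Function.Injective f := by
      intro a b hab
      by_contra hne
      rcases lt_or_gt_of_ne (fun hh : (a : ℕ) = b => hne (Fin.ext hh)) with hlt | hlt
      · have h1 := (hf a).2
        have h2 := (hf b).1
        rw [hab] at h1
        have : ((a : ℕ) : ℝ) + 1 ≤ (b : ℕ) := by exact_mod_cast hlt
        have := mul_le_mul_of_nonneg_left this hη0.le
        linarith
      · have h1 := (hf b).2
        have h2 := (hf a).1
        rw [hab] at h2
        have : ((b : ℕ) : ℝ) + 1 ≤ (a : ℕ) := by exact_mod_cast hlt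
        have := mul_le_mul_of_nonneg_left this hη0.le
        linarith
    have hsub : Finset.univ.image f ⊆
        Finset.univ.filter (fun i => gd61 h (v x i) < τ) := by
      intro i hi
      rw [Finset.mem_image] at hi
      obtain ⟨k, _, rfl⟩ := hi
      rw [Finset.mem_filter]
      refine ⟨Finset.mem_univ _, lt_of_lt_of_le (hf k).2 ?_⟩
      have : ((k : ℕ) : ℝ) + 1 ≤ (n : ℝ) + 1 := by
        have := k.2
        have : (k : ℕ) ≤ n := by omega
        have : ((k : ℕ) : ℝ) ≤ n := by exact_mod_cast this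
        linarith
      have := mul_le_mul_of_nonneg_left this hη0.le
      linarith
    have h1 := Finset.card_le_card hsub
    rw [Finset.card_image_of_injective _ hinj, Finset.card_univ, Fintype.card_fin] at h1
    have := hcard x
    omega
  have hkap : ∀ x, Good (v x) (kap (v x)) := by
    intro x
    have : kap (v x) = Classical.choose (hex x) := by
      simp only [kap]
      rw [dif_pos (hex x)]
    rw [this]
    exact Classical.choose_spec (hex x)
  let tst : (Fin N → ℝ) → Fin N → Prop := fun u i => gd61 h (u i) < η * ((kap u : Fin (n + 1)) : ℕ)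
  let P : (Fin N → ℝ) → ℕ × Finset (Fin N) × (Fin N → ℤ) := fun u =>
    ((kap u : ℕ), Finset.univ.filter (fun i => tst u i),
      fun i => if tst u i then round (u i / h) else ⌊u i / h⌋)
  have hcl : ∀ x y, dist (v x) (v y) < η → ∀ i, |v x i - v y i| < η := by
    intro x y hxy i
    have h2 := dist_le_pi_dist (v x) (v y) i
    rw [Real.dist_eq] at h2
    exact lt_of_le_of_lt h2 hxy
  have hkn : ∀ k : Fin (n + 1), η * ((k : ℕ) : ℝ) ≤ τ := by
    intro k
    have : ((k : ℕ) : ℝ) ≤ (n : ℝ) + 1 := by
      have := k.2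
      have : (k : ℕ) ≤ n + 1 := by omega
      exact_mod_cast this
    have := mul_le_mul_of_nonneg_left this hη0.le
    linarith
  -- one-sided transfer of the two cases
  have htr : ∀ x y, kap (v x) = kap (v y) → dist (v x) (v y) < η → ∀ i,
      gd61 h (v x i) < η * ((kap (v x) : Fin (n + 1)) : ℕ) →
      gd61 h (v y i) < η * ((kap (v y) : Fin (n + 1)) : ℕ) := by
    intro x y hk hxy i hlt
    have h1 := gd61_lip hh (v y i) (v x i)
    rw [abs_sub_comm] at h1
    have h2 := hcl x y hxy i
    have h3 := hkap y i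
    by_contra hcon
    rw [not_lt] at hcon
    apply h3
    refine ⟨hcon, ?_⟩
    rw [← hk]
    rw [mul_add, mul_one]
    linarith
  have hfl : ∀ r s : ℝ, |r - s| < η → η ≤ gd61 h r → ⌊r / h⌋ ≤ ⌊s / h⌋ := by
    intro r s hrs hr
    by_contra hcon
    rw [not_le] at hcon
    -- floor s < m := floor r, so s < m h <= r
    have h1 : ((⌊r / h⌋ : ℤ) : ℝ) ≤ r / h := Int.floor_le _
    have h2 : s / h < ((⌊r / h⌋ : ℤ) : ℝ) := Int.floor_lt.1 hcon
    rw [le_div_iff₀ hh] at h1
    rw [div_lt_iff₀ hh] at h2
    have h3 := gd61_le hh r ⌊r / h⌋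
    rw [abs_of_nonneg (by linarith [mul_comm h ((⌊r / h⌋ : ℤ) : ℝ)])] at h3
    have h4 := le_abs_self (r - s)
    linarith [mul_comm h ((⌊r / h⌋ : ℤ) : ℝ)]
  refine ⟨η, fun u => (kap u : ℕ), P, hη0, fun x => (kap (v x)).2, ?_, ?_⟩
  · intro x y hk0 hxy
    have hk : kap (v x) = kap (v y) := Fin.ext hk0
    have hyx : dist (v y) (v x) < η := by rwa [dist_comm]
    have htt : ∀ i, tst (v x) i ↔ tst (v y) i := fun i =>
      ⟨htr x y hk hxy i, htr y x hk.symm hyx i⟩
    have hmm : ∀ i, (if tst (v x) i then round (v x i / h) else ⌊v x i / h⌋) =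
        (if tst (v y) i then round (v y i / h) else ⌊v y i / h⌋) := by
      intro i
      by_cases hc : tst (v x) i
      · have hc' := (htt i).1 hc
        rw [if_pos hc, if_pos hc']
        have h1 : |v x i - h * round (v x i / h)| < τ := lt_of_lt_of_le hc (hkn _)
        have h2 : |v y i - h * round (v y i / h)| < τ := lt_of_lt_of_le hc' (hkn _)
        have h3 := hcl x y hxy i
        have h4 : |h * ((round (v x i / h) : ℤ) - (round (v y i / h) : ℤ) : ℝ)| < h := by
          rw [abs_lt] at h1 h2 h3
          rw [abs_lt]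
          constructor <;> nlinarith [h1.1, h1.2, h2.1, h2.2, h3.1, h3.2]
        rw [abs_mul, abs_of_pos hh] at h4
        have h5 : |((round (v x i / h) : ℤ) - (round (v y i / h) : ℤ) : ℝ)| < 1 := by
          by_contra hcon
          rw [not_lt] at hcon
          have := mul_le_mul_of_nonneg_left hcon hh.le
          linarith
        have h6 : |(round (v x i / h) : ℤ) - (round (v y i / h) : ℤ)| < 1 := by
          exact_mod_cast h5
        rw [Int.abs_lt_one_iff] at h6
        omega
      · have hc' : ¬ tst (v y) i := fun hcon => hc ((htt i).2 hcon)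
        rw [if_neg hc, if_neg hc']
        have big : ∀ z, ¬ tst (v z) i → η ≤ gd61 h (v z i) := by
          intro z hz
          have hz' : ¬ gd61 h (v z i) < η * ((kap (v z) : Fin (n + 1)) : ℕ) := hz
          rw [not_lt] at hz'
          have h3 := hkap z i
          have h4 : ¬ gd61 h (v z i) < η * (((kap (v z) : Fin (n + 1)) : ℕ) + 1) :=
            fun hh => h3 ⟨hz', hh⟩
          rw [not_lt] at h4
          have h5 : (0 : ℝ) ≤ (((kap (v z) : Fin (n + 1)) : ℕ) : ℝ) := Nat.cast_nonneg _
          have h6 := mul_nonneg hη0.le h5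
          rw [mul_add, mul_one] at h4
          linarith
        exact le_antisymm (hfl (v x i) (v y i) (hcl x y hxy i) (big x hc))
          (hfl (v y i) (v x i) (hcl y x hyx i) (big y hc'))
    show ((kap (v x) : ℕ), Finset.univ.filter (fun i => tst (v x) i),
      fun i => if tst (v x) i then round (v x i / h) else ⌊v x i / h⌋) =
      ((kap (v y) : ℕ), Finset.univ.filter (fun i => tst (v y) i),
      fun i => if tst (v y) i then round (v y i / h) else ⌊v y i / h⌋)
    refine Prod.ext hk0 (Prod.ext ?_ (funext hmm))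
    ext i
    simp only [Finset.mem_filter, Finset.mem_univ, true_and]
    exact htt i
  · intro x y hP
    have hP' : ((kap (v x) : ℕ), Finset.univ.filter (fun i => tst (v x) i),
      fun i => if tst (v x) i then round (v x i / h) else ⌊v x i / h⌋) =
      ((kap (v y) : ℕ), Finset.univ.filter (fun i => tst (v y) i),
      fun i => if tst (v y) i then round (v y i / h) else ⌊v y i / h⌋) := hP
    have hP2 := Prod.mk.inj (Prod.mk.inj hP').2
    have hI : ∀ i, tst (v x) i ↔ tst (v y) i := by
      intro i
      have := congrArg (fun S : Finset (Fin N) => i ∈ S) hP2.1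
      simp only [Finset.mem_filter, Finset.mem_univ, true_and] at this
      exact Iff.of_eq this
    rw [dist_pi_le_iff (by positivity)]
    intro i
    rw [Real.dist_eq]
    have hli := congrFun hP2.2 i
    by_cases hc : tst (v x) i
    · have hc' := (hI i).1 hc
      simp only [if_pos hc, if_pos hc'] at hli
      have h1 : |v x i - h * round (v x i / h)| < τ := lt_of_lt_of_le hc (hkn _)
      have h2 : |v y i - h * round (v y i / h)| < τ := lt_of_lt_of_le hc' (hkn _)
      rw [hli] at h1
      rw [abs_lt] at h1 h2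
      rw [abs_le]
      constructor <;> linarith [h1.1, h1.2, h2.1, h2.2]
    · have hc' : ¬ tst (v y) i := fun hcon => hc ((hI i).2 hcon)
      simp only [if_neg hc, if_neg hc'] at hli
      have a1 := Int.floor_le (v x i / h)
      have a2 := Int.lt_floor_add_one (v x i / h)
      have b1 := Int.floor_le (v y i / h)
      have b2 := Int.lt_floor_add_one (v y i / h)
      rw [hli] at a1 a2
      rw [le_div_iff₀ hh] at a1 b1
      rw [div_lt_iff₀ hh] at a2 b2
      rw [abs_le]
      constructor <;> nlinarith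

end Pool.Agent.AXS
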