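import Pool.Agent.AXS.Defs
import Pool.Agent.AXS.GenPos
import Pool.Agent.AXS.Pieces

/-!
# Row R: centres and the equivariant colouring (MP_afaf30)
-/

set_option autoImplicit false

open Set Metric MeasureTheory Filter Topology

namespace Pool.Agent.AXS

section Col

variable {X : Type*} [MetricSpace X] (B : Type*) [Group B] [Fintype B] [MulAction B X]

/-- The invariant metric. -/
noncomputable def cdB (x y : X) : ℝ := ∑ b : B, dist (b • x) (b • y)

theorem cdB_smul (c : B) (x y : X) : cdB B (c • x) (c • y) = cdB B x y := by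
  unfold cdB
  rw [← Equiv.sum_comp (Equiv.mulRight c) (fun b : B => dist (b • x) (b • y))]
  refine Finset.sum_congr rfl fun b _ => ?_
  simp [mul_smul]

theorem cdB_comm (x y : X) : cdB B x y = cdB B y x :=
  Finset.sum_congr rfl fun _ _ => dist_comm _ _

theorem cdB_tri (x y z : X) : cdB B x z ≤ cdB B x y + cdB B y z := by
  unfold cdB
  rw [← Finset.sum_add_distrib]
  exact Finset.sum_le_sum fun _ _ => dist_triangle _ _ _

theorem dist_le_cdB (x y : X) : dist x y ≤ cdB B x y := by
  have h := Finset.single_le_sum (f := fun b : B => dist (b • x) (b • y))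
    (fun _ _ => dist_nonneg) (Finset.mem_univ (1 : B))
  simpa [cdB] using h

theorem cdB_self (x : X) : cdB B x x = 0 := by simp [cdB]

theorem cdB_pos {x y : X} (h : x ≠ y) : 0 < cdB B x y :=
  (dist_pos.2 h).trans_le (dist_le_cdB B x y)

theorem cdB_cont [ContinuousConstSMul B X] (y : X) : Continuous fun x : X => cdB B x y := by
  unfold cdB
  exact continuous_finsetSum _ fun b _ =>
    (continuous_const_smul b).dist continuous_const

/-- `cdB` is uniformly small for close points. -/
theorem cdB_small [CompactSpace X] [ContinuousConstSMul B X] {t : ℝ} (ht : 0 < t) :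
    ∃ δ > 0, ∀ x y : X, dist x y < δ → cdB B x y < t := by
  have hc : Continuous fun p : X × X => cdB B p.1 p.2 := by
    unfold cdB
    exact continuous_finsetSum _ fun b _ =>
      ((continuous_const_smul b).comp continuous_fst).dist
        ((continuous_const_smul b).comp continuous_snd)
  have huc := CompactSpace.uniformContinuous_of_continuous hc
  obtain ⟨δ, hδ, h⟩ := Metric.uniformContinuous_iff.1 huc t ht
  refine ⟨δ, hδ, fun x y hxy => ?_⟩
  have h1 := h (a := (x, y)) (b := (y, y)) (by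
    rw [Prod.dist_eq]; simp [hxy])
  simp only [cdB_self] at h1
  rw [Real.dist_eq, sub_zero] at h1
  exact (le_abs_self _).trans_lt h1

/-- Two points of an orbit. -/
theorem cdB_unique {z : X} {r : ℝ} (hz : ∀ b : B, b • z = z ∨ 3 * r ≤ cdB B (b • z) z) {b b' : B}
    (h : cdB B (b • z) (b' • z) < 3 * r) : b • z = b' • z := by
  have h1 : cdB B ((b'⁻¹ * b) • z) z < 3 * r := by
    rw [← cdB_smul B b' ((b'⁻¹ * b) • z) z, ← mul_smul, mul_inv_cancel_left]
    exact h
  rcases hz (b'⁻¹ * b) with h2 | h2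
  · have := congrArg (fun x => b' • x) h2
    simpa [← mul_smul] using this
  · exact absurd h1 (not_lt.2 h2)

theorem exists_radius {ε : ℝ} (hε : 0 < ε) (z : X) :
    ∃ r : ℝ, 0 < r ∧ r ≤ ε ∧ ∀ b : B, b • z = z ∨ 3 * r ≤ cdB B (b • z) z := by
  have h : ∀ᶠ r : ℝ in 𝓝[>] 0, r ≤ ε ∧ ∀ b : B, b • z = z ∨ 3 * r ≤ cdB B (b • z) z := by
    refine Filter.Eventually.and ?_ (Filter.eventually_all.2 fun b => ?_)
    · filter_upwards [Ioo_mem_nhdsGT hε] with r hr using hr.2.le
    · by_cases hb : b • z = z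
      · exact Filter.Eventually.of_forall fun r => Or.inl hb
      · have hp := cdB_pos B hb
        filter_upwards [Ioo_mem_nhdsGT (show (0 : ℝ) < cdB B (b • z) z / 3 by positivity)] with r hr
        right
        linarith [hr.2]
  obtain ⟨r, hr, h0⟩ := (h.and self_mem_nhdsWithin).exists
  exact ⟨r, h0, hr.1, hr.2⟩

theorem exists_centres [CompactSpace X] [ContinuousConstSMul B X] {ε : ℝ} (hε : 0 < ε) :
    ∃ l : ℝ, 0 < l ∧ ∀ x : X, ∃ (z : X) (r : ℝ), 2 * l ≤ r ∧ r ≤ ε ∧
      (∀ b : B, b • z = z ∨ 3 * r ≤ cdB B (b • z) z) ∧ cdB B x z < r / 2 := by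
  choose r hr0 hrε hr using fun z : X => exists_radius B hε z
  obtain ⟨t, ht⟩ := CompactSpace.elim_nhds_subcover (fun z : X => {x : X | cdB B x z < r z / 2})
    (fun z => (isOpen_lt (cdB_cont B z) continuous_const).mem_nhds (by
      change cdB B z z < r z / 2
      rw [cdB_self]; have := hr0 z; positivity))
  have h : ∀ᶠ l : ℝ in 𝓝[>] 0, ∀ z ∈ t, 2 * l ≤ r z := by
    rw [Filter.eventually_all_finset]
    intro z _
    have := hr0 z
    filter_upwards [Ioo_mem_nhdsGT (show (0 : ℝ) < r z / 2 by positivity)] with l hl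
    linarith [hl.2]
  obtain ⟨l, hl, h0⟩ := (h.and self_mem_nhdsWithin).exists
  refine ⟨l, h0, fun x => ?_⟩
  have hx : x ∈ ⋃ z ∈ t, {x : X | cdB B x z < r z / 2} := by rw [ht]; trivial
  simp only [mem_iUnion, mem_ofPred_eq] at hx
  obtain ⟨z, hz, hxz⟩ := hx
  exact ⟨z, r z, hl z hz, hrε z, hr z, hxz⟩

theorem exists_net [CompactSpace X] [ContinuousConstSMul B X] {t : ℝ} (ht : 0 < t) :
    ∃ (N : ℕ) (a : Fin N → X), ∀ x : X, ∃ i, cdB B x (a i) < t := by
  obtain ⟨s, hs⟩ := CompactSpace.elim_nhds_subcover (fun z : X => {x : X | cdB B x z < t})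
    (fun z => (isOpen_lt (cdB_cont B z) continuous_const).mem_nhds (by
      change cdB B z z < t
      rw [cdB_self]; exact ht))
  refine ⟨s.card, fun i => (s.equivFin.symm i : X), fun x => ?_⟩
  have hx : x ∈ ⋃ z ∈ s, {x : X | cdB B x z < t} := by rw [hs]; trivial
  simp only [mem_iUnion, mem_ofPred_eq] at hx
  obtain ⟨z, hz, hxz⟩ := hx
  refine ⟨s.equivFin ⟨z, hz⟩, ?_⟩
  simpa using hxz

/-- The distance to the orbit of `a`. -/
noncomputable def crho (x a : X) : ℝ :=
  Finset.univ.inf' ⟨(1 : B), Finset.mem_univ _⟩ fun b : B => cdB B x (b • a)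

theorem crho_le (x a : X) (b : B) : crho B x a ≤ cdB B x (b • a) :=
  Finset.inf'_le _ (Finset.mem_univ b)

theorem crho_eq (x a : X) : ∃ b : B, crho B x a = cdB B x (b • a) := by
  obtain ⟨b, _, h⟩ := Finset.exists_mem_eq_inf' (s := (Finset.univ : Finset B))
    ⟨(1 : B), Finset.mem_univ _⟩ fun b : B => cdB B x (b • a)
  exact ⟨b, h⟩

theorem crho_smul_le (c : B) (x a : X) : crho B (c • x) a ≤ crho B x a := by
  obtain ⟨b, hb⟩ := crho_eq B x a
  rw [hb, ← cdB_smul B c x (b • a), ← mul_smul]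
  exact crho_le B _ _ _

theorem crho_smul (c : B) (x a : X) : crho B (c • x) a = crho B x a := by
  refine le_antisymm (crho_smul_le B c x a) ?_
  have := crho_smul_le B c⁻¹ (c • x) a
  rwa [inv_smul_smul] at this

theorem crho_cont [ContinuousConstSMul B X] (a : X) : Continuous fun x : X => crho B x a := by
  unfold crho
  exact Continuous.finset_inf'_apply _ fun b _ => cdB_cont B _

end Col

/-- Row R. -/
theorem coloring {X : Type*} [MetricSpace X] [CompactSpace X] [MeasurableSpace X] [BorelSpace X] {n : ℕ}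
    (hX : (μH[(n : ℝ) + 1] : Measure X) univ = 0) {B : Type*} [Group B] [Finite B] [MulAction B X]
    [ContinuousConstSMul B X] [Nonempty X] {ε : ℝ} (hε : 0 < ε) :
    ∃ δ > 0, ∃ (κ : X → ℕ) (φ : X → X), Colg B n ε δ κ φ := by
  classical
  cases nonempty_fintype B
  obtain ⟨l, hl, hcen⟩ := exists_centres (X := X) B hε
  obtain ⟨N, a, ha⟩ := exists_net (X := X) B (show (0 : ℝ) < l / 3 by positivity)
  -- the invariant map to the cube
  obtain ⟨v, hv, hvB, hvu, hgen⟩ := genpos (B := B) hX (fun x i => crho B x (a i))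
    (continuous_pi fun i => crho_cont B (a i))
    (fun b x => funext fun i => crho_smul B b x (a i))
    (show (0 : ℝ) < l / 24 by positivity) (show (0 : ℝ) < l / 24 by positivity)
  obtain ⟨δ₁, κ, P, hδ₁, hκ, hP, hPd⟩ := pieces v hv (show (0 : ℝ) < l / 24 by positivity) hgen
  -- the points of a piece are close to each other up to `B`
  have hclose : ∀ x y, P (v x) = P (v y) → ∃ c : B, cdB B x (c • y) < l := by
    intro x y hxy
    obtain ⟨i, hi⟩ := ha x
    have h1 : crho B x (a i) < l / 3 := by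
      refine lt_of_le_of_lt (crho_le B x (a i) 1) ?_
      rwa [one_smul]
    have h2 : dist (crho B x (a i)) (crho B y (a i)) ≤ l / 24 + 2 * (l / 24) + l / 24 := by
      have e1 : dist (crho B x (a i)) (v x i) ≤ l / 24 :=
        (dist_le_pi_dist (fun j => crho B x (a j)) (v x) i).trans (hvu x).le
      have e2 : dist (v x i) (v y i) ≤ 2 * (l / 24) :=
        (dist_le_pi_dist (v x) (v y) i).trans (hPd x y hxy)
      have e3 : dist (v y i) (crho B y (a i)) ≤ l / 24 := by
        rw [dist_comm]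
        exact (dist_le_pi_dist (fun j => crho B y (a j)) (v y) i).trans (hvu y).le
      exact (dist_triangle4 _ _ _ _).trans (add_le_add (add_le_add e1 e2) e3)
    have h3 : crho B y (a i) < 2 * l / 3 := by
      rw [Real.dist_eq] at h2
      have := neg_abs_le (crho B x (a i) - crho B y (a i))
      linarith
    obtain ⟨b₁, hb₁⟩ := crho_eq B x (a i)
    obtain ⟨b₂, hb₂⟩ := crho_eq B y (a i)
    refine ⟨b₁ * b₂⁻¹, ?_⟩
    have e4 : cdB B (b₁ • a i) ((b₁ * b₂⁻¹) • y) = cdB B y (b₂ • a i) := by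
      rw [cdB_comm, ← cdB_smul B (b₁ * b₂⁻¹) y (b₂ • a i), ← mul_smul, inv_mul_cancel_right]
    have := cdB_tri B x (b₁ • a i) ((b₁ * b₂⁻¹) • y)
    rw [e4] at this
    linarith
  -- a centre for every piece
  have hcen' : ∀ p, ∃ (z : X) (r : ℝ), 2 * l ≤ r ∧ r ≤ ε ∧
      (∀ b : B, b • z = z ∨ 3 * r ≤ cdB B (b • z) z) ∧
      ∀ y, P (v y) = p → ∃ c : B, cdB B y (c • z) < r := by
    intro p
    by_cases hp : ∃ x, P (v x) = p
    · obtain ⟨x, hx⟩ := hp
      obtain ⟨z, r, h1, h2, h3, h4⟩ := hcen x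
      refine ⟨z, r, h1, h2, h3, fun y hy => ?_⟩
      obtain ⟨c, hc⟩ := hclose x y (hx.trans hy.symm)
      refine ⟨c⁻¹, ?_⟩
      rw [← cdB_smul B c y (c⁻¹ • z), smul_inv_smul]
      have := cdB_tri B (c • y) x z
      rw [cdB_comm B (c • y) x] at this
      linarith
    · obtain ⟨z, r, h1, h2, h3, h4⟩ := hcen (Classical.arbitrary X)
      exact ⟨z, r, h1, h2, h3, fun y hy => absurd ⟨y, hy⟩ hp⟩
  choose z r hr1 hr2 hr3 hr4 using hcen'
  choose c hc using fun y => hr4 (P (v y)) y rfl
  obtain ⟨δ₂, hδ₂, hs⟩ := cdB_small (X := X) B (show (0 : ℝ) < 2 * l by positivity)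
  have huc := Metric.uniformContinuous_iff.1 (CompactSpace.uniformContinuous_of_continuous hv) δ₁ hδ₁
  obtain ⟨δ₃, hδ₃, hs'⟩ := huc
  -- characterisation of the value
  have hchar : ∀ x y (b : B), P (v x) = P (v y) → cdB B x y < 2 * l →
      cdB B y (b • z (P (v y))) < r (P (v y)) → c x • z (P (v x)) = b • z (P (v y)) := by
    intro x y b hxy hd hb
    have h1 := hc x
    rw [hxy] at h1 ⊢
    apply cdB_unique B (hr3 _)
    have t1 := cdB_tri B (c x • z (P (v y))) x (b • z (P (v y)))
    have t2 := cdB_tri B x y (b • z (P (v y)))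
    rw [cdB_comm B (c x • z (P (v y))) x] at t1
    have := hr1 (P (v y))
    linarith
  refine ⟨min δ₂ δ₃, lt_min hδ₂ hδ₃, fun x => κ (v x), fun x => c x • z (P (v x)), ?_, ?_, ?_, ?_, ?_⟩
  · exact fun x => hκ x
  · intro b x
    show κ (v (b • x)) = κ (v x)
    rw [hvB]
  · intro b x
    show c (b • x) • z (P (v (b • x))) = b • c x • z (P (v x))
    have h1 : cdB B (b • x) ((b * c x) • z (P (v (b • x)))) < r (P (v (b • x))) := by
      rw [mul_smul, cdB_smul, hvB]
      exact hc x
    have h2 := hchar (b • x) (b • x) (b * c x) rfl (by rw [cdB_self]; positivity) h1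
    rw [h2, hvB, mul_smul]
  · intro x
    show dist x (c x • z (P (v x))) < ε
    exact ((dist_le_cdB B _ _).trans_lt (hc x)).trans_le (hr2 _)
  · intro x y hxy hd
    show c x • z (P (v x)) = c y • z (P (v y))
    exact hchar x y (c y) (hP x y hxy (hs' (hd.trans_le (min_le_right _ _))))
      (hs x y (hd.trans_le (min_le_left _ _))) (hc y)

end Pool.Agent.AXS
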