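import Pool.Agent.AXS.ChainDefs

/-!
# Discretised contractions, uniform in the centre
-/

set_option autoImplicit false

open Set Metric MeasureTheory Topology

namespace Pool.Agent.AXS

theorem exists_pos_le {ι : Type*} (t : Finset ι) (r : ι → ℝ) (hr : ∀ i, 0 < r i) :
    ∃ δ > 0, ∀ i ∈ t, δ ≤ r i := by
  classical
  induction t using Finset.induction with
  | empty => exact ⟨1, one_pos, by simp⟩
  | insert a s _ ih =>
    obtain ⟨δ, h, h'⟩ := ih
    refine ⟨min δ (r a), lt_min h (hr a), ?_⟩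
    intro i hi
    rcases Finset.mem_insert.1 hi with rfl | hi
    · exact min_le_right _ _
    · exact (min_le_left _ _).trans (h' i hi)

theorem unif_contr {X : Type*} [MetricSpace X] [CompactSpace X] (h : LocContr X) {ε : ℝ} (hε : 0 < ε) :
    ∃ δ > 0, ∀ η > 0, ∃ η' > 0, ∃ N : ℕ, ∀ x : X, ∃ g : ℕ → X → X,
      (∀ y ∈ ball x δ, g 0 y = y) ∧ (∀ y ∈ ball x δ, ∀ y' ∈ ball x δ, g N y = g N y') ∧
      (∀ i ≤ N, ∀ y ∈ ball x δ, dist (g i y) x < ε) ∧
      ∀ i ≤ N, ∀ y ∈ ball x δ, ∀ y' ∈ ball x δ, dist y y' < η' →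
        dist (g i y) (g i y') < η ∧ dist (g i y) (g (i + 1) y') < η := by
  choose V hV H hHc hH0 hH1 hHU using fun z => h z (ball z (ε / 2)) (ball_mem_nhds z (half_pos hε))
  have hr : ∀ z, ∃ r > 0, r ≤ ε / 2 ∧ closedBall z (2 * r) ⊆ V z := by
    intro z
    obtain ⟨s, hs, hsV⟩ := Metric.nhds_basis_closedBall.mem_iff.1 (hV z)
    refine ⟨min (s / 2) (ε / 2), lt_min (half_pos hs) (half_pos hε), min_le_right _ _, ?_⟩
    refine (closedBall_subset_closedBall ?_).trans hsV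
    have := min_le_left (s / 2) (ε / 2)
    linarith
  choose r hr0 hrε hrV using hr
  obtain ⟨t, ht⟩ := CompactSpace.elim_nhds_subcover (fun z => ball z (r z))
    (fun z => ball_mem_nhds z (hr0 z))
  obtain ⟨δ, hδ, hδr⟩ := exists_pos_le t r hr0
  refine ⟨δ, hδ, fun η hη => ?_⟩
  have huc : ∀ z, ∃ d > 0, ∀ p ∈ Icc (0 : ℝ) 1 ×ˢ closedBall z (2 * r z),
      ∀ q ∈ Icc (0 : ℝ) 1 ×ˢ closedBall z (2 * r z), dist p q < d → dist (H z p) (H z q) < η := by
    intro z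
    have hc : ContinuousOn (H z) (Icc (0 : ℝ) 1 ×ˢ closedBall z (2 * r z)) :=
      (hHc z).mono (prod_mono_right (hrV z))
    have := (isCompact_Icc.prod (isCompact_closedBall z (2 * r z))).uniformContinuousOn_of_continuous hc
    exact Metric.uniformContinuousOn_iff.1 this η hη
  choose d hd0 hd using huc
  obtain ⟨η', hη', hη'd⟩ := exists_pos_le t d hd0
  obtain ⟨N, hN⟩ := exists_nat_one_div_lt hη'
  have hN0 : (0 : ℝ) < (N : ℝ) + 1 := by positivity
  refine ⟨η', hη', N + 1, fun x => ?_⟩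
  obtain ⟨z, hz, hxz⟩ : ∃ z ∈ t, x ∈ ball z (r z) := by
    have : x ∈ ⋃ z ∈ t, ball z (r z) := by rw [ht]; trivial
    simpa using this
  have hsub : ∀ y ∈ ball x δ, y ∈ closedBall z (2 * r z) := by
    intro y hy
    rw [mem_closedBall]
    have e1 := dist_triangle y x z
    have e2 := mem_ball.1 hy
    have e3 := mem_ball.1 hxz
    have e4 := hδr z hz
    linarith
  set T : ℕ → ℝ := fun i => min ((i : ℝ) / ((N : ℝ) + 1)) 1 with hT
  have hTm : ∀ i, T i ∈ Icc (0 : ℝ) 1 := fun i => ⟨le_min (by positivity) zero_le_one, min_le_right _ _⟩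
  have hTN : T (N + 1) = 1 := by
    show min (((N + 1 : ℕ) : ℝ) / ((N : ℝ) + 1)) 1 = 1
    push_cast
    rw [div_self hN0.ne', min_self]
  have hT0 : T 0 = 0 := by
    show min (((0 : ℕ) : ℝ) / ((N : ℝ) + 1)) 1 = 0
    rw [Nat.cast_zero, zero_div]
    exact min_eq_left zero_le_one
  have hTd : ∀ i, dist (T i) (T (i + 1)) < η' := by
    intro i
    have e1 : |T i - T (i + 1)| ≤ |(i : ℝ) / ((N : ℝ) + 1) - ((i + 1 : ℕ) : ℝ) / ((N : ℝ) + 1)| := by
      show |min ((i : ℝ) / ((N : ℝ) + 1)) 1 - min (((i + 1 : ℕ) : ℝ) / ((N : ℝ) + 1)) 1| ≤ _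
      have := abs_min_sub_min_le_max ((i : ℝ) / ((N : ℝ) + 1)) 1 (((i + 1 : ℕ) : ℝ) / ((N : ℝ) + 1)) 1
      simpa using this
    have e2 : (i : ℝ) / ((N : ℝ) + 1) - ((i + 1 : ℕ) : ℝ) / ((N : ℝ) + 1) = -(1 / ((N : ℝ) + 1)) := by
      push_cast
      ring
    rw [Real.dist_eq]
    refine e1.trans_lt ?_
    rw [e2, abs_neg, abs_of_pos (by positivity)]
    exact hN
  refine ⟨fun i y => H z (T i, y), ?_, ?_, ?_, ?_⟩
  · intro y hy
    show H z (T 0, y) = y
    rw [hT0]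
    exact hH0 z y (hrV z (hsub y hy))
  · intro y hy y' hy'
    show H z (T (N + 1), y) = H z (T (N + 1), y')
    rw [hTN]
    obtain ⟨c, hc⟩ := hH1 z
    rw [hc y (hrV z (hsub y hy)), hc y' (hrV z (hsub y' hy'))]
  · intro i _ y hy
    show dist (H z (T i, y)) x < ε
    have e1 := mem_ball.1 (hHU z (T i) (hTm i) y (hrV z (hsub y hy)))
    have e2 := dist_triangle (H z (T i, y)) z x
    have e3 := mem_ball'.1 hxz
    have e4 := hrε z
    linarith
  · intro i _ y hy y' hy' hyy'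
    have hlt : dist y y' < d z := hyy'.trans_le (hη'd z hz)
    refine ⟨?_, ?_⟩
    · apply hd z (T i, y) ⟨hTm i, hsub y hy⟩ (T i, y') ⟨hTm i, hsub y' hy'⟩
      rw [Prod.dist_eq, max_lt_iff]
      exact ⟨by show dist (T i) (T i) < _; rw [dist_self]; exact hd0 z, hlt⟩
    · apply hd z (T i, y) ⟨hTm i, hsub y hy⟩ (T (i + 1), y') ⟨hTm (i + 1), hsub y' hy'⟩
      rw [Prod.dist_eq, max_lt_iff]
      exact ⟨(hTd i).trans_le (hη'd z hz), hlt⟩

end Pool.Agent.AXS
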