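import Pool.Agent.AXS.Defs

/-!
# Lists outside an open set, pull back of cochains
-/

set_option autoImplicit false

open Set Metric

namespace Pool.Agent.AXS

/-- The lists outside `U`. -/
def Out {X : Type*} (U : Set X) (l : List X) : Prop := ∀ x ∈ l, x ∉ U

theorem her_Out {X : Type*} (U : Set X) : Her (Out U) := fun _ _ hw h x hx => h x (hw hx)

theorem Out_mono {X : Type*} {U W : Set X} (h : U ⊆ W) (l : List X) (hl : Out W l) : Out U l :=
  fun x hx hxU => hl x hx (h hxU)

/-- Pull back by a map. -/
def cm {X V : Type*} (g : X → X) (f : Co X V) : Co X V := fun l => f (l.map g)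

theorem cm_apply {X V : Type*} (g : X → X) (f : Co X V) (l : List X) : cm g f l = f (l.map g) := rfl

theorem dH_cm {X V : Type*} [AddCommGroup V] (g : X → X) (f : Co X V) :
    dH (cm g f) = cm g (dH f) := funext fun u => dd_map g u f

theorem Sm_mono {X : Type*} [MetricSpace X] {ε ε' : ℝ} (h : ε ≤ ε') {l : List X} (hl : Sm ε l) :
    Sm ε' l := fun x hx y hy => (hl x hx y hy).trans_le h

end Pool.Agent.AXS
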