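import Pool.Agent.AXS.Theta
import Pool.Agent.AXS.Out

/-!
# Decomposition of a top cocycle along a cover

With `n + 1` colours every cocycle of degree `n` is cohomologous to its full colour part, and the
full colour part can be cut by any condition on the centre of colour `0`.
-/

set_option autoImplicit false

open Set Metric

namespace Pool.Agent.AXS

section Lists

variable {V : Type*} [AddCommGroup V]

/-- The full colour part. -/
def AA : ℕ → (List ℕ → V) → List ℕ → V
  | 0, F, u => F u
  | k + 1, F, u => - ex k (AA k (fun w => DD k F w - F (k :: w))) u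

theorem ex_zero (k : ℕ) (u : List ℕ) : ex k (fun _ => (0 : V)) u = 0 := by
  have := ex_comp k (0 : V →+ V) u (fun _ => (0 : V))
  simpa using this

theorem AA_of_missing (k : ℕ) : ∀ (F : List ℕ → V) (u : List ℕ) (j : ℕ), j < k → j ∉ u →
    AA k F u = 0 := by
  induction k with
  | zero => intro F u j hj; exact absurd hj (Nat.not_lt_zero j)
  | succ k ih =>
    intro F u j hj hu
    simp only [AA]
    rw [neg_eq_zero]
    by_cases hk : k ∈ u
    · have h1 : j < k := by
        have : j ≠ k := by
          rintro rfl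
          exact hu hk
        omega
      rw [ex_congr k u _ (fun _ => 0) (fun w hw _ _ _ => ih _ w j h1 fun h => hu (hw h))]
      exact ex_zero k u
    · exact ex_of_notMem k u hk _

theorem dd_AA (k : ℕ) : ∀ (F : List ℕ → V) (u : List ℕ), (∀ x ∈ u, x < k) →
    u.length = k + 1 → dd (AA k F) u = 0 := by
  induction k with
  | zero =>
    intro F u h0 h1
    exfalso
    obtain ⟨x, hx⟩ := List.exists_mem_of_length_pos (l := u) (by omega)
    exact absurd (h0 x hx) (Nat.not_lt_zero x)
  | succ k ih =>
    intro F u h0 h1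
    have e0 : AA (k + 1) F = fun w => - ex k (AA k (fun w => DD k F w - F (k :: w))) w := by
      funext w; rfl
    rw [e0, dd_neg, dd_ex, neg_neg]
    rw [ex_congr k u _ (fun _ => 0)]
    · exact ex_zero k u
    · intro w hw hl hkw _
      apply ih
      · intro x hx
        have h3 := h0 x (hw hx)
        have h4 : x ≠ k := by
          rintro rfl
          exact hkw hx
        omega
      · omega

theorem AA_congr (k : ℕ) : ∀ (F G : List ℕ → V) (u : List ℕ),
    (∀ w : List ℕ, w ⊆ u → w.length = u.length → F w = G w) → AA k F u = AA k G u := by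
  induction k with
  | zero => intro F G u h; exact h u (fun _ h => h) rfl
  | succ k ih =>
    intro F G u h
    simp only [AA]
    congr 1
    apply ex_congr
    intro w hw hl _ hk
    apply ih
    intro w' hw' hl'
    have hw2 : w' ⊆ u := fun y hy => hw (hw' hy)
    rw [DD_congr k F G w' (fun w'' hw'' hl'' => h w'' (fun y hy => hw2 (hw'' hy)) (by omega))]
    rw [h (k :: w')]
    · intro y hy
      rcases List.mem_cons.1 hy with rfl | hy
      · exact hk
      · exact hw2 hy
    · simp only [List.length_cons]; omega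

theorem AA_zero (k : ℕ) : ∀ u : List ℕ, AA k (fun _ => (0 : V)) u = 0 := by
  induction k with
  | zero => intro u; rfl
  | succ k ih =>
    intro u
    simp only [AA]
    have h1 : (fun w : List ℕ => DD k (fun _ => (0 : V)) w - 0) = fun _ => 0 := by
      funext w
      have := DD_comp k (0 : V →+ V) (fun _ => (0 : V)) w
      simpa using this
    rw [h1]
    have h2 : AA k (fun _ => (0 : V)) = fun _ => 0 := funext ih
    rw [h2, ex_zero, neg_zero]

theorem DD_nil (k : ℕ) : ∀ F : List ℕ → V, DD k F [] = 0 := by
  induction k with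
  | zero => intro F; rfl
  | succ k ih =>
    intro F
    simp only [DD, hh, ex, ih]
    simp

/-- A cocycle minus the coboundary of its contraction is the full colour part. -/
theorem sub_dd_DD (k : ℕ) : ∀ (F : List ℕ → V) (u : List ℕ), (∀ x ∈ u, x < k) → u.length = k →
    (∀ w : List ℕ, w ⊆ u → w.length = u.length + 1 → dd F w = 0) →
    F u - dd (DD k F) u = AA k F u := by
  induction k with
  | zero =>
    intro F u _ h1 _
    have : u = [] := List.eq_nil_of_length_eq_zero h1
    subst this
    simp [AA]
  | succ k ih =>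
    intro F u h0 h1 h2
    by_cases hk : k ∈ u
    · have e0 : DD (k + 1) F = fun w => (hh k F w + (fun w => if k ∈ w then 0 else DD k F w) w) +
          ex k (DD k (fun w => DD k F w - F (k :: w))) w := by
        funext w; rfl
      rw [e0, dd_add, dd_add, dd_hh, dd_no, dd_ex]
      rw [if_pos hk, if_pos hk, h2 (k :: u)]
      · have e1 : ex k (AA k (fun w => DD k F w - F (k :: w))) u =
            ex k (fun w => (fun w => DD k F w - F (k :: w)) w -
              dd (DD k fun w => DD k F w - F (k :: w)) w) u := by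
          apply ex_congr
          intro v hv hl hkv _
          have hc : ∀ w : List ℕ, w ⊆ v → ∀ x ∈ w, x < k := by
            intro w hw x hx
            have h3 := h0 x (hv (hw hx))
            have h4 : x ≠ k := by
              rintro rfl
              exact hkv (hw hx)
            omega
          symm
          refine ih (fun w => DD k F w - F (k :: w)) v (hc v (fun _ h => h)) (by omega) ?_
          · intro w hw hlw
            rw [dd_sub, dd_DD k F w (hc w hw) (by omega)]
            · have h5 := h2 (k :: w) (by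
                intro y hy
                rcases List.mem_cons.1 hy with rfl | hy
                · exact hk
                · exact hv (hw hy)) (by simp only [List.length_cons]; omega)
              rw [dd_cons] at h5
              exact h5
            · intro w' hw' hl'
              exact h2 w' (fun y hy => hv (hw (hw' hy))) (by omega)
        simp only [AA]
        rw [e1, ex_sub, ex_sub]
        abel
      · intro y hy
        rcases List.mem_cons.1 hy with rfl | hy
        · exact hk
        · exact hy
      · rfl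
    · have e0 : DD (k + 1) F = fun w => (hh k F w + (fun w => if k ∈ w then 0 else DD k F w) w) +
          ex k (DD k (fun w => DD k F w - F (k :: w))) w := by
        funext w; rfl
      rw [AA_of_missing (k + 1) F u k (Nat.lt_succ_self k) hk]
      rw [e0, dd_add, dd_add, dd_hh, dd_no, dd_ex]
      rw [if_neg hk, if_neg hk, ex_of_notMem k u hk, ex_of_notMem k u hk, ex_of_notMem k u hk,
        dd_DD k F u]
      · abel
      · intro x hx
        have h3 := h0 x hx
        have h4 : x ≠ k := by
          rintro rfl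
          exact hk hx
        omega
      · omega
      · intro w hw hl
        exact h2 w hw hl

end Lists

section Cut

variable {X V : Type*} [AddCommGroup V]

open Classical in
/-- The full colour part, cut by a condition on the centre of colour `0`. -/
noncomputable def Fc (κ : X → ℕ) (φ : X → X) (x₀ : X) (k : ℕ) (P : X → Prop) (f : Co X V) :
    Co X V :=
  fun u => if P (cc κ φ x₀ u 0) then AA k (fun cs => f (cs.map (cc κ φ x₀ u))) (u.map κ) else 0

theorem cc_map {κ : X → ℕ} {φ : X → X} {x₀ : X} {u w : List X} (hw : w ⊆ u)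
    (hs : ∀ x ∈ u, ∀ y ∈ u, κ x = κ y → φ x = φ y) {cs : List ℕ} (hcs : cs ⊆ w.map κ) :
    cs.map (cc κ φ x₀ w) = cs.map (cc κ φ x₀ u) := by
  apply List.map_congr_left
  intro i hi
  obtain ⟨x, hx, rfl⟩ := List.mem_map.1 (hcs hi)
  rw [cc_eq κ φ x₀ hx fun y hy h => hs y (hw hy) x (hw hx) h,
    cc_eq κ φ x₀ (hw hx) fun y hy h => hs y hy x (hw hx) h]

theorem dd_Fc {κ : X → ℕ} {φ : X → X} {x₀ : X} {k : ℕ} (hk : 0 < k) (hκ : ∀ x, κ x < k)
    (P : X → Prop) (f : Co X V) (u : List X) (hl : u.length = k + 1)
    (hs : ∀ x ∈ u, ∀ y ∈ u, κ x = κ y → φ x = φ y) : dd (Fc κ φ x₀ k P f) u = 0 := by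
  classical
  have h1 : dd (Fc κ φ x₀ k P f) u = dd (fun w : List X => if P (cc κ φ x₀ u 0) then
      AA k (fun cs => f (cs.map (cc κ φ x₀ u))) (w.map κ) else 0) u := by
    apply dd_congr
    intro w hw _
    simp only [Fc]
    by_cases h0 : 0 ∈ w.map κ
    · obtain ⟨x, hx, hx0⟩ := List.mem_map.1 h0
      have h2 : cc κ φ x₀ w 0 = cc κ φ x₀ u 0 := by
        rw [← hx0, cc_eq κ φ x₀ hx fun y hy h => hs y (hw hy) x (hw hx) h,
          cc_eq κ φ x₀ (hw hx) fun y hy h => hs y hy x (hw hx) h]
      rw [h2]
      congr 1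
      apply AA_congr
      intro cs hcs _
      rw [cc_map hw hs hcs]
    · rw [AA_of_missing k _ _ 0 hk h0, AA_of_missing k _ _ 0 hk h0]
      split_ifs <;> rfl
  rw [h1]
  split_ifs with hP
  · have h2 := dd_map κ u (AA k (fun cs => f (cs.map (cc κ φ x₀ u))))
    rw [h2]
    apply dd_AA
    · intro i hi
      obtain ⟨x, _, rfl⟩ := List.mem_map.1 hi
      exact hκ x
    · rw [List.length_map]; exact hl
  · exact dd_zero u

theorem dd_Th_top (κ : X → ℕ) (φ : X → X) (x₀ : X) (k : ℕ) (hκ : ∀ x, κ x < k) (f : Co X V)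
    (u : List X) (hs : ∀ x ∈ u, ∀ y ∈ u, κ x = κ y → φ x = φ y) (hl : u.length = k)
    (hf : ∀ w : List X, w ⊆ u ++ u.map φ → w.length = u.length + 1 → dd f w = 0) :
    dd (Th κ φ x₀ k f) u = f u - AA k (fun cs => f (cs.map (cc κ φ x₀ u))) (u.map κ) := by
  have hcc : ∀ w : List X, w ⊆ u → ∀ x ∈ w, cc κ φ x₀ w (κ x) = φ x := by
    intro w hw x hx
    exact cc_eq κ φ x₀ hx fun y hy h => hs y (hw hy) x (hw hx) h
  have e1 : dd (Th κ φ x₀ k f) u = dd (fun u' : List X =>
      DD k (fun cs => f (cs.map (cc κ φ x₀ u'))) (u'.map κ)) u - dd (pp φ f) u := by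
    rw [← dd_sub]
    rfl
  have e2 : dd (fun u' : List X => DD k (fun cs => f (cs.map (cc κ φ x₀ u'))) (u'.map κ)) u =
      dd (fun u' : List X => DD k (fun cs => f (cs.map (cc κ φ x₀ u))) (u'.map κ)) u := by
    apply dd_congr
    intro w hw _
    apply DD_congr
    intro cs hcs _
    rw [cc_map hw hs hcs]
  have e3 : f (u.map φ) - dd (fun u' : List X =>
      DD k (fun cs => f (cs.map (cc κ φ x₀ u))) (u'.map κ)) u =
      AA k (fun cs => f (cs.map (cc κ φ x₀ u))) (u.map κ) := by
    rw [dd_map κ u (DD k (fun cs => f (cs.map (cc κ φ x₀ u)))), ← sub_dd_DD]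
    · congr 1
      rw [List.map_map]
      congr 1
      apply List.map_congr_left
      intro x hx
      exact (hcc u (fun _ h => h) x hx).symm
    · intro i hi
      obtain ⟨x, _, rfl⟩ := List.mem_map.1 hi
      exact hκ x
    · rw [List.length_map]; exact hl
    · intro cs hcs hcl
      rw [dd_map]
      apply hf
      · intro y hy
        obtain ⟨i, hi, rfl⟩ := List.mem_map.1 hy
        obtain ⟨x, hx, rfl⟩ := List.mem_map.1 (hcs hi)
        rw [hcc u (fun _ h => h) x hx]
        exact List.mem_append_right _ (List.mem_map.2 ⟨x, hx, rfl⟩)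
      · rw [List.length_map, hcl, List.length_map]
  have e4 : pp φ (dd f) u = 0 := by
    rw [pp_congr φ u (dd f) (fun _ => 0) hf]
    have := pp_comp φ (0 : V →+ V) u f
    simpa using this
  have e5 := dd_pp φ u f
  rw [e4, add_zero] at e5
  rw [e1, e2, ← e3, e5]
  abel

end Cut

/-- Decomposition of a top cocycle along a cover. -/
theorem decomp {X V : Type*} [MetricSpace X] [AddCommGroup V] {B : Type*} [Group B] [MulAction B X]
    {n : ℕ} (hcol : HasCol B X n) [Nonempty X] {m : ℕ} {f : Co X V}
    (hf : f ∈ ZZ dH TT (DT All) n) {A : Set X} {lam : ℝ} (hlam : 0 < lam) (hA : f ∈ DT (Out Aᶜ) n)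
    (ι : X → Fin m) (U : Fin m → Set X)
    (hU : ∀ x y, dist x y < lam → y ∉ A → ball x lam ⊆ U (ι x)) :
    ∃ g : Fin m → Co X V, (∀ i, g i ∈ ZZ dH TT (DT All) n) ∧ (∀ i, g i ∈ DT (Out (U i)) n) ∧
      f - ∑ i, g i ∈ BB dH TT (DT All) n := by
  classical
  obtain ⟨ε₁, hε₁, h1⟩ := hf.2
  obtain ⟨ε₂, hε₂, h2⟩ := hA
  set ε₀ := min (min ε₁ ε₂) lam with hε₀
  have e0 : 0 < ε₀ := lt_min (lt_min hε₁ hε₂) hlam
  have le1 : ε₀ ≤ ε₁ := (min_le_left _ _).trans (min_le_left _ _)
  have le2 : ε₀ ≤ ε₂ := (min_le_left _ _).trans (min_le_right _ _)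
  have le3 : ε₀ ≤ lam := min_le_right _ _
  obtain ⟨δ, hδ, κ, φ, hc⟩ := hcol (ε₀ / 3) (by positivity)
  let x₀ : X := Classical.arbitrary X
  have hε3 : 3 * (ε₀ / 3) ≤ ε₀ := by linarith
  refine ⟨fun i => Fc κ φ x₀ (n + 1) (fun y => ι y = i) f, ?_, ?_, ?_⟩
  · intro i
    refine ⟨trivial, δ, hδ, fun u hu hs _ => ?_⟩
    rw [dH_apply]
    exact dd_Fc (Nat.succ_pos n) hc.lt _ f u (by omega) fun x hx y hy h => hc.same x y h (hs x hx y hy)
  · intro i
    refine ⟨min δ (ε₀ / 3), lt_min hδ (by positivity), fun u hu hs hO => ?_⟩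
    have hsδ : ∀ x ∈ u, ∀ y ∈ u, κ x = κ y → φ x = φ y := fun x hx y hy h =>
      hc.same x y h ((hs x hx y hy).trans_le (min_le_left _ _))
    have hsε : Sm (ε₀ / 3) u := Sm_mono (min_le_right _ _) hs
    simp only [Fc]
    split_ifs with hi
    · by_cases h0 : 0 ∈ u.map κ
      · obtain ⟨x, hx, hx0⟩ := List.mem_map.1 h0
        have h3 : cc κ φ x₀ u 0 = φ x := by
          rw [← hx0, cc_eq κ φ x₀ hx fun y hy h => hsδ y hy x hx h]
        by_cases hall : ∀ y ∈ u, φ y ∈ A
        · rw [AA_congr (n + 1) _ (fun _ => 0), AA_zero]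
          intro cs hcs hl
          have h4 : cs.map (cc κ φ x₀ u) ⊆ u.map φ := by
            intro y hy
            obtain ⟨j, hj, rfl⟩ := List.mem_map.1 hy
            obtain ⟨z, hz, rfl⟩ := List.mem_map.1 (hcs hj)
            rw [cc_eq κ φ x₀ hz fun y hy h => hsδ y hy z hz h]
            exact List.mem_map.2 ⟨z, hz, rfl⟩
          apply h2
          · rw [List.length_map, hl, List.length_map, hu]
          · exact Sm_mono (hε3.trans le2) (sm_near hc.near hsε
              (fun y hy => List.subset_append_right u (u.map φ) (h4 hy)))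
          · intro y hy
            obtain ⟨z, hz, rfl⟩ := List.mem_map.1 (h4 hy)
            exact fun h => h (hall z hz)
        · exfalso
          push Not at hall
          obtain ⟨y, hy, hyA⟩ := hall
          have h4 : dist (φ x) (φ y) < lam := by
            have h5 := sm_near hc.near hsε (w := [φ x, φ y]) (by
              intro z hz
              rcases List.mem_cons.1 hz with rfl | hz
              · exact List.mem_append_right _ (List.mem_map.2 ⟨x, hx, rfl⟩)
              · rcases List.mem_cons.1 hz with rfl | hz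
                · exact List.mem_append_right _ (List.mem_map.2 ⟨y, hy, rfl⟩)
                · exact absurd hz List.not_mem_nil)
            exact (h5 _ (by simp) _ (by simp)).trans_le (hε3.trans le3)
          have h6 := hU (φ x) (φ y) h4 hyA
          rw [h3] at hi
          rw [hi] at h6
          apply hO x hx
          apply h6
          rw [mem_ball]
          exact (hc.near x).trans_le (by linarith)
      · exact AA_of_missing _ _ _ 0 (Nat.succ_pos n) h0
    · rfl
  · have h3 : f - ∑ i, Fc κ φ x₀ (n + 1) (fun y => ι y = i) f - dH (ThH κ φ x₀ (n + 1) f) ∈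
        (DT All n : AddSubgroup (Co X V)) := by
      refine ⟨min δ (ε₀ / 3), lt_min hδ (by positivity), fun u hu hs _ => ?_⟩
      have hsδ : ∀ x ∈ u, ∀ y ∈ u, κ x = κ y → φ x = φ y := fun x hx y hy h =>
        hc.same x y h ((hs x hx y hy).trans_le (min_le_left _ _))
      have hsε : Sm (ε₀ / 3) u := Sm_mono (min_le_right _ _) hs
      have h4 : (∑ i, Fc κ φ x₀ (n + 1) (fun y => ι y = i) f) u =
          AA (n + 1) (fun cs => f (cs.map (cc κ φ x₀ u))) (u.map κ) := by
        have h5 : (∑ i, Fc κ φ x₀ (n + 1) (fun y => ι y = i) f) u =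
            ∑ i, Fc κ φ x₀ (n + 1) (fun y => ι y = i) f u := by
          exact Finset.sum_apply u Finset.univ fun i => Fc κ φ x₀ (n + 1) (fun y => ι y = i) f
        rw [h5]
        have h7 : ∀ i : Fin m, Fc κ φ x₀ (n + 1) (fun y => ι y = i) f u =
            if ι (cc κ φ x₀ u 0) = i then
              AA (n + 1) (fun cs => f (cs.map (cc κ φ x₀ u))) (u.map κ) else 0 := fun i => by
          simp only [Fc]
          congr 1
        rw [Finset.sum_congr rfl fun i _ => h7 i]
        exact (Finset.sum_ite_eq Finset.univ _ fun _ =>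
          AA (n + 1) (fun cs => f (cs.map (cc κ φ x₀ u))) (u.map κ)).trans (if_pos (Finset.mem_univ _))
      have h5 := dd_Th_top κ φ x₀ (n + 1) hc.lt f u hsδ (by omega) (by
        intro w hw hl
        apply h1 w (by omega)
        · exact Sm_mono (hε3.trans le1) (sm_near hc.near hsε hw)
        · trivial)
      rw [Co.sub_apply, Co.sub_apply, h4, dH_apply]
      have h6 : dd (ThH κ φ x₀ (n + 1) f) u = dd (Th κ φ x₀ (n + 1) f) u := rfl
      rw [h6, h5]
      abel
    cases n with
    | zero =>
      obtain ⟨ε, hε, h4⟩ := h3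
      refine ⟨ε, hε, fun u hu hs hA' => ?_⟩
      have h5 := h4 u hu hs hA'
      rw [Co.sub_apply] at h5
      obtain ⟨x, rfl⟩ := List.length_eq_one_iff.1 hu
      have h6 : dH (ThH κ φ x₀ (0 + 1) f) [x] = 0 := by
        rw [dH_apply, dd_cons, dd_nil, sub_zero, ThH_apply]
        simp only [Th, List.map_nil, DD_nil]
        exact sub_self _
      rw [h6, sub_zero] at h5
      exact h5
    | succ n => exact mem_BB_succ.2 ⟨_, trivial, h3⟩

end Pool.Agent.AXS
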