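import Pool.Agent.AXS.Lists
import Mathlib

/-!
# Alexander-Spanier cochains, pairs of subgroups, finiteness of cohomology

The complexes are quotients `N j / D j` of subgroups of one group `F` with one differential `δ`.
-/

set_option autoImplicit false

open Set Metric MeasureTheory

namespace Pool.Agent.AXS

section Pairs

variable {F : Type*} [AddCommGroup F]

/-- `N j / D j`, `j ≥ 0`, is a complex with the differential `δ`. -/
structure Cx (δ : F →+ F) (N D : ℕ → AddSubgroup F) : Prop where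
  le : ∀ j, D j ≤ N j
  dN : ∀ j, ∀ f ∈ N j, δ f ∈ N (j + 1)
  dD : ∀ j, ∀ f ∈ D j, δ f ∈ D (j + 1)

/-- Cocycles. -/
def ZZ (δ : F →+ F) (N D : ℕ → AddSubgroup F) (j : ℕ) : AddSubgroup F :=
  N j ⊓ (D (j + 1)).comap δ

/-- Coboundaries. -/
def BB (δ : F →+ F) (N D : ℕ → AddSubgroup F) : ℕ → AddSubgroup F
  | 0 => D 0
  | j + 1 => (N j).map δ ⊔ D (j + 1)

theorem mem_ZZ {δ : F →+ F} {N D : ℕ → AddSubgroup F} {j : ℕ} {f : F} :
    f ∈ ZZ δ N D j ↔ f ∈ N j ∧ δ f ∈ D (j + 1) := Iff.rfl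

theorem mem_BB_zero {δ : F →+ F} {N D : ℕ → AddSubgroup F} {f : F} :
    f ∈ BB δ N D 0 ↔ f ∈ D 0 := Iff.rfl

theorem mem_BB_succ {δ : F →+ F} {N D : ℕ → AddSubgroup F} {j : ℕ} {f : F} :
    f ∈ BB δ N D (j + 1) ↔ ∃ g ∈ N j, f - δ g ∈ D (j + 1) := by
  constructor
  · intro h
    obtain ⟨y, ⟨g, hg, rfl⟩, z, hz, rfl⟩ := AddSubgroup.mem_sup.1 h
    exact ⟨g, hg, by simpa using hz⟩
  · rintro ⟨g, hg, h⟩
    exact AddSubgroup.mem_sup.2 ⟨δ g, ⟨g, hg, rfl⟩, f - δ g, h, by abel⟩

theorem BB_le_of {δ : F →+ F} {N D N' D' : ℕ → AddSubgroup F} (hN : ∀ j, N j ≤ N' j)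
    (hD : ∀ j, D j ≤ D' j) (j : ℕ) : BB δ N D j ≤ BB δ N' D' j := by
  intro f hf
  cases j with
  | zero => exact hD 0 hf
  | succ j =>
    obtain ⟨g, hg, h⟩ := mem_BB_succ.1 hf
    exact mem_BB_succ.2 ⟨g, hN j hg, hD _ h⟩

theorem D_le_BB {δ : F →+ F} {N D : ℕ → AddSubgroup F} (j : ℕ) : D j ≤ BB δ N D j := by
  intro f hf
  cases j with
  | zero => exact hf
  | succ j => exact mem_BB_succ.2 ⟨0, (N j).zero_mem, by simpa using hf⟩

theorem BB_le_ZZ {δ : F →+ F} (hδ : ∀ f, δ (δ f) = 0) {N D : ℕ → AddSubgroup F} (h : Cx δ N D)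
    (j : ℕ) : BB δ N D j ≤ ZZ δ N D j := by
  intro f hf
  cases j with
  | zero => exact ⟨h.le 0 hf, h.dD 0 f hf⟩
  | succ j =>
    obtain ⟨g, hg, h'⟩ := mem_BB_succ.1 hf
    have e : f = δ g + (f - δ g) := by abel
    refine ⟨?_, ?_⟩
    · rw [e]
      exact (N (j + 1)).add_mem (h.dN j g hg) (h.le _ h')
    · show δ f ∈ D (j + 1 + 1)
      rw [e, map_add, hδ, zero_add]
      exact h.dD _ _ h'

/-- The cohomology group `H^j (N / D)` is finite. -/
def FinH (δ : F →+ F) (N D : ℕ → AddSubgroup F) (j : ℕ) : Prop :=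
  ∃ S : Set F, S.Finite ∧ (∀ s ∈ S, s ∈ ZZ δ N D j) ∧ ∀ z ∈ ZZ δ N D j, ∃ s ∈ S, z - s ∈ BB δ N D j

/-- The cohomology of the group `B` in degree `m - 1 ≥ 1` with coefficients in `N / D` is killed by
`e` (homogeneous cochains on lists). -/
def KL (B : Type*) [Group B] [DistribMulAction B F] (e m : ℕ) (N D : AddSubgroup F) : Prop :=
  ∀ φ : List B → F, (∀ u, φ u ∈ N) →
    (∀ (b : B) (u : List B), φ (u.map (fun c => b * c)) = b • φ u) →
    (∀ u : List B, u.length = m + 1 → dd φ u ∈ D) →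
    ∃ ψ : List B → F, (∀ u, ψ u ∈ N) ∧
      (∀ (b : B) (u : List B), ψ (u.map (fun c => b * c)) = b • ψ u) ∧
      ∀ u : List B, u.length = m → e • φ u - dd ψ u ∈ D

end Pairs

section Cochains

variable {X : Type*} {V : Type*}

/-- Functions on lists of points. -/
def Co (X V : Type*) := List X → V

instance [AddCommGroup V] : AddCommGroup (Co X V) := inferInstanceAs (AddCommGroup (List X → V))

@[simp] theorem Co.add_apply [AddCommGroup V] (f g : Co X V) (l : List X) :
    (f + g) l = f l + g l := rfl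
@[simp] theorem Co.sub_apply [AddCommGroup V] (f g : Co X V) (l : List X) :
    (f - g) l = f l - g l := rfl
@[simp] theorem Co.neg_apply [AddCommGroup V] (f : Co X V) (l : List X) : (- f) l = - f l := rfl
@[simp] theorem Co.zero_apply [AddCommGroup V] (l : List X) : (0 : Co X V) l = 0 := rfl
@[simp] theorem Co.nsmul_apply [AddCommGroup V] (k : ℕ) (f : Co X V) (l : List X) :
    (k • f) l = k • f l := rfl

/-- The coboundary. -/
def dH [AddCommGroup V] : Co X V →+ Co X V where
  toFun f := dd f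
  map_zero' := funext fun u => dd_zero u
  map_add' f g := funext fun u => dd_add u f g

@[simp] theorem dH_apply [AddCommGroup V] (f : Co X V) (u : List X) : dH f u = dd f u := rfl

theorem dH_dH [AddCommGroup V] (f : Co X V) : dH (dH f) = 0 := funext fun u => dd_dd u f

/-- The action on cochains of a group which acts on `X`. -/
instance {L : Type*} [Group L] [MulAction L X] [AddCommGroup V] :
    DistribMulAction L (Co X V) where
  smul g f := fun w => f (w.map (fun x => g⁻¹ • x))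
  one_smul f := by
    funext w
    change f (w.map (fun x => (1 : L)⁻¹ • x)) = f w
    simp
  mul_smul g h f := by
    funext w
    change f (w.map (fun x => (g * h)⁻¹ • x)) =
      f ((w.map (fun x => g⁻¹ • x)).map (fun x => h⁻¹ • x))
    rw [List.map_map]
    congr 1
    apply List.map_congr_left
    intro x _
    simp [mul_smul]
  smul_zero g := rfl
  smul_add g f f' := rfl

theorem Co.smul_apply {L : Type*} [Group L] [MulAction L X] [AddCommGroup V] (g : L) (f : Co X V)
    (w : List X) : (g • f) w = f (w.map (fun x => g⁻¹ • x)) := rfl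

theorem dH_smul {L : Type*} [Group L] [MulAction L X] [AddCommGroup V] (g : L) (f : Co X V) :
    dH (g • f) = g • dH f := funext fun u => dd_map _ u f

variable [MetricSpace X]

/-- Small lists. -/
def Sm (ε : ℝ) (l : List X) : Prop := ∀ x ∈ l, ∀ y ∈ l, dist x y < ε

/-- Hereditary sets of lists. -/
def Her (T : List X → Prop) : Prop := ∀ l w : List X, w ⊆ l → T l → T w

/-- All lists. -/
def All : List X → Prop := fun _ => True

/-- The cochains which vanish on the small lists in `T` of length `j + 1`. -/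
def DT [AddCommGroup V] (T : List X → Prop) (j : ℕ) : AddSubgroup (Co X V) where
  carrier := {f | ∃ ε > 0, ∀ l : List X, l.length = j + 1 → Sm ε l → T l → f l = 0}
  zero_mem' := ⟨1, one_pos, fun _ _ _ _ => rfl⟩
  add_mem' := by
    rintro f g ⟨ε, hε, hf⟩ ⟨ε', hε', hg⟩
    refine ⟨min ε ε', lt_min hε hε', fun l hl hs hT => ?_⟩
    have h1 := hf l hl (fun x hx y hy => (hs x hx y hy).trans_le (min_le_left _ _)) hT
    have h2 := hg l hl (fun x hx y hy => (hs x hx y hy).trans_le (min_le_right _ _)) hT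
    change f l + g l = 0
    rw [h1, h2, add_zero]
  neg_mem' := by
    rintro f ⟨ε, hε, hf⟩
    refine ⟨ε, hε, fun l hl hs hT => ?_⟩
    change - f l = 0
    rw [hf l hl hs hT, neg_zero]

theorem mem_DT [AddCommGroup V] {T : List X → Prop} {j : ℕ} {f : Co X V} :
    f ∈ DT T j ↔ ∃ ε > 0, ∀ l : List X, l.length = j + 1 → Sm ε l → T l → f l = 0 := Iff.rfl

/-- All cochains. -/
def TT [AddCommGroup V] (_ : ℕ) : AddSubgroup (Co X V) := ⊤

theorem dH_mem_DT [AddCommGroup V] {T : List X → Prop} (hT : Her T) (j : ℕ) (f : Co X V)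
    (hf : f ∈ DT T j) : dH f ∈ DT T (j + 1) := by
  obtain ⟨ε, hε, h⟩ := hf
  refine ⟨ε, hε, fun l hl hs hTl => ?_⟩
  rw [dH_apply, dd_congr l f (fun _ => 0), dd_zero]
  intro w hw hwl
  exact h w (by omega) (fun x hx y hy => hs x (hw hx) y (hw hy)) (hT l w hw hTl)

theorem cx_top [AddCommGroup V] {T : List X → Prop} (hT : Her T) :
    Cx (dH : Co X V →+ Co X V) TT (DT T) :=
  ⟨fun _ => le_top, fun _ _ _ => trivial, fun j f hf => dH_mem_DT hT j f hf⟩

theorem DT_mono [AddCommGroup V] {T T' : List X → Prop} (h : ∀ l, T l → T' l) (j : ℕ) :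
    (DT T' j : AddSubgroup (Co X V)) ≤ DT T j := by
  rintro f ⟨ε, hε, hf⟩
  exact ⟨ε, hε, fun l hl hs hT => hf l hl hs (h l hT)⟩

theorem cx_rel [AddCommGroup V] {T T' : List X → Prop} (hT : Her T) (hT' : Her T')
    (h : ∀ l, T l → T' l) : Cx (dH : Co X V →+ Co X V) (DT T) (DT T') :=
  ⟨fun j => DT_mono h j, fun j f hf => dH_mem_DT hT j f hf, fun j f hf => dH_mem_DT hT' j f hf⟩

omit [MetricSpace X] in
theorem her_all : Her (All : List X → Prop) := fun _ _ _ _ => trivial

/-- A homeomorphism of a compact space preserves `DT T` if it preserves `T`. -/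
theorem smul_mem_DT [CompactSpace X] {L : Type*} [Group L] [MulAction L X] [ContinuousConstSMul L X]
    [AddCommGroup V] {T : List X → Prop} {g : L}
    (hT : ∀ l : List X, T l → T (l.map (fun x => g⁻¹ • x)))
    {j : ℕ} {f : Co X V} (hf : f ∈ DT T j) : g • f ∈ DT T j := by
  obtain ⟨ε, hε, h⟩ := hf
  have huc : UniformContinuous (fun x : X => g⁻¹ • x) :=
    CompactSpace.uniformContinuous_of_continuous (continuous_const_smul _)
  obtain ⟨δ, hδ, h'⟩ := Metric.uniformContinuous_iff.1 huc ε hε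
  refine ⟨δ, hδ, fun l hl hs hTl => ?_⟩
  rw [Co.smul_apply]
  apply h
  · rw [List.length_map, hl]
  · intro x hx y hy
    obtain ⟨x', hx', rfl⟩ := List.mem_map.1 hx
    obtain ⟨y', hy', rfl⟩ := List.mem_map.1 hy
    exact h' (hs x' hx' y' hy')
  · exact hT l hTl

/-- The lists fixed pointwise by the elements of `K`. -/
def Fx {B : Type*} [Group B] [MulAction B X] (K : Set B) (l : List X) : Prop :=
  ∀ b ∈ K, ∀ x ∈ l, b • x = x

/-- The lists fixed pointwise by some `b ≠ 1`. -/
def Zp (B : Type*) [Group B] [MulAction B X] (l : List X) : Prop :=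
  ∃ b : B, b ≠ 1 ∧ ∀ x ∈ l, b • x = x

omit [MetricSpace X] in
theorem her_Fx {B : Type*} [Group B] [MulAction B X] (K : Set B) : Her (Fx (X := X) K) :=
  fun _ _ hw h b hb x hx => h b hb x (hw hx)

omit [MetricSpace X] in
theorem her_Zp {B : Type*} [Group B] [MulAction B X] : Her (Zp (X := X) B) :=
  fun _ _ hw ⟨b, hb, h⟩ => ⟨b, hb, fun x hx => h x (hw hx)⟩

/-- The image of `1 + c` (modulo the cochains that vanish on the small lists of `T`). -/
def II {B : Type*} [Group B] [MulAction B X] [AddCommGroup V] (c : B) (T : List X → Prop) (j : ℕ) :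
    AddSubgroup (Co X V) where
  carrier := {f | ∃ g : Co X V, f - (g + c • g) ∈ DT T j}
  zero_mem' := ⟨0, by simp⟩
  add_mem' := by
    rintro f f' ⟨g, hg⟩ ⟨g', hg'⟩
    refine ⟨g + g', ?_⟩
    have : f + f' - (g + g' + c • (g + g')) = (f - (g + c • g)) + (f' - (g' + c • g')) := by
      rw [smul_add]; abel
    rw [this]
    exact (DT T j).add_mem hg hg'
  neg_mem' := by
    rintro f ⟨g, hg⟩
    refine ⟨-g, ?_⟩
    have : -f - (-g + c • (-g)) = -(f - (g + c • g)) := by
      rw [smul_neg]; abel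
    rw [this]
    exact (DT T j).neg_mem hg

/-- An equivariant colouring with `n + 1` colours. -/
structure Colg (B : Type*) [Group B] [MulAction B X] (n : ℕ) (ε δ : ℝ) (κ : X → ℕ) (φ : X → X) :
    Prop where
  lt : ∀ x, κ x < n + 1
  inv : ∀ (b : B) x, κ (b • x) = κ x
  eqv : ∀ (b : B) x, φ (b • x) = b • φ x
  near : ∀ x, dist x (φ x) < ε
  same : ∀ x y, κ x = κ y → dist x y < δ → φ x = φ y

end Cochains

end Pool.Agent.AXS
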