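import Pool.Agent.AXS.Defs

/-!
# Exponents of the cohomology of elementary abelian 2-groups
-/

set_option autoImplicit false
set_option linter.unusedVariables false

open Set

namespace Pool.Agent.AXS

section Lists

variable {S : Type*} {F : Type*} [AddCommGroup F]

/-- `dd f u` is in a subgroup which contains the relevant values of `f`. -/
theorem dd_mem (A : AddSubgroup F) (u : List S) : ∀ f : List S → F,
    (∀ w : List S, w.length + 1 = u.length → f w ∈ A) → dd f u ∈ A := by
  induction u with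
  | nil => intro f _; exact A.zero_mem
  | cons x v ih =>
    intro f h
    rw [dd_cons]
    refine A.sub_mem (h v rfl) (ih _ fun w hw => h (x :: w) ?_)
    simp only [List.length_cons, hw]

theorem pp_mem (A : AddSubgroup F) (g : S → S) (u : List S) : ∀ f : List S → F,
    (∀ w : List S, w.length = u.length + 1 → f w ∈ A) → pp g f u ∈ A := by
  induction u with
  | nil => intro f _; exact A.zero_mem
  | cons x v ih =>
    intro f h
    rw [pp_cons]
    refine A.sub_mem (h _ (by simp)) (ih _ fun w hw => h (x :: w) ?_)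
    simp only [List.length_cons, hw]

theorem dd_congr_len (f g : List S → F) (u : List S)
    (h : ∀ w : List S, w.length + 1 = u.length → f w = g w) : dd f u = dd g u :=
  dd_congr u f g fun w _ hw => h w hw

/-- The coboundary of a function that only depends on the length. -/
theorem dd_const (k : F) (u : List S) :
    dd (fun _ : List S => k) u = if u.length % 2 = 1 then k else 0 := by
  induction u with
  | nil => rfl
  | cons x v ih =>
    rw [dd_cons, ih]
    simp only [List.length_cons]
    by_cases h : v.length % 2 = 1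
    · rw [if_pos h, if_neg (by omega), sub_self]
    · rw [if_neg h, if_pos (by omega), sub_zero]

end Lists

section Equiv

variable {B : Type*} [Group B] {F : Type*} [AddCommGroup F] [DistribMulAction B F]

/-- The coboundary of an equivariant cochain is equivariant. -/
theorem dd_equivariant {ψ : List B → F}
    (h : ∀ (b : B) (u : List B), ψ (u.map (fun c => b * c)) = b • ψ u) (b : B) (u : List B) :
    dd ψ (u.map (fun c => b * c)) = b • dd ψ u := by
  rw [← dd_map]
  have : (fun w : List B => ψ (w.map (fun c => b * c))) =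
      fun w => (DistribSMul.toAddMonoidHom F b) (ψ w) := by
    funext w
    exact h b w
  rw [this, dd_comp]
  rfl

/-- Cut off a cochain to one length. -/
def cut (m : ℕ) (ψ : List B → F) (u : List B) : F := if u.length = m then ψ u else 0

omit [Group B] [DistribMulAction B F] in
theorem cut_eq {m : ℕ} (ψ : List B → F) {u : List B} (h : u.length = m) : cut m ψ u = ψ u :=
  if_pos h

omit [Group B] [DistribMulAction B F] in
theorem cut_mem {m : ℕ} {A : AddSubgroup F} {ψ : List B → F}
    (h : ∀ u, u.length = m → ψ u ∈ A) (u : List B) : cut m ψ u ∈ A := by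
  unfold cut
  split_ifs with h'
  · exact h u h'
  · exact A.zero_mem

theorem cut_equivariant {m : ℕ} {ψ : List B → F}
    (h : ∀ (b : B) (u : List B), ψ (u.map (fun c => b * c)) = b • ψ u) (b : B) (u : List B) :
    cut m ψ (u.map (fun c => b * c)) = b • cut m ψ u := by
  unfold cut
  rw [List.length_map]
  split_ifs
  · exact h b u
  · exact (smul_zero b).symm

omit [Group B] [DistribMulAction B F] in
theorem dd_cut {m : ℕ} (ψ : List B → F) {u : List B} (h : u.length = m + 1) :
    dd (cut m ψ) u = dd ψ u :=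
  dd_congr_len _ _ _ fun _ hw => cut_eq _ (by omega)

/-- Make a cochain equivariant. -/
def eqv (ψ : List B → F) : List B → F
  | [] => 0
  | b :: v => b • ψ ((b :: v).map (fun c => b⁻¹ * c))

theorem eqv_equivariant (ψ : List B → F) (b : B) (u : List B) :
    eqv ψ (u.map (fun c => b * c)) = b • eqv ψ u := by
  cases u with
  | nil => exact (smul_zero b).symm
  | cons x v =>
    have e : (((x :: v).map (fun c => b * c)).map (fun c => (b * x)⁻¹ * c)) =
        (x :: v).map (fun c => x⁻¹ * c) := by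
      rw [List.map_map]
      apply List.map_congr_left
      intro y _
      simp [mul_assoc]
    have e2 : eqv ψ ((x :: v).map (fun c => b * c)) =
        (b * x) • ψ (((x :: v).map (fun c => b * c)).map (fun c => (b * x)⁻¹ * c)) := rfl
    rw [e2, e, mul_smul]
    rfl

theorem eqv_mem {A : AddSubgroup F} (hA : ∀ (b : B), ∀ f ∈ A, b • f ∈ A) {ψ : List B → F}
    (h : ∀ u, ψ u ∈ A) (u : List B) : eqv ψ u ∈ A := by
  cases u with
  | nil => exact A.zero_mem
  | cons x v => exact hA x _ (h _)

end Equiv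

section RowE

variable {F : Type*} [AddCommGroup F]

/-- Extensions. -/
theorem KL_mid {B : Type*} [Group B] [DistribMulAction B F] {N M D : AddSubgroup F} (hMN : M ≤ N)
    (hDM : D ≤ M) {e e' m : ℕ} (h1 : KL B e' m M D) (h2 : KL B e m N M) : KL B (e' * e) m N D := by
  intro φ hφN hφe hφd
  obtain ⟨ψ₂, hN₂, he₂, hd₂⟩ := h2 φ hφN hφe fun u hu => hDM (hφd u hu)
  have heq : ∀ (b : B) (u : List B), (fun u => e • φ u - dd ψ₂ u) (u.map (fun c => b * c)) =
      b • (fun u => e • φ u - dd ψ₂ u) u := by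
    intro b u
    simp only
    rw [hφe, dd_equivariant he₂, smul_sub, smul_comm b e]
  obtain ⟨ψ₁, hN₁, he₁, hd₁⟩ := h1 (cut m fun u => e • φ u - dd ψ₂ u)
    (cut_mem fun u hu => hd₂ u hu) (cut_equivariant heq) (by
      intro u hu
      rw [dd_cut _ hu, dd_sub, dd_dd, sub_zero]
      have : (fun w => e • φ w) = fun w => (nsmulAddMonoidHom e : F →+ F) (φ w) := rfl
      rw [this, dd_comp]
      exact D.nsmul_mem (hφd u hu) e)
  refine ⟨fun u => e' • ψ₂ u + ψ₁ u, fun u => N.add_mem (N.nsmul_mem (hN₂ u) e') (hMN (hN₁ u)),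
    fun b u => ?_, fun u hu => ?_⟩
  · simp only
    rw [he₂, he₁, smul_add, smul_comm b e']
  · have h := hd₁ u hu
    rw [cut_eq _ hu] at h
    rw [dd_add]
    have : (fun w => e' • ψ₂ w) = fun w => (nsmulAddMonoidHom e' : F →+ F) (ψ₂ w) := rfl
    rw [this, dd_comp]
    have e3 : (e' * e) • φ u - ((nsmulAddMonoidHom e' : F →+ F) (dd ψ₂ u) + dd ψ₁ u) =
        e' • (e • φ u - dd ψ₂ u) - dd ψ₁ u := by
      rw [smul_sub, mul_smul]
      change _ - (e' • dd ψ₂ u + dd ψ₁ u) = _
      abel
    rw [e3]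
    exact h

/-- Dimension shift. -/
theorem KL_shift {B : Type*} [Group B] [DistribMulAction B F] {δ : F →+ F} (hδ : ∀ f, δ (δ f) = 0)
    {N D : ℕ → AddSubgroup F} (hC : Cx δ N D) (hδB : ∀ (b : B) f, δ (b • f) = b • δ f)
    (hN : ∀ (b : B) j, ∀ f ∈ N j, b • f ∈ N j) (hD : ∀ (b : B) j, ∀ f ∈ D j, b • f ∈ D j)
    {e m j : ℕ} (hm : 2 ≤ m) (hac : KL B 1 m (N j) (D j)) (h : KL B e (m + 1) (ZZ δ N D j) (D j)) :
    KL B e m (BB δ N D (j + 1)) (D (j + 1)) := by
  intro φ hφN hφe hφd
  choose G hG hGd using fun u => mem_BB_succ.1 (hφN u)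
  -- the equivariant lift
  set φ₁ : List B → F := eqv G with hφ₁
  have h1N : ∀ u, φ₁ u ∈ N j := fun u => eqv_mem (fun b f hf => hN b j f hf) hG u
  have h1e := eqv_equivariant (B := B) G
  have h1d : ∀ u : List B, u ≠ [] → φ u - δ (φ₁ u) ∈ D (j + 1) := by
    intro u hu
    cases u with
    | nil => exact absurd rfl hu
    | cons x v =>
      have e1 : φ₁ (x :: v) = x • G ((x :: v).map (fun c => x⁻¹ * c)) := rfl
      have e2 : φ (x :: v) = x • φ ((x :: v).map (fun c => x⁻¹ * c)) := by
        rw [hφe, smul_inv_smul]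
      rw [e1, e2, hδB, ← smul_sub]
      exact hD x _ _ (hGd _)
  have hδdd : ∀ (f : List B → F) (u : List B), δ (dd f u) = dd (fun w => δ (f w)) u :=
    fun f u => (dd_comp δ u f).symm
  -- the cocycle of degree one more
  have hPZ : ∀ u : List B, u.length = m + 1 → dd φ₁ u ∈ ZZ δ N D j := by
    intro u hu
    refine ⟨dd_mem _ u _ fun w _ => h1N w, ?_⟩
    change δ (dd φ₁ u) ∈ D (j + 1)
    rw [hδdd]
    have e1 : (fun w => δ (φ₁ w)) = fun w => φ w - (fun w => φ w - δ (φ₁ w)) w := by
      funext w; simp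
    rw [e1, dd_sub]
    refine (D (j + 1)).sub_mem (hφd u hu) (dd_mem _ u _ fun w hw => h1d w ?_)
    rintro rfl
    simp only [List.length_nil] at hw
    omega
  obtain ⟨ψ₀, h0Z, h0e, h0d⟩ := h (cut (m + 1) (dd φ₁)) (cut_mem hPZ)
    (cut_equivariant (dd_equivariant h1e)) (by
      intro u hu
      rw [dd_cut _ hu, dd_dd]
      exact (D j).zero_mem)
  -- correct the lift
  obtain ⟨ψ₁, h1N', h1e', h1d'⟩ := hac (fun u => e • φ₁ u - ψ₀ u)
    (fun u => (N j).sub_mem ((N j).nsmul_mem (h1N u) e) (h0Z u).1)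
    (fun b u => by
      rw [h0e, smul_sub, smul_comm b e, hφ₁, h1e]) (by
      intro u hu
      rw [dd_sub]
      have : (fun w => e • φ₁ w) = fun w => (nsmulAddMonoidHom e : F →+ F) (φ₁ w) := rfl
      rw [this, dd_comp]
      have h3 := h0d u hu
      rw [cut_eq _ hu] at h3
      exact h3)
  refine ⟨fun u => δ (ψ₁ u), fun u => mem_BB_succ.2 ⟨ψ₁ u, h1N' u, by simp⟩, fun b u => ?_,
    fun u hu => ?_⟩
  · simp only
    rw [h1e', hδB]
  · rw [← hδdd]
    have hne : u ≠ [] := by
      rintro rfl
      simp only [List.length_nil] at hu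
      omega
    have e1 : e • φ u - δ (dd ψ₁ u) = e • (φ u - δ (φ₁ u)) +
        (δ (1 • (e • φ₁ u - ψ₀ u) - dd ψ₁ u) + δ (ψ₀ u)) := by
      rw [one_smul, map_sub, map_sub, map_nsmul, smul_sub]
      abel
    rw [e1]
    exact (D (j + 1)).add_mem ((D (j + 1)).nsmul_mem (h1d u hne) e)
      ((D (j + 1)).add_mem (hC.dD j _ (h1d' u hu)) (h0Z u).2)

/-- One coordinate. -/
theorem KL_step {B : Type*} [CommGroup B] {N D : AddSubgroup F} (hDN : D ≤ N) {m : ℕ} (c : B)
    (hc : c * c = 1) (π : B → B) (hπc : ∀ x, π (c * x) = π x)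
    (hb : ∀ b : B, (∀ x, π (b * x) = b * π x) ∨ ∃ b', b = c * b' ∧ ∀ x, π (b' * x) = b' * π x)
    (φ : List B → F) (hφN : ∀ u, φ u ∈ N)
    (hφi : ∀ (b : B) (u : List B), φ (u.map (fun c => b * c)) - φ u ∈ D)
    (hφd : ∀ u : List B, u.length = m + 1 → dd φ u ∈ D) :
    ∃ Q : List B → F, (∀ u, Q u ∈ N) ∧
      (∀ (b : B) (u : List B), Q (u.map (fun c => b * c)) - Q u ∈ D) ∧
      ∀ u : List B, u.length = m → (2 : ℕ) • φ u - (2 : ℕ) • φ (u.map π) - dd Q u ∈ D := by
  set P : List B → F := pp π φ with hP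
  have hPN : ∀ u, P u ∈ N := fun u => pp_mem N π u φ fun w _ => hφN w
  have hPb : ∀ b : B, (∀ x, π (b * x) = b * π x) → ∀ u : List B,
      P (u.map (fun c => b * c)) - P u ∈ D := by
    intro b hb' u
    have e1 : P (u.map (fun c => b * c)) = pp π (fun w => φ (w.map (fun c => b * c))) u :=
      (pp_map π (fun c => b * c) (fun x => (hb' x).symm) u φ).symm
    rw [e1, hP, ← pp_sub]
    exact pp_mem D π u _ fun w _ => hφi b w
  have hcomm : ∀ (b : B) (u : List B), (u.map (fun x => b * x)).map (fun x => c * x) =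
      (u.map (fun x => c * x)).map (fun x => b * x) := by
    intro b u
    rw [List.map_map, List.map_map]
    apply List.map_congr_left
    intro y _
    exact mul_left_comm c b y
  have hcc : ∀ u : List B, (u.map (fun x => c * x)).map (fun x => c * x) = u := by
    intro u
    rw [List.map_map]
    have : ((fun x => c * x) ∘ fun x => c * x) = (id : B → B) := by
      funext y
      simp [← mul_assoc, hc]
    rw [this, List.map_id]
  set Q : List B → F := fun u => -(P u + P (u.map (fun x => c * x))) with hQ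
  have hQb : ∀ b : B, (∀ x, π (b * x) = b * π x) → ∀ u : List B,
      Q (u.map (fun c => b * c)) - Q u ∈ D := by
    intro b hb' u
    have e1 : Q (u.map (fun c => b * c)) - Q u = -((P (u.map (fun c => b * c)) - P u) +
        (P ((u.map (fun x => c * x)).map (fun c => b * c)) - P (u.map (fun x => c * x)))) := by
      simp only [hQ]
      rw [hcomm b u]
      abel
    rw [e1]
    exact D.neg_mem (D.add_mem (hPb b hb' u) (hPb b hb' _))
  have hQc : ∀ u : List B, Q (u.map (fun x => c * x)) = Q u := by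
    intro u
    simp only [hQ]
    rw [hcc, add_comm]
  refine ⟨Q, fun u => N.neg_mem (N.add_mem (hPN _) (hPN _)), fun b u => ?_, fun u hu => ?_⟩
  · rcases hb b with h | ⟨b', rfl, h⟩
    · exact hQb b h u
    · have e1 : u.map (fun x => c * b' * x) = (u.map (fun x => b' * x)).map (fun x => c * x) := by
        rw [List.map_map]
        apply List.map_congr_left
        intro y _
        exact mul_assoc _ _ _
      rw [e1, hQc]
      exact hQb b' h u
  · -- the prism identity at `u` and at `c u`
    have key : ∀ v : List B, v.length = m → φ v - φ (v.map π) + dd P v ∈ D := by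
      intro v hv
      have e1 := dd_pp π v φ
      have e2 : φ v - φ (v.map π) + dd P v = - pp π (dd φ) v := by
        have : dd P v = φ (v.map π) - φ v - pp π (dd φ) v := by rw [← e1]; abel
        rw [this]; abel
      rw [e2]
      exact D.neg_mem (pp_mem D π v _ fun w hw => hφd w (by omega))
    have k1 := key u hu
    have k2 := key (u.map (fun x => c * x)) (by rw [List.length_map, hu])
    have e3 : (u.map (fun x => c * x)).map π = u.map π := by
      rw [List.map_map]
      apply List.map_congr_left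
      intro y _
      exact hπc y
    rw [e3, ← dd_map] at k2
    have e4 : dd Q u = -(dd P u + dd (fun w => P (w.map (fun x => c * x))) u) := by
      rw [← dd_add, ← dd_neg]
    have e5 : (2 : ℕ) • φ u - (2 : ℕ) • φ (u.map π) - dd Q u =
        (φ u - φ (u.map π) + dd P u) + (φ (u.map (fun x => c * x)) - φ (u.map π) +
          dd (fun w => P (w.map (fun x => c * x))) u) - (φ (u.map (fun x => c * x)) - φ u) := by
      rw [e4, two_nsmul, two_nsmul]
      abel
    rw [e5]
    exact D.sub_mem (D.add_mem k1 k2) (hφi c u)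

/-- Trivial coefficients: killed by `2`, weakly invariant form, for a list of coordinates. -/
theorem KL_coords {r : ℕ} {N D : AddSubgroup F} (hDN : D ≤ N) {m : ℕ}
    (φ : List (Fin r → Multiplicative (ZMod 2)) → F) (hφN : ∀ u, φ u ∈ N)
    (hφi : ∀ (b : Fin r → Multiplicative (ZMod 2)) u, φ (u.map (fun c => b * c)) - φ u ∈ D)
    (hφd : ∀ u, u.length = m + 1 → dd φ u ∈ D) (I : List (Fin r)) :
    ∃ Q : List (Fin r → Multiplicative (ZMod 2)) → F, (∀ u, Q u ∈ N) ∧
      (∀ (b : Fin r → Multiplicative (ZMod 2)) u, Q (u.map (fun c => b * c)) - Q u ∈ D) ∧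
      ∀ u, u.length = m → (2 : ℕ) • φ u -
        (2 : ℕ) • φ (u.map (fun x i => if i ∈ I then 1 else x i)) - dd Q u ∈ D := by
  classical
  induction I with
  | nil =>
    refine ⟨fun _ => 0, fun _ => N.zero_mem, fun _ _ => by simp [D.zero_mem], fun u _ => ?_⟩
    rw [dd_zero]
    have : (fun (x : Fin r → Multiplicative (ZMod 2)) (i : Fin r) =>
        if i ∈ ([] : List (Fin r)) then (1 : Multiplicative (ZMod 2)) else x i) = id := by
      funext x i
      simp
    rw [this, List.map_id]
    simp [D.zero_mem]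
  | cons i₀ I ih =>
    obtain ⟨Q, hQN, hQi, hQd⟩ := ih
    -- the cochain pulled back by killing the coordinates in `I`
    set p : (Fin r → Multiplicative (ZMod 2)) → (Fin r → Multiplicative (ZMod 2)) :=
      fun x i => if i ∈ I then 1 else x i with hp
    have hpm : ∀ a b, p (a * b) = p a * p b := by
      intro a b
      funext i
      simp only [hp, Pi.mul_apply]
      split_ifs <;> simp
    set π : (Fin r → Multiplicative (ZMod 2)) → (Fin r → Multiplicative (ZMod 2)) :=
      fun x => Function.update x i₀ 1 with hπ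
    have hpπ : ∀ x, p (π x) = fun i => if i ∈ i₀ :: I then 1 else x i := by
      intro x
      funext i
      simp only [hp, hπ, List.mem_cons, Function.update_apply]
      by_cases h1 : i ∈ I
      · simp [h1]
      · by_cases h2 : i = i₀
        · simp [h2]
        · simp [h1, h2]
    set c : Fin r → Multiplicative (ZMod 2) := Pi.mulSingle i₀ (Multiplicative.ofAdd 1) with hc
    have h2 : ∀ y : Multiplicative (ZMod 2), y * y = 1 := by decide
    have hcc : c * c = 1 := by
      funext i
      exact h2 _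
    have hcase : ∀ b : Fin r → Multiplicative (ZMod 2), (∀ x, π (b * x) = b * π x) ∨
        ∃ b', b = c * b' ∧ ∀ x, π (b' * x) = b' * π x := by
      have hgood : ∀ b : Fin r → Multiplicative (ZMod 2), b i₀ = 1 → ∀ x, π (b * x) = b * π x := by
        intro b hb x
        funext i
        by_cases h : i = i₀
        · subst h
          simp [hπ, hb]
        · simp [hπ, Function.update_of_ne h]
      intro b
      have h3 : ∀ y : Multiplicative (ZMod 2), y = 1 ∨ y = Multiplicative.ofAdd 1 := by decide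
      rcases h3 (b i₀) with h | h
      · exact Or.inl (hgood b h)
      · refine Or.inr ⟨c * b, ?_, hgood _ ?_⟩
        · rw [← mul_assoc, hcc, one_mul]
        · rw [Pi.mul_apply, h, hc, Pi.mulSingle_eq_same]
          exact h2 _
    obtain ⟨Q', hQ'N, hQ'i, hQ'd⟩ := KL_step (m := m) hDN c hcc π (by
        intro x
        funext i
        by_cases h : i = i₀
        · subst h
          simp [hπ]
        · simp [hπ, hc, Function.update_of_ne h, Pi.mulSingle_eq_of_ne h]) hcase
      (fun u => φ (u.map p)) (fun u => hφN _) (by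
        intro b u
        have e : (u.map (fun c => b * c)).map p = (u.map p).map (fun c => p b * c) := by
          rw [List.map_map, List.map_map]
          apply List.map_congr_left
          intro y _
          exact hpm b y
        rw [e]
        exact hφi _ _) (by
        intro u hu
        rw [dd_map]
        exact hφd _ (by rw [List.length_map, hu]))
    refine ⟨fun u => Q u + Q' u, fun u => N.add_mem (hQN u) (hQ'N u), fun b u => ?_,
      fun u hu => ?_⟩
    · have e : Q (u.map (fun c => b * c)) + Q' (u.map (fun c => b * c)) - (Q u + Q' u) =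
          (Q (u.map (fun c => b * c)) - Q u) + (Q' (u.map (fun c => b * c)) - Q' u) := by abel
      simp only
      rw [e]
      exact D.add_mem (hQi b u) (hQ'i b u)
    · rw [dd_add]
      have e1 : (u.map π).map p = u.map (fun x i => if i ∈ i₀ :: I then 1 else x i) := by
        rw [List.map_map]
        apply List.map_congr_left
        intro y _
        exact hpπ y
      have k1 := hQd u hu
      have k2 := hQ'd u hu
      rw [e1] at k2
      have e2 : (2 : ℕ) • φ u -
          (2 : ℕ) • φ (u.map (fun x i => if i ∈ i₀ :: I then 1 else x i)) - (dd Q u + dd Q' u) =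
          ((2 : ℕ) • φ u - (2 : ℕ) • φ (u.map p) - dd Q u) +
          ((2 : ℕ) • φ (u.map p) -
            (2 : ℕ) • φ (u.map (fun x i => if i ∈ i₀ :: I then 1 else x i)) - dd Q' u) := by
        abel
      rw [e2]
      exact D.add_mem k1 k2

/-- Trivial coefficients, `B = (ℤ/2)^r`: killed by `2`. -/
theorem KL_trivial {r : ℕ} [DistribMulAction (Fin r → Multiplicative (ZMod 2)) F] {N D : AddSubgroup F}
    (hDN : D ≤ N) (htriv : ∀ (b : Fin r → Multiplicative (ZMod 2)), ∀ f ∈ N, b • f - f ∈ D)
    (hD : ∀ (b : Fin r → Multiplicative (ZMod 2)), ∀ f ∈ D, b • f ∈ D) {m : ℕ}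
    (hm : 2 ≤ m) : KL (Fin r → Multiplicative (ZMod 2)) 2 m N D := by
  intro φ hφN hφe hφd
  have hφi : ∀ (b : Fin r → Multiplicative (ZMod 2)) u,
      φ (u.map (fun c => b * c)) - φ u ∈ D := by
    intro b u
    rw [hφe]
    exact htriv b _ (hφN u)
  obtain ⟨Q, hQN, hQi, hQd⟩ := KL_coords hDN φ hφN hφi hφd (List.finRange r)
  have hpi : (fun (x : Fin r → Multiplicative (ZMod 2)) (i : Fin r) =>
      if i ∈ List.finRange r then (1 : Multiplicative (ZMod 2)) else x i) = fun _ => 1 := by
    funext x i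
    simp
  have hrep : ∀ u : List (Fin r → Multiplicative (ZMod 2)),
      u.map (fun _ => (1 : Fin r → Multiplicative (ZMod 2))) = List.replicate u.length 1 := by
    intro u
    exact List.map_const' ..
  set k : F := φ (List.replicate m 1) with hk
  have hkN : k ∈ N := hφN _
  -- the constant part
  obtain ⟨κ, hκN, hκd⟩ : ∃ κ ∈ N, ∀ u : List (Fin r → Multiplicative (ZMod 2)), u.length = m →
      (2 : ℕ) • k - dd (fun _ => κ) u ∈ D := by
    by_cases hodd : m % 2 = 1
    · refine ⟨(2 : ℕ) • k, N.nsmul_mem hkN 2, fun u hu => ?_⟩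
      rw [dd_const, if_pos (by rw [hu, hodd]), sub_self]
      exact D.zero_mem
    · refine ⟨0, N.zero_mem, fun u hu => ?_⟩
      rw [dd_zero, sub_zero]
      have h1 := hφd (List.replicate (m + 1) 1) (List.length_replicate ..)
      have h2 : dd φ (List.replicate (m + 1) 1) =
          dd (fun _ : List (Fin r → Multiplicative (ZMod 2)) => k) (List.replicate (m + 1) 1) := by
        apply dd_congr
        intro w hw hl
        have : w = List.replicate m 1 := by
          rw [List.eq_replicate_iff]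
          refine ⟨by rw [List.length_replicate] at hl; omega, fun b hb => ?_⟩
          exact List.eq_of_mem_replicate (hw hb)
        rw [this]
      rw [h2, dd_const, if_pos (by rw [List.length_replicate]; omega)] at h1
      exact D.nsmul_mem h1 2
  set ψ : List (Fin r → Multiplicative (ZMod 2)) → F := fun u => Q u + κ with hψ
  have hψN : ∀ u, ψ u ∈ N := fun u => N.add_mem (hQN u) hκN
  have hψi : ∀ (b : Fin r → Multiplicative (ZMod 2)) u,
      ψ (u.map (fun c => b * c)) - ψ u ∈ D := by
    intro b u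
    have : ψ (u.map (fun c => b * c)) - ψ u = Q (u.map (fun c => b * c)) - Q u := by
      simp only [hψ]; abel
    rw [this]
    exact hQi b u
  have hψd : ∀ u, u.length = m → (2 : ℕ) • φ u - dd ψ u ∈ D := by
    intro u hu
    have k1 := hQd u hu
    rw [hpi, hrep, hu] at k1
    have k2 := hκd u hu
    have e1 : (2 : ℕ) • φ u - dd ψ u =
        ((2 : ℕ) • φ u - (2 : ℕ) • φ (List.replicate m 1) - dd Q u) +
        ((2 : ℕ) • k - dd (fun _ => κ) u) := by
      simp only [hψ]
      rw [dd_add, hk]
      abel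
    rw [e1]
    exact D.add_mem k1 k2
  have hNinv : ∀ (b : Fin r → Multiplicative (ZMod 2)), ∀ f ∈ N, b • f ∈ N := by
    intro b f hf
    have : b • f = (b • f - f) + f := by abel
    rw [this]
    exact N.add_mem (hDN (htriv b f hf)) hf
  refine ⟨eqv ψ, eqv_mem hNinv hψN, eqv_equivariant ψ, fun u hu => ?_⟩
  have hcl : ∀ w : List (Fin r → Multiplicative (ZMod 2)), w ≠ [] → eqv ψ w - ψ w ∈ D := by
    intro w hw
    cases w with
    | nil => exact absurd rfl hw
    | cons x v =>
      have e1 : eqv ψ (x :: v) - ψ (x :: v) =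
          (x • ψ ((x :: v).map (fun c => x⁻¹ * c)) - ψ ((x :: v).map (fun c => x⁻¹ * c))) +
          (ψ ((x :: v).map (fun c => x⁻¹ * c)) - ψ (x :: v)) := by
        have : eqv ψ (x :: v) = x • ψ ((x :: v).map (fun c => x⁻¹ * c)) := rfl
        rw [this]; abel
      rw [e1]
      exact D.add_mem (htriv x _ (hψN _)) (hψi _ _)
  have e2 : (2 : ℕ) • φ u - dd (eqv ψ) u =
      ((2 : ℕ) • φ u - dd ψ u) - dd (fun w => eqv ψ w - ψ w) u := by
    rw [dd_sub]; abel
  rw [e2]
  refine D.sub_mem (hψd u hu) (dd_mem D u _ fun w hw => hcl w ?_)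
  rintro rfl
  simp only [List.length_nil] at hw
  omega

/-- The coboundaries of degree `j ≥ 1` have exponent `e₀ 2 ^ (j - 1)`. -/
theorem KL_BB {r n e₀ : ℕ} [DistribMulAction (Fin r → Multiplicative (ZMod 2)) F]
    {δ : F →+ F} (hδ : ∀ f, δ (δ f) = 0) {N D : ℕ → AddSubgroup F} (hC : Cx δ N D)
    (hδB : ∀ (b : Fin r → Multiplicative (ZMod 2)) f, δ (b • f) = b • δ f)
    (hN : ∀ (b : Fin r → Multiplicative (ZMod 2)) j, ∀ f ∈ N j, b • f ∈ N j)
    (hD : ∀ (b : Fin r → Multiplicative (ZMod 2)) j, ∀ f ∈ D j, b • f ∈ D j)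
    (hac : ∀ j m, 2 ≤ m → KL (Fin r → Multiplicative (ZMod 2)) 1 m (N j) (D j))
    (htriv : ∀ j ≤ n, ∀ (b : Fin r → Multiplicative (ZMod 2)), ∀ z ∈ ZZ δ N D j,
      b • z - z ∈ BB δ N D j)
    (h₀ : ∀ m, 2 ≤ m → KL (Fin r → Multiplicative (ZMod 2)) e₀ m (ZZ δ N D 0) (D 0))
    (j : ℕ) (hj : j + 1 ≤ n) (m : ℕ) (hm : 2 ≤ m) :
    KL (Fin r → Multiplicative (ZMod 2)) (e₀ * 2 ^ j) m (BB δ N D (j + 1)) (D (j + 1)) := by
  induction j generalizing m with
  | zero =>
    rw [pow_zero, mul_one]
    exact KL_shift hδ hC hδB hN hD hm (hac 0 m hm) (h₀ (m + 1) (by omega))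
  | succ j ih =>
    have hBBinv : ∀ (b : Fin r → Multiplicative (ZMod 2)), ∀ f ∈ BB δ N D (j + 1),
        b • f ∈ BB δ N D (j + 1) := by
      intro b f hf
      obtain ⟨g, hg, h'⟩ := mem_BB_succ.1 hf
      refine mem_BB_succ.2 ⟨b • g, hN b j g hg, ?_⟩
      rw [hδB, ← smul_sub]
      exact hD b _ _ h'
    have h1 := ih (by omega) (m + 1) (by omega)
    have h2 : KL (Fin r → Multiplicative (ZMod 2)) 2 (m + 1) (ZZ δ N D (j + 1))
        (BB δ N D (j + 1)) :=
      KL_trivial (BB_le_ZZ hδ hC (j + 1)) (htriv (j + 1) (by omega)) hBBinv (by omega)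
    have h3 := KL_mid (BB_le_ZZ hδ hC (j + 1)) (D_le_BB (j + 1)) h1 h2
    rw [pow_succ, ← mul_assoc]
    exact KL_shift hδ hC hδB hN hD hm (hac (j + 1) m hm) h3

/-- The conclusion: `e₀ 2^(n-1) w - v` is invariant for some coboundary `v`. Here `e₀ = 2` in
general (KL_trivial) and `e₀ = 1` if `ZZ 0 ≤ D 0`. -/
theorem exists_invariant {r n e₀ : ℕ} [DistribMulAction (Fin r → Multiplicative (ZMod 2)) F]
    {δ : F →+ F} (hδ : ∀ f, δ (δ f) = 0) {N D : ℕ → AddSubgroup F} (hC : Cx δ N D)
    (hδB : ∀ (b : Fin r → Multiplicative (ZMod 2)) f, δ (b • f) = b • δ f)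
    (hN : ∀ (b : Fin r → Multiplicative (ZMod 2)) j, ∀ f ∈ N j, b • f ∈ N j)
    (hD : ∀ (b : Fin r → Multiplicative (ZMod 2)) j, ∀ f ∈ D j, b • f ∈ D j)
    (hac : ∀ j m, 2 ≤ m → KL (Fin r → Multiplicative (ZMod 2)) 1 m (N j) (D j))
    (htriv : ∀ j ≤ n, ∀ (b : Fin r → Multiplicative (ZMod 2)), ∀ z ∈ ZZ δ N D j,
      b • z - z ∈ BB δ N D j)
    (h₀ : ∀ m, 2 ≤ m → KL (Fin r → Multiplicative (ZMod 2)) e₀ m (ZZ δ N D 0) (D 0))
    (hn : 1 ≤ n) {w : F} (hw : w ∈ ZZ δ N D n) :
    ∃ v ∈ BB δ N D n, ∀ b : Fin r → Multiplicative (ZMod 2),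
      b • ((e₀ * 2 ^ (n - 1)) • w - v) - ((e₀ * 2 ^ (n - 1)) • w - v) ∈ D n := by
  obtain ⟨n, rfl⟩ : ∃ k, n = k + 1 := ⟨n - 1, by omega⟩
  rw [Nat.add_sub_cancel]
  set W : List (Fin r → Multiplicative (ZMod 2)) → F := eqv (fun _ => w) with hW
  have hWs : ∀ a, W [a] = a • w := fun a => rfl
  obtain ⟨ψ, hψN, hψe, hψd⟩ := KL_BB hδ hC hδB hN hD hac htriv h₀ n le_rfl 2 le_rfl (cut 2 (dd W))
    (cut_mem fun u hu => by
      obtain ⟨a, b, rfl⟩ := List.length_eq_two.1 hu
      have e : dd W [a, b] = (b • w - w) - (a • w - w) := by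
        simp [dd, hWs]
      rw [e]
      exact (BB δ N D (n + 1)).sub_mem (htriv (n + 1) le_rfl b w hw) (htriv (n + 1) le_rfl a w hw))
    (cut_equivariant (dd_equivariant (eqv_equivariant _))) (fun u hu => by
      rw [dd_cut _ hu, dd_dd]
      exact (D (n + 1)).zero_mem)
  refine ⟨ψ [1], hψN _, fun b => ?_⟩
  have h1 := hψd [1, b] rfl
  rw [cut_eq (m := 2) _ (show [1, b].length = 2 from rfl)] at h1
  have h2 : ψ [b] = b • ψ [1] := by
    have := hψe b [1]
    simpa using this
  have e1 : dd W [1, b] = b • w - w := by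
    simp [dd, hWs]
  have e2 : dd ψ [1, b] = b • ψ [1] - ψ [1] := by
    simp [dd, h2]
  rw [e1, e2] at h1
  have e3 : b • ((e₀ * 2 ^ n) • w - ψ [1]) - ((e₀ * 2 ^ n) • w - ψ [1]) =
      (e₀ * 2 ^ n) • (b • w - w) - (b • ψ [1] - ψ [1]) := by
    rw [smul_sub b, smul_comm b (e₀ * 2 ^ n), smul_sub (e₀ * 2 ^ n)]
    abel
  rw [e3]
  exact h1

end RowE

end Pool.Agent.AXS
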