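import Pool.Agent.AXS.Chain

/-!
# Small cycles in a locally contractible space bound
-/

set_option autoImplicit false

open Set Metric MeasureTheory Topology

namespace Pool.Agent.AXS

theorem bdl_replicate {X : Type*} (p : X) (k : ℕ) :
    bdl (List.replicate (k + 1) p) =
      if Even k then Finsupp.single (List.replicate k p) 1 else 0 := by
  induction k with
  | zero =>
    have e : bdl (List.replicate 1 p) = Finsupp.single ([] : List X) 1 - cn p (bdl ([] : List X)) := rfl
    have e2 : bdl ([] : List X) = 0 := rfl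
    rw [zero_add, e, e2, map_zero, sub_zero, if_pos (by decide)]
    rfl
  | succ k ih =>
    have e : bdl (List.replicate (k + 1 + 1) p) = Finsupp.single (List.replicate (k + 1) p) 1 -
      cn p (bdl (List.replicate (k + 1) p)) := rfl
    rw [e, ih]
    by_cases hk : Even k
    · rw [if_pos hk, if_neg (by rw [Nat.even_add_one]; simpa using hk), cn_single]
      exact sub_self _
    · rw [if_neg hk, if_pos (by rw [Nat.even_add_one]; exact hk), map_zero, sub_zero]

/-- Small cycles bound, if there are uniform discretised contractions. -/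
theorem fill_of {X : Type*} [MetricSpace X]
    (hU : ∀ ε : ℝ, 0 < ε → ∃ δ > 0, ∀ η > 0, ∃ η' > 0, ∃ N : ℕ, ∀ x : X, ∃ g : ℕ → X → X,
      (∀ y ∈ ball x δ, g 0 y = y) ∧ (∀ y ∈ ball x δ, ∀ y' ∈ ball x δ, g N y = g N y') ∧
      (∀ i ≤ N, ∀ y ∈ ball x δ, dist (g i y) x < ε) ∧
      ∀ i ≤ N, ∀ y ∈ ball x δ, ∀ y' ∈ ball x δ, dist y y' < η' →
        dist (g i y) (g i y') < η ∧ dist (g i y) (g (i + 1) y') < η) {ε : ℝ} (hε : 0 < ε) :
    ∃ δ > 0, ∀ η > 0, ∃ η' > 0, ∀ (x : X) (k : ℕ) (c : Ch X),
      (∀ l ∈ c.support, l.length = k ∧ Sm η' l ∧ ∀ y ∈ l, dist y x < δ) → bd c = 0 →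
      ∃ c' : Ch X, (∀ l ∈ c'.support, l.length = k + 1 ∧ Sm η l ∧ ∀ y ∈ l, dist y x < ε) ∧
        bd c' = c := by
  obtain ⟨δ, hδ, hU⟩ := hU ε hε
  refine ⟨δ, hδ, fun η hη => ?_⟩
  obtain ⟨η', hη', N, hU⟩ := hU η hη
  refine ⟨η', hη', fun x k c hc hbd => ?_⟩
  obtain ⟨g, hg0, hgN, hgε, hgη⟩ := hU x
  set p : X := g N x with hp
  have hxx : x ∈ ball x δ := mem_ball_self hδ
  set m : ℤ := pr (fun _ : List X => (1 : ℤ)) c with hm
  -- the prisms
  have hpz : ∀ i : ℕ, bd (pr (pz (g i) (g (i + 1))) c) =
      pr (fun l => (Finsupp.single (l.map (g (i + 1))) 1 : Ch X)) c -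
        pr (fun l => (Finsupp.single (l.map (g i)) 1 : Ch X)) c := by
    intro i
    have e1 : pr (fun l => pr (pz (g i) (g (i + 1))) (bdl l)) c = 0 := by
      rw [← pr_hom]
      show pr (pz (g i) (g (i + 1))) (bd c) = 0
      rw [hbd, map_zero]
    rw [pr_hom, ← pr_sub_fun, ← add_zero (pr (fun l => bd (pz (g i) (g (i + 1)) l)) c), ← e1,
      ← pr_add_fun]
    apply pr_congr
    intro l _
    exact bd_pz _ _ l
  have hsum : ∀ M : ℕ, bd (∑ i ∈ Finset.range M, pr (pz (g i) (g (i + 1))) c) =
      pr (fun l => (Finsupp.single (l.map (g M)) 1 : Ch X)) c -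
        pr (fun l => (Finsupp.single (l.map (g 0)) 1 : Ch X)) c := by
    intro M
    induction M with
    | zero => rw [Finset.sum_range_zero, map_zero, sub_self]
    | succ M ih =>
      rw [Finset.sum_range_succ, map_add, ih, hpz]
      abel
  have h0 : pr (fun l => (Finsupp.single (l.map (g 0)) 1 : Ch X)) c = c := by
    have e : pr (fun l => (Finsupp.single l 1 : Ch X)) c = c := by
      have : pr (fun l => (Finsupp.single l 1 : Ch X)) = AddMonoidHom.id (Ch X) := by
        apply Ch.hom_ext
        intro l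
        rw [pr_single_one]
        rfl
      rw [this]
      rfl
    rw [pr_congr _ (fun l => (Finsupp.single l 1 : Ch X)) c, e]
    intro l hl
    have : l.map (g 0) = l := by
      conv_rhs => rw [← List.map_id l]
      apply List.map_congr_left
      intro y hy
      exact hg0 y ((hc l hl).2.2 y hy)
    rw [this]
  have hN : pr (fun l => (Finsupp.single (l.map (g N)) 1 : Ch X)) c =
      m • Finsupp.single (List.replicate k p) 1 := by
    have e : (zmultiplesHom (Ch X) (Finsupp.single (List.replicate k p) 1)) m =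
        pr (fun _ => (Finsupp.single (List.replicate k p) 1 : Ch X)) c := by
      rw [hm, pr_hom]
      congr 1
      congr 1
      funext l
      simp
    have e' : (zmultiplesHom (Ch X) (Finsupp.single (List.replicate k p) 1)) m =
      m • Finsupp.single (List.replicate k p) 1 := rfl
    rw [← e', e]
    apply pr_congr
    intro l hl
    congr 1
    rw [List.eq_replicate_iff]
    refine ⟨by rw [List.length_map]; exact (hc l hl).1, ?_⟩
    intro z hz
    obtain ⟨y, hy, rfl⟩ := List.mem_map.1 hz
    exact hgN y ((hc l hl).2.2 y hy) x hxx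
  have hcyc : bd (m • Finsupp.single (List.replicate k p) 1 : Ch X) = 0 := by
    rw [← hN, pr_hom]
    have : (fun l => bd (Finsupp.single (l.map (g N)) 1 : Ch X)) =
        fun l => pr (fun w => (Finsupp.single (w.map (g N)) 1 : Ch X)) (bdl l) := by
      funext l
      rw [bd_single, pr_map_bdl]
    rw [this, ← pr_hom]
    show pr _ (bd c) = 0
    rw [hbd, map_zero]
  have hfin : bd (m • Finsupp.single (List.replicate (k + 1) p) 1 : Ch X) =
      m • Finsupp.single (List.replicate k p) 1 := by
    by_cases hk : Even k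
    · rw [map_zsmul, bd_single, bdl_replicate, if_pos hk]
    · obtain ⟨k', rfl⟩ : ∃ k', k = k' + 1 := by
        cases k with
        | zero => exact absurd (by decide) hk
        | succ k' => exact ⟨k', rfl⟩
      have hk' : Even k' := by
        rw [Nat.even_add_one, not_not] at hk
        exact hk
      rw [map_zsmul, bd_single, bdl_replicate, if_pos hk'] at hcyc
      have : m = 0 := by
        have h := DFunLike.congr_fun hcyc (List.replicate k' p)
        simpa using h
      rw [this, zero_smul, zero_smul, map_zero]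
  refine ⟨m • Finsupp.single (List.replicate (k + 1) p) 1 -
    ∑ i ∈ Finset.range N, pr (pz (g i) (g (i + 1))) c, ?_, ?_⟩
  · intro l hl
    rcases supp_sub _ _ _ hl with h | h
    · have hl' : l = List.replicate (k + 1) p := supp_single _ _ 1 (Finsupp.support_smul h)
      subst hl'
      refine ⟨List.length_replicate, ?_, ?_⟩
      · intro a ha b hb
        rw [List.eq_of_mem_replicate ha, List.eq_of_mem_replicate hb, dist_self]
        exact hη
      · intro a ha
        rw [List.eq_of_mem_replicate ha]
        exact hgε N le_rfl x hxx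
    · classical
      obtain ⟨i, hi, hli⟩ : ∃ i ∈ Finset.range N, l ∈ (pr (pz (g i) (g (i + 1))) c).support := by
        have := Finsupp.support_finset_sum h
        simpa using this
      have hiN := Finset.mem_range.1 hi
      obtain ⟨l', hl', hll'⟩ := supp_pr _ _ _ hli
      obtain ⟨h1, h2⟩ := supp_pz _ _ _ _ hll'
      obtain ⟨h3, h4, h5⟩ := hc l' hl'
      refine ⟨by omega, ?_, ?_⟩
      · intro a ha b hb
        have ha' := h1 ha
        have hb' := h1 hb
        simp only [List.mem_append, List.mem_map] at ha' hb'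
        rcases ha' with ⟨y, hy, rfl⟩ | ⟨y, hy, rfl⟩ <;>
          rcases hb' with ⟨z, hz, rfl⟩ | ⟨z, hz, rfl⟩
        · exact (hgη i hiN.le y (h5 y hy) z (h5 z hz) (h4 y hy z hz)).1
        · exact (hgη i hiN.le y (h5 y hy) z (h5 z hz) (h4 y hy z hz)).2
        · rw [dist_comm]
          exact (hgη i hiN.le z (h5 z hz) y (h5 y hy) (h4 z hz y hy)).2
        · exact (hgη (i + 1) hiN y (h5 y hy) z (h5 z hz) (h4 y hy z hz)).1
      · intro a ha
        have ha' := h1 ha
        simp only [List.mem_append, List.mem_map] at ha'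
        rcases ha' with ⟨y, hy, rfl⟩ | ⟨y, hy, rfl⟩
        · exact hgε i hiN.le y (h5 y hy)
        · exact hgε (i + 1) hiN y (h5 y hy)
  · rw [map_sub, hfin, hsum, h0, hN]
    abel

end Pool.Agent.AXS
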