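import Pool.Agent.AXS.Contr
import Pool.Agent.AXS.Fill0

/-!
# Small cycles in a locally contractible compact space bound
-/

set_option autoImplicit false

open Set Metric MeasureTheory Topology

namespace Pool.Agent.AXS

theorem fill {X : Type*} [MetricSpace X] [CompactSpace X] (h : LocContr X) {ε : ℝ} (hε : 0 < ε) :
    ∃ δ > 0, ∀ η > 0, ∃ η' > 0, ∀ (x : X) (k : ℕ) (c : Ch X),
      (∀ l ∈ c.support, l.length = k ∧ Sm η' l ∧ ∀ y ∈ l, dist y x < δ) → bd c = 0 →
      ∃ c' : Ch X, (∀ l ∈ c'.support, l.length = k + 1 ∧ Sm η l ∧ ∀ y ∈ l, dist y x < ε) ∧ bd c' = c :=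
  fill_of (fun _ hε' => unif_contr h hε') hε

end Pool.Agent.AXS
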