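import Pool.Agent.AXS.Defs

/-! # Row A: abstract finiteness for pairs of subgroup sequences -/

set_option autoImplicit false

namespace Pool.Agent.AXS

section RowA

variable {F : Type*} [AddCommGroup F] {δ : F →+ F} (hδ : ∀ f, δ (δ f) = 0)

theorem Cx.trans {N M D : ℕ → AddSubgroup F} (hNM : Cx δ N M) (hMD : Cx δ M D) : Cx δ N D :=
  ⟨fun j => (hMD.le j).trans (hNM.le j), hNM.dN, hMD.dD⟩

/-- A coboundary of `N / M` is one of `N / D` up to an element of `M`. -/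
theorem BB_split {N M D : ℕ → AddSubgroup F} {j : ℕ} {f : F} (hf : f ∈ BB δ N M j) :
    ∃ b ∈ BB δ N D j, f - b ∈ M j := by
  cases j with
  | zero => exact ⟨0, (BB δ N D 0).zero_mem, by rw [sub_zero]; exact hf⟩
  | succ j =>
    obtain ⟨g, hg, h⟩ := mem_BB_succ.1 hf
    exact ⟨δ g, mem_BB_succ.2 ⟨g, hg, by simp [(D (j + 1)).zero_mem]⟩, h⟩

theorem ZZ_mono_left {N M D : ℕ → AddSubgroup F} (h : ∀ j, M j ≤ N j) {j : ℕ} {f : F}
    (hf : f ∈ ZZ δ M D j) : f ∈ ZZ δ N D j := ⟨h j hf.1, hf.2⟩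

/-- A finite set of representatives which is compatible with a predicate: for each element of a
finite set choose one good element related to it. -/
theorem pick_finite {P : F → Prop} {S : Set F} (hS : S.Finite) {r : F → F → Prop} :
    ∃ S' : Set F, S'.Finite ∧ (∀ s ∈ S', P s) ∧
      ∀ z, P z → ∀ s ∈ S, r z s → ∃ s' ∈ S', r s' s := by
  classical
  refine ⟨{x | ∃ s ∈ S, ∃ h : ∃ z, P z ∧ r z s, x = h.choose}, ?_, ?_, ?_⟩
  · have : {x | ∃ s ∈ S, ∃ h : ∃ z, P z ∧ r z s, x = h.choose} ⊆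
        (fun s => if h : ∃ z, P z ∧ r z s then h.choose else 0) '' S := by
      rintro x ⟨s, hs, h, rfl⟩
      exact ⟨s, hs, dif_pos h⟩
    exact (hS.image _).subset this
  · rintro x ⟨s, _, h, rfl⟩
    exact h.choose_spec.1
  · intro z hz s hs hr
    have h : ∃ z, P z ∧ r z s := ⟨z, hz, hr⟩
    exact ⟨h.choose, ⟨s, hs, h, rfl⟩, h.choose_spec.2⟩

include hδ

/-- (a) `H^(j-1) (N/M)`, `H^j (N/D)` finite implies `H^j (M/D)` finite. -/
theorem finH_sub {N M D : ℕ → AddSubgroup F} (hNM : Cx δ N M) (hMD : Cx δ M D) {j : ℕ}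
    (h1 : ∀ i, i + 1 = j → FinH δ N M i) (h2 : FinH δ N D j) : FinH δ M D j := by
  obtain ⟨S, hS, hSZ, hSr⟩ := h2
  obtain ⟨S', hS', hSP, hSr'⟩ := pick_finite (P := fun z => z ∈ ZZ δ M D j) hS
    (r := fun z s => z - s ∈ BB δ N D j)
  have hND := hNM.trans hMD
  -- every cocycle of M differs from an element of S' by a coboundary of N
  have key : ∀ z ∈ ZZ δ M D j, ∃ s ∈ S', z - s ∈ BB δ N D j := by
    intro z hz
    obtain ⟨s, hs, h⟩ := hSr z (ZZ_mono_left hNM.le hz)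
    obtain ⟨s', hs', h'⟩ := hSr' z hz s hs h
    refine ⟨s', hs', ?_⟩
    have e : z - s' = (z - s) - (s' - s) := by abel
    rw [e]; exact (BB δ N D j).sub_mem h h'
  cases j with
  | zero => exact ⟨S', hS', hSP, key⟩
  | succ i =>
    obtain ⟨T, hT, hTZ, hTr⟩ := h1 i rfl
    refine ⟨Set.image2 (fun s t => s + δ t) S' T, hS'.image2 _ hT, ?_, ?_⟩
    · rintro _ ⟨s, hs, t, ht, rfl⟩
      refine (ZZ δ M D (i + 1)).add_mem (hSP s hs) ⟨(hTZ t ht).2, ?_⟩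
      show δ (δ t) ∈ D (i + 1 + 1)
      rw [hδ]; exact (D (i + 1 + 1)).zero_mem
    · intro z hz
      obtain ⟨s, hs, h⟩ := key z hz
      obtain ⟨g, hg, hd⟩ := mem_BB_succ.1 h
      have hgZ : g ∈ ZZ δ N M i := by
        refine ⟨hg, ?_⟩
        show δ g ∈ M (i + 1)
        have e : δ g = (z - s) - (z - s - δ g) := by abel
        rw [e]
        exact (M (i + 1)).sub_mem ((M (i + 1)).sub_mem hz.1 (hSP s hs).1) (hMD.le _ hd)
      obtain ⟨t, ht, h'⟩ := hTr g hgZ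
      obtain ⟨b, hb, hm⟩ := BB_split (D := D) h'
      refine ⟨s + δ t, Set.mem_image2_of_mem hs ht, mem_BB_succ.2 ⟨g - t - b, hm, ?_⟩⟩
      have hb' : δ b ∈ D (i + 1) := (BB_le_ZZ hδ hND i hb).2
      have e : z - (s + δ t) - δ (g - t - b) = (z - s - δ g) + δ b := by
        rw [map_sub, map_sub]; abel
      rw [e]
      exact (D (i + 1)).add_mem hd hb'

/-- (b) `H^j (M/D)`, `H^j (N/M)` finite implies `H^j (N/D)` finite. -/
theorem finH_mid {N M D : ℕ → AddSubgroup F} (hNM : Cx δ N M) (hMD : Cx δ M D) {j : ℕ}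
    (h1 : FinH δ M D j) (h2 : FinH δ N M j) : FinH δ N D j := by
  obtain ⟨S, hS, hSZ, hSr⟩ := h2
  obtain ⟨T, hT, hTZ, hTr⟩ := h1
  have hND := hNM.trans hMD
  obtain ⟨S', hS', hSP, hSr'⟩ := pick_finite (P := fun z => z ∈ ZZ δ N D j) hS
    (r := fun z s => z - s ∈ BB δ N M j)
  refine ⟨Set.image2 (fun s t => s + t) S' T, hS'.image2 _ hT, ?_, ?_⟩
  · rintro _ ⟨s, hs, t, ht, rfl⟩
    exact (ZZ δ N D j).add_mem (hSP s hs) (ZZ_mono_left hNM.le (hTZ t ht))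
  · intro z hz
    have hz' : z ∈ ZZ δ N M j := ⟨hz.1, hMD.le _ hz.2⟩
    obtain ⟨s0, hs0, h0⟩ := hSr z hz'
    obtain ⟨s, hs, h⟩ := hSr' z hz s0 hs0 h0
    have h3 : z - s ∈ BB δ N M j := by
      have e : z - s = (z - s0) - (s - s0) := by abel
      rw [e]; exact (BB δ N M j).sub_mem h0 h
    obtain ⟨b, hb, hm⟩ := BB_split (D := D) h3
    have hmZ : z - s - b ∈ ZZ δ M D j := by
      refine ⟨hm, ?_⟩
      show δ (z - s - b) ∈ D (j + 1)
      rw [map_sub, map_sub]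
      exact (D (j + 1)).sub_mem ((D (j + 1)).sub_mem hz.2 (hSP s hs).2) (BB_le_ZZ hδ hND j hb).2
    obtain ⟨t, ht, h4⟩ := hTr _ hmZ
    refine ⟨s + t, Set.mem_image2_of_mem hs ht, ?_⟩
    have e : z - (s + t) = (z - s - b - t) + b := by abel
    rw [e]
    exact (BB δ N D j).add_mem (BB_le_of hNM.le (fun _ => le_rfl) j h4) hb

/-- (c) `H^j (N/D)`, `H^(j+1) (M/D)` finite implies `H^j (N/M)` finite. -/
theorem finH_quot {N M D : ℕ → AddSubgroup F} (hNM : Cx δ N M) (hMD : Cx δ M D) {j : ℕ}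
    (h1 : FinH δ N D j) (h2 : FinH δ M D (j + 1)) : FinH δ N M j := by
  obtain ⟨S, hS, hSZ, hSr⟩ := h2
  obtain ⟨T, hT, hTZ, hTr⟩ := h1
  obtain ⟨S', hS', hSP, hSr'⟩ := pick_finite (P := fun z => z ∈ ZZ δ N M j) hS
    (r := fun z s => δ z - s ∈ BB δ M D (j + 1))
  refine ⟨Set.image2 (fun s t => s + t) S' T, hS'.image2 _ hT, ?_, ?_⟩
  · rintro _ ⟨s, hs, t, ht, rfl⟩
    exact (ZZ δ N M j).add_mem (hSP s hs) ⟨(hTZ t ht).1, hMD.le _ (hTZ t ht).2⟩
  · intro z hz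
    have hdz : δ z ∈ ZZ δ M D (j + 1) := by
      refine ⟨hz.2, ?_⟩
      show δ (δ z) ∈ D (j + 1 + 1)
      rw [hδ]; exact (D (j + 1 + 1)).zero_mem
    obtain ⟨s0, hs0, h0⟩ := hSr _ hdz
    obtain ⟨s, hs, h⟩ := hSr' z hz s0 hs0 h0
    have h3 : δ z - δ s ∈ BB δ M D (j + 1) := by
      have e : δ z - δ s = (δ z - s0) - (δ s - s0) := by abel
      rw [e]; exact (BB δ M D (j + 1)).sub_mem h0 h
    obtain ⟨m, hm, hd⟩ := mem_BB_succ.1 h3
    have hZ : z - s - m ∈ ZZ δ N D j := by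
      refine ⟨(N j).sub_mem ((N j).sub_mem hz.1 (hSP s hs).1) (hNM.le _ hm), ?_⟩
      show δ (z - s - m) ∈ D (j + 1)
      rw [map_sub, map_sub]; exact hd
    obtain ⟨t, ht, h4⟩ := hTr _ hZ
    refine ⟨s + t, Set.mem_image2_of_mem hs ht, ?_⟩
    have e : z - (s + t) = (z - s - m - t) + m := by abel
    rw [e]
    exact (BB δ N M j).add_mem (BB_le_of (fun _ => le_rfl) hMD.le j h4) (D_le_BB j hm)

/-- Mayer-Vietoris, with `D₁ ⊔ D₂` and `D₁ ⊓ D₂`. -/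
theorem finH_mv {N D₁ D₂ : ℕ → AddSubgroup F} (h₁ : Cx δ N D₁) (h₂ : Cx δ N D₂) {j : ℕ}
    (f₁ : FinH δ N D₁ j) (f₂ : FinH δ N D₂ j)
    (f₃ : ∀ i, i + 1 = j → FinH δ N (fun k => D₁ k ⊔ D₂ k) i) :
    FinH δ N (fun k => D₁ k ⊓ D₂ k) j := by
  obtain ⟨S, hS, hSZ, hSr⟩ := f₁
  obtain ⟨T, hT, hTZ, hTr⟩ := f₂
  -- first D₁, then D₂
  obtain ⟨S', hS', hSP, hSr'⟩ := pick_finite
    (P := fun z => z ∈ ZZ δ N (fun k => D₁ k ⊓ D₂ k) j) hS (r := fun z s => z - s ∈ BB δ N D₁ j)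
  have keyS : ∀ z ∈ ZZ δ N (fun k => D₁ k ⊓ D₂ k) j, ∃ s ∈ S', z - s ∈ BB δ N D₁ j := by
    intro z hz
    obtain ⟨s0, hs0, h0⟩ := hSr z ⟨hz.1, hz.2.1⟩
    obtain ⟨s, hs, h⟩ := hSr' z hz s0 hs0 h0
    refine ⟨s, hs, ?_⟩
    have e : z - s = (z - s0) - (s - s0) := by abel
    rw [e]; exact (BB δ N D₁ j).sub_mem h0 h
  obtain ⟨T', hT', hTP, hTr'⟩ := pick_finite
    (P := fun z => z ∈ ZZ δ N (fun k => D₁ k ⊓ D₂ k) j ∧ z ∈ BB δ N D₁ j) hT
    (r := fun z s => z - s ∈ BB δ N D₂ j)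
  have keyT : ∀ z ∈ ZZ δ N (fun k => D₁ k ⊓ D₂ k) j, z ∈ BB δ N D₁ j →
      ∃ s ∈ T', z - s ∈ BB δ N D₂ j := by
    intro z hz hz'
    obtain ⟨s0, hs0, h0⟩ := hTr z ⟨hz.1, hz.2.2⟩
    obtain ⟨s, hs, h⟩ := hTr' z ⟨hz, hz'⟩ s0 hs0 h0
    refine ⟨s, hs, ?_⟩
    have e : z - s = (z - s0) - (s - s0) := by abel
    rw [e]; exact (BB δ N D₂ j).sub_mem h0 h
  -- an element is reached by s, t and an element which is a coboundary for both
  have keyU : ∀ z ∈ ZZ δ N (fun k => D₁ k ⊓ D₂ k) j, ∃ s ∈ S', ∃ t ∈ T',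
      z - s - t ∈ BB δ N D₁ j ∧ z - s - t ∈ BB δ N D₂ j := by
    intro z hz
    obtain ⟨s, hs, h⟩ := keyS z hz
    obtain ⟨t, ht, h'⟩ := keyT (z - s) ((ZZ δ N (fun k => D₁ k ⊓ D₂ k) j).sub_mem hz (hSP s hs)) h
    exact ⟨s, hs, t, ht, (BB δ N D₁ j).sub_mem h (hTP t ht).2, h'⟩
  cases j with
  | zero =>
    refine ⟨Set.image2 (fun s t => s + t) S' T', hS'.image2 _ hT', ?_, ?_⟩
    · rintro _ ⟨s, hs, t, ht, rfl⟩
      exact (ZZ δ N (fun k => D₁ k ⊓ D₂ k) 0).add_mem (hSP s hs) (hTP t ht).1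
    · intro z hz
      obtain ⟨s, hs, t, ht, h, h'⟩ := keyU z hz
      refine ⟨s + t, Set.mem_image2_of_mem hs ht, ?_⟩
      rw [← sub_sub]
      exact ⟨h, h'⟩
  | succ i =>
    obtain ⟨R, hR, hRZ, hRr⟩ := f₃ i rfl
    -- for each c of R a decomposition of δ c
    have hdec : ∀ c : F, ∃ p : F, c ∈ R → p ∈ D₁ (i + 1) ∧ δ c - p ∈ D₂ (i + 1) := by
      intro c
      by_cases hc : c ∈ R
      · obtain ⟨p, hp, q, hq, hpq⟩ := AddSubgroup.mem_sup.1 (hRZ c hc).2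
        refine ⟨p, fun _ => ⟨hp, ?_⟩⟩
        have e : δ c - p = q := by rw [← hpq]; abel
        rw [e]; exact hq
      · exact ⟨0, fun h => absurd h hc⟩
    choose p hp using hdec
    refine ⟨Set.image2 (fun x c => x - p c) (Set.image2 (fun s t => s + t) S' T') R,
      (hS'.image2 _ hT').image2 _ hR, ?_, ?_⟩
    · rintro _ ⟨_, ⟨s, hs, t, ht, rfl⟩, c, hc, rfl⟩
      refine (ZZ δ N (fun k => D₁ k ⊓ D₂ k) (i + 1)).sub_mem
        ((ZZ δ N (fun k => D₁ k ⊓ D₂ k) (i + 1)).add_mem (hSP s hs) (hTP t ht).1)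
        ⟨h₁.le _ (hp c hc).1, h₁.dD _ _ (hp c hc).1, ?_⟩
      have e : δ (p c) = -δ (δ c - p c) := by rw [map_sub, hδ]; abel
      rw [e]
      exact (D₂ (i + 1 + 1)).neg_mem (h₂.dD _ _ (hp c hc).2)
    · intro z hz
      obtain ⟨s, hs, t, ht, h, h'⟩ := keyU z hz
      obtain ⟨g₁, hg₁, hd₁⟩ := mem_BB_succ.1 h
      obtain ⟨g₂, hg₂, hd₂⟩ := mem_BB_succ.1 h'
      have hgZ : g₁ - g₂ ∈ ZZ δ N (fun k => D₁ k ⊔ D₂ k) i := by
        refine ⟨(N i).sub_mem hg₁ hg₂, ?_⟩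
        show δ (g₁ - g₂) ∈ D₁ (i + 1) ⊔ D₂ (i + 1)
        have e : δ (g₁ - g₂) = -(z - s - t - δ g₁) + (z - s - t - δ g₂) := by
          rw [map_sub]; abel
        rw [e]
        exact AddSubgroup.add_mem_sup ((D₁ (i + 1)).neg_mem hd₁) hd₂
      obtain ⟨c, hc, h3⟩ := hRr _ hgZ
      -- g₁ - g₂ = c + (a cocycle b) + e₁ + e₂
      have hsplit : ∃ b e₁ e₂ : F, δ b = 0 ∧ e₁ ∈ D₁ i ∧ e₂ ∈ D₂ i ∧
          g₁ - g₂ - c = b + e₁ + e₂ := by
        cases i with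
        | zero =>
          obtain ⟨e₁, he₁, e₂, he₂, he⟩ := AddSubgroup.mem_sup.1 h3
          exact ⟨0, e₁, e₂, map_zero _, he₁, he₂, by rw [← he]; abel⟩
        | succ k =>
          obtain ⟨g, hg, hd⟩ := mem_BB_succ.1 h3
          obtain ⟨e₁, he₁, e₂, he₂, he⟩ := AddSubgroup.mem_sup.1 hd
          refine ⟨δ g, e₁, e₂, hδ g, he₁, he₂, ?_⟩
          have : g₁ - g₂ - c = δ g + (g₁ - g₂ - c - δ g) := by abel
          rw [this, ← he]; abel
      obtain ⟨b, e₁, e₂, hb, he₁, he₂, he⟩ := hsplit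
      refine ⟨s + t - p c, Set.mem_image2_of_mem (Set.mem_image2_of_mem hs ht) hc,
        mem_BB_succ.2 ⟨g₁ - e₁, (N i).sub_mem hg₁ (h₁.le _ he₁), ?_, ?_⟩⟩
      · have e : z - (s + t - p c) - δ (g₁ - e₁) = (z - s - t - δ g₁) + δ e₁ + p c := by
          rw [map_sub]; abel
        rw [e]
        exact (D₁ (i + 1)).add_mem ((D₁ (i + 1)).add_mem hd₁ (h₁.dD _ _ he₁)) (hp c hc).1
      · have e0 : δ (g₁ - e₁) = δ g₂ + δ c + δ e₂ := by
          have : g₁ - e₁ = g₂ + c + b + e₂ := by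
            have h4 : g₁ = (g₁ - g₂ - c) + g₂ + c := by abel
            rw [h4, he]; abel
          rw [this, map_add, map_add, map_add, hb]; abel
        have e : z - (s + t - p c) - δ (g₁ - e₁) = (z - s - t - δ g₂) - δ e₂ - (δ c - p c) := by
          rw [e0]; abel
        rw [e]
        exact (D₂ (i + 1)).sub_mem ((D₂ (i + 1)).sub_mem hd₂ (h₂.dD _ _ he₂)) (hp c hc).2


/-- A group without subgroups of finite index acts trivially on finite cohomology. -/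
theorem act_trivial {L : Type*} [Group L] [DistribMulAction L F]
    (hL : ∀ H : Subgroup L, H.FiniteIndex → H = ⊤) {N D : ℕ → AddSubgroup F} (hC : Cx δ N D)
    (hδL : ∀ (g : L) f, δ (g • f) = g • δ f) (hN : ∀ (g : L) j, ∀ f ∈ N j, g • f ∈ N j)
    (hD : ∀ (g : L) j, ∀ f ∈ D j, g • f ∈ D j) {j : ℕ} (hf : FinH δ N D j) (g : L) {z : F}
    (hz : z ∈ ZZ δ N D j) : g • z - z ∈ BB δ N D j := by
  classical
  obtain ⟨S, hS, hSZ, hSr⟩ := hf
  have hBB : ∀ (l : L), ∀ f ∈ BB δ N D j, l • f ∈ BB δ N D j := by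
    intro l f hf
    cases j with
    | zero => exact hD l 0 f hf
    | succ j =>
      obtain ⟨y, hy, h⟩ := mem_BB_succ.1 hf
      refine mem_BB_succ.2 ⟨l • y, hN l j y hy, ?_⟩
      rw [hδL, ← smul_sub]
      exact hD l _ _ h
  have hZZ : ∀ (l : L), l • z ∈ ZZ δ N D j := by
    intro l
    refine ⟨hN l j z hz.1, ?_⟩
    show δ (l • z) ∈ D (j + 1)
    rw [hδL]
    exact hD l _ _ hz.2
  let H : Subgroup L :=
    { carrier := {l | l • z - z ∈ BB δ N D j}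
      one_mem' := by
        show (1 : L) • z - z ∈ BB δ N D j
        rw [one_smul, sub_self]; exact (BB δ N D j).zero_mem
      mul_mem' := by
        intro a b ha hb
        show (a * b) • z - z ∈ BB δ N D j
        have e : (a * b) • z - z = a • (b • z - z) + (a • z - z) := by
          rw [smul_sub, mul_smul]; abel
        rw [e]
        exact (BB δ N D j).add_mem (hBB a _ hb) ha
      inv_mem' := by
        intro a ha
        show a⁻¹ • z - z ∈ BB δ N D j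
        have e : a⁻¹ • z - z = -(a⁻¹ • (a • z - z)) := by
          rw [smul_sub, inv_smul_smul]; abel
        rw [e]
        exact (BB δ N D j).neg_mem (hBB _ _ ha) }
  have hmem : ∀ l : L, l ∈ H ↔ l • z - z ∈ BB δ N D j := fun _ => Iff.rfl
  choose f hfS hf using fun l : L => hSr (l • z) (hZZ l)
  have key : ∀ a b : L, f a = f b → a⁻¹ * b ∈ H := by
    intro a b hab
    rw [hmem]
    have e : (a⁻¹ * b) • z - z = a⁻¹ • ((b • z - f b) - (a • z - f a)) := by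
      rw [hab, smul_sub, smul_sub, smul_sub, mul_smul, inv_smul_smul]; abel
    rw [e]
    exact hBB _ _ ((BB δ N D j).sub_mem (hf b) (hf a))
  have hfin : H.FiniteIndex := by
    have : Finite S := hS.to_subtype
    have hinj : Function.Injective (fun q : L ⧸ H => (⟨f q.out, hfS q.out⟩ : S)) := by
      intro q q' h
      have h1 : f q.out = f q'.out := congrArg Subtype.val h
      have h2 := key _ _ h1
      have h3 : (q.out : L ⧸ H) = (q'.out : L ⧸ H) := QuotientGroup.eq.mpr h2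
      rwa [QuotientGroup.out_eq', QuotientGroup.out_eq'] at h3
    have : Finite (L ⧸ H) := Finite.of_injective _ hinj
    exact Subgroup.finiteIndex_of_finite_quotient
  have h := hL H hfin
  have hg : g ∈ H := by rw [h]; exact Subgroup.mem_top g
  exact hg

end RowA

end Pool.Agent.AXS
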