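import Pool.Agent.AXS.Chain

/-!
# The chain map of fine lists is homotopic to the identity
-/

set_option autoImplicit false

open Set Metric MeasureTheory Topology

namespace Pool.Agent.AXS

/-- `IsLam` is monotone. -/
theorem IsLam.mono {X : Type*} [MetricSpace X] {K K' : ℕ} {ε ε' δ η η' : ℝ} {lam : List X → Ch X}
    (h : IsLam K ε δ η lam) (hK : K' ≤ K) (hε : ε ≤ ε') (hη : η ≤ η') : IsLam K' ε' δ η' lam := by
  refine ⟨h.1, ?_⟩
  intro l hl hs
  obtain ⟨h1, h2⟩ := h.2 l (hl.trans hK) hs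
  refine ⟨?_, h2⟩
  intro w hw
  obtain ⟨h3, h4, h5⟩ := h1 w hw
  exact ⟨h3, fun x hx y hy => (h4 x hx y hy).trans_le hη,
    fun y hy x hx => (h5 y hy x hx).trans_le hε⟩

/-- The homotopy, with its supports in a small neighbourhood. -/
theorem exists_homot_aux {X : Type*} [MetricSpace X]
    (hF : ∀ ε : ℝ, 0 < ε → ∃ δ > 0, ∀ η > 0, ∃ η' > 0, ∀ (x : X) (k : ℕ) (c : Ch X),
      (∀ l ∈ c.support, l.length = k ∧ Sm η' l ∧ ∀ y ∈ l, dist y x < δ) → bd c = 0 →
      ∃ c' : Ch X, (∀ l ∈ c'.support, l.length = k + 1 ∧ Sm η l ∧ ∀ y ∈ l, dist y x < ε) ∧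
        bd c' = c) (K : ℕ) {ρ : ℝ} (hρ : 0 < ρ) :
    ∃ ε₀ > 0, ∀ η > 0, ∃ η' > 0, ∀ δ > 0, ∀ lam : List X → Ch X, IsLam K ε₀ δ η' lam →
      ∃ δ' > 0, ∃ D : List X → Ch X, D [] = 0 ∧ ∀ l : List X, l.length ≤ K → Sm δ' l →
        (∀ w ∈ (D l).support, w.length = l.length + 1 ∧ Sm η w ∧ ∀ y ∈ w, ∀ x ∈ l, dist y x < ρ) ∧
        bd (D l) = lam l - Finsupp.single l 1 - pr D (bdl l) := by
  induction K generalizing ρ with
  | zero =>
    refine ⟨1, one_pos, fun η _ => ⟨1, one_pos, fun δ _ lam hlam =>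
      ⟨1, one_pos, fun _ => 0, rfl, ?_⟩⟩⟩
    intro l hl _
    have hl0 : l = [] := List.length_eq_zero_iff.1 (Nat.le_zero.1 hl)
    subst hl0
    refine ⟨?_, ?_⟩
    · intro w hw
      simp at hw
    · have e : bdl ([] : List X) = 0 := rfl
      rw [e, hlam.1, map_zero, map_zero, sub_self, sub_zero]
  | succ K ih =>
    obtain ⟨δ₁, hδ₁, hfill⟩ := hF _ (half_pos hρ)
    have hρ₁ : 0 < min δ₁ ρ / 2 := half_pos (lt_min hδ₁ hρ)
    obtain ⟨ε₁, hε₁, hD⟩ := ih hρ₁
    refine ⟨min ε₁ δ₁, lt_min hε₁ hδ₁, fun η hη => ?_⟩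
    obtain ⟨η₁, hη₁, hf⟩ := hfill η hη
    obtain ⟨η₂, hη₂, hD₂⟩ := hD (min η₁ η) (lt_min hη₁ hη)
    refine ⟨min η₂ η₁, lt_min hη₂ hη₁, fun δ hδ lam hlam => ?_⟩
    obtain ⟨δ₂, hδ₂, D, hD0, hDl⟩ := hD₂ δ hδ lam
      (hlam.mono (Nat.le_succ K) (min_le_left _ _) (min_le_left _ _))
    obtain ⟨δ', hδ'⟩ : ∃ δ', δ' = min (min δ₂ δ) (min η₁ (min δ₁ ρ / 2)) := ⟨_, rfl⟩
    have hδ'0 : 0 < δ' := by
      rw [hδ']; exact lt_min (lt_min hδ₂ hδ) (lt_min hη₁ hρ₁)
    have hδ'1 : δ' ≤ δ₂ := by rw [hδ']; exact (min_le_left _ _).trans (min_le_left _ _)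
    have hδ'2 : δ' ≤ δ := by rw [hδ']; exact (min_le_left _ _).trans (min_le_right _ _)
    have hδ'3 : δ' ≤ η₁ := by rw [hδ']; exact (min_le_right _ _).trans (min_le_left _ _)
    have hδ'4 : δ' ≤ min δ₁ ρ / 2 := by rw [hδ']; exact (min_le_right _ _).trans (min_le_right _ _)
    have hm1 : min δ₁ ρ ≤ δ₁ := min_le_left _ _
    have hm2 : min δ₁ ρ ≤ ρ := min_le_right _ _
    have key : ∀ l : List X, ∃ c' : Ch X, l.length = K + 1 → Sm δ' l →
        (∀ w ∈ c'.support, w.length = l.length + 1 ∧ Sm η w ∧ ∀ y ∈ w, ∀ x ∈ l, dist y x < ρ) ∧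
        bd c' = lam l - Finsupp.single l 1 - pr D (bdl l) := by
      intro l
      by_cases hlen : l.length = K + 1
      swap
      · exact ⟨0, fun h' => absurd h' hlen⟩
      by_cases hsm : Sm δ' l
      swap
      · exact ⟨0, fun _ h' => absurd h' hsm⟩
      obtain ⟨x₀, v, rfl⟩ : ∃ x₀ v, l = x₀ :: v := by
        cases l with
        | nil => simp at hlen
        | cons x₀ v => exact ⟨x₀, v, rfl⟩
      have hx₀ : x₀ ∈ x₀ :: v := List.mem_cons_self
      have hface : ∀ w ∈ (bdl (x₀ :: v)).support, w ⊆ x₀ :: v ∧ w.length = K := by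
        intro w hw
        obtain ⟨h1, h2⟩ := supp_bdl _ _ hw
        exact ⟨h1, by omega⟩
      have hface2 : ∀ w ∈ (bdl (x₀ :: v)).support, Sm δ₂ w := by
        intro w hw x hx y hy
        exact (hsm x ((hface w hw).1 hx) y ((hface w hw).1 hy)).trans_le hδ'1
      have hsmδ : Sm δ (x₀ :: v) := fun x hx y hy => (hsm x hx y hy).trans_le hδ'2
      obtain ⟨hL1, hL2⟩ := hlam.2 (x₀ :: v) hlen.le hsmδ
      have hc1 : ∀ w ∈ (lam (x₀ :: v) - Finsupp.single (x₀ :: v) 1 -
          pr D (bdl (x₀ :: v))).support,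
          w.length = K + 1 ∧ Sm η₁ w ∧ ∀ y ∈ w, dist y x₀ < δ₁ := by
        intro w hw
        rcases supp_sub _ _ _ hw with hw | hw
        · rcases supp_sub _ _ _ hw with hw | hw
          · obtain ⟨h3, h4, h5⟩ := hL1 w hw
            refine ⟨h3.trans hlen, fun x hx y hy => (h4 x hx y hy).trans_le (min_le_right _ _), ?_⟩
            intro y hy
            exact (h5 y hy x₀ hx₀).trans_le (min_le_right _ _)
          · obtain rfl := supp_single _ _ _ hw
            refine ⟨hlen, fun x hx y hy => (hsm x hx y hy).trans_le hδ'3, ?_⟩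
            intro y hy
            have := hsm y hy x₀ hx₀
            linarith
        · obtain ⟨l', hl', hwl'⟩ := supp_pr _ _ _ hw
          obtain ⟨h1, h2⟩ := hface l' hl'
          obtain ⟨h3, h4, h5⟩ := (hDl l' h2.le (hface2 l' hl')).1 w hwl'
          refine ⟨h3.trans (by rw [h2]),
            fun x hx y hy => (h4 x hx y hy).trans_le (min_le_left _ _), ?_⟩
          intro y hy
          have hne : 0 < l'.length := by
            rcases Nat.eq_zero_or_pos l'.length with h0 | h0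
            · have hl0 : l' = [] := List.length_eq_zero_iff.1 h0
              rw [hl0, hD0] at hwl'
              simp at hwl'
            · exact h0
          obtain ⟨x, hx⟩ := List.exists_mem_of_length_pos hne
          have e1 := h5 y hy x hx
          have e2 := hsm x (h1 hx) x₀ hx₀
          have e3 := dist_triangle y x x₀
          linarith
      have hc2 : bd (lam (x₀ :: v) - Finsupp.single (x₀ :: v) 1 - pr D (bdl (x₀ :: v))) = 0 := by
        have e1 : bd (pr D (bdl (x₀ :: v))) =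
            pr lam (bdl (x₀ :: v)) - bdl (x₀ :: v) := by
          rw [pr_hom]
          rw [pr_congr (fun l => bd (D l))
            (fun w => (lam w - Finsupp.single w 1) - pr D (bdl w)) _ (by
            intro w hw
            exact (hDl w (hface w hw).2.le (hface2 w hw)).2)]
          rw [pr_sub_fun, pr_sub_fun, ← pr_hom (pr D) bdl]
          have e2 : pr bdl (bdl (x₀ :: v)) = 0 := bd_bdl _
          have e3 : pr (fun w => (Finsupp.single w 1 : Ch X)) (bdl (x₀ :: v)) = bdl (x₀ :: v) := by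
            have := pr_map_bdl (id : X → X) (x₀ :: v)
            simpa using this
          rw [e2, e3, map_zero, sub_zero]
        rw [map_sub, map_sub, e1, hL2, bd_single]
        abel
      obtain ⟨c', hc', hbd⟩ := hf x₀ (K + 1) _ hc1 hc2
      refine ⟨c', fun _ _ => ⟨?_, hbd⟩⟩
      intro w hw
      obtain ⟨h1, h2, h3⟩ := hc' w hw
      refine ⟨by rw [h1, hlen], h2, ?_⟩
      intro y hy x hx
      have e1 := h3 y hy
      have e2 := hsm x₀ hx₀ x hx
      have e3 := dist_triangle y x₀ x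
      linarith
    choose cc hcc using key
    have hagree : ∀ l : List X, l.length ≤ K + 1 →
        pr (fun l => if l.length = K + 1 then cc l else D l) (bdl l) = pr D (bdl l) := by
      intro l hll
      apply pr_congr
      intro w hw
      have := (supp_bdl _ _ hw).2
      rw [if_neg (by omega)]
    refine ⟨δ', hδ'0, fun l => if l.length = K + 1 then cc l else D l, ?_, ?_⟩
    · show (if ([] : List X).length = K + 1 then cc [] else D []) = _
      rw [if_neg (by simp)]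
      exact hD0
    · intro l hll hsm
      rw [hagree l hll]
      by_cases hlen : l.length = K + 1
      · simp only [if_pos hlen]
        exact hcc l hlen hsm
      · simp only [if_neg hlen]
        obtain ⟨h1, h2⟩ := hDl l (by omega)
          (fun x hx y hy => (hsm x hx y hy).trans_le hδ'1)
        refine ⟨?_, h2⟩
        intro w hw
        obtain ⟨h3, h4, h5⟩ := h1 w hw
        refine ⟨h3, fun x hx y hy => (h4 x hx y hy).trans_le (min_le_right _ _), ?_⟩
        intro y hy x hx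
        have e1 := h5 y hy x hx
        linarith

/-- Row F4, if small cycles bound. -/
theorem exists_homot_of {X : Type*} [MetricSpace X]
    (hF : ∀ ε : ℝ, 0 < ε → ∃ δ > 0, ∀ η > 0, ∃ η' > 0, ∀ (x : X) (k : ℕ) (c : Ch X),
      (∀ l ∈ c.support, l.length = k ∧ Sm η' l ∧ ∀ y ∈ l, dist y x < δ) → bd c = 0 →
      ∃ c' : Ch X, (∀ l ∈ c'.support, l.length = k + 1 ∧ Sm η l ∧ ∀ y ∈ l, dist y x < ε) ∧
        bd c' = c) (K : ℕ) :
    ∃ ε₀ > 0, ∀ η > 0, ∃ η' > 0, ∀ δ > 0, ∀ lam : List X → Ch X, IsLam K ε₀ δ η' lam →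
      ∃ δ' > 0, ∃ D : List X → Ch X, ∀ l : List X, l.length ≤ K → Sm δ' l →
        (∀ w ∈ (D l).support, w.length = l.length + 1 ∧ Sm η w) ∧
        bd (D l) = lam l - Finsupp.single l 1 - pr D (bdl l) := by
  obtain ⟨ε₀, hε₀, h⟩ := exists_homot_aux hF K one_pos
  refine ⟨ε₀, hε₀, fun η hη => ?_⟩
  obtain ⟨η', hη', h⟩ := h η hη
  refine ⟨η', hη', fun δ hδ lam hlam => ?_⟩
  obtain ⟨δ', hδ', D, _, h⟩ := h δ hδ lam hlam
  refine ⟨δ', hδ', D, fun l hl hs => ?_⟩
  obtain ⟨h1, h2⟩ := h l hl hs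
  exact ⟨fun w hw => ⟨(h1 w hw).1, (h1 w hw).2.1⟩, h2⟩

end Pool.Agent.AXS
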