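import Pool.Agent.AXS.Fill
import Pool.Agent.AXS.Homot0

/-!
# For fine lists the chain map is homotopic to the identity
-/

set_option autoImplicit false

open Set Metric MeasureTheory Topology

namespace Pool.Agent.AXS

theorem exists_homot {X : Type*} [MetricSpace X] [CompactSpace X] (h : LocContr X) (K : ℕ) :
    ∃ ε₀ > 0, ∀ η > 0, ∃ η' > 0, ∀ δ > 0, ∀ lam : List X → Ch X, IsLam K ε₀ δ η' lam →
      ∃ δ' > 0, ∃ D : List X → Ch X, ∀ l : List X, l.length ≤ K → Sm δ' l →
        (∀ w ∈ (D l).support, w.length = l.length + 1 ∧ Sm η w) ∧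
        bd (D l) = lam l - Finsupp.single l 1 - pr D (bdl l) :=
  exists_homot_of (fun _ hε' => fill h hε') K

end Pool.Agent.AXS
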