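import Pool.Agent.AXS.Lam
import Pool.Agent.AXS.Homot

/-!
# Finiteness of the cohomology of compact locally contractible spaces

A cocycle `z` is cohomologous to `z ∘ lam` and then to `(z ∘ lam) ∘ π`, `π` with finite image.
-/

set_option autoImplicit false

open Set Metric MeasureTheory Topology

namespace Pool.Agent.AXS

theorem pr_zero20 {X V : Type*} [AddCommGroup V] (f : List X → V) (c : Ch X)
    (h : ∀ l ∈ c.support, f l = 0) : pr f c = 0 := by
  rw [pr_congr f (fun _ => 0) c h]
  have : pr (fun _ : List X => (0 : V)) = 0 := by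
    apply Ch.hom_ext
    intro l
    rw [pr_single_one]
    rfl
  rw [this]
  rfl

theorem IsLam.mono20 {X : Type*} [MetricSpace X] {K : ℕ} {ε δ η η' : ℝ} {lam : List X → Ch X}
    (h : IsLam K ε δ η lam) (hη : η ≤ η') : IsLam K ε δ η' lam :=
  ⟨h.1, fun l hl hs => ⟨fun w hw => ⟨((h.2 l hl hs).1 w hw).1,
    fun x hx y hy => (((h.2 l hl hs).1 w hw).2.1 x hx y hy).trans_le hη,
    ((h.2 l hl hs).1 w hw).2.2⟩, (h.2 l hl hs).2⟩⟩

/-- A map with finite image close to the identity. -/
theorem exists_net20 (X : Type*) [MetricSpace X] [CompactSpace X] {ε : ℝ} (hε : 0 < ε) :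
    ∃ π : X → X, (Set.range π).Finite ∧ ∀ x, dist x (π x) < ε := by
  obtain ⟨t, -, ht, hc⟩ := finite_cover_balls_of_compact (isCompact_univ (X := X)) hε
  have h : ∀ x : X, ∃ y ∈ t, dist x y < ε := fun x => by
    have hx := hc (Set.mem_univ x)
    simp only [Set.mem_iUnion, Metric.mem_ball] at hx
    obtain ⟨y, hy, hxy⟩ := hx
    exact ⟨y, hy, hxy⟩
  choose π hπ hd using h
  exact ⟨π, ht.subset (by rintro _ ⟨x, rfl⟩; exact hπ x), hd⟩

/-- Cochains on lists of length `k` which factor through a map with finite image. -/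
theorem finite_factor20 {X V : Type*} [Finite V] [Zero V] (π : X → X) (hπ : (Set.range π).Finite)
    (k : ℕ) : {s : List X → V | ∃ φ : List X → V,
      ∀ l, s l = if l.length = k then φ (l.map π) else 0}.Finite := by
  classical
  have : Finite (Set.range π) := hπ
  have hfin : Finite ((Fin k → Set.range π) → V) := inferInstance
  let Ψ : ((Fin k → Set.range π) → V) → (List X → V) := fun θ l =>
    if h : l.length = k then θ (fun i => ⟨π (l.get (i.cast h.symm)), Set.mem_range_self _⟩) else 0
  refine (Set.finite_range Ψ).subset ?_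
  rintro s ⟨φ, hφ⟩
  refine ⟨fun v => φ (List.ofFn fun i => (v i : X)), ?_⟩
  funext l
  rw [hφ l]
  by_cases h : l.length = k
  · subst h
    simp only [Ψ, dif_pos, if_pos]
    congr 1
    apply List.ext_get
    · simp
    · intro i h1 h2
      simp
  · simp only [Ψ, dif_neg h, if_neg h]

theorem finH_of_locContr {X : Type*} [MetricSpace X] [CompactSpace X] (h : LocContr X) {V : Type*}
    [AddCommGroup V] [Finite V] (j : ℕ) : FinH (dH : Co X V →+ Co X V) TT (DT All) j := by
  classical
  obtain ⟨ε₀, hε₀, hhom⟩ := exists_homot h (j + 2)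
  obtain ⟨δ, hδ, hlam⟩ := exists_lam h (j + 2) hε₀
  obtain ⟨π, hπf, hπ⟩ := exists_net20 X (show 0 < δ / 3 by positivity)
  set F : Set (Co X V) := {s | ∃ φ : List X → V,
      ∀ l, s l = if l.length = j + 1 then φ (l.map π) else 0} with hF
  have hFf : F.Finite := finite_factor20 π hπf (j + 1)
  refine ⟨F ∩ (ZZ (dH : Co X V →+ Co X V) TT (DT All) j : Set (Co X V)),
    hFf.subset Set.inter_subset_left, fun s hs => hs.2, ?_⟩
  intro z hz
  obtain ⟨-, ε, hε, hzz⟩ := mem_ZZ.1 hz
  obtain ⟨η', hη', hhom'⟩ := hhom ε hε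
  obtain ⟨lam, hl⟩ := hlam (min η' ε) (lt_min hη' hε)
  obtain ⟨δ', hδ', D, hD⟩ := hhom' δ hδ lam (hl.mono20 (min_le_left _ _))
  -- the coarse cochain
  set zl : List X → V := fun l => pr z (lam l) with hzl
  set y : List X → V := fun l => pr z (D l) with hy
  have hcoc : ∀ l : List X, l.length = j + 2 → Sm δ l → dd zl l = 0 := by
    intro l hlen hs
    obtain ⟨h1, h2⟩ := hl.2 l hlen.le hs
    rw [← pr_bdl, hzl, ← pr_hom (pr z) lam (bdl l), ← h2, pr_bd]
    refine pr_zero20 _ _ fun w hw => ?_
    obtain ⟨hw1, hw2, -⟩ := h1 w hw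
    exact hzz w (by rw [hw1, hlen]) (fun a ha b hb => (hw2 a ha b hb).trans_le (min_le_right _ _))
      trivial
  have hhomot : ∀ l : List X, l.length = j + 1 → Sm δ' l → zl l - z l = dd y l := by
    intro l hlen hs
    obtain ⟨h1, h2⟩ := hD l (by omega) hs
    have h3 : pr z (bd (D l)) = 0 := by
      rw [pr_bd]
      refine pr_zero20 _ _ fun w hw => ?_
      obtain ⟨hw1, hw2⟩ := h1 w hw
      exact hzz w (by rw [hw1, hlen]) hw2 trivial
    rw [h2, map_sub, map_sub, pr_single_one, pr_hom (pr z) D (bdl l), pr_bdl] at h3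
    exact sub_eq_zero.1 h3
  have hdisc : ∀ l : List X, l.length = j + 1 → Sm (δ / 3) l →
      dd (pp π zl) l = zl (l.map π) - zl l := by
    intro l hlen hs
    rw [← dd_pp π l zl, pp_congr π l (dd zl) (fun _ => 0) ?_]
    · have : pp π (fun _ : List X => (0 : V)) l = 0 := by
        have h0 := pp_sub π l (fun _ : List X => (0 : V)) (fun _ => 0)
        simp only [sub_self] at h0
        exact h0
      rw [this, add_zero]
    · intro w hw hwl
      apply hcoc w (by omega)
      intro a ha b hb
      have key : ∀ c ∈ l ++ l.map π, ∃ x ∈ l, dist c x < δ / 3 := by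
        intro c hc
        rcases List.mem_append.1 hc with hc | hc
        · exact ⟨c, hc, by rw [dist_self]; positivity⟩
        · obtain ⟨x, hx, rfl⟩ := List.mem_map.1 hc
          exact ⟨x, hx, by rw [dist_comm]; exact hπ x⟩
      obtain ⟨a', ha', h1⟩ := key a (hw ha)
      obtain ⟨b', hb', h2⟩ := key b (hw hb)
      have h3 := hs a' ha' b' hb'
      calc dist a b ≤ dist a a' + dist a' b' + dist b' b := dist_triangle4 _ _ _ _
        _ < δ := by rw [dist_comm b' b]; linarith
  -- the finite family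
  set κ : V := if j = 0 then y [] else 0 with hκ
  set s : Co X V := fun l => if l.length = j + 1 then (zl (l.map π) - κ) else 0 with hs
  have hsF : s ∈ F := ⟨fun l => zl l - κ, fun l => rfl⟩
  have hsZ : s ∈ ZZ (dH : Co X V →+ Co X V) TT (DT All) j := by
    refine mem_ZZ.2 ⟨trivial, δ / 3, by positivity, fun l hlen hsl _ => ?_⟩
    rw [dH_apply, dd_congr l s (fun w => zl (w.map π) - κ)]
    · have h1 : dd (fun w : List X => zl (w.map π) - κ) l = dd (fun w => zl (w.map π)) l -
          dd (fun _ : List X => κ) l := dd_sub l _ _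
      rw [h1, dd_map π l zl, hcoc (l.map π) (by rw [List.length_map]; omega) ?_, zero_sub, neg_eq_zero]
      · by_cases hj : j = 0
        · subst hj
          obtain ⟨a, b, rfl⟩ : ∃ a b, l = [a, b] := by
            rcases l with _ | ⟨a, _ | ⟨b, _ | ⟨c, l⟩⟩⟩ <;> simp at hlen
            exact ⟨a, b, rfl⟩
          simp [dd_cons]
        · rw [hκ, if_neg hj, dd_zero]
      · intro a ha b hb
        obtain ⟨a', ha', rfl⟩ := List.mem_map.1 ha
        obtain ⟨b', hb', rfl⟩ := List.mem_map.1 hb
        have h3 := hsl a' ha' b' hb'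
        have h4 := hπ a'
        have h5 := hπ b'
        calc dist (π a') (π b') ≤ dist (π a') a' + dist a' b' + dist b' (π b') :=
              dist_triangle4 _ _ _ _
          _ < δ := by rw [dist_comm (π a') a']; linarith
    · intro w _ hwl
      show (if w.length = j + 1 then (zl (w.map π) - κ) else 0) = _
      rw [if_pos (by omega)]
  refine ⟨s, ⟨hsF, hsZ⟩, ?_⟩
  -- the difference
  have hdiff : ∀ l : List X, l.length = j + 1 → Sm (min δ' (δ / 3)) l →
      (z - s) l = κ - dd y l - dd (pp π zl) l := by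
    intro l hlen hsl
    have h1 := hhomot l hlen fun a ha b hb => (hsl a ha b hb).trans_le (min_le_left _ _)
    have h2 := hdisc l hlen fun a ha b hb => (hsl a ha b hb).trans_le (min_le_right _ _)
    show z l - (if l.length = j + 1 then (zl (l.map π) - κ) else 0) = _
    rw [if_pos hlen, ← h1, h2]
    abel
  have hpos : 0 < min δ' (δ / 3) := lt_min hδ' (by positivity)
  cases j with
  | zero =>
    refine ⟨_, hpos, fun l hlen hsl _ => ?_⟩
    rw [hdiff l hlen hsl]
    obtain ⟨a, rfl⟩ : ∃ a, l = [a] := List.length_eq_one_iff.1 hlen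
    simp [dd_cons, hκ, pp]
  | succ j =>
    refine mem_BB_succ.2 ⟨fun w => - y w - pp π zl w, trivial, _, hpos, fun l hlen hsl _ => ?_⟩
    have h1 := hdiff l hlen hsl
    have h2 : dd (fun w => - y w - pp π zl w) l = - dd y l - dd (pp π zl) l := by
      rw [dd_sub l (fun w => - y w) (pp π zl), dd_neg]
    show (z - s) l - dd (fun w => - y w - pp π zl w) l = 0
    rw [h1, h2, hκ, if_neg (Nat.succ_ne_zero j)]
    abel

end Pool.Agent.AXS
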