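import Pool.Agent.AXS.SLn

/-!
# MP_afaf30, row L: `SL_m(F)` has no subgroup of finite index; the block embedding
-/

set_option autoImplicit false
set_option linter.unusedSectionVars false

open Matrix

namespace Pool.Agent.AXS

/-- `SL_m(F)` has no subgroup of finite index either. -/
theorem sl_fin (F : Type*) [Field F] [CharZero F] {m : ℕ}
    (H : Subgroup (SpecialLinearGroup (Fin m) F)) (hH : H.FiniteIndex) : H = ⊤ := by
  classical
  rcases subsingleton_or_nontrivial (Fin m) with hs | hn
  · rw [eq_top_iff]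
    intro g _
    have h1 : g = 1 := by
      apply SpecialLinearGroup.coeMonoidHom_injective
      rw [map_one]
      ext i j
      have h2 := g.2
      rw [Matrix.det_eq_elem_of_subsingleton _ i] at h2
      rw [Subsingleton.elim j i, Matrix.one_apply_eq]
      exact h2
    rw [h1]
    exact H.one_mem
  · have hfin : H.normalCore.FiniteIndex := Subgroup.finiteIndex_normalCore H
    have hpow : ∀ g : SpecialLinearGroup (Fin m) F, g ^ H.normalCore.index ∈ H :=
      fun g => H.normalCore_le (H.normalCore.pow_index_mem g)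
    have hidx : (H.normalCore.index : F) ≠ 0 := Nat.cast_ne_zero.2 hfin.index_ne_zero
    refine eq_top_of_transvection H fun i j hij c => ?_
    have h1 := hpow (SpecialLinearGroup.transvection hij ((H.normalCore.index : F)⁻¹ * c))
    rw [transvection_pow, ← mul_assoc, mul_inv_cancel₀ hidx, one_mul] at h1
    exact h1

section

variable {F : Type*} [Field F] {ι α κ : Type*} [Fintype ι] [DecidableEq ι] [Fintype α]
  [DecidableEq α] [Fintype κ] [DecidableEq κ]

/-- the matrix with blocks `g` and `1` -/
def blockN (e : ι ≃ α ⊕ κ) (g : SpecialLinearGroup α F) : Matrix ι ι F :=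
  (Matrix.fromBlocks (g : Matrix α α F) 0 0 (1 : Matrix κ κ F)).submatrix e e

/-- the block embedding -/
def blockK (e : ι ≃ α ⊕ κ) : SpecialLinearGroup α F →* SpecialLinearGroup ι F where
  toFun g := ⟨blockN e g, by
    unfold blockN
    rw [Matrix.det_submatrix_equiv_self, Matrix.det_fromBlocks_zero₂₁, Matrix.det_one, mul_one]
    exact g.2⟩
  map_one' := Subtype.ext (by
    show (Matrix.fromBlocks (1 : Matrix α α F) 0 0 (1 : Matrix κ κ F)).submatrix e e = 1
    rw [Matrix.fromBlocks_one, Matrix.submatrix_one_equiv])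
  map_mul' g h := Subtype.ext (by
    show (Matrix.fromBlocks ((g : Matrix α α F) * (h : Matrix α α F)) 0 0
      (1 : Matrix κ κ F)).submatrix e e =
      (Matrix.fromBlocks (g : Matrix α α F) 0 0 (1 : Matrix κ κ F)).submatrix e e *
      (Matrix.fromBlocks (h : Matrix α α F) 0 0 (1 : Matrix κ κ F)).submatrix e e
    rw [Matrix.submatrix_mul_equiv, Matrix.fromBlocks_multiply]
    simp)

theorem blockK_diagonal (e : ι ≃ α ⊕ κ) {g : SpecialLinearGroup α F} {d : α → F}
    (hg : (g : Matrix α α F) = diagonal d) :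
    (blockK e g : Matrix ι ι F) = diagonal fun i => Sum.elim d (fun _ => 1) (e i) := by
  show (Matrix.fromBlocks (g : Matrix α α F) 0 0 (1 : Matrix κ κ F)).submatrix e e = _
  rw [hg]
  have h2 : Matrix.fromBlocks (Matrix.diagonal d) 0 0 (1 : Matrix κ κ F) =
      Matrix.diagonal (Sum.elim d (fun _ => 1)) := by
    rw [← Matrix.diagonal_one, Matrix.fromBlocks_diagonal]
  rw [h2]
  ext i j
  rw [Matrix.submatrix_apply, Matrix.diagonal_apply, Matrix.diagonal_apply]
  simp [e.injective.eq_iff]

end

/-- A homomorphism from `SL_m'(F)`, `m' ≥ m ≥ 2`, which is trivial on the block `SL_m(F)` is trivial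
(`K` = the block embedding). -/
theorem sl_block (F : Type*) [Field F] [CharZero F] {m m' : ℕ} (hm : 2 ≤ m) (h : m ≤ m') :
    ∃ K : SpecialLinearGroup (Fin m) F →* SpecialLinearGroup (Fin m') F,
      Subgroup.normalClosure (Set.range K) = ⊤ := by
  obtain ⟨c, rfl⟩ : ∃ c, m' = m + c := ⟨m' - m, by omega⟩
  refine ⟨blockK (finSumFinEquiv (m := m) (n := c)).symm, ?_⟩
  have hij : (⟨0, by omega⟩ : Fin m) ≠ ⟨1, by omega⟩ := by simp
  have h2 : (2 : F) ≠ 0 := two_ne_zero
  obtain ⟨g, hg⟩ : ∃ g, g = SpecialLinearGroup.diag2n hij (2 : F) h2 := ⟨_, rfl⟩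
  have hg' : (g : Matrix (Fin m) (Fin m) F) = diagonal fun k =>
      if k = (⟨0, by omega⟩ : Fin m) then 2 else if k = (⟨1, by omega⟩ : Fin m) then 2⁻¹ else 1 := by
    rw [hg]
    exact SpecialLinearGroup.diag2n_coe hij 2 h2
  have h3 := normalClosure_diagonal
    (blockK_diagonal (finSumFinEquiv (m := m) (n := c)).symm hg')
    (i₀ := finSumFinEquiv (Sum.inl (⟨0, by omega⟩ : Fin m)))
    (j₀ := finSumFinEquiv (Sum.inl (⟨1, by omega⟩ : Fin m))) (by
      rw [Equiv.symm_apply_apply, Equiv.symm_apply_apply]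
      simp only [Sum.elim_inl]
      rw [if_pos trivial, if_neg hij.symm, if_pos trivial]
      intro h4
      have h5 : (3 : F) = 0 := by
        have h6 : (2 : F) * 2 = 1 := by
          nth_rewrite 2 [h4]
          exact mul_inv_cancel₀ h2
        linear_combination h6
      exact three_ne_zero h5)
  rw [eq_top_iff, ← h3]
  apply Subgroup.normalClosure_mono
  rw [Set.singleton_subset_iff]
  exact ⟨g, rfl⟩

end Pool.Agent.AXS
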