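import Pool.Agent.AXS.SLk
import Pool.Agent.AXS.SLb

/-!
# Row L+: the groups over an infinite field of characteristic different from `2`
-/

set_option autoImplicit false
set_option linter.unusedSectionVars false

open Matrix

namespace Pool.Agent.AXS

/-- A root group lies in every normal subgroup of finite index: `x = ((x + 1) / 2) ^ 2 -
((x - 1) / 2) ^ 2`. -/
theorem root_mem {F : Type*} [Field F] [Infinite F] (h2 : (2 : F) ≠ 0) {G : Type*} [Group G]
    (N : Subgroup G) (hn : N.Normal) (hN : N.FiniteIndex) (u : F → G)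
    (hadd : ∀ a b, u (a + b) = u a * u b)
    (hu : ∀ c : F, c ≠ 0 → ∃ g : G, ∀ a : F, g * u a * g⁻¹ = u (c ^ 2 * a)) (a : F) : u a ∈ N := by
  have hsub : ∀ x y, u (x - y) = u x * (u y)⁻¹ := fun x y => by
    rw [eq_mul_inv_iff_mul_eq, ← hadd, sub_add_cancel]
  have hfin : Finite (G ⧸ N) := Subgroup.finite_quotient_of_finiteIndex
  obtain ⟨x, y, hxy, h⟩ := Finite.exists_ne_map_eq_of_infinite (fun a : F => (u a : G ⧸ N))
  have h1 : (u x)⁻¹ * u y ∈ N := QuotientGroup.eq.1 h
  have h3 : u (y - x) ∈ N := by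
    have h4 := hn.conj_mem _ h1 (u x)
    rw [hsub]
    have h5 : u x * ((u x)⁻¹ * u y) * (u x)⁻¹ = u y * (u x)⁻¹ := by group
    rwa [h5] at h4
  have hs0 : y - x ≠ 0 := sub_ne_zero.2 hxy.symm
  obtain ⟨s, hs⟩ : ∃ s, s = y - x := ⟨_, rfl⟩
  rw [← hs] at h3 hs0
  have hsq : ∀ c : F, u (c ^ 2 * s) ∈ N := by
    intro c
    by_cases hc : c = 0
    · have h4 : u (c ^ 2 * s) = 1 := by
        have h5 := hsub 0 0
        rw [mul_inv_cancel, sub_zero] at h5
        rw [hc, zero_pow two_ne_zero, zero_mul, h5]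
      rw [h4]
      exact N.one_mem
    · obtain ⟨g, hg⟩ := hu c hc
      rw [← hg]
      exact hn.conj_mem _ h3 g
  have h4 : a = ((a * s⁻¹ + 1) / 2) ^ 2 * s - ((a * s⁻¹ - 1) / 2) ^ 2 * s := by
    field_simp
    ring
  rw [h4, hsub]
  exact N.mul_mem (hsq _) (N.inv_mem (hsq _))

theorem diag2n_conj {F : Type*} [Field F] {ι : Type*} [Fintype ι] [DecidableEq ι] {i j : ι}
    (hij : i ≠ j) (c : F) (hc : c ≠ 0) (a : F) :
    SpecialLinearGroup.diag2n hij c hc * SpecialLinearGroup.transvection hij a *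
      (SpecialLinearGroup.diag2n hij c hc)⁻¹ = SpecialLinearGroup.transvection hij (c ^ 2 * a) := by
  rw [mul_inv_eq_iff_eq_mul]
  refine diag_mul_transvection (SpecialLinearGroup.diag2n_coe hij c hc) hij a (c ^ 2 * a) ?_
  simp only [hij.symm, if_true, if_false]
  field_simp

theorem transvection_mem {F : Type*} [Field F] [Infinite F] (h2 : (2 : F) ≠ 0) {ι : Type*}
    [Fintype ι] [DecidableEq ι] (N : Subgroup (SpecialLinearGroup ι F)) (hn : N.Normal)
    (hN : N.FiniteIndex) {i j : ι} (hij : i ≠ j) (a : F) :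
    SpecialLinearGroup.transvection hij a ∈ N :=
  root_mem h2 N hn hN (fun a => SpecialLinearGroup.transvection hij a)
    (fun a b => SpecialLinearGroup.transvection_add hij a b)
    (fun c hc => ⟨SpecialLinearGroup.diag2n hij c hc, fun a => diag2n_conj hij c hc a⟩) a

/-- `SL_2(F) ^ r` has no proper subgroup of finite index -/
theorem sl2_pow' {F : Type*} [Field F] [Infinite F] (h2 : (2 : F) ≠ 0) {r : ℕ}
    (H : Subgroup (Fin r → SpecialLinearGroup (Fin 2) F)) (hH : H.FiniteIndex) : H = ⊤ := by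
  classical
  have hfin : H.normalCore.FiniteIndex := Subgroup.finiteIndex_normalCore H
  have hn : H.normalCore.Normal := H.normalCore_normal
  rw [eq_top_iff]
  intro g _
  refine Subgroup.pi_mem_of_mulSingle_mem g fun k => ?_
  obtain ⟨E, hE⟩ : ∃ E : SpecialLinearGroup (Fin 2) F → Fin r → SpecialLinearGroup (Fin 2) F,
      ∀ A, E A = Pi.mulSingle (M := fun _ => SpecialLinearGroup (Fin 2) F) k A :=
    ⟨fun A => Pi.mulSingle (M := fun _ => SpecialLinearGroup (Fin 2) F) k A, fun _ => rfl⟩
  have hmul : ∀ A B : SpecialLinearGroup (Fin 2) F, E (A * B) = E A * E B := fun A B => by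
    rw [hE, hE, hE]
    exact Pi.mulSingle_mul (f := fun _ => SpecialLinearGroup (Fin 2) F) k A B
  have hinv : ∀ A : SpecialLinearGroup (Fin 2) F, E A⁻¹ = (E A)⁻¹ := fun A => by
    rw [hE, hE]
    exact Pi.mulSingle_inv (f := fun _ => SpecialLinearGroup (Fin 2) F) k A
  have main : ∀ A : SpecialLinearGroup (Fin 2) F, E A ∈ H := by
    intro A
    refine SL2.transvection_induction (fun A => E A ∈ H) ?_ ?_ A
    · intro i j hij c
      refine H.normalCore_le (root_mem h2 H.normalCore hn hfin
        (fun a => E (SpecialLinearGroup.transvection hij a)) (fun a b => ?_)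
        (fun c hc => ⟨E (SpecialLinearGroup.diag2n hij c hc), fun a => ?_⟩) c)
      · show E (SpecialLinearGroup.transvection hij (a + b)) =
          E (SpecialLinearGroup.transvection hij a) * E (SpecialLinearGroup.transvection hij b)
        rw [← hmul, SpecialLinearGroup.transvection_add]
      · show E (SpecialLinearGroup.diag2n hij c hc) * E (SpecialLinearGroup.transvection hij a) *
            (E (SpecialLinearGroup.diag2n hij c hc))⁻¹ =
              E (SpecialLinearGroup.transvection hij (c ^ 2 * a))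
        rw [← hinv, ← hmul, ← hmul, diag2n_conj]
    · intro A B hA hB
      show E (A * B) ∈ H
      rw [hmul]
      exact H.mul_mem hA hB
  have h3 := main (g k)
  rw [hE] at h3
  exact h3

/-- `SL_m(F)` has no subgroup of finite index either. -/
theorem sl_fin' (F : Type*) [Field F] [Infinite F] (h2 : (2 : F) ≠ 0) {m : ℕ}
    (H : Subgroup (SpecialLinearGroup (Fin m) F)) (hH : H.FiniteIndex) : H = ⊤ := by
  classical
  rcases subsingleton_or_nontrivial (Fin m) with hs | hn
  · rw [eq_top_iff]
    intro g _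
    have h1 : g = 1 := by
      apply SpecialLinearGroup.coeMonoidHom_injective
      rw [map_one]
      ext i j
      have h2 := g.2
      rw [Matrix.det_eq_elem_of_subsingleton _ i] at h2
      rw [Subsingleton.elim j i, Matrix.one_apply_eq]
      exact h2
    rw [h1]
    exact H.one_mem
  · have hfin : H.normalCore.FiniteIndex := Subgroup.finiteIndex_normalCore H
    exact eq_top_of_transvection H fun i j hij c =>
      H.normalCore_le (transvection_mem h2 H.normalCore H.normalCore_normal hfin hij c)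

/-- The normal closure of the block `SL_m(F)` in `SL_m'(F)`, `m' ≥ m ≥ 2`. -/
theorem sl_block' (F : Type*) [Field F] [Infinite F] {m m' : ℕ} (hm : 2 ≤ m) (h : m ≤ m') :
    ∃ K : SpecialLinearGroup (Fin m) F →* SpecialLinearGroup (Fin m') F,
      Subgroup.normalClosure (Set.range K) = ⊤ := by
  classical
  obtain ⟨c, rfl⟩ : ∃ c, m' = m + c := ⟨m' - m, by omega⟩
  refine ⟨blockK (finSumFinEquiv (m := m) (n := c)).symm, ?_⟩
  have hij : (⟨0, by omega⟩ : Fin m) ≠ ⟨1, by omega⟩ := by simp
  obtain ⟨a, ha⟩ := Infinite.exists_notMem_finset ({0, 1, -1} : Finset F)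
  simp only [Finset.mem_insert, Finset.mem_singleton, not_or] at ha
  obtain ⟨ha0, ha1, ha2⟩ := ha
  obtain ⟨g, hg⟩ : ∃ g, g = SpecialLinearGroup.diag2n hij a ha0 := ⟨_, rfl⟩
  have hg' : (g : Matrix (Fin m) (Fin m) F) = diagonal fun k =>
      if k = (⟨0, by omega⟩ : Fin m) then a else if k = (⟨1, by omega⟩ : Fin m) then a⁻¹ else 1 := by
    rw [hg]
    exact SpecialLinearGroup.diag2n_coe hij a ha0
  have h3 := normalClosure_diagonal
    (blockK_diagonal (finSumFinEquiv (m := m) (n := c)).symm hg')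
    (i₀ := finSumFinEquiv (Sum.inl (⟨0, by omega⟩ : Fin m)))
    (j₀ := finSumFinEquiv (Sum.inl (⟨1, by omega⟩ : Fin m))) (by
      rw [Equiv.symm_apply_apply, Equiv.symm_apply_apply]
      simp only [Sum.elim_inl]
      rw [if_pos trivial, if_neg hij.symm, if_pos trivial]
      intro h4
      have h5 : a * a = 1 := by
        nth_rewrite 2 [h4]
        exact mul_inv_cancel₀ ha0
      rcases mul_self_eq_one_iff.1 h5 with h6 | h6
      · exact ha1 h6
      · exact ha2 h6)
  rw [eq_top_iff, ← h3]
  apply Subgroup.normalClosure_mono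
  rw [Set.singleton_subset_iff]
  exact ⟨g, rfl⟩

end Pool.Agent.AXS
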