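import Pool.Agent.AXS.Main
import Pool.Agent.AXS.SLinf
import Pool.Agent.AXS.SLinf61
import Pool.Agent.HSF.Glob

/-!
# Actions of special linear groups on compact orientable spaces
-/

set_option autoImplicit false

open Set Metric MeasureTheory Matrix Topology

namespace Pool.Agent.AXS

open Pool.Agent.Helper3.HS

/-- Newman: an element of order two which acts nontrivially moves a dense set of points. -/
theorem dense_moved {d : ℕ} {X : Type*} [MetricSpace X] {R : Set X} (hRo : IsOpen R)
    (hRd : Dense R) (hRc : IsPreconnected R) (hR : R ⊆ regPts (d + 1) X) {G : Type*} [Group G]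
    [MulAction G X] [ContinuousConstSMul G X] {g : G} (hg : g * g = 1) (hne : ∃ x : X, g • x ≠ x) :
    Dense {x : X | g • x ≠ x} := by
  have hcl : IsClosed {z : X | g • z = z} := isClosed_eq (continuous_const_smul g) continuous_id
  rw [dense_iff_inter_open]
  by_contra hcon
  push Not at hcon
  obtain ⟨U, hUo, hUne, hU⟩ := hcon
  have hfixU : ∀ z ∈ U, g • z = z := by
    intro z hz
    by_contra h
    exact (Set.eq_empty_iff_forall_notMem.1 hU z) ⟨hz, h⟩
  obtain ⟨x₀, hx₀R, hx₀U⟩ : (R ∩ U).Nonempty := by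
    have := hRd.inter_open_nonempty U hUo hUne
    rwa [inter_comm] at this
  have : Fact (Nat.Prime 2) := ⟨Nat.prime_two⟩
  have hall : ∀ x ∈ R, g • x = x := by
    refine Pool.Agent.HSF.fix_of_newman (p := 2) hRo hRc hR g ?_ hx₀R ?_
    · intro x _
      refine ⟨1, Filter.Eventually.of_forall fun z => ?_⟩
      rw [pow_one, pow_two, hg, one_smul]
    · filter_upwards [hUo.mem_nhds hx₀U] with z hz
      exact hfixU z hz
  obtain ⟨x, hx⟩ := hne
  apply hx
  have h1 : closure R ⊆ {z : X | g • z = z} := closure_minimal (fun z hz => hall z hz) hcl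
  exact h1 (hRd x)

/-- The core: `SL_(2n+1)(F)` acts trivially, `n = d + 1`. -/
theorem sl_core {d : ℕ} (F : Type*) [Field F] [Infinite F] (h2 : (2 : F) ≠ 0) {X : Type*}
    [MetricSpace X] [CompactSpace X] [Nonempty X] {R : Set X} (hRo : IsOpen R) (hRd : Dense R)
    (hRc : IsPreconnected R) (hR : R ⊆ regPts (d + 1) X)
    (hfin : FinC X (d + 1)) (htop : TopC X (d + 1))
    (hcol : ∀ (B : Type) [Group B] [Finite B] [MulAction B X] [ContinuousConstSMul B X],
      HasCol B X (d + 1))
    {m : ℕ} (hm : 2 * (d + 1) + 1 = m) [MulAction (SpecialLinearGroup (Fin m) F) X]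
    [ContinuousConstSMul (SpecialLinearGroup (Fin m) F) X] (g : SpecialLinearGroup (Fin m) F)
    (x : X) : g • x = x := by
  obtain ⟨J, s, dd', hcen, hnc, hconj⟩ := sl_kernel' F h2 (n := d + 1) (Nat.succ_pos d) hm
  by_contra hgx
  set Kr : Subgroup (SpecialLinearGroup (Fin m) F) :=
    (MulAction.toPermHom (SpecialLinearGroup (Fin m) F) X).ker with hKr
  have hmem : ∀ h : SpecialLinearGroup (Fin m) F, h ∈ Kr ↔ ∀ y : X, h • y = y := by
    intro h
    rw [hKr, MonoidHom.mem_ker, Equiv.Perm.ext_iff]
    rfl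
  have hne : ∀ b, b ≠ 1 → ∃ y : X, J (s b) • y ≠ y := by
    intro b hb
    by_contra h
    push Not at h
    have h1 : J (s b) ∈ Kr := (hmem _).2 h
    have h3 : Subgroup.normalClosure {J (s b)} ≤ Kr :=
      Subgroup.normalClosure_le_normal (Set.singleton_subset_iff.2 h1)
    rw [hnc b hb] at h3
    exact hgx ((hmem g).1 (h3 (Subgroup.mem_top g)) x)
  have hsq : ∀ b : Fin (d + 1) → Multiplicative (ZMod 2), b * b = 1 := by
    intro b
    funext i
    have : ∀ z : Multiplicative (ZMod 2), z * z = 1 := by decide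
    exact this (b i)
  have hpc : IsPreconnected (univ : Set X) := by
    have := hRc.closure
    rwa [hRd.closure_eq] at this
  have hfree : ∀ b, b ≠ 1 → ∀ y : X, J (s b) • y ≠ y := by
    let i1 : MulAction (Fin (d + 1) → SpecialLinearGroup (Fin 2) F) X := MulAction.compHom X J
    let i2 : MulAction (Fin (d + 1) → Multiplicative (ZMod 2)) X :=
      MulAction.compHom X (J.comp s)
    have : ContinuousConstSMul (Fin (d + 1) → SpecialLinearGroup (Fin 2) F) X :=
      ⟨fun c => continuous_const_smul (J c)⟩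
    have : ContinuousConstSMul (Fin (d + 1) → Multiplicative (ZMod 2)) X :=
      ⟨fun c => continuous_const_smul (J (s c))⟩
    exact central_free (L := Fin (d + 1) → SpecialLinearGroup (Fin 2) F) hfin htop hpc
      (hcol _) (fun H hH => sl2_pow' h2 H hH) (fun b => ⟨s b, fun y => rfl⟩)
      (fun b c y => by
        change J (s b) • J c • y = J c • J (s b) • y
        rw [smul_smul, smul_smul, ← map_mul, ← map_mul, hcen])
      (fun b hb => dense_moved hRo hRd hRc hR (g := J (s b))
        (by rw [← map_mul, ← map_mul, hsq, map_one, map_one]) (hne b hb))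
  let i3 : MulAction (Fin (d + 1 + 1) → Multiplicative (ZMod 2)) X := MulAction.compHom X dd'
  have : ContinuousConstSMul (Fin (d + 1 + 1) → Multiplicative (ZMod 2)) X :=
    ⟨fun c => continuous_const_smul (dd' c)⟩
  refine not_free (L := SpecialLinearGroup (Fin m) F) (n := d + 1) (Nat.succ_pos d) hfin htop
    (hcol _) (fun H hH => sl_fin' F h2 H hH) (fun b => ⟨dd' b, fun y => rfl⟩) ?_
  intro c hc y hy
  obtain ⟨b, hb, h, hh⟩ := hconj c hc
  apply hfree b hb (h • y)
  have hy' : dd' c • y = y := hy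
  rw [← hh, smul_smul, inv_mul_cancel_right, mul_smul, hy']

/-- **Theorem.** Every homomorphism from `SL_m(F)`, `m ≥ 2 n + 1`, to the group of homeomorphisms is
trivial, `n = d + 1`. -/
theorem sl_final {d m : ℕ} (hm : 2 * (d + 1) + 1 ≤ m) (F : Type*) [Field F] [Infinite F]
    (h2 : (2 : F) ≠ 0)
    {X : Type*} [MetricSpace X] [CompactSpace X] [Nonempty X] {R : Set X} (hRo : IsOpen R)
    (hRd : Dense R) (hRc : IsPreconnected R) (hR : R ⊆ regPts (d + 1) X)
    (hfin : FinC X (d + 1)) (htop : TopC X (d + 1))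
    (hcol : ∀ (B : Type) [Group B] [Finite B] [MulAction B X] [ContinuousConstSMul B X],
      HasCol B X (d + 1))
    {G : Type*} [Group G] [MulAction G X] [ContinuousConstSMul G X]
    (θ : SpecialLinearGroup (Fin m) F →* G) (g : SpecialLinearGroup (Fin m) F) (x : X) :
    θ g • x = x := by
  obtain ⟨K, hK⟩ := sl_block' F (m := 2 * (d + 1) + 1) (by omega) hm
  let : MulAction (SpecialLinearGroup (Fin (2 * (d + 1) + 1)) F) X :=
    MulAction.compHom X (θ.comp K)
  have : ContinuousConstSMul (SpecialLinearGroup (Fin (2 * (d + 1) + 1)) F) X :=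
    ⟨fun c => continuous_const_smul (θ (K c))⟩
  set Kr : Subgroup (SpecialLinearGroup (Fin m) F) :=
    ((MulAction.toPermHom G X).comp θ).ker with hKr
  have hmem : ∀ h : SpecialLinearGroup (Fin m) F, h ∈ Kr ↔ ∀ y : X, θ h • y = y := by
    intro h
    rw [hKr, MonoidHom.mem_ker, Equiv.Perm.ext_iff]
    rfl
  have h1 : Set.range K ⊆ Kr := by
    rintro _ ⟨c, rfl⟩
    rw [SetLike.mem_coe, hmem]
    exact fun y => sl_core F h2 hRo hRd hRc hR hfin htop hcol rfl c y
  have h3 : Subgroup.normalClosure (Set.range K) ≤ Kr := Subgroup.normalClosure_le_normal h1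
  rw [hK] at h3
  exact (hmem g).1 (h3 (Subgroup.mem_top g)) x

end Pool.Agent.AXS
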