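import Pool.Agent.AXS.Defs

/-!
# Free lists: acyclicity and surjectivity of the norm

The lists which are fixed pointwise by no `b ≠ 1` form a free `B`-set, so the relative cochains are
acyclic.
-/

set_option autoImplicit false

open Set Metric

namespace Pool.Agent.AXS

section Orb

variable {X : Type*} {B : Type*} [Group B] [MulAction B X]

theorem map_smul_smul (b c : B) (l : List X) :
    (l.map (fun x => c • x)).map (fun x => b • x) = l.map (fun x => (b * c) • x) := by
  rw [List.map_map]
  apply List.map_congr_left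
  intro x _
  exact (mul_smul b c x).symm

theorem map_one_smul (l : List X) : l.map (fun x => (1 : B) • x) = l := by
  simp

/-- `Zp` is invariant. -/
theorem Zp_map (b : B) (l : List X) (h : Zp B l) : Zp B (l.map (fun x => b • x)) := by
  obtain ⟨c, hc, h⟩ := h
  refine ⟨b * c * b⁻¹, ?_, ?_⟩
  · intro h1
    apply hc
    have : c = b⁻¹ * (b * c * b⁻¹) * b := by group
    rw [this, h1]
    group
  · intro y hy
    obtain ⟨x, hx, rfl⟩ := List.mem_map.1 hy
    rw [← mul_smul]
    have : b * c * b⁻¹ * b = b * c := by group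
    rw [this, mul_smul, h x hx]

theorem Zp_map_iff (b : B) (l : List X) : Zp B (l.map (fun x => b • x)) ↔ Zp B l := by
  constructor
  · intro h
    have := Zp_map b⁻¹ _ h
    rwa [map_smul_smul, inv_mul_cancel, map_one_smul] at this
  · exact Zp_map b l

/-- The orbits of lists. -/
def orb (B X : Type*) [Group B] [MulAction B X] : Setoid (List X) where
  r l l' := ∃ b : B, l' = l.map (fun x => b • x)
  iseqv := by
    refine ⟨fun l => ⟨1, (map_one_smul l).symm⟩, ?_, ?_⟩
    · rintro l l' ⟨b, rfl⟩
      exact ⟨b⁻¹, by rw [map_smul_smul, inv_mul_cancel, map_one_smul]⟩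
    · rintro l l' l'' ⟨b, rfl⟩ ⟨c, rfl⟩
      exact ⟨c * b, by rw [map_smul_smul]⟩

/-- The representative of the orbit. -/
noncomputable def rep (B : Type*) {X : Type*} [Group B] [MulAction B X] (l : List X) : List X :=
  (Quotient.mk (orb B X) l).out

theorem exists_beta (l : List X) : ∃ b : B, l = (rep B l).map (fun x => b • x) :=
  Quotient.exact (Quotient.out_eq (Quotient.mk (orb B X) l))

/-- The element that moves the representative to `l`. -/
noncomputable def beta (B : Type*) {X : Type*} [Group B] [MulAction B X] (l : List X) : B :=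
  (exists_beta (B := B) l).choose

theorem beta_spec (l : List X) : l = (rep B l).map (fun x => beta B l • x) :=
  (exists_beta (B := B) l).choose_spec

theorem rep_map (b : B) (l : List X) : rep B (l.map (fun x => b • x)) = rep B l := by
  unfold rep
  congr 1
  exact Quotient.sound ⟨b⁻¹, by rw [map_smul_smul, inv_mul_cancel, map_one_smul]⟩

theorem eq_of_free {l : List X} (h : ¬ Zp B l) {b c : B}
    (hbc : l.map (fun x => b • x) = l.map (fun x => c • x)) : b = c := by
  by_contra hne
  apply h
  refine ⟨b⁻¹ * c, ?_, ?_⟩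
  · intro h1
    apply hne
    rw [inv_mul_eq_one] at h1
    exact h1
  · intro x hx
    have := List.map_inj_left.1 hbc x hx
    rw [mul_smul, ← this, inv_smul_smul]

theorem beta_map (b : B) {l : List X} (h : ¬ Zp B l) :
    beta B (l.map (fun x => b • x)) = b * beta B l := by
  have h1 := beta_spec (B := B) (l.map (fun x => b • x))
  rw [rep_map] at h1
  have h2 : l.map (fun x => b • x) = (rep B l).map (fun x => (b * beta B l) • x) := by
    rw [← map_smul_smul, ← beta_spec]
  have h3 : ¬ Zp B (rep B l) := by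
    intro h4
    apply h
    rw [beta_spec (B := B) l]
    exact Zp_map _ _ h4
  exact eq_of_free h3 (h1.symm.trans h2)

end Orb

section Conc

variable {X V : Type*} [AddCommGroup V] [MetricSpace X] {B : Type*} [Group B] [MulAction B X]

/-- A common size. -/
theorem exists_common {ι : Type*} [Finite ι] {P : ι → ℝ → Prop}
    (hP : ∀ i ε ε', 0 < ε' → ε' ≤ ε → P i ε → P i ε') (h : ∀ i, ∃ ε > 0, P i ε) :
    ∃ ε > 0, ∀ i, P i ε := by
  classical
  have := Fintype.ofFinite ι
  choose e he hPe using h
  rcases isEmpty_or_nonempty ι with hι | hι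
  · exact ⟨1, one_pos, fun i => (hι.false i).elim⟩
  · refine ⟨Finset.univ.inf' Finset.univ_nonempty e, ?_, fun i => ?_⟩
    · rw [gt_iff_lt, Finset.lt_inf'_iff]
      exact fun i _ => he i
    · apply hP i (e i) _ _ (Finset.inf'_le e (Finset.mem_univ i)) (hPe i)
      rw [Finset.lt_inf'_iff]
      exact fun i _ => he i

theorem sm_mono {ε ε' : ℝ} {w : List X} (h : ε ≤ ε') (hs : Sm ε w) : Sm ε' w :=
  fun x hx y hy => (hs x hx y hy).trans_le h

open Classical in
/-- The relative cochains are acyclic. -/
theorem KL_free [Finite B] (j m : ℕ) :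
    KL B 1 m (DT (Zp B) j : AddSubgroup (Co X V)) (DT All j) := by
  intro φ hφ heq hcoc
  refine ⟨fun u => (fun l => if Zp B l then 0 else φ (beta B l :: u) l : Co X V), ?_, ?_, ?_⟩
  · intro u
    exact ⟨1, one_pos, fun l _ _ hl => if_pos hl⟩
  · intro b u
    funext l
    rw [Co.smul_apply]
    change (if Zp B l then 0 else φ (beta B l :: u.map (fun c => b * c)) l) =
      if Zp B (l.map (fun x => b⁻¹ • x)) then 0 else
        φ (beta B (l.map (fun x => b⁻¹ • x)) :: u) (l.map (fun x => b⁻¹ • x))
    by_cases hl : Zp B l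
    · rw [if_pos hl, if_pos ((Zp_map_iff b⁻¹ l).2 hl)]
    · rw [if_neg hl, if_neg (fun h => hl ((Zp_map_iff b⁻¹ l).1 h)), beta_map b⁻¹ hl]
      have h1 := congrFun (heq b ((b⁻¹ * beta B l) :: u)) l
      rw [Co.smul_apply, List.map_cons] at h1
      rw [← h1]
      simp
  · intro u hu
    have h1 : ∃ ε > 0, ∀ b : B, ∀ l : List X, l.length = j + 1 → Sm ε l →
        dd φ (b :: u) l = 0 := by
      apply exists_common
      · intro b ε ε' _ hle h l hl hs
        exact h l hl (sm_mono hle hs)
      · intro b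
        obtain ⟨ε, hε, h⟩ := hcoc (b :: u) (by simp [hu])
        exact ⟨ε, hε, fun l hl hs => h l hl hs trivial⟩
    obtain ⟨ε, hε, h1⟩ := h1
    obtain ⟨ε', hε', h2⟩ := hφ u
    refine ⟨min ε ε', lt_min hε hε', fun l hl hs _ => ?_⟩
    set ψ : List B → Co X V := fun u => (fun l => if Zp B l then 0 else φ (beta B l :: u) l : Co X V)
      with hψ
    let ev : Co X V →+ V := ⟨⟨fun f => f l, rfl⟩, fun f g => rfl⟩
    have h3 : dd ψ u l = dd (fun w => ψ w l) u := (dd_comp ev u ψ).symm
    rw [one_smul, Co.sub_apply, h3]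
    by_cases hZ : Zp B l
    · have h4 : (fun w => ψ w l) = fun _ => (0 : V) := by
        funext w
        exact if_pos hZ
      rw [h4, dd_zero, h2 l hl (sm_mono (min_le_right _ _) hs) hZ, sub_zero]
    · have h4 : (fun w => ψ w l) = fun w => φ (beta B l :: w) l := by
        funext w
        exact if_neg hZ
      have h5 : dd φ (beta B l :: u) l = φ u l - dd (fun w => φ (beta B l :: w)) u l := rfl
      have h6 : dd (fun w => φ (beta B l :: w)) u l = dd (fun w => φ (beta B l :: w) l) u :=
        (dd_comp ev u (fun w => φ (beta B l :: w))).symm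
      rw [h4, ← h6, ← h5]
      exact h1 _ l hl (sm_mono (min_le_left _ _) hs)

open Classical in
/-- Invariant relative cochains are norms. -/
theorem norm_surj [Fintype B] {n : ℕ} {g : Co X V} (hg : g ∈ DT (Zp B) n)
    (hinv : ∀ b : B, b • g - g ∈ DT All n) :
    ∃ y ∈ (DT (Zp B) n : AddSubgroup (Co X V)), (∑ b : B, b • y) - g ∈ DT All n := by
  refine ⟨(fun l => if Zp B l ∨ beta B l ≠ 1 then 0 else g l : Co X V),
    ⟨1, one_pos, fun l _ _ hl => if_pos (Or.inl hl)⟩, ?_⟩
  have h1 : ∃ ε > 0, ∀ b : B, ∀ l : List X, l.length = n + 1 → Sm ε l → (b • g - g) l = 0 := by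
    apply exists_common
    · intro b ε ε' _ hle h l hl hs
      exact h l hl (sm_mono hle hs)
    · intro b
      obtain ⟨ε, hε, h⟩ := hinv b
      exact ⟨ε, hε, fun l hl hs => h l hl hs trivial⟩
  obtain ⟨ε, hε, h1⟩ := h1
  obtain ⟨ε', hε', h2⟩ := hg
  refine ⟨min ε ε', lt_min hε hε', fun l hl hs _ => ?_⟩
  let ev : Co X V →+ V := ⟨⟨fun f => f l, rfl⟩, fun f g => rfl⟩
  set y : Co X V := (fun l => if Zp B l ∨ beta B l ≠ 1 then 0 else g l : Co X V) with hy
  have h3 : (∑ b : B, b • y) l = ∑ b : B, (b • y) l := map_sum ev _ _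
  rw [Co.sub_apply, h3]
  have h4 : ∀ b : B, (b • y) l = if b = beta B l then (if Zp B l then 0 else g l) else 0 := by
    intro b
    rw [Co.smul_apply]
    change (if Zp B (l.map (fun x => b⁻¹ • x)) ∨ beta B (l.map (fun x => b⁻¹ • x)) ≠ 1 then 0 else
      g (l.map (fun x => b⁻¹ • x))) = _
    by_cases hZ : Zp B l
    · rw [if_pos (Or.inl ((Zp_map_iff b⁻¹ l).2 hZ)), if_pos hZ, ite_self]
    · by_cases hb : b = beta B l
      · have h5 : beta B (l.map (fun x => b⁻¹ • x)) = 1 := by
          rw [beta_map b⁻¹ hZ, hb, inv_mul_cancel]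
        rw [if_neg, if_pos hb, if_neg hZ]
        · have h6 := h1 b l hl (sm_mono (min_le_left _ _) hs)
          rw [Co.sub_apply, Co.smul_apply] at h6
          exact sub_eq_zero.1 h6
        · rintro (h6 | h6)
          · exact hZ ((Zp_map_iff b⁻¹ l).1 h6)
          · exact h6 h5
      · rw [if_pos, if_neg hb]
        right
        rw [beta_map b⁻¹ hZ]
        intro h6
        rw [inv_mul_eq_one] at h6
        exact hb h6
  rw [Finset.sum_congr rfl fun b _ => h4 b, Finset.sum_ite_eq' Finset.univ (beta B l)]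
  rw [if_pos (Finset.mem_univ _)]
  split_ifs with hZ
  · rw [h2 l hl (sm_mono (min_le_right _ _) hs) hZ, sub_zero]
  · exact sub_self _

end Conc

end Pool.Agent.AXS
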