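import Pool.Agent.AXS.Defs

/-! # Cochains on the lists with trivial stabiliser are acyclic -/

set_option autoImplicit false

namespace Pool.Agent.AXS

variable {X : Type*} {B : Type*} [Group B] [MulAction B X]

theorem map_smul_smul49 (b c : B) (l : List X) :
    (l.map (fun x => b • x)).map (fun x => c • x) = l.map (fun x => (c * b) • x) := by
  rw [List.map_map]
  refine List.map_congr_left fun x _ => ?_
  exact smul_smul c b x

theorem map_one_smul49 (l : List X) : l.map (fun x => (1 : B) • x) = l := by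
  have : (fun x : X => (1 : B) • x) = id := funext fun x => one_smul B x
  rw [this, List.map_id]

theorem Zp_map49 (b : B) (l : List X) (h : Zp B (l.map (fun x => b • x))) : Zp B l := by
  obtain ⟨c, hc, h⟩ := h
  refine ⟨b⁻¹ * c * b, ?_, ?_⟩
  · intro h1
    apply hc
    have h2 : c = b * (b⁻¹ * c * b) * b⁻¹ := by group
    rw [h2, h1]
    group
  · intro x hx
    have h1 := h (b • x) (List.mem_map.2 ⟨x, hx, rfl⟩)
    rw [mul_smul, mul_smul, h1, inv_smul_smul]

theorem Zp_map_iff49 (b : B) (l : List X) : Zp B (l.map (fun x => b • x)) ↔ Zp B l := by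
  refine ⟨Zp_map49 b l, fun h => ?_⟩
  apply Zp_map49 b⁻¹
  rw [map_smul_smul49, inv_mul_cancel, map_one_smul49]
  exact h

/-- An equivariant map from the lists with trivial stabiliser to the group. -/
theorem exists_rho49 (X : Type*) (B : Type*) [Group B] [MulAction B X] :
    ∃ ρ : List X → B, ∀ (b : B) (l : List X), ¬ Zp B l → ρ (l.map (fun x => b • x)) = b * ρ l := by
  classical
  let s : Setoid (List X) :=
    { r := fun l w => ∃ b : B, w = l.map (fun x => b • x)
      iseqv :=
        { refl := fun l => ⟨1, (map_one_smul49 l).symm⟩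
          symm := by
            rintro l w ⟨b, rfl⟩
            refine ⟨b⁻¹, ?_⟩
            rw [map_smul_smul49, inv_mul_cancel, map_one_smul49]
          trans := by
            rintro l w v ⟨b, rfl⟩ ⟨c, rfl⟩
            exact ⟨c * b, map_smul_smul49 b c l⟩ } }
  have h1 : ∀ l : List X, ∃ b : B, l = ((Quotient.mk s l).out).map (fun x => b • x) := by
    intro l
    exact Quotient.exact (Quotient.out_eq (Quotient.mk s l))
  choose ρ hρ using h1
  refine ⟨ρ, fun b l hl => ?_⟩
  have h2 : (Quotient.mk s (l.map (fun x => b • x))) = Quotient.mk s l :=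
    Quotient.sound ⟨b⁻¹, by rw [map_smul_smul49, inv_mul_cancel, map_one_smul49]⟩
  have h3 := hρ (l.map (fun x => b • x))
  rw [h2] at h3
  have h4 := hρ l
  set w := (Quotient.mk s l).out with hw
  set β := ρ (l.map (fun x => b • x)) with hβ
  -- `β w = b (ρ l) w`
  have h5 : w.map (fun x => β • x) = w.map (fun x => (b * ρ l) • x) := by
    rw [← h3]
    conv_lhs => rw [h4]
    rw [map_smul_smul49]
  have h6 : w.map (fun x => ((b * ρ l)⁻¹ * β) • x) = w := by
    rw [← map_smul_smul49, h5, map_smul_smul49, inv_mul_cancel, map_one_smul49]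
  by_contra hne
  apply hl
  rw [h4, Zp_map_iff49]
  refine ⟨(b * ρ l)⁻¹ * β, ?_, ?_⟩
  · intro h7
    apply hne
    have h8 : β = (b * ρ l) * ((b * ρ l)⁻¹ * β) := by group
    rw [h8, h7, mul_one]
  · intro x hx
    have h7 : w.map (fun x => ((b * ρ l)⁻¹ * β) • x) = w.map id := by rw [h6, List.map_id]
    exact List.map_inj_left.1 h7 x hx

section Cochains

variable [MetricSpace X] {V : Type*} [AddCommGroup V]

omit [MetricSpace X] in
/-- `dd` commutes with evaluation. -/
theorem dd_eval49 {S W : Type*} [AddCommGroup W] (f : List S → List X → W) (l : List X) :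
    ∀ u : List S, (dd (V := List X → W) f u) l = dd (fun w => f w l) u := by
  intro u
  induction u generalizing f with
  | nil => rfl
  | cons x v ih =>
    rw [dd_cons, dd_cons, Pi.sub_apply, ih]

/-- **Acyclicity**: the group cohomology with coefficients in the relative cochains vanishes. -/
theorem KL_free49 [Finite B] (j m : ℕ) :
    KL B 1 m (DT (V := V) (Zp (X := X) B) j) (DT All j) := by
  classical
  intro φ hφ1 hφ2 hφ3
  obtain ⟨ρ, hρ⟩ := exists_rho49 X B
  have hψz : ∀ u : List B, ∀ l : List X, Zp B l →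
      (fun l : List X => if Zp B l then (0 : V) else φ (ρ l :: u) l) l = 0 := by
    intro u l hl
    exact if_pos hl
  refine ⟨fun u => (fun l : List X => if Zp B l then (0 : V) else φ (ρ l :: u) l : Co X V),
    ?_, ?_, ?_⟩
  · intro u
    exact ⟨1, one_pos, fun l _ _ hl => hψz u l hl⟩
  · intro b u
    funext l
    rw [Co.smul_apply]
    by_cases hl : Zp B l
    · have h1 : Zp B (l.map (fun x => b⁻¹ • x)) := (Zp_map_iff49 _ _).2 hl
      simp only [if_pos hl, if_pos h1]
    · have h1 : ¬ Zp B (l.map (fun x => b⁻¹ • x)) := fun h => hl ((Zp_map_iff49 _ _).1 h)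
      simp only [if_neg hl, if_neg h1]
      rw [hρ b⁻¹ l hl]
      have h2 := hφ2 b ((b⁻¹ * ρ l) :: u)
      rw [List.map_cons, mul_inv_cancel_left] at h2
      rw [h2, Co.smul_apply]
  · intro u hu
    -- a uniform size
    have h1 : ∀ b : B, ∃ ε > 0, ∀ l : List X, l.length = j + 1 → Sm ε l →
        (dd φ (b :: u)) l = 0 := by
      intro b
      obtain ⟨ε, hε, h⟩ := hφ3 (b :: u) (by rw [List.length_cons, hu])
      exact ⟨ε, hε, fun l hl hs => h l hl hs trivial⟩
    choose ε hε0 hε using h1
    obtain ⟨ε', hε', hφu⟩ := hφ1 u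
    obtain ⟨ε₀, hε₀, hle⟩ : ∃ ε₀ > 0, ∀ b, ε₀ ≤ ε b := by
      have : Fintype B := Fintype.ofFinite B
      refine ⟨Finset.univ.inf' ⟨1, Finset.mem_univ _⟩ ε, ?_, fun b =>
        Finset.inf'_le _ (Finset.mem_univ b)⟩
      rw [gt_iff_lt, Finset.lt_inf'_iff]
      exact fun b _ => hε0 b
    refine ⟨min ε₀ ε', lt_min hε₀ hε', fun l hl hs _ => ?_⟩
    have hs1 : ∀ b, Sm (ε b) l := fun b x hx y hy =>
      (hs x hx y hy).trans_le ((min_le_left _ _).trans (hle b))
    have hs2 : Sm ε' l := fun x hx y hy => (hs x hx y hy).trans_le (min_le_right _ _)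
    rw [one_smul, Co.sub_apply]
    have h2 := dd_eval49 (fun u => (fun l : List X => if Zp B l then (0 : V) else φ (ρ l :: u) l)) l u
    have h3 : (dd (V := Co X V)
        (fun u => (fun l : List X => if Zp B l then (0 : V) else φ (ρ l :: u) l : Co X V)) u) l =
        dd (fun w => if Zp B l then (0 : V) else φ (ρ l :: w) l) u := h2
    rw [h3]
    by_cases hz : Zp B l
    · have h4 : (fun w : List B => if Zp B l then (0 : V) else φ (ρ l :: w) l) = fun _ => 0 := by
        funext w
        exact if_pos hz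
      rw [h4, dd_zero, hφu l hl hs2 hz, sub_zero]
    · have h4 : (fun w : List B => if Zp B l then (0 : V) else φ (ρ l :: w) l) =
          fun w => φ (ρ l :: w) l := by
        funext w
        exact if_neg hz
      have h5 := hε (ρ l) l hl (hs1 _)
      rw [dd_cons, Co.sub_apply] at h5
      have h6 := dd_eval49 (fun w => φ (ρ l :: w)) l u
      rw [h4, ← h6]
      exact h5

/-- **Invariant cochains are norms.** -/
theorem norm_surj49 [Fintype B] (j : ℕ) (g : Co X V) (hg : g ∈ DT (V := V) (Zp (X := X) B) j)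
    (hinv : ∀ b : B, b • g - g ∈ DT (V := V) (X := X) All j) :
    ∃ y ∈ DT (V := V) (Zp (X := X) B) j, (∑ b : B, b • y) - g ∈ DT (V := V) (X := X) All j := by
  classical
  obtain ⟨ρ, hρ⟩ := exists_rho49 X B
  set y : Co X V := fun l => if ¬ Zp B l ∧ ρ l = 1 then g l else 0 with hy
  have hy0 : ∀ l, Zp B l → y l = 0 := fun l hl => if_neg fun h => h.1 hl
  refine ⟨y, ⟨1, one_pos, fun l _ _ hl => hy0 l hl⟩, ?_⟩
  obtain ⟨ε', hε', hg'⟩ := hg
  choose ε hε0 hε using hinv
  obtain ⟨ε₀, hε₀, hle⟩ : ∃ ε₀ > 0, ∀ b, ε₀ ≤ ε b := by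
    refine ⟨Finset.univ.inf' ⟨1, Finset.mem_univ _⟩ ε, ?_, fun b =>
      Finset.inf'_le _ (Finset.mem_univ b)⟩
    rw [gt_iff_lt, Finset.lt_inf'_iff]
    exact fun b _ => hε0 b
  refine ⟨min ε₀ ε', lt_min hε₀ hε', fun l hl hs _ => ?_⟩
  have hs1 : ∀ b, Sm (ε b) l := fun b x hx y hy =>
    (hs x hx y hy).trans_le ((min_le_left _ _).trans (hle b))
  have hs2 : Sm ε' l := fun x hx y hy => (hs x hx y hy).trans_le (min_le_right _ _)
  have hsum : ∀ s : Finset B, (∑ b ∈ s, b • y : Co X V) l = ∑ b ∈ s, (b • y) l := by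
    intro s
    induction s using Finset.induction_on with
    | empty => rfl
    | insert b s hb ih => rw [Finset.sum_insert hb, Finset.sum_insert hb, Co.add_apply, ih]
  rw [Co.sub_apply, hsum]
  by_cases hz : Zp B l
  · have h1 : ∀ b : B, (b • y) l = 0 := by
      intro b
      rw [Co.smul_apply]
      exact hy0 _ ((Zp_map_iff49 _ _).2 hz)
    rw [Finset.sum_congr rfl fun b _ => h1 b, Finset.sum_const_zero, hg' l hl hs2 hz, sub_zero]
  · have h1 : ∀ b : B, (b • y) l = if b = ρ l then g l else 0 := by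
      intro b
      rw [Co.smul_apply]
      have h2 : ¬ Zp B (l.map (fun x => b⁻¹ • x)) := fun h => hz ((Zp_map_iff49 _ _).1 h)
      have h3 := hρ b⁻¹ l hz
      by_cases hb : b = ρ l
      · rw [if_pos hb]
        have h4 : ρ (l.map (fun x => b⁻¹ • x)) = 1 := by
          rw [h3, hb, inv_mul_cancel]
        have h5 : y (l.map (fun x => b⁻¹ • x)) = g (l.map (fun x => b⁻¹ • x)) := if_pos ⟨h2, h4⟩
        rw [h5]
        have h6 := hε b l hl (hs1 b) trivial
        rw [Co.sub_apply, Co.smul_apply] at h6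
        exact sub_eq_zero.1 h6
      · rw [if_neg hb]
        refine if_neg fun h => hb ?_
        have h4 := h.2
        rw [h3] at h4
        exact (inv_mul_eq_one.1 h4)
    rw [Finset.sum_congr rfl fun b _ => h1 b, Finset.sum_ite_eq' Finset.univ (ρ l) (fun _ => g l),
      if_pos (Finset.mem_univ _), sub_self]

end Cochains

end Pool.Agent.AXS
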