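import Mathlib

/-! # General position for invariant maps

`X` compact metric with `μH[n+1] X = 0`, `B` a finite group of homeomorphisms: the invariant maps
`X → ℝ^N` no value of which has `n+1` coordinates in the grid `h ℤ` are dense. -/

set_option autoImplicit false

open Set Metric MeasureTheory Measure TopologicalSpace
open scoped Topology NNReal ENNReal

namespace AXS

/-- Lipschitz approximation on a compact space. -/
theorem lip_approx49 {Y : Type*} [PseudoMetricSpace Y] [CompactSpace Y] (g : C(Y, ℝ)) {ε : ℝ}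
    (hε : 0 < ε) : ∃ (L : ℝ≥0) (u : Y → ℝ), LipschitzWith L u ∧ ∀ y, |u y - g y| ≤ ε := by
  rcases isEmpty_or_nonempty Y with hY | hY
  · exact ⟨0, fun _ => 0, LipschitzWith.const _, fun y => (hY.false y).elim⟩
  have huc : UniformContinuous g := CompactSpace.uniformContinuous_of_continuous g.continuous
  obtain ⟨δ, hδ, hδ2⟩ := Metric.uniformContinuous_iff.1 huc ε hε
  obtain ⟨M, hM⟩ : ∃ M : ℝ, ∀ y, |g y| ≤ M := ⟨‖g‖, fun y => g.norm_coe_le_norm y⟩
  have hM0 : 0 ≤ M := le_trans (abs_nonneg _) (hM hY.some)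
  set L : ℝ≥0 := ⟨2 * M / δ, by positivity⟩ with hL
  have hLv : (L : ℝ) = 2 * M / δ := rfl
  have hbdd : ∀ x, BddBelow (range fun y => g y + L * dist x y) := by
    intro x
    refine ⟨-M, ?_⟩
    rintro _ ⟨y, rfl⟩
    have h1 := (abs_le.1 (hM y)).1
    have h2 : 0 ≤ (L : ℝ) * dist x y := mul_nonneg L.2 dist_nonneg
    change -M ≤ g y + L * dist x y
    linarith
  refine ⟨L, fun x => ⨅ y, (g y + L * dist x y), ?_, ?_⟩
  · refine LipschitzWith.of_le_add_mul L ?_
    intro x x'
    have h1 : (⨅ y, (g y + L * dist x y)) - L * dist x x' ≤ ⨅ y, (g y + L * dist x' y) := by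
      refine le_ciInf ?_
      intro y
      have h2 : (⨅ y, (g y + L * dist x y)) ≤ g y + L * dist x y := ciInf_le (hbdd x) y
      have h3 : dist x y ≤ dist x x' + dist x' y := dist_triangle _ _ _
      have h4 : (L : ℝ) * dist x y ≤ L * (dist x x' + dist x' y) :=
        mul_le_mul_of_nonneg_left h3 L.2
      linarith
    linarith
  · intro x
    have h1 : (⨅ y, (g y + L * dist x y)) ≤ g x := by
      have := ciInf_le (hbdd x) x
      simpa using this
    have h2 : g x - ε ≤ ⨅ y, (g y + L * dist x y) := by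
      refine le_ciInf ?_
      intro y
      have h5 : 0 ≤ (L : ℝ) * dist x y := mul_nonneg L.2 dist_nonneg
      by_cases hxy : dist x y < δ
      · have h3 := hδ2 hxy
        rw [Real.dist_eq] at h3
        have h4 := (abs_lt.1 h3).2
        linarith
      · rw [not_lt] at hxy
        have h3 : 2 * M ≤ L * dist x y := by
          rw [hLv, div_mul_eq_mul_div, le_div_iff₀ hδ]
          exact mul_le_mul_of_nonneg_left hxy (by linarith)
        have h6 := (abs_le.1 (hM y)).1
        have h7 := (abs_le.1 (hM x)).2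
        linarith
    rw [abs_le]
    constructor <;> linarith

/-- A Lipschitz map from a space with `μH[n+1] = 0` to `ℝ^(n+1)` misses points near any point. -/
theorem miss49 {Y : Type*} [MetricSpace Y] [MeasurableSpace Y] [BorelSpace Y] {ι : Type*}
    [Fintype ι] (hY : μH[(Fintype.card ι : ℝ)] (univ : Set Y) = 0) (u : Y → ι → ℝ) {L : ℝ≥0}
    (hu : LipschitzWith L u) (q : ι → ℝ) {ε : ℝ} (hε : 0 < ε) :
    ∃ p : ι → ℝ, dist p q < ε ∧ ∀ y, u y ≠ p := by
  have h1 : μH[(Fintype.card ι : ℝ)] (u '' univ) = 0 := by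
    have h2 := hu.hausdorffMeasure_image_le (d := (Fintype.card ι : ℝ)) (by positivity) univ
    rw [hY, mul_zero] at h2
    exact le_antisymm h2 bot_le
  rw [MeasureTheory.hausdorffMeasure_pi_real] at h1
  by_contra hcon
  push Not at hcon
  have h3 : ball q ε ⊆ u '' univ := by
    intro p hp
    obtain ⟨y, hy⟩ := hcon p hp
    exact ⟨y, mem_univ _, hy⟩
  have h4 : (0 : ℝ≥0∞) < volume (ball q ε) := measure_ball_pos volume q hε
  have h5 := measure_mono (μ := (volume : Measure (ι → ℝ))) h3
  rw [h1] at h5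
  exact absurd h5 (not_le.2 h4)

/-- Extension of a function from a compact set meeting every orbit at most once to an invariant
function. -/
theorem ext49 {X : Type*} [MetricSpace X] [CompactSpace X] {B : Type*} [Group B] [Finite B]
    [MulAction B X] (hB : ∀ b : B, Continuous fun x : X => b • x) {D : Set X} (hD : IsClosed D)
    (hDo : ∀ x ∈ D, ∀ b : B, b • x ∈ D → b • x = x) (g : X → ℝ) (hg : ContinuousOn g D) {ε : ℝ}
    (hε : ∀ x ∈ D, |g x| ≤ ε) (hε0 : 0 ≤ ε) :
    ∃ w : C(X, ℝ), (∀ (b : B) (x : X), w (b • x) = w x) ∧ (∀ x, |w x| ≤ ε) ∧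
      ∀ x ∈ D, w x = g x := by
  classical
  have : Fintype B := Fintype.ofFinite B
  set F : B → Set X := fun b => {x | b • x ∈ D} with hF
  have hFc : ∀ b, IsClosed (F b) := fun b => hD.preimage (hB b)
  set G : X → ℝ := fun x => if hx : ∃ b : B, b • x ∈ D then g (hx.choose • x) else 0 with hG
  have hGF : ∀ b, ∀ x ∈ F b, G x = g (b • x) := by
    intro b x hx
    have hx' : ∃ b : B, b • x ∈ D := ⟨b, hx⟩
    have h1 : G x = g (hx'.choose • x) := by
      simp only [hG]
      rw [dif_pos hx']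
    rw [h1]
    congr 1
    have h2 := hx'.choose_spec
    have h3 := hDo (b • x) hx (hx'.choose * b⁻¹)
    rw [smul_smul, inv_mul_cancel_right] at h3
    exact h3 h2
  have hGc : ContinuousOn G (⋃ b, F b) := by
    refine LocallyFinite.continuousOn_iUnion (locallyFinite_of_finite F) hFc ?_
    intro b
    refine ContinuousOn.congr (f := fun x => g (b • x)) ?_ (fun x hx => hGF b x hx)
    exact hg.comp (hB b).continuousOn (fun x hx => hx)
  have hK : IsClosed (⋃ b, F b) := isClosed_iUnion_of_finite hFc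
  have hGe : ∀ x ∈ ⋃ b, F b, G x ∈ Icc (-ε) ε := by
    intro x hx
    obtain ⟨b, hb⟩ := mem_iUnion.1 hx
    rw [hGF b x hb]
    exact abs_le.1 (hε _ hb)
  obtain ⟨W, hW1, hW2⟩ := ContinuousMap.exists_restrict_eq_forall_mem_of_closed
    (s := ⋃ b, F b) (f := ⟨(⋃ b, F b).domRestrict G, hGc.domRestrict⟩) (t := Icc (-ε) ε)
    (fun x => hGe x.1 x.2) ⟨0, by constructor <;> linarith⟩ hK
  have hWG : ∀ x ∈ ⋃ b, F b, W x = G x := by
    intro x hx
    exact congrArg (fun f : C(↥(⋃ b, F b), ℝ) => f ⟨x, hx⟩) hW2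
  have hcard : (0 : ℝ) < Fintype.card B := by
    have : 0 < Fintype.card B := Fintype.card_pos
    exact_mod_cast this
  refine ⟨⟨fun x => (∑ b : B, W (b • x)) / Fintype.card B, ?_⟩, ?_, ?_, ?_⟩
  · refine Continuous.div_const ?_ _
    exact continuous_finsetSum _ fun b _ => W.continuous.comp (hB b)
  · intro c x
    change (∑ b : B, W (b • c • x)) / (Fintype.card B : ℝ) = (∑ b : B, W (b • x)) / Fintype.card B
    congr 1
    rw [← Equiv.sum_comp (Equiv.mulRight c) (fun b => W (b • x))]
    refine Finset.sum_congr rfl fun b _ => ?_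
    rw [Equiv.coe_mulRight, smul_smul]
  · intro x
    change |(∑ b : B, W (b • x)) / (Fintype.card B : ℝ)| ≤ ε
    rw [abs_div, abs_of_pos hcard, div_le_iff₀ hcard]
    calc |∑ b : B, W (b • x)| ≤ ∑ b : B, |W (b • x)| := Finset.abs_sum_le_sum_abs _ _
      _ ≤ ∑ _b : B, ε := Finset.sum_le_sum fun b _ => abs_le.2 (hW1 (b • x))
      _ = ε * Fintype.card B := by
        rw [Finset.sum_const, Finset.card_univ, nsmul_eq_mul, mul_comm]
  · intro x hx
    change (∑ b : B, W (b • x)) / (Fintype.card B : ℝ) = g x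
    have h1 : ∀ b : B, W (b • x) = g x := by
      intro b
      have hb : b • x ∈ F b⁻¹ := by
        change b⁻¹ • b • x ∈ D
        rwa [inv_smul_smul]
      rw [hWG _ (mem_iUnion.2 ⟨b⁻¹, hb⟩), hGF b⁻¹ _ hb, inv_smul_smul]
    rw [Finset.sum_congr rfl fun b _ => h1 b, Finset.sum_const, Finset.card_univ, nsmul_eq_mul,
      mul_div_assoc, mul_comm, div_mul_cancel₀ _ hcard.ne']

/-- The pieces: points fixed exactly by `K`, moved by at least `1/(k+1)` by the other elements,
close to `z`. -/
def Dset49 {X : Type*} [MetricSpace X] (B : Type*) [Group B] [MulAction B X] (K : Set B) (k : ℕ)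
    (z : X) : Set X :=
  {x | (∀ b ∈ K, b • x = x) ∧ (∀ b : B, b ∉ K → 1 / ((k : ℝ) + 1) ≤ dist (b • x) x) ∧
    dist x z ≤ 1 / (4 * ((k : ℝ) + 1))}

theorem Dset49_closed {X : Type*} [MetricSpace X] {B : Type*} [Group B]
    [MulAction B X] (hB : ∀ b : B, Continuous fun x : X => b • x) (K : Set B) (k : ℕ) (z : X) :
    IsClosed (Dset49 B K k z) := by
  have h1 : Dset49 B K k z = (⋂ b ∈ K, {x : X | b • x = x}) ∩
      ((⋂ b ∈ Kᶜ, {x : X | 1 / ((k : ℝ) + 1) ≤ dist (b • x) x}) ∩
        {x : X | dist x z ≤ 1 / (4 * ((k : ℝ) + 1))}) := by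
    ext x
    simp only [Dset49, mem_ofPred_eq, mem_inter_iff, mem_iInter, mem_compl_iff]
  rw [h1]
  refine IsClosed.inter ?_ (IsClosed.inter ?_ ?_)
  · exact isClosed_biInter fun b _ => isClosed_eq (hB b) continuous_id
  · exact isClosed_biInter fun b _ => isClosed_le continuous_const ((hB b).dist continuous_id)
  · exact isClosed_le (continuous_id.dist continuous_const) continuous_const

theorem Dset49_orbit {X : Type*} [MetricSpace X] {B : Type*} [Group B]
    [MulAction B X] (K : Set B) (k : ℕ) (z : X) :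
    ∀ x ∈ Dset49 B K k z, ∀ b : B, b • x ∈ Dset49 B K k z → b • x = x := by
  rintro x ⟨hx1, hx2, hx3⟩ b ⟨-, -, hb3⟩
  by_cases hb : b ∈ K
  · exact hx1 b hb
  · exfalso
    have h1 := hx2 b hb
    have h2 : dist (b • x) x ≤ dist (b • x) z + dist x z := dist_triangle_right _ _ _
    have h3 : 1 / (4 * ((k : ℝ) + 1)) = (1 / ((k : ℝ) + 1)) / 4 := by
      rw [div_div, mul_comm]
    have h4 : (0 : ℝ) < 1 / ((k : ℝ) + 1) := by positivity
    rw [h3] at hx3 hb3
    linarith

theorem Dset49_cover {X : Type*} [MetricSpace X] [Nonempty X] [SeparableSpace X] {B : Type*}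
    [Group B] [Finite B] [MulAction B X] (x : X) :
    ∃ (K : Set B) (k j : ℕ), x ∈ Dset49 B K k (denseSeq X j) := by
  classical
  have : Fintype B := Fintype.ofFinite B
  set K : Set B := {b | b • x = x} with hK
  have h1 : ∃ k : ℕ, ∀ b : B, b ∉ K → 1 / ((k : ℝ) + 1) ≤ dist (b • x) x := by
    have h2 : ∀ b : B, ∃ k : ℕ, b ∉ K → 1 / ((k : ℝ) + 1) ≤ dist (b • x) x := by
      intro b
      by_cases hb : b ∈ K
      · exact ⟨0, fun h => absurd hb h⟩
      · have h3 : 0 < dist (b • x) x := dist_pos.2 hb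
        obtain ⟨k, hk⟩ := exists_nat_one_div_lt h3
        exact ⟨k, fun _ => hk.le⟩
    choose f hf using h2
    refine ⟨Finset.univ.sup f, fun b hb => ?_⟩
    refine le_trans ?_ (hf b hb)
    have h4 : f b ≤ Finset.univ.sup f := Finset.le_sup (Finset.mem_univ b)
    have h5 : ((f b : ℕ) : ℝ) ≤ ((Finset.univ.sup f : ℕ) : ℝ) := by exact_mod_cast h4
    exact one_div_le_one_div_of_le (by positivity) (by linarith)
  obtain ⟨k, hk⟩ := h1
  have h6 : (0 : ℝ) < 1 / (4 * ((k : ℝ) + 1)) := by positivity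
  obtain ⟨j, hj⟩ := (denseRange_denseSeq X).exists_dist_lt x h6
  exact ⟨K, k, j, fun b hb => hb, hk, hj.le⟩

open Classical in
/-- **General position.** -/
theorem genpos49 {X : Type*} [MetricSpace X] [CompactSpace X] [MeasurableSpace X] [BorelSpace X]
    {n N : ℕ} (hX : μH[(n : ℝ) + 1] (Set.univ : Set X) = 0) {B : Type*} [Group B] [Finite B]
    [MulAction B X] (hB : ∀ b : B, Continuous fun x : X => b • x) (v0 : X → Fin N → ℝ)
    (hv0 : Continuous v0) (hinv : ∀ (b : B) (x : X), v0 (b • x) = v0 x) {h ε : ℝ} (hh : 0 < h)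
    (hε : 0 < ε) :
    ∃ v : X → Fin N → ℝ, Continuous v ∧ (∀ (b : B) (x : X), v (b • x) = v x) ∧
      (∀ x, dist (v x) (v0 x) < ε) ∧
      ∀ x, (Finset.univ.filter (fun i => ∃ m : ℤ, v x i = m * h)).card ≤ n := by
  classical
  rcases isEmpty_or_nonempty X with hX0 | hX0
  · exact ⟨v0, hv0, hinv, fun x => (hX0.false x).elim, fun x => (hX0.false x).elim⟩
  set E : Set C(X, Fin N → ℝ) := {v | ∀ (b : B) (x : X), v (b • x) = v x} with hE
  have hEc : IsClosed E := by
    have h1 : E = ⋂ (b : B) (x : X), {v : C(X, Fin N → ℝ) | v (b • x) = v x} := by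
      ext v
      simp only [hE, mem_ofPred_eq, mem_iInter]
    rw [h1]
    exact isClosed_iInter fun b => isClosed_iInter fun x =>
      isClosed_eq (continuous_eval_const _) (continuous_eval_const _)
  have : CompleteSpace E := hEc.completeSpace_coe
  -- the open dense sets
  set U : Finset (Fin N) → (Fin N → ℤ) → Set (Fin N → ℝ) :=
    fun S m => {p | ∃ i ∈ S, p i ≠ m i * h} with hU
  have hUo : ∀ S m, IsOpen (U S m) := by
    intro S m
    have h1 : U S m = ⋃ i ∈ S, {p : Fin N → ℝ | p i ≠ m i * h} := by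
      ext p
      simp only [hU, mem_ofPred_eq, mem_iUnion, exists_prop]
    rw [h1]
    exact isOpen_biUnion fun i _ => isOpen_ne_fun (continuous_apply i) continuous_const
  set O : ({S : Finset (Fin N) // S.card = n + 1} × (Fin N → ℤ)) × (Set B × ℕ × ℕ) → Set E :=
    fun a => {v | MapsTo v.1 (Dset49 B a.2.1 a.2.2.1 (denseSeq X a.2.2.2)) (U a.1.1.1 a.1.2)}
    with hO
  have hOo : ∀ a, IsOpen (O a) := by
    intro a
    have h1 : IsOpen {v : C(X, Fin N → ℝ) |
        MapsTo v (Dset49 B a.2.1 a.2.2.1 (denseSeq X a.2.2.2)) (U a.1.1.1 a.1.2)} :=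
      ContinuousMap.isOpen_setOfPred_mapsTo (Dset49_closed hB _ _ _).isCompact (hUo _ _)
    exact h1.preimage continuous_subtype_val
  have hOd : ∀ a, Dense (O a) := by
    rintro ⟨⟨⟨S, hS⟩, m⟩, K, k, j⟩
    rw [Metric.dense_iff]
    rintro ⟨v, hv⟩ r hr
    set D : Set X := Dset49 B K k (denseSeq X j) with hD
    have hDc : IsClosed D := Dset49_closed hB _ _ _
    have : CompactSpace D := isCompact_iff_compactSpace.1 hDc.isCompact
    -- Lipschitz approximations
    have h1 : ∀ i : Fin N, ∃ (L : ℝ≥0) (u : D → ℝ), LipschitzWith L u ∧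
        ∀ y : D, |u y - v y.1 i| ≤ r / 4 := by
      intro i
      exact lip_approx49 (Y := D) ⟨fun y => v y.1 i, by fun_prop⟩ (by positivity)
    choose L u hu1 hu2 using h1
    -- missing a point
    have h2 : ∃ p : S → ℝ, dist p (fun i => (m i : ℝ) * h) < r / 4 ∧
        ∀ y : D, (fun i : S => u i.1 y) ≠ p := by
      have h3 : LipschitzWith (Finset.univ.sup fun i : S => L i.1) (fun y : D => fun i : S => u i.1 y) := by
        refine LipschitzWith.of_dist_le_mul ?_
        intro x y
        rw [dist_pi_le_iff (by positivity)]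
        intro i
        refine le_trans ((hu1 i.1).dist_le_mul x y) ?_
        refine mul_le_mul_of_nonneg_right ?_ dist_nonneg
        exact_mod_cast Finset.le_sup (f := fun i : S => L i.1) (Finset.mem_univ i)
      refine miss49 ?_ _ h3 _ (by positivity)
      have h4 : (Fintype.card S : ℝ) = (n : ℝ) + 1 := by
        rw [Fintype.card_coe, hS]
        push_cast
        ring
      rw [h4]
      have h5 := (isometry_subtype_coe (s := D)).hausdorffMeasure_image (d := (n : ℝ) + 1)
        (Or.inl (by positivity)) univ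
      rw [← h5]
      exact le_antisymm (le_trans (measure_mono (subset_univ _)) hX.le) bot_le
    obtain ⟨p, hp1, hp2⟩ := h2
    -- the wanted values
    set g : Fin N → X → ℝ := fun i x => if hx : x ∈ D ∧ i ∈ S then
      u i ⟨x, hx.1⟩ + (m i * h - p ⟨i, hx.2⟩) - v x i else 0 with hg
    have hgc : ∀ i, ContinuousOn (g i) D := by
      intro i
      rw [continuousOn_iff_continuous_domRestrict]
      by_cases hi : i ∈ S
      · have h3 : D.domRestrict (g i) = fun y : D => u i y + (m i * h - p ⟨i, hi⟩) - v y.1 i := by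
          funext y
          simp only [Set.domRestrict_apply, hg]
          rw [dif_pos ⟨y.2, hi⟩]
        rw [h3]
        have h4 := (hu1 i).continuous
        fun_prop
      · have h3 : D.domRestrict (g i) = fun _ : D => 0 := by
          funext y
          simp only [Set.domRestrict_apply, hg]
          rw [dif_neg fun hx => hi hx.2]
        rw [h3]
        exact continuous_const
    have hgb : ∀ i, ∀ x ∈ D, |g i x| ≤ r / 2 := by
      intro i x hx
      by_cases hi : i ∈ S
      · have h3 : g i x = (u i ⟨x, hx⟩ - v x i) + (m i * h - p ⟨i, hi⟩) := by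
          simp only [hg]
          rw [dif_pos ⟨hx, hi⟩]
          ring
        rw [h3]
        have h4 := hu2 i ⟨x, hx⟩
        have h5 : |m i * h - p ⟨i, hi⟩| ≤ r / 4 := by
          have h6 := (dist_le_pi_dist p (fun i : S => (m i : ℝ) * h) ⟨i, hi⟩).trans hp1.le
          rw [dist_comm, Real.dist_eq] at h6
          exact h6
        exact (abs_add_le _ _).trans (by linarith)
      · have h3 : g i x = 0 := by
          simp only [hg]
          rw [dif_neg fun hx => hi hx.2]
        rw [h3, abs_zero]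
        positivity
    have h6 : ∀ i, ∃ w : C(X, ℝ), (∀ (b : B) (x : X), w (b • x) = w x) ∧ (∀ x, |w x| ≤ r / 2) ∧
        ∀ x ∈ D, w x = g i x := fun i =>
      ext49 hB hDc (Dset49_orbit _ _ _) (g i) (hgc i) (hgb i) (by positivity)
    choose w hw1 hw2 hw3 using h6
    set v' : C(X, Fin N → ℝ) := ⟨fun x i => v x i + w i x, by fun_prop⟩ with hv'
    have hv'i : v' ∈ E := by
      intro b x
      funext i
      change v (b • x) i + w i (b • x) = v x i + w i x
      rw [hv b x, hw1]
    refine ⟨⟨v', hv'i⟩, ?_, ?_⟩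
    · rw [Metric.mem_ball, Subtype.dist_eq, ContinuousMap.dist_lt_iff hr]
      intro x
      refine lt_of_le_of_lt ((dist_pi_le_iff (by positivity : 0 ≤ r / 2)).2 ?_) (by linarith)
      intro i
      change dist (v x i + w i x) (v x i) ≤ r / 2
      rw [Real.dist_eq, add_sub_cancel_left]
      exact hw2 i x
    · intro x hx
      change ∃ i ∈ S, v x i + w i x ≠ m i * h
      by_contra hcon
      push Not at hcon
      refine hp2 ⟨x, hx⟩ ?_
      funext i
      have h7 := hcon i.1 i.2
      rw [hw3 i.1 x hx] at h7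
      simp only [hg] at h7
      rw [dif_pos ⟨hx, i.2⟩] at h7
      linarith
  have hdense : Dense (⋂ a, O a) := dense_iInter_of_isOpen hOo hOd
  have hv0E : (⟨v0, hv0⟩ : C(X, Fin N → ℝ)) ∈ E := hinv
  obtain ⟨⟨v, hvE⟩, hv1, hv2⟩ := Metric.dense_iff.1 hdense ⟨⟨v0, hv0⟩, hv0E⟩ ε hε
  refine ⟨v, v.continuous, hvE, ?_, ?_⟩
  · intro x
    rw [Metric.mem_ball, Subtype.dist_eq, ContinuousMap.dist_lt_iff hε] at hv1
    exact hv1 x
  · intro x
    by_contra hcon
    rw [not_le] at hcon
    obtain ⟨S, hS1, hS2⟩ := Finset.exists_subset_card_eq (Nat.succ_le_of_lt hcon)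
    have h1 : ∀ i : Fin N, ∃ m : ℤ, i ∈ S → v x i = m * h := by
      intro i
      by_cases hi : i ∈ S
      · have h2 := hS1 hi
        rw [Finset.mem_filter] at h2
        obtain ⟨m, hm⟩ := h2.2
        exact ⟨m, fun _ => hm⟩
      · exact ⟨0, fun h => absurd h hi⟩
    choose m hm using h1
    obtain ⟨K, k, j, hx⟩ := Dset49_cover (B := B) x
    have h3 := mem_iInter.1 hv2 ((⟨S, hS2⟩, m), (K, k, j))
    obtain ⟨i, hi, hi2⟩ := h3 hx
    exact hi2 (hm i hi)

end AXS
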