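import Pool.Agent.AXS.Defs

/-!
# The homotopy `Θ` in high degrees

`Th f` is built from an equivariant colouring. Cocycles of degree `n + 1` are coboundaries near the
diagonal, compatibly with the group action and with supports.
-/

set_option autoImplicit false

open Set Metric

namespace Pool.Agent.AXS

section Op

variable {X V W : Type*} [AddCommGroup V] [AddCommGroup W]

/-- The centre of the colour `i` in the list `u`. -/
def cc (κ : X → ℕ) (φ : X → X) (x₀ : X) (u : List X) (i : ℕ) : X :=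
  φ ((u.find? (fun x => decide (κ x = i))).getD x₀)

theorem cc_spec (κ : X → ℕ) (φ : X → X) (x₀ : X) {u : List X} {x : X} (hx : x ∈ u) :
    ∃ y ∈ u, κ y = κ x ∧ cc κ φ x₀ u (κ x) = φ y := by
  cases h : u.find? (fun y => decide (κ y = κ x)) with
  | none =>
    exfalso
    have := List.find?_eq_none.1 h x hx
    simp at this
  | some y =>
    have h1 := List.mem_of_find?_eq_some h
    have h2 := List.find?_some h
    refine ⟨y, h1, by simpa using h2, ?_⟩
    simp [cc, h]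

theorem cc_eq (κ : X → ℕ) (φ : X → X) (x₀ : X) {u : List X} {x : X} (hx : x ∈ u)
    (hs : ∀ y ∈ u, κ y = κ x → φ y = φ x) : cc κ φ x₀ u (κ x) = φ x := by
  obtain ⟨y, hy, h1, h2⟩ := cc_spec κ φ x₀ hx
  rw [h2, hs y hy h1]

/-- The homotopy. -/
def Th (κ : X → ℕ) (φ : X → X) (x₀ : X) (k : ℕ) (f : List X → V) (u : List X) : V :=
  DD k (fun cs => f (cs.map (cc κ φ x₀ u))) (u.map κ) - pp φ f u

theorem Th_congr (κ : X → ℕ) (φ : X → X) (x₀ : X) (k : ℕ) (f g : List X → V) (u : List X)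
    (h : ∀ w : List X, w ⊆ u ++ u.map φ → w.length = u.length + 1 → f w = g w) :
    Th κ φ x₀ k f u = Th κ φ x₀ k g u := by
  simp only [Th]
  congr 1
  · apply DD_congr
    intro cs hcs hl
    apply h
    · intro y hy
      obtain ⟨i, hi, rfl⟩ := List.mem_map.1 hy
      obtain ⟨x, hx, rfl⟩ := List.mem_map.1 (hcs hi)
      obtain ⟨z, hz, -, h2⟩ := cc_spec κ φ x₀ hx
      rw [h2]
      exact List.mem_append_right _ (List.mem_map.2 ⟨z, hz, rfl⟩)
    · rw [List.length_map, hl, List.length_map]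
  · exact pp_congr φ u f g h

theorem Th_comp (κ : X → ℕ) (φ : X → X) (x₀ : X) (k : ℕ) (a : V →+ W) (f : List X → V)
    (u : List X) : Th κ φ x₀ k (fun w => a (f w)) u = a (Th κ φ x₀ k f u) := by
  simp only [Th]
  rw [map_sub, DD_comp k a (fun cs => f (cs.map (cc κ φ x₀ u))), pp_comp]

theorem Th_sub (κ : X → ℕ) (φ : X → X) (x₀ : X) (k : ℕ) (f g : List X → V) (u : List X) :
    Th κ φ x₀ k (fun w => f w - g w) u = Th κ φ x₀ k f u - Th κ φ x₀ k g u := by
  simp only [Th]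
  rw [DD_sub, pp_sub]
  abel

theorem Th_map (κ : X → ℕ) (φ : X → X) (x₀ : X) (k : ℕ) (b : X → X) (hκ : ∀ x, κ (b x) = κ x)
    (hφ : ∀ x, φ (b x) = b (φ x)) (f : List X → V) (u : List X) :
    Th κ φ x₀ k (fun w => f (w.map b)) u = Th κ φ x₀ k f (u.map b) := by
  simp only [Th]
  have h1 : (u.map b).map κ = u.map κ := by
    rw [List.map_map]
    apply List.map_congr_left
    intro x _
    exact hκ x
  rw [h1, pp_map φ b (fun x => (hφ x).symm)]
  congr 1
  apply DD_congr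
  intro cs hcs _
  rw [List.map_map]
  congr 1
  apply List.map_congr_left
  intro i hi
  obtain ⟨x, hx, rfl⟩ := List.mem_map.1 (hcs hi)
  have h2 : (u.map b).find? (fun y => decide (κ y = κ x)) =
      (u.find? (fun y => decide (κ y = κ x))).map b := by
    rw [List.find?_map]
    congr 1
    have : ((fun y => decide (κ y = κ x)) ∘ b) = fun y => decide (κ y = κ x) := by
      funext y
      simp [hκ]
    rw [this]
  have h3 : (u.find? (fun y => decide (κ y = κ x))).isSome := by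
    rw [List.find?_isSome]
    exact ⟨x, hx, by simp⟩
  obtain ⟨z, hz⟩ := Option.isSome_iff_exists.1 h3
  simp only [Function.comp, cc, h2, hz, Option.map_some, Option.getD_some, hφ]

theorem dd_Th (κ : X → ℕ) (φ : X → X) (x₀ : X) (k : ℕ) (hκ : ∀ x, κ x < k) (f : List X → V)
    (u : List X) (hs : ∀ x ∈ u, ∀ y ∈ u, κ x = κ y → φ x = φ y) (hl : k < u.length)
    (hf : ∀ w : List X, w ⊆ u ++ u.map φ → w.length = u.length + 1 → dd f w = 0) :
    dd (Th κ φ x₀ k f) u = f u := by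
  have hcc : ∀ w : List X, w ⊆ u → ∀ x ∈ w, cc κ φ x₀ w (κ x) = φ x := by
    intro w hw x hx
    exact cc_eq κ φ x₀ hx fun y hy h => hs y (hw hy) x (hw hx) h
  have e1 : dd (Th κ φ x₀ k f) u = dd (fun u' : List X =>
      DD k (fun cs => f (cs.map (cc κ φ x₀ u'))) (u'.map κ)) u - dd (pp φ f) u := by
    rw [← dd_sub]
    rfl
  have e2 : dd (fun u' : List X => DD k (fun cs => f (cs.map (cc κ φ x₀ u'))) (u'.map κ)) u =
      dd (fun u' : List X => DD k (fun cs => f (cs.map (cc κ φ x₀ u))) (u'.map κ)) u := by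
    apply dd_congr
    intro w hw _
    apply DD_congr
    intro cs hcs _
    congr 1
    apply List.map_congr_left
    intro i hi
    obtain ⟨x, hx, rfl⟩ := List.mem_map.1 (hcs hi)
    rw [hcc w hw x hx, hcc u (fun _ h => h) x (hw hx)]
  have e3 : dd (fun u' : List X => DD k (fun cs => f (cs.map (cc κ φ x₀ u))) (u'.map κ)) u =
      f (u.map φ) := by
    rw [dd_map κ u (DD k (fun cs => f (cs.map (cc κ φ x₀ u)))), dd_DD]
    · rw [List.map_map]
      congr 1
      apply List.map_congr_left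
      intro x hx
      exact hcc u (fun _ h => h) x hx
    · intro i hi
      obtain ⟨x, _, rfl⟩ := List.mem_map.1 hi
      exact hκ x
    · rw [List.length_map]; exact hl
    · intro cs hcs hcl
      rw [dd_map]
      apply hf
      · intro y hy
        obtain ⟨i, hi, rfl⟩ := List.mem_map.1 hy
        obtain ⟨x, hx, rfl⟩ := List.mem_map.1 (hcs hi)
        rw [hcc u (fun _ h => h) x hx]
        exact List.mem_append_right _ (List.mem_map.2 ⟨x, hx, rfl⟩)
      · rw [List.length_map, hcl, List.length_map]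
  have e4 : pp φ (dd f) u = 0 := by
    rw [pp_congr φ u (dd f) (fun _ => 0) hf]
    have := pp_comp φ (0 : V →+ V) u f
    simpa using this
  have e5 := dd_pp φ u f
  rw [e4, add_zero] at e5
  rw [e1, e2, e3, e5]
  abel

end Op

section Conc

variable {X V : Type*} [AddCommGroup V]

/-- The homotopy as a homomorphism. -/
def ThH (κ : X → ℕ) (φ : X → X) (x₀ : X) (k : ℕ) : Co X V →+ Co X V :=
  AddMonoidHom.ofMapSub (fun f => Th κ φ x₀ k f) fun f g => funext fun u => Th_sub κ φ x₀ k f g u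

theorem ThH_apply (κ : X → ℕ) (φ : X → X) (x₀ : X) (k : ℕ) (f : Co X V) (u : List X) :
    ThH κ φ x₀ k f u = Th κ φ x₀ k f u := rfl

variable [MetricSpace X] {B : Type*} [Group B] [MulAction B X]

theorem ThH_smul {n : ℕ} {ε δ : ℝ} {κ : X → ℕ} {φ : X → X} (hc : Colg B n ε δ κ φ) (x₀ : X) (k : ℕ)
    (b : B) (f : Co X V) : ThH κ φ x₀ k (b • f) = b • ThH κ φ x₀ k f := by
  funext u
  exact Th_map κ φ x₀ k (fun x => b⁻¹ • x) (fun x => hc.inv _ x) (fun x => hc.eqv _ x) f u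

theorem sm_near {ε : ℝ} {φ : X → X} (hφ : ∀ x, dist x (φ x) < ε) {u w : List X} (hu : Sm ε u)
    (hw : w ⊆ u ++ u.map φ) : Sm (3 * ε) w := by
  have h1 : ∀ x ∈ w, ∃ x' ∈ u, dist x x' < ε := by
    intro x hx
    rcases List.mem_append.1 (hw hx) with h | h
    · exact ⟨x, h, by rw [dist_self]; exact dist_nonneg.trans_lt (hφ x)⟩
    · obtain ⟨x', hx', rfl⟩ := List.mem_map.1 h
      exact ⟨x', hx', by rw [dist_comm]; exact hφ x'⟩
  intro x hx y hy
  obtain ⟨x', hx', h2⟩ := h1 x hx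
  obtain ⟨y', hy', h3⟩ := h1 y hy
  have h4 := hu x' hx' y' hy'
  have h5 := dist_triangle4 x x' y' y
  rw [dist_comm y' y] at h5
  linarith

/-- `T` is stable under adding the images by `φ`. -/
def PSt (φ : X → X) (T : List X → Prop) : Prop := ∀ u : List X, T u → T (u ++ u.map φ)

omit [MetricSpace X] in
theorem pst_all (φ : X → X) : PSt φ All := fun _ _ => trivial

theorem pst_Fx {n : ℕ} {ε δ : ℝ} {κ : X → ℕ} {φ : X → X} (hc : Colg B n ε δ κ φ) (K : Set B) :
    PSt φ (Fx K) := by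
  intro u hu b hb x hx
  rcases List.mem_append.1 hx with h | h
  · exact hu b hb x h
  · obtain ⟨y, hy, rfl⟩ := List.mem_map.1 h
    rw [← hc.eqv, hu b hb y hy]

theorem pst_Zp {n : ℕ} {ε δ : ℝ} {κ : X → ℕ} {φ : X → X} (hc : Colg B n ε δ κ φ) :
    PSt φ (Zp B) := by
  rintro u ⟨b, hb, h⟩
  refine ⟨b, hb, fun x hx => ?_⟩
  rcases List.mem_append.1 hx with h' | h'
  · exact h x h'
  · obtain ⟨y, hy, rfl⟩ := List.mem_map.1 h'
    rw [← hc.eqv, h y hy]

/-- `Θ` preserves supports and smallness. -/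
theorem ThH_zero {n : ℕ} {ε δ ε₀ : ℝ} {κ : X → ℕ} {φ : X → X} (hc : Colg B n ε δ κ φ) (x₀ : X)
    (k : ℕ) (hε : 3 * ε ≤ ε₀) {T : List X → Prop} (hT : Her T) (hP : PSt φ T) {f : Co X V} {l : ℕ}
    (hf : ∀ w : List X, w.length = l + 1 → Sm ε₀ w → T w → f w = 0) (u : List X)
    (hu : u.length = l) (hs : Sm ε u) (hTu : T u) : ThH κ φ x₀ k f u = 0 := by
  have h0 : Th κ φ x₀ k f u = Th κ φ x₀ k (fun _ => (0 : V)) u := by
    apply Th_congr
    intro w hw hl
    apply hf w (by omega)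
    · intro x hx y hy
      exact (sm_near hc.near hs hw x hx y hy).trans_le hε
    · exact hT _ w hw (hP u hTu)
  rw [ThH_apply, h0]
  have := Th_comp κ φ x₀ k (0 : V →+ V) f u
  simpa using this

/-- Cocycles of degree `n + 1` are coboundaries near the diagonal. -/
theorem dH_ThH {n : ℕ} {ε δ ε₀ : ℝ} {κ : X → ℕ} {φ : X → X} (hc : Colg B n ε δ κ φ) (x₀ : X)
    (hε : 3 * ε ≤ ε₀) {T : List X → Prop} (hT : Her T) (hP : PSt φ T) {f : Co X V} {l : ℕ}
    (hf : ∀ w : List X, w.length = l + 1 → Sm ε₀ w → T w → dd f w = 0) (u : List X)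
    (hu : u.length = l) (hl : n + 1 < l) (hs : Sm ε u) (hs' : Sm δ u) (hTu : T u) :
    dH (ThH κ φ x₀ (n + 1) f) u = f u := by
  apply dd_Th κ φ x₀ (n + 1) hc.lt f u
  · intro x hx y hy h
    exact hc.same x y h (hs' x hx y hy)
  · omega
  · intro w hw hwl
    apply hf w (by omega)
    · intro x hx y hy
      exact (sm_near hc.near hs hw x hx y hy).trans_le hε
    · exact hT _ w hw (hP u hTu)

/-- The existence of equivariant colourings of all sizes. -/
def HasCol (B X : Type*) [MetricSpace X] [Group B] [MulAction B X] (n : ℕ) : Prop :=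
  ∀ ε > 0, ∃ δ > 0, ∃ (κ : X → ℕ) (φ : X → X), Colg B n ε δ κ φ

/-- The top cohomology of the image of `1 + c` vanishes. -/
theorem finH_II {n : ℕ} (hcol : HasCol B X n) [Nonempty X] (c : B) {T : List X → Prop} (hT : Her T)
    (hP : ∀ (ε δ : ℝ) (κ : X → ℕ) (φ : X → X), Colg B n ε δ κ φ → PSt φ T) :
    FinH (dH : Co X V →+ Co X V) (II c T) (DT T) (n + 1) := by
  refine ⟨{0}, Set.finite_singleton 0, ?_, ?_⟩
  · rintro s rfl
    exact (ZZ _ _ _ _).zero_mem
  · rintro z ⟨⟨g, hg⟩, hz⟩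
    refine ⟨0, rfl, ?_⟩
    rw [sub_zero]
    set z' : Co X V := g + c • g with hz'
    have h1 : dH z' ∈ DT T (n + 1 + 1) := by
      have h2 := dH_mem_DT hT (n + 1) _ hg
      have h3 : dH z' = dH z - dH (z - z') := by rw [map_sub]; abel
      rw [h3]
      exact (DT T (n + 1 + 1)).sub_mem hz h2
    obtain ⟨ε₀, hε₀, h4⟩ := h1
    obtain ⟨δ, hδ, κ, φ, hc⟩ := hcol (ε₀ / 3) (by positivity)
    let x₀ : X := Classical.arbitrary X
    have hPT := hP _ _ _ _ hc
    refine mem_BB_succ.2 ⟨ThH κ φ x₀ (n + 1) z', ⟨ThH κ φ x₀ (n + 1) g, ?_⟩, ?_⟩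
    · rw [hz', map_add, ThH_smul hc, sub_self]
      exact (DT T n).zero_mem
    · have h5 : z - dH (ThH κ φ x₀ (n + 1) z') = (z - z') + (z' - dH (ThH κ φ x₀ (n + 1) z')) := by
        abel
      rw [h5]
      refine (DT T (n + 1)).add_mem hg ⟨min δ (ε₀ / 3), lt_min hδ (by positivity), ?_⟩
      intro u hu hs hTu
      rw [Co.sub_apply, dH_ThH hc x₀ (by linarith) hT hPT (l := n + 2) (fun w hw => h4 w (by omega))
        u hu (by omega) (fun x hx y hy => (hs x hx y hy).trans_le (min_le_right _ _))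
        (fun x hx y hy => (hs x hx y hy).trans_le (min_le_left _ _)) hTu, sub_self]

/-- Vanishing for the kernel of the norm. -/
theorem van_norm {n : ℕ} [Fintype B] (hcol : HasCol B X n) [Nonempty X] {z : Co X V}
    (hz : z ∈ DT (Zp B) (n + 1)) (hd : dH z ∈ DT All (n + 2))
    (hN : (∑ b : B, b • z) ∈ DT All (n + 1)) :
    ∃ k ∈ (DT (Zp B) n : AddSubgroup (Co X V)), (∑ b : B, b • k) ∈ DT All n ∧
      z - dH k ∈ DT All (n + 1) := by
  obtain ⟨ε₁, hε₁, h1⟩ := hz
  obtain ⟨ε₂, hε₂, h2⟩ := hd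
  obtain ⟨ε₃, hε₃, h3⟩ := hN
  set ε₀ := min ε₁ (min ε₂ ε₃) with hε₀
  have e0 : 0 < ε₀ := lt_min hε₁ (lt_min hε₂ hε₃)
  have le1 : ε₀ ≤ ε₁ := min_le_left _ _
  have le2 : ε₀ ≤ ε₂ := (min_le_right _ _).trans (min_le_left _ _)
  have le3 : ε₀ ≤ ε₃ := (min_le_right _ _).trans (min_le_right _ _)
  have mono : ∀ {ε ε' : ℝ} {w : List X}, ε ≤ ε' → Sm ε w → Sm ε' w :=
    fun h hs x hx y hy => (hs x hx y hy).trans_le h
  obtain ⟨δ, hδ, κ, φ, hc⟩ := hcol (ε₀ / 3) (by positivity)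
  let x₀ : X := Classical.arbitrary X
  refine ⟨ThH κ φ x₀ (n + 1) z, ⟨ε₀ / 3, by positivity, ?_⟩, ⟨ε₀ / 3, by positivity, ?_⟩,
    ⟨min δ (ε₀ / 3), lt_min hδ (by positivity), ?_⟩⟩
  · intro u hu hs hTu
    exact ThH_zero hc x₀ (n + 1) (by linarith) her_Zp (pst_Zp hc) (l := n + 1)
      (fun w hw hsw hTw => h1 w (by omega) (mono le1 hsw) hTw) u hu hs hTu
  · intro u hu hs hTu
    have h4 : (∑ b : B, b • ThH κ φ x₀ (n + 1) z) = ThH κ φ x₀ (n + 1) (∑ b : B, b • z) := by
      rw [map_sum]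
      exact Finset.sum_congr rfl fun b _ => (ThH_smul hc x₀ (n + 1) b z).symm
    rw [h4]
    exact ThH_zero hc x₀ (n + 1) (by linarith) her_all (pst_all φ) (l := n + 1)
      (fun w hw hsw hTw => h3 w (by omega) (mono le3 hsw) hTw) u hu hs hTu
  · intro u hu hs hTu
    rw [Co.sub_apply, dH_ThH hc x₀ (by linarith) her_all (pst_all φ) (l := n + 2)
      (fun w hw hsw hTw => h2 w (by omega) (mono le2 hsw) hTw)
      u hu (by omega) (mono (min_le_right _ _) hs) (mono (min_le_left _ _) hs) hTu, sub_self]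

end Conc

end Pool.Agent.AXS
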