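import Pool.Agent.AXS.Coloring
import Pool.Agent.AXS.Theta
import Pool.Agent.Helper3.HS.Defs

/-!
# Hausdorff measures: the total space and the singular set
-/

set_option autoImplicit false

open Set Metric MeasureTheory Topology
open scoped NNReal ENNReal

namespace Pool.Agent.AXS

open Pool.Agent.Helper3.HS

/-- A space with dense charts and a null singular set has `μH[n+1] = 0`. -/
theorem muH_zero {X : Type*} [MetricSpace X] [CompactSpace X] [MeasurableSpace X] [BorelSpace X]
    {n : ℕ} {R : Set X} (hR : R ⊆ regPts n X) (hμ : (μH[(n : ℝ)] : Measure X) Rᶜ = 0) :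
    (μH[(n : ℝ) + 1] : Measure X) univ = 0 := by
  have h1 : (μH[(n : ℝ) + 1] : Measure X) R = 0 := by
    apply measure_null_of_locally_null
    intro x hx
    obtain ⟨e, C, hxe, -, hs⟩ := hR hx
    refine ⟨e.source, mem_nhdsWithin_of_mem_nhds (e.open_source.mem_nhds hxe), ?_⟩
    have h2 : e.source = e.symm '' e.target := e.symm_image_target_eq_source.symm
    rw [h2]
    have h3 : (μH[(n : ℝ) + 1] : Measure (Fin n → ℝ)) e.target = 0 := by
      have h4 : (μH[(n : ℝ) + 1] : Measure (Fin n → ℝ)) univ = 0 := by
        have h5 : dimH (univ : Set (Fin n → ℝ)) < (((n : ℝ≥0) + 1 : ℝ≥0) : ℝ≥0∞) := by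
          rw [Real.dimH_univ_pi_fin]
          have : (n : ℝ≥0∞) = ((n : ℝ≥0) : ℝ≥0∞) := by norm_cast
          rw [this, ENNReal.coe_lt_coe]
          exact lt_add_one _
        have h6 := hausdorffMeasure_of_dimH_lt h5
        simpa using h6
      exact measure_mono_null (subset_univ _) h4
    have h4 := hs.hausdorffMeasure_image_le (d := (n : ℝ) + 1) (by positivity)
    rw [h3, mul_zero] at h4
    exact le_antisymm h4 bot_le
  have h2 : (μH[(n : ℝ) + 1] : Measure X) Rᶜ = 0 := by
    have h3 := Measure.hausdorffMeasure_mono (show (n : ℝ) ≤ (n : ℝ) + 1 by linarith) (Rᶜ : Set X)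
    rw [hμ] at h3
    exact le_antisymm h3 bot_le
  have h3 := measure_union_null h1 h2
  rwa [union_compl_self] at h3

/-- Colourings without a group. -/
theorem hasCol_triv {S : Type*} [MetricSpace S] [CompactSpace S] [MeasurableSpace S] [BorelSpace S]
    [Nonempty S] {n : ℕ} (h : (μH[(n : ℝ) + 1] : Measure S) univ = 0) :
    ∃ (B : Type) (_ : Group B) (_ : MulAction B S), HasCol B S n := by
  let i1 : MulAction PUnit.{1} S :=
    { smul := fun _ x => x
      one_smul := fun _ => rfl
      mul_smul := fun _ _ _ => rfl }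
  have : ContinuousConstSMul PUnit.{1} S := ⟨fun _ => continuous_id⟩
  exact ⟨PUnit, inferInstance, i1, fun ε hε => coloring h hε⟩

/-- Colourings of a closed null set. -/
theorem hasCol_sub {X : Type*} [MetricSpace X] [CompactSpace X] [MeasurableSpace X] [BorelSpace X]
    {m : ℕ} {S : Set X} (hS : IsClosed S) [Nonempty S]
    (hμ : (μH[(m : ℝ) + 1] : Measure X) S = 0) :
    ∃ (B : Type) (_ : Group B) (_ : MulAction B S), HasCol B S m := by
  have : CompactSpace S := isCompact_iff_compactSpace.1 hS.isCompact
  apply hasCol_triv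
  have h1 := (isometry_subtype_coe (s := S)).hausdorffMeasure_image (d := (m : ℝ) + 1)
    (Or.inl (by positivity)) univ
  rw [← h1, image_univ, Subtype.range_coe, hμ]

end Pool.Agent.AXS
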