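import Pool.Agent.AXS.Theta
import Pool.Agent.AXS.Out

/-!
# A cocycle of degree `m + 1` is cohomologous to one which vanishes near a closed set of dimension `m`
-/

set_option autoImplicit false
set_option linter.unusedVariables false

open Set Metric

namespace Pool.Agent.AXS

theorem taut {X V : Type*} [MetricSpace X] [CompactSpace X] [AddCommGroup V] {m : ℕ} {S : Set X}
    (hS : IsClosed S) {B : Type*} [Group B] [MulAction B S] (hcol : HasCol B S m) [Nonempty S]
    {f : Co X V} (hf : f ∈ ZZ dH TT (DT All) (m + 1)) :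
    ∃ A : Set X, IsOpen A ∧ S ⊆ A ∧ ∃ f' : Co X V, f' ∈ DT (Out Aᶜ) (m + 1) ∧
      f - f' ∈ BB dH TT (DT All) (m + 1) := by
  classical
  obtain ⟨-, ε₀, hε₀, h0⟩ := mem_ZZ.1 hf
  obtain ⟨δ, hδ, κ, φ, hc⟩ := hcol (ε₀ / 3) (by positivity)
  let x₀ : S := Classical.arbitrary S
  obtain ⟨r, hr0, hr1, hr2⟩ : ∃ r : ℝ, 0 < r ∧ 3 * r ≤ δ ∧ 3 * r ≤ ε₀ / 3 := by
    refine ⟨min δ (ε₀ / 3) / 3, by positivity, ?_, ?_⟩
    · have := min_le_left δ (ε₀ / 3)
      linarith
    · have := min_le_right δ (ε₀ / 3)
      linarith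
  let fS : Co S V := fun l => f (l.map Subtype.val)
  have h1 : ∀ u : List S, u.length = m + 2 → Sm (3 * r) u →
      dd (ThH κ φ x₀ (m + 1) fS) u = fS u := by
    intro u hu hs
    refine dH_ThH hc x₀ (ε₀ := ε₀) (by linarith) her_all (pst_all φ) (l := m + 2) ?_ u hu (by omega)
      (fun x hx y hy => (hs x hx y hy).trans_le hr2) (fun x hx y hy => (hs x hx y hy).trans_le hr1)
      trivial
    intro w hw hsw _
    have e : dd fS w = dd f (w.map Subtype.val) := dd_map _ _ _
    rw [e]
    apply h0
    · rw [List.length_map, hw]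
    · intro x hx y hy
      obtain ⟨x', hx', rfl⟩ := List.mem_map.1 hx
      obtain ⟨y', hy', rfl⟩ := List.mem_map.1 hy
      exact hsw x' hx' y' hy'
    · trivial
  let ρ : X → S := fun x => if h : ∃ z : S, dist x z < r then h.choose else x₀
  have hρ : ∀ x ∈ Metric.thickening r S, dist x (ρ x : X) < r := by
    intro x hx
    obtain ⟨z, hz, hxz⟩ := Metric.mem_thickening_iff.1 hx
    have h : ∃ z : S, dist x z < r := ⟨⟨z, hz⟩, hxz⟩
    simp only [ρ, dif_pos h]
    exact h.choose_spec
  let π : X → X := fun x => (ρ x : X)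
  let dd0 : List X → V := fun l => ThH κ φ x₀ (m + 1) fS (l.map ρ)
  let g : Co X V := fun l => dd0 l - pp π f l
  refine ⟨Metric.thickening r S, Metric.isOpen_thickening, Metric.self_subset_thickening hr0 S,
    f - dH g, ⟨r, hr0, fun l hl hs hA => ?_⟩, ?_⟩
  · have hA' : ∀ x ∈ l, dist x (π x) < r := by
      intro x hx
      have h2 := hA x hx
      rw [Set.mem_compl_iff, not_not] at h2
      exact hρ x h2
    have e1 : dH g l = dd (ThH κ φ x₀ (m + 1) fS) (l.map ρ) - dd (pp π f) l := by
      have h2 : dH g l = dd (fun w : List X => dd0 w - pp π f w) l := rfl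
      rw [h2, dd_sub]
      congr 1
      exact dd_map ρ l _
    have e2 : dd (pp π f) l + pp π (dd f) l = f (l.map π) - f l := dd_pp π l f
    have e3 : pp π (dd f) l = 0 := by
      rw [pp_congr π l (dd f) (fun _ => 0)]
      · have := pp_comp π (0 : V →+ V) l f
        simpa using this
      · intro w hw hwl
        apply h0 w (by omega) _ trivial
        have h3 : ∀ x ∈ w, ∃ x' ∈ l, dist x x' < r := by
          intro x hx
          rcases List.mem_append.1 (hw hx) with h | h
          · exact ⟨x, h, by rw [dist_self]; exact hr0⟩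
          · obtain ⟨x', hx', rfl⟩ := List.mem_map.1 h
            exact ⟨x', hx', by rw [dist_comm]; exact hA' x' hx'⟩
        intro x hx y hy
        obtain ⟨x', hx', h4⟩ := h3 x hx
        obtain ⟨y', hy', h5⟩ := h3 y hy
        have h6 := hs x' hx' y' hy'
        have h7 := dist_triangle4 x x' y' y
        rw [dist_comm y' y] at h7
        linarith
    have e4 : dd (ThH κ φ x₀ (m + 1) fS) (l.map ρ) = f (l.map π) := by
      rw [h1]
      · show f ((l.map ρ).map Subtype.val) = f (l.map π)
        rw [List.map_map]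
        rfl
      · rw [List.length_map, hl]
      · intro x hx y hy
        obtain ⟨x', hx', rfl⟩ := List.mem_map.1 hx
        obtain ⟨y', hy', rfl⟩ := List.mem_map.1 hy
        have h4 := hA' x' hx'
        have h5 := hA' y' hy'
        have h6 := hs x' hx' y' hy'
        have h7 := dist_triangle4 (π x') x' y' (π y')
        rw [dist_comm (π x') x'] at h7
        have h8 : dist (ρ x') (ρ y') = dist (π x') (π y') := rfl
        rw [h8]
        linarith
    rw [Co.sub_apply, e1, e4]
    rw [e3, add_zero] at e2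
    rw [e2]
    abel
  · refine mem_BB_succ.2 ⟨g, trivial, ?_⟩
    have : f - (f - dH g) - dH g = 0 := by abel
    rw [this]
    exact (DT All (m + 1)).zero_mem

end Pool.Agent.AXS
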