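import Pool.Agent.AXS.Chain
import Pool.Agent.AXS.Out

/-!
# Homotopy invariance
-/

set_option autoImplicit false

open Set Metric MeasureTheory Topology

namespace Pool.Agent.AXS

/-- The prism between two close maps. -/
theorem hmt_step {X V : Type*} [MetricSpace X] [AddCommGroup V] {g g' : X → X} {j : ℕ} {f : Co X V}
    {ε δ : ℝ} (hf : ∀ l : List X, l.length = j + 2 → Sm ε l → dd f l = 0)
    (hg : ∀ x y, dist x y < δ → dist (g x) (g y) < ε ∧ dist (g' x) (g' y) < ε ∧
      dist (g x) (g' y) < ε) (l : List X) (hl : l.length = j + 1) (hs : Sm δ l) :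
    f (l.map g') - f (l.map g) = dd (fun w => pr f (pz g g' w)) l := by
  have h := congrArg (pr f) (bd_pz g g' l)
  rw [map_add, map_sub, pr_single_one, pr_single_one, pr_bd, pr_hom, pr_bdl] at h
  rw [← h, add_eq_right]
  rw [pr_congr (dd f) (fun _ => (0 : V)) (pz g g' l)]
  · have e : pr (fun _ : List X => (0 : V)) = 0 := by
      apply Ch.hom_ext
      intro w
      rw [pr_single_one, AddMonoidHom.zero_apply]
    rw [e, AddMonoidHom.zero_apply]
  · intro w hw
    obtain ⟨h1, h2⟩ := supp_pz g g' l w hw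
    apply hf w (by omega)
    intro a ha b hb
    have ha' := h1 ha
    have hb' := h1 hb
    simp only [List.mem_append, List.mem_map] at ha' hb'
    rcases ha' with ⟨x, hx, rfl⟩ | ⟨x, hx, rfl⟩ <;> rcases hb' with ⟨y, hy, rfl⟩ | ⟨y, hy, rfl⟩
    · exact (hg x y (hs x hx y hy)).1
    · exact (hg x y (hs x hx y hy)).2.2
    · rw [dist_comm]
      exact (hg y x (hs y hy x hx)).2.2
    · exact (hg x y (hs x hx y hy)).2.1

theorem hmt {X V : Type*} [MetricSpace X] [CompactSpace X] [AddCommGroup V] {H : ℝ × X → X}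
    (hH : ContinuousOn H (Icc 0 1 ×ˢ univ)) {j : ℕ} {f : Co X V}
    (hf : dH f ∈ DT All (j + 1)) :
    ∃ g : Co X V, cm (fun x => H (1, x)) f - cm (fun x => H (0, x)) f - dH g ∈ DT All j := by
  obtain ⟨ε, hε, hf⟩ := hf
  have huc := (isCompact_Icc.prod isCompact_univ).uniformContinuousOn_of_continuous hH
  obtain ⟨δ, hδ, huc⟩ := Metric.uniformContinuousOn_iff.1 huc ε hε
  obtain ⟨N, hN⟩ := exists_nat_one_div_lt hδ
  have hN0 : (0 : ℝ) < (N : ℝ) + 1 := by positivity
  set G : ℕ → X → X := fun i x => H ((i : ℝ) / ((N : ℝ) + 1), x) with hG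
  have hmem : ∀ i : ℕ, i ≤ N + 1 → (i : ℝ) / ((N : ℝ) + 1) ∈ Icc (0 : ℝ) 1 := by
    intro i hi
    refine ⟨by positivity, ?_⟩
    rw [div_le_one hN0]
    exact_mod_cast hi
  have key : ∀ i : ℕ, i ≤ N + 1 → ∀ k : ℕ, k ≤ N + 1 → (i = k ∨ i + 1 = k) → ∀ x y, dist x y < δ →
      dist (G i x) (G k y) < ε := by
    intro i hi k hk hik x y hxy
    apply huc _ ⟨hmem i hi, mem_univ _⟩ _ ⟨hmem k hk, mem_univ _⟩
    rw [Prod.dist_eq, max_lt_iff]
    refine ⟨?_, hxy⟩
    show dist ((i : ℝ) / ((N : ℝ) + 1)) ((k : ℝ) / ((N : ℝ) + 1)) < δ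
    rcases hik with rfl | rfl
    · rw [dist_self]
      exact hδ
    · have e : (i : ℝ) / ((N : ℝ) + 1) - ((i + 1 : ℕ) : ℝ) / ((N : ℝ) + 1) = -(1 / ((N : ℝ) + 1)) := by
        push_cast
        ring
      rw [Real.dist_eq, e, abs_neg, abs_of_pos (by positivity)]
      exact hN
  have tel : ∀ k : ℕ, k ≤ N + 1 → ∀ l : List X, l.length = j + 1 → Sm δ l →
      f (l.map (G k)) - f (l.map (G 0)) =
        dd (fun w => ∑ i ∈ Finset.range k, pr f (pz (G i) (G (i + 1)) w)) l := by
    intro k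
    induction k with
    | zero =>
      intro _ l _ _
      simp only [Finset.range_zero, Finset.sum_empty, sub_self]
      rw [dd_zero]
    | succ k ih =>
      intro hk l hl hs
      have h1 := ih (by omega) l hl hs
      have h2 := hmt_step (g := G k) (g' := G (k + 1)) (δ := δ) (f := f)
        (fun w hw hws => hf w hw hws trivial) (fun x y hxy =>
        ⟨key k (by omega) k (by omega) (Or.inl rfl) x y hxy,
          key (k + 1) hk (k + 1) hk (Or.inl rfl) x y hxy,
          key k (by omega) (k + 1) hk (Or.inr rfl) x y hxy⟩) l hl hs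
      simp only [Finset.sum_range_succ]
      rw [dd_add, ← h1, ← h2]
      abel
  refine ⟨fun w => ∑ i ∈ Finset.range (N + 1), pr f (pz (G i) (G (i + 1)) w), δ, hδ, ?_⟩
  intro l hl hs _
  rw [Co.sub_apply, Co.sub_apply, dH_apply, ← tel (N + 1) le_rfl l hl hs]
  have e1 : G (N + 1) = fun x => H (1, x) := by
    funext x
    show H (((N + 1 : ℕ) : ℝ) / ((N : ℝ) + 1), x) = _
    push_cast
    rw [div_self hN0.ne']
  have e0 : G 0 = fun x => H (0, x) := by
    funext x
    show H (((0 : ℕ) : ℝ) / ((N : ℝ) + 1), x) = _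
    rw [Nat.cast_zero, zero_div]
  rw [e1, e0]
  exact sub_self _

end Pool.Agent.AXS
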