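import Pool.Agent.AXS.Out
import Pool.Agent.AXS.Hmt
import Mathlib

/-!
# The radial expansion in a chart ball; moving a cocycle into a small ball
-/

set_option autoImplicit false

open Set Metric MeasureTheory Topology

namespace Pool.Agent.AXS

/-- The radial expansion at time `t`. -/
noncomputable def rex {n : ℕ} (c : Fin n → ℝ) (R ε t : ℝ) (y : Fin n → ℝ) : Fin n → ℝ :=
  c + ((1 - t) + t * (R / max ε (dist y c))) • (y - c)

theorem continuous_rex {n : ℕ} (c : Fin n → ℝ) (R : ℝ) {ε : ℝ} (hε : 0 < ε) :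
    Continuous fun p : ℝ × (Fin n → ℝ) => rex c R ε p.1 p.2 := by
  unfold rex
  have h1 : Continuous fun p : ℝ × (Fin n → ℝ) => max ε (dist p.2 c) :=
    continuous_const.max (continuous_snd.dist continuous_const)
  have h2 : Continuous fun p : ℝ × (Fin n → ℝ) => R / max ε (dist p.2 c) :=
    continuous_const.div h1 fun p => (lt_of_lt_of_le hε (le_max_left _ _)).ne'
  exact continuous_const.add (((continuous_const.sub continuous_fst).add
    (continuous_fst.mul h2)).smul (continuous_snd.sub continuous_const))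

theorem rex_zero {n : ℕ} (c : Fin n → ℝ) (R ε : ℝ) (y : Fin n → ℝ) : rex c R ε 0 y = y := by
  simp [rex]

theorem rex_of_dist_eq {n : ℕ} {c : Fin n → ℝ} {R ε : ℝ} (hε : 0 < ε) (hεR : ε ≤ R) (t : ℝ)
    {y : Fin n → ℝ} (hy : dist y c = R) : rex c R ε t y = y := by
  have hR : R ≠ 0 := (lt_of_lt_of_le hε hεR).ne'
  rw [rex, hy, max_eq_right hεR, div_self hR, mul_one, sub_add_cancel, one_smul]
  exact add_sub_cancel c y

theorem dist_rex {n : ℕ} (c : Fin n → ℝ) (R ε t : ℝ) (y : Fin n → ℝ) :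
    dist (rex c R ε t y) c = |(1 - t) + t * (R / max ε (dist y c))| * dist y c := by
  rw [rex, dist_eq_norm, add_sub_cancel_left, norm_smul, Real.norm_eq_abs, dist_eq_norm]

theorem dist_rex_le {n : ℕ} {c : Fin n → ℝ} {R ε t : ℝ} (hε : 0 < ε) (hεR : ε ≤ R)
    (ht : t ∈ Icc (0 : ℝ) 1) {y : Fin n → ℝ} (hy : dist y c ≤ R) :
    dist (rex c R ε t y) c ≤ R := by
  have hR : 0 < R := lt_of_lt_of_le hε hεR
  have hm : 0 < max ε (dist y c) := lt_of_lt_of_le hε (le_max_left _ _)
  have hq : 0 ≤ R / max ε (dist y c) := by positivity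
  have h1 : 0 ≤ 1 - t := sub_nonneg.2 ht.2
  rw [dist_rex, abs_of_nonneg (add_nonneg h1 (mul_nonneg ht.1 hq)), add_mul]
  have h2 : R / max ε (dist y c) * dist y c ≤ R := by
    rw [div_mul_eq_mul_div, div_le_iff₀ hm]
    exact mul_le_mul_of_nonneg_left (le_max_right _ _) hR.le
  have h3 : (1 - t) * dist y c ≤ (1 - t) * R := mul_le_mul_of_nonneg_left hy h1
  have h4 : t * (R / max ε (dist y c)) * dist y c ≤ t * R := by
    rw [mul_assoc]
    exact mul_le_mul_of_nonneg_left h2 ht.1
  linarith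

theorem dist_rex_one {n : ℕ} {c : Fin n → ℝ} {R ε : ℝ} (hε : 0 < ε) (hεR : ε ≤ R)
    {y : Fin n → ℝ} (hy : ε ≤ dist y c) : dist (rex c R ε 1 y) c = R := by
  have hR : 0 < R := lt_of_lt_of_le hε hεR
  have hd : 0 < dist y c := lt_of_lt_of_le hε hy
  rw [dist_rex, max_eq_right hy, sub_self, zero_add, one_mul, abs_of_nonneg (by positivity),
    div_mul_cancel₀ _ hd.ne']

theorem push {X : Type*} [MetricSpace X] [CompactSpace X] {n : ℕ}
    (e : OpenPartialHomeomorph X (Fin n → ℝ)) {c : Fin n → ℝ} {R ε : ℝ} (hε : 0 < ε) (hεR : ε ≤ R)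
    (hR : closedBall c R ⊆ e.target) :
    ∃ H : ℝ × X → X, ContinuousOn H (Icc 0 1 ×ˢ univ) ∧ (∀ x, H (0, x) = x) ∧
      ∀ x, x ∉ e.symm '' ball c ε → H (1, x) ∉ e.symm '' ball c R := by
  classical
  set K : Set X := e.symm '' closedBall c R with hK
  have hKs : K ⊆ e.source := by
    rintro _ ⟨y, hy, rfl⟩
    exact e.map_target (hR hy)
  have hKe : ∀ x ∈ K, e x ∈ closedBall c R := by
    rintro _ ⟨y, hy, rfl⟩
    rw [e.right_inv (hR hy)]
    exact hy
  have hKc : IsClosed K :=
    ((isCompact_closedBall c R).image_of_continuousOn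
      (e.continuousOn_symm.mono hR)).isClosed
  have hbR : ball c R ⊆ e.target := ball_subset_closedBall.trans hR
  have hVo : IsOpen (e.symm '' ball c R) :=
    e.symm.isOpen_image_of_subset_source isOpen_ball hbR
  refine ⟨fun p => if p.2 ∈ K then e.symm (rex c R ε p.1 (e p.2)) else p.2, ?_, ?_, ?_⟩
  · have hu : (Icc (0 : ℝ) 1 ×ˢ (univ : Set X)) =
        (Icc (0 : ℝ) 1 ×ˢ K) ∪ (Icc (0 : ℝ) 1 ×ˢ (e.symm '' ball c R)ᶜ) := by
      rw [← prod_union]
      congr 1
      symm
      apply eq_univ_of_forall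
      intro x
      by_cases hx : x ∈ K
      · exact Or.inl hx
      · exact Or.inr fun h => hx (image_mono ball_subset_closedBall h)
    rw [hu]
    apply ContinuousOn.union_of_isClosed
    · have h1 : ContinuousOn (fun p : ℝ × X => e.symm (rex c R ε p.1 (e p.2)))
          (Icc (0 : ℝ) 1 ×ˢ K) := by
        apply e.continuousOn_symm.comp
        · apply (continuous_rex c R hε).comp_continuousOn
            (f := fun p : ℝ × X => ((p.1, e p.2) : ℝ × (Fin n → ℝ)))
          apply continuousOn_fst.prodMk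
          exact (e.continuousOn.mono hKs).comp continuousOn_snd fun p hp => hp.2
        · intro p hp
          exact hR (dist_rex_le hε hεR hp.1 (hKe p.2 hp.2))
      apply h1.congr
      intro p hp
      simp only [if_pos hp.2]
    · apply continuousOn_snd.congr
      intro p hp
      by_cases hx : p.2 ∈ K
      · simp only [if_pos hx]
        have h1 : dist (e p.2) c ≤ R := hKe p.2 hx
        have h2 : dist (e p.2) c = R := by
          refine le_antisymm h1 (not_lt.1 fun h => hp.2 ?_)
          exact ⟨e p.2, h, e.left_inv (hKs hx)⟩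
        rw [rex_of_dist_eq hε hεR _ h2, e.left_inv (hKs hx)]
      · simp only [if_neg hx]
    · exact isClosed_Icc.prod hKc
    · exact isClosed_Icc.prod hVo.isClosed_compl
  · intro x
    by_cases hx : x ∈ K
    · simp only [if_pos hx]
      rw [rex_zero, e.left_inv (hKs hx)]
    · simp only [if_neg hx]
  · intro x hx
    by_cases hxK : x ∈ K
    · simp only [if_pos hxK]
      have h1 : ε ≤ dist (e x) c := by
        refine not_lt.1 fun h => hx ?_
        exact ⟨e x, h, e.left_inv (hKs hxK)⟩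
      have h2 := dist_rex_one hε hεR h1
      rintro ⟨y, hy, hyx⟩
      have h3 : rex c R ε 1 (e x) ∈ e.target := hR (le_of_eq h2)
      have h4 : y = rex c R ε 1 (e x) := by
        rw [← e.right_inv (hbR hy), hyx, e.right_inv h3]
      rw [h4, mem_ball, h2] at hy
      exact lt_irrefl _ hy
    · simp only [if_neg hxK]
      exact fun h => hxK (image_mono ball_subset_closedBall h)

theorem move {X V : Type*} [MetricSpace X] [CompactSpace X] [AddCommGroup V] {n j : ℕ}
    (e : OpenPartialHomeomorph X (Fin n → ℝ)) {c : Fin n → ℝ} {R ε : ℝ} (hε : 0 < ε) (hεR : ε ≤ R)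
    (hR : closedBall c R ⊆ e.target) {f : Co X V} (hf : f ∈ ZZ dH TT (DT All) (j + 1))
    (hs : f ∈ DT (Out (e.symm '' ball c R)) (j + 1)) :
    ∃ f' : Co X V, f' ∈ ZZ dH TT (DT All) (j + 1) ∧ f' ∈ DT (Out (e.symm '' ball c ε)) (j + 1) ∧
      f' - f ∈ BB dH TT (DT All) (j + 1) := by
  obtain ⟨H, hH, h0, h1⟩ := push e hε hεR hR
  obtain ⟨g, hg⟩ := hmt hH (f := f) (j := j + 1) hf.2
  have e0 : cm (fun x => H (0, x)) f = f := by
    funext l
    rw [cm_apply]
    congr 1
    have : (fun x => H (0, x)) = id := funext h0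
    rw [this, List.map_id]
  rw [e0] at hg
  have hBB : cm (fun x => H (1, x)) f - f ∈ BB dH TT (DT All) (j + 1) :=
    mem_BB_succ.2 ⟨g, trivial, hg⟩
  refine ⟨cm (fun x => H (1, x)) f, ?_, ?_, hBB⟩
  · have h2 := (ZZ dH TT (DT All) (j + 1)).add_mem (BB_le_ZZ dH_dH (cx_top her_all) (j + 1) hBB) hf
    rwa [sub_add_cancel] at h2
  · obtain ⟨η, hη, hv⟩ := hs
    have hc : Continuous fun x => H (1, x) := by
      have h3 : ContinuousOn (fun x : X => H (1, x)) univ :=
        hH.comp (Continuous.prodMk_right (1 : ℝ)).continuousOn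
          fun x _ => ⟨⟨zero_le_one, le_refl _⟩, trivial⟩
      exact continuousOn_univ.1 h3
    have huc : UniformContinuous fun x => H (1, x) :=
      CompactSpace.uniformContinuous_of_continuous hc
    obtain ⟨δ, hδ, h'⟩ := Metric.uniformContinuous_iff.1 huc η hη
    refine ⟨δ, hδ, fun l hl hsm hout => ?_⟩
    rw [cm_apply]
    apply hv
    · rw [List.length_map, hl]
    · intro x hx y hy
      obtain ⟨x', hx', rfl⟩ := List.mem_map.1 hx
      obtain ⟨y', hy', rfl⟩ := List.mem_map.1 hy
      exact h' (hsm x' hx' y' hy')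
    · intro x hx
      obtain ⟨x', hx', rfl⟩ := List.mem_map.1 hx
      exact h1 x' (hout x' hx')

end Pool.Agent.AXS
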