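import Pool.Agent.AXS.Decomp
import Pool.Agent.AXS.Push
import Pool.Agent.Helper3.HS.Defs

/-!
# Row PE: top classes can be moved into any open set (helper60)
-/

set_option autoImplicit false

open Set Metric MeasureTheory Topology
open Pool.Agent.Helper3.HS

namespace Pool.Agent.AXS

section TopCl

variable {X V : Type*} [MetricSpace X] [AddCommGroup V]

/-- Classes not killed by `k` live arbitrarily close to `x`. -/
def Gd (V : Type*) [AddCommGroup V] (n k : ℕ) (x : X) : Prop :=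
  ∀ N ∈ 𝓝 x, ∃ w ∈ (ZZ dH TT (DT All) n : AddSubgroup (Co X V)), w ∈ DT (Out N) n ∧
    k • w ∉ BB dH TT (DT All) n

/-- Move a class to the centre of a chart ball. -/
theorem gd_centre [CompactSpace X] {n j k : ℕ} (e : OpenPartialHomeomorph X (Fin n → ℝ))
    {y : X} (hy : y ∈ e.source) {R : ℝ} (hR0 : 0 < R) (hR : closedBall (e y) R ⊆ e.target)
    (h : ∃ w ∈ (ZZ dH TT (DT All) (j + 1) : AddSubgroup (Co X V)),
      w ∈ DT (Out (e.symm '' ball (e y) R)) (j + 1) ∧ k • w ∉ BB dH TT (DT All) (j + 1)) :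
    Gd V (j + 1) k y := by
  intro N hN
  obtain ⟨w, hw, hwo, hwk⟩ := h
  have hc : Filter.Tendsto e.symm (𝓝 (e y)) (𝓝 y) := by
    have := e.symm.continuousAt (x := e y) (e.map_source hy)
    rw [ContinuousAt, e.left_inv hy] at this
    exact this
  obtain ⟨ε, hε, hεN⟩ := Metric.mem_nhds_iff.1 (hc hN)
  obtain ⟨f', hf', hfo, hfB⟩ := move e (c := e y) (R := R) (ε := min ε R) (lt_min hε hR0)
    (min_le_right _ _) hR hw hwo
  refine ⟨f', hf', ?_, fun hk => hwk ?_⟩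
  · refine DT_mono (fun l hl => Out_mono ?_ l hl) _ hfo
    rintro _ ⟨z, hz, rfl⟩
    exact hεN (ball_subset_ball (min_le_left _ _) hz)
  · have e1 : k • w = k • f' - k • (f' - w) := by rw [smul_sub]; abel
    rw [e1]
    exact (BB dH TT (DT All) (j + 1)).sub_mem hk ((BB dH TT (DT All) (j + 1)).nsmul_mem hfB k)

/-- Chart balls around a regular point. -/
theorem chart_ball {n : ℕ} {x : X} (hx : x ∈ regPts n X) {t : ℝ} (ht : 0 < t) :
    ∃ e : OpenPartialHomeomorph X (Fin n → ℝ), x ∈ e.source ∧ ∃ ρ > 0,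
      closedBall (e x) (t * ρ) ⊆ e.target := by
  obtain ⟨e, C, hxe, -, -⟩ := hx
  obtain ⟨r, hr, h⟩ := Metric.nhds_basis_closedBall.mem_iff.1
    (e.open_target.mem_nhds (e.map_source hxe))
  refine ⟨e, hxe, r / t, div_pos hr ht, ?_⟩
  rwa [mul_div_cancel₀ _ ht.ne']

/-- Local spreading. -/
theorem gd_local [CompactSpace X] {n j k : ℕ} {x : X} (hx : x ∈ regPts n X) :
    ∃ N : Set X, IsOpen N ∧ x ∈ N ∧ ∀ y ∈ N, ∀ y' ∈ N, Gd V (j + 1) k y → Gd V (j + 1) k y' := by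
  obtain ⟨e, hxe, ρ, hρ, hb⟩ := chart_ball hx (show (0 : ℝ) < 3 by norm_num)
  have hbt : ball (e x) ρ ⊆ e.target :=
    (ball_subset_closedBall.trans (closedBall_subset_closedBall (by linarith))).trans hb
  refine ⟨e.symm '' ball (e x) ρ, e.symm.isOpen_image_of_subset_source isOpen_ball hbt,
    ⟨e x, mem_ball_self hρ, e.left_inv hxe⟩, ?_⟩
  rintro _ ⟨z, hz, rfl⟩ _ ⟨z', hz', rfl⟩ hg
  have hz't : z' ∈ e.target := hbt hz'
  have hzt : z ∈ e.target := hbt hz
  have h1 : closedBall (e (e.symm z')) (2 * ρ) ⊆ e.target := by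
    rw [e.right_inv hz't]
    refine (closedBall_subset_closedBall' ?_).trans hb
    rw [mem_ball] at hz'
    linarith
  have h2 : e.symm '' ball (e (e.symm z')) (2 * ρ) ∈ 𝓝 (e.symm z) := by
    rw [e.right_inv hz't]
    refine (e.symm.isOpen_image_of_subset_source isOpen_ball ?_).mem_nhds ⟨z, ?_, rfl⟩
    · rw [e.right_inv hz't] at h1
      exact ball_subset_closedBall.trans h1
    · rw [mem_ball] at hz hz' ⊢
      have := dist_triangle_right z z' (e x)
      linarith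
  exact gd_centre e (e.map_target hz't) (by positivity) h1 (hg _ h2)

/-- Spreading along a connected open set of regular points. -/
theorem gd_all [CompactSpace X] {n j k : ℕ} {R : Set X} (hRc : IsPreconnected R)
    (hR : R ⊆ regPts n X) {x : X} (hx : x ∈ R) (hg : Gd V (j + 1) k x) :
    ∀ y ∈ R, Gd V (j + 1) k y := by
  intro y hy
  by_contra hyb
  choose N hNo hxN hN using fun z : regPts n X => gd_local (V := V) (j := j) (k := k) z.2
  set u : Set X := ⋃ z : regPts n X, ⋃ _ : Gd V (j + 1) k (z : X), N z with hu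
  set v : Set X := ⋃ z : regPts n X, ⋃ _ : ¬ Gd V (j + 1) k (z : X), N z with hv
  have huo : IsOpen u := isOpen_iUnion fun z => isOpen_iUnion fun _ => hNo z
  have hvo : IsOpen v := isOpen_iUnion fun z => isOpen_iUnion fun _ => hNo z
  have hcov : R ⊆ u ∪ v := by
    intro z hz
    by_cases hzg : Gd V (j + 1) k z
    · left
      simp only [hu, mem_iUnion]
      exact ⟨⟨z, hR hz⟩, hzg, hxN ⟨z, hR hz⟩⟩
    · right
      simp only [hv, mem_iUnion]
      exact ⟨⟨z, hR hz⟩, hzg, hxN ⟨z, hR hz⟩⟩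
  have h1 : (R ∩ u).Nonempty := ⟨x, hx, by
    simp only [hu, mem_iUnion]
    exact ⟨⟨x, hR hx⟩, hg, hxN ⟨x, hR hx⟩⟩⟩
  have h2 : (R ∩ v).Nonempty := ⟨y, hy, by
    simp only [hv, mem_iUnion]
    exact ⟨⟨y, hR hy⟩, hyb, hxN ⟨y, hR hy⟩⟩⟩
  obtain ⟨z, hz, hzu, hzv⟩ := hRc u v huo hvo hcov h1 h2
  simp only [hu, mem_iUnion] at hzu
  simp only [hv, mem_iUnion] at hzv
  obtain ⟨a, ha, hza⟩ := hzu
  obtain ⟨b, hb, hzb⟩ := hzv
  exact hb (hN b z hzb b (hxN b) (hN a a (hxN a) z hza ha))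

/-- Row PE. -/
theorem topClass {X V : Type*} [MetricSpace X] [CompactSpace X] [AddCommGroup V] {B : Type*} [Group B]
    [MulAction B X] {n : ℕ} (hn : 1 ≤ n) (hcol : HasCol B X n) {R : Set X} (hRo : IsOpen R)
    (hRc : IsPreconnected R) (hRd : Dense R) (hR : R ⊆ regPts n X)
    (hS : ∀ f : Co X V, f ∈ ZZ dH TT (DT All) n → ∃ A : Set X, IsOpen A ∧ Rᶜ ⊆ A ∧
      ∃ f' : Co X V, f' ∈ DT (Out Aᶜ) n ∧ f - f' ∈ BB dH TT (DT All) n) {k : ℕ}
    (h : ∃ w ∈ (ZZ dH TT (DT All) n : AddSubgroup (Co X V)), k • w ∉ BB dH TT (DT All) n) {U : Set X}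
    (hU : IsOpen U) (hUn : U.Nonempty) :
    ∃ w ∈ (ZZ dH TT (DT All) n : AddSubgroup (Co X V)), w ∈ DT (Out U) n ∧ k • w ∉ BB dH TT (DT All) n := by
  classical
  obtain ⟨j, rfl⟩ : ∃ j, n = j + 1 := ⟨n - 1, by omega⟩
  have hcx : Cx (dH : Co X V →+ Co X V) TT (DT All) := cx_top her_all
  obtain ⟨y₀, hy₀U, hy₀R⟩ := hRd.inter_open_nonempty U hU hUn
  have : Nonempty X := ⟨y₀⟩
  -- it is enough to find one good point of `R`
  suffices hgd : ∃ x ∈ R, Gd V (j + 1) k x by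
    obtain ⟨x, hx, hg⟩ := hgd
    exact gd_all hRc hR hx hg y₀ hy₀R U (hU.mem_nhds hy₀U)
  obtain ⟨w, hw, hwk⟩ := h
  obtain ⟨A, hAo, hRA, f, hfA, hwf⟩ := hS w hw
  have hf : f ∈ ZZ dH TT (DT All) (j + 1) := by
    have h1 := BB_le_ZZ dH_dH hcx (j + 1) hwf
    have : f = w - (w - f) := by abel
    rw [this]
    exact (ZZ dH TT (DT All) (j + 1)).sub_mem hw h1
  have hfk : k • f ∉ BB dH TT (DT All) (j + 1) := by
    intro hk
    apply hwk
    have e1 : k • w = k • f + k • (w - f) := by rw [smul_sub]; abel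
    rw [e1]
    exact (BB dH TT (DT All) (j + 1)).add_mem hk ((BB dH TT (DT All) (j + 1)).nsmul_mem hwf k)
  -- chart balls
  choose e he ρ hρ hb using fun z : regPts (j + 1) X => chart_ball z.2 (show (0 : ℝ) < 1 by norm_num)
  have hbt : ∀ z, ball (e z z) (1 * ρ z) ⊆ (e z).target := fun z => ball_subset_closedBall.trans (hb z)
  set W : regPts (j + 1) X → Set X := fun z => (e z).symm '' ball (e z z) (1 * ρ z) with hW
  have hWo : ∀ z, IsOpen (W z) := fun z =>
    (e z).symm.isOpen_image_of_subset_source isOpen_ball (hbt z)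
  have hzW : ∀ z : regPts (j + 1) X, (z : X) ∈ W z := fun z =>
    ⟨e z z, mem_ball_self (by have := hρ z; positivity), (e z).left_inv (he z)⟩
  have hK : IsCompact Aᶜ := hAo.isClosed_compl.isCompact
  have hKR : Aᶜ ⊆ R := compl_subset_comm.1 hRA
  obtain ⟨s, hs⟩ := hK.elim_finite_subcover (fun z : R => W ⟨z, hR z.2⟩) (fun z => hWo _)
    (fun y hy => mem_iUnion.2 ⟨⟨y, hKR hy⟩, hzW _⟩)
  -- add one point, so that the index set is not empty
  set s' : Finset R := insert ⟨y₀, hy₀R⟩ s with hs'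
  have hcov : Aᶜ ⊆ ⋃ i : s', W ⟨(i : R), hR (i : R).2⟩ := by
    intro y hy
    have h1 := hs hy
    simp only [mem_iUnion] at h1
    obtain ⟨z, hz, hzy⟩ := h1
    exact mem_iUnion.2 ⟨⟨z, Finset.mem_insert_of_mem hz⟩, hzy⟩
  obtain ⟨lam, hlam, hleb⟩ := lebesgue_number_lemma_of_metric hK (fun i : s' => hWo _) hcov
  set ν := s'.equivFin with hν
  set ι : X → Fin s'.card := fun x =>
    if hx : ∃ i : s', ball x (lam / 2) ⊆ W ⟨(i : R), hR (i : R).2⟩ then ν hx.choose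
    else ν ⟨⟨y₀, hy₀R⟩, Finset.mem_insert_self _ _⟩ with hι
  obtain ⟨g, hg1, hg2, hg3⟩ := decomp hcol hf (lam := lam / 2) (by positivity) hfA ι
    (fun i => W ⟨(ν.symm i : R), hR (ν.symm i : R).2⟩) (by
      intro x y hxy hy
      obtain ⟨i, hi⟩ := hleb y hy
      have hx : ∃ i : s', ball x (lam / 2) ⊆ W ⟨(i : R), hR (i : R).2⟩ := by
        refine ⟨i, (ball_subset_ball' ?_).trans hi⟩
        linarith
      simp only [hι, dif_pos hx, Equiv.symm_apply_apply]
      exact hx.choose_spec)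
  obtain ⟨i, hi⟩ : ∃ i, k • g i ∉ BB dH TT (DT All) (j + 1) := by
    by_contra hcon
    push Not at hcon
    apply hfk
    have e1 : k • f = k • (f - ∑ i, g i) + ∑ i, k • g i := by
      rw [smul_sub, Finset.smul_sum]; abel
    rw [e1]
    exact (BB dH TT (DT All) (j + 1)).add_mem ((BB dH TT (DT All) (j + 1)).nsmul_mem hg3 k)
      ((BB dH TT (DT All) (j + 1)).sum_mem fun i _ => hcon i)
  set z : regPts (j + 1) X := ⟨(ν.symm i : R), hR (ν.symm i : R).2⟩ with hz
  refine ⟨(ν.symm i : R), (ν.symm i : R).2, ?_⟩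
  exact gd_centre (e z) (he z) (by have := hρ z; positivity) (hb z) ⟨g i, hg1 i, hg2 i, hi⟩

end TopCl

end Pool.Agent.AXS
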