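import Pool.Agent.AXS.Final
import Pool.Agent.AXS.MuH
import Pool.Agent.AXS.Taut
import Pool.Agent.AXS.TopCl

/-!
# Glue: orientability and the theorem for special linear groups
-/

set_option autoImplicit false

open Set Metric MeasureTheory Topology Matrix

namespace Pool.Agent.AXS

open Pool.Agent.Helper3.HS

/-- `X` is orientable in dimension `n`: the group `H^n(X; ℤ/2^(n+1))` (Alexander-Spanier) is not killed
by `2^n`. -/
def Orient (X : Type*) [MetricSpace X] (n : ℕ) : Prop :=
  ∃ w ∈ (ZZ dH TT (DT All) n : AddSubgroup (Co X (ZMod (2 ^ (n + 1))))),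
    2 ^ n • w ∉ BB dH TT (DT All) n

/-- A closed set of `n`-dimensional measure zero has no cohomology in degree `n`: every cocycle of
degree `n` can be made to vanish near it (`n = d + 1`). -/
theorem taut_null {d : ℕ} {X V : Type*} [MetricSpace X] [CompactSpace X] [MeasurableSpace X]
    [BorelSpace X] [AddCommGroup V] {S : Set X} (hSc : IsClosed S)
    (hS : (μH[(d : ℝ) + 1] : Measure X) S = 0) {f : Co X V}
    (hf : f ∈ ZZ dH TT (DT All) (d + 1)) :
    ∃ A : Set X, IsOpen A ∧ S ⊆ A ∧ ∃ f' : Co X V, f' ∈ DT (Out Aᶜ) (d + 1) ∧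
      f - f' ∈ BB dH TT (DT All) (d + 1) := by
  rcases S.eq_empty_or_nonempty with rfl | hne
  · refine ⟨∅, isOpen_empty, subset_rfl, f, ⟨1, one_pos, fun l hl _ hO => ?_⟩, ?_⟩
    · exfalso
      rcases l with - | ⟨x, l⟩
      · simp at hl
      · exact hO x List.mem_cons_self (by simp)
    · rw [sub_self]
      exact (BB dH TT (DT All) (d + 1)).zero_mem
  · have : Nonempty S := hne.to_subtype
    obtain ⟨B, i1, i2, hc⟩ := hasCol_sub hSc hS
    exact taut hSc (B := B) (m := d) hc hf

/-- An orientable space has classes with small support which are not killed by `2^n`. -/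
theorem topC_of_orient {d : ℕ} {X : Type*} [MetricSpace X] [CompactSpace X] [Nonempty X]
    [MeasurableSpace X] [BorelSpace X] {R : Set X} (hRo : IsOpen R) (hRd : Dense R)
    (hRc : IsPreconnected R) (hR : R ⊆ regPts (d + 1) X)
    (hS : (μH[((d + 1 : ℕ) : ℝ)] : Measure X) Rᶜ = 0) (hor : Orient X (d + 1)) :
    TopC X (d + 1) := by
  have hS' : (μH[(d : ℝ) + 1] : Measure X) Rᶜ = 0 := by
    have : ((d + 1 : ℕ) : ℝ) = (d : ℝ) + 1 := by push_cast; ring
    rw [← this]
    exact hS
  obtain ⟨B, i1, i2, hc⟩ := hasCol_triv (muH_zero hR hS)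
  intro U hU hUn
  obtain ⟨w, hw, h1, h2⟩ := topClass (B := B) (Nat.succ_pos d) hc hRo hRc hRd hR
    (fun f hf => taut_null hRo.isClosed_compl hS' hf) hor hU hUn
  exact ⟨w, h1, hw.2, h2⟩

/-- **Theorem.** Let `n = d + 1` and let `X` be a compact metric space with finite mod 2 cohomology
which is orientable, and the complement of an open dense connected set of regular points has
`n`-dimensional measure zero. Then every homomorphism from `SL_m(F)`, `m ≥ 2 n + 1`, to the group
of homeomorphisms of `X` is trivial. -/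
theorem sl_main {d m : ℕ} (hm : 2 * (d + 1) + 1 ≤ m) (F : Type*) [Field F] [Infinite F]
    (h2 : (2 : F) ≠ 0)
    {X : Type*} [MetricSpace X] [CompactSpace X] [MeasurableSpace X] [BorelSpace X]
    (hfin : FinC X (d + 1)) {R : Set X} (hRo : IsOpen R)
    (hRd : Dense R) (hRc : IsPreconnected R) (hR : R ⊆ regPts (d + 1) X)
    (hS : (μH[((d + 1 : ℕ) : ℝ)] : Measure X) Rᶜ = 0) (hor : Orient X (d + 1))
    {G : Type*} [Group G] [MulAction G X] [ContinuousConstSMul G X]
    (θ : SpecialLinearGroup (Fin m) F →* G) (g : SpecialLinearGroup (Fin m) F) (x : X) :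
    θ g • x = x := by
  have : Nonempty X := ⟨x⟩
  exact sl_final hm F h2 hRo hRd hRc hR hfin (topC_of_orient hRo hRd hRc hR hS hor)
    (fun B _ _ _ _ => fun ε hε => coloring (muH_zero hR hS) hε) θ g x

/-- **Theorem.** Under the same assumptions let `L` be a group without proper subgroups of finite
index, which acts on `X` by homeomorphisms, and let `(ℤ/2)^(n+1)` be embedded in the centre of `L`
(or mapped to it). Then some nontrivial element of `(ℤ/2)^(n+1)` acts trivially. -/
theorem central_main {d : ℕ} {X : Type*} [MetricSpace X] [CompactSpace X] [MeasurableSpace X]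
    [BorelSpace X] [Nonempty X] (hfin : FinC X (d + 1)) {R : Set X} (hRo : IsOpen R)
    (hRd : Dense R) (hRc : IsPreconnected R) (hR : R ⊆ regPts (d + 1) X)
    (hS : (μH[((d + 1 : ℕ) : ℝ)] : Measure X) Rᶜ = 0) (hor : Orient X (d + 1))
    {L : Type*} [Group L] [MulAction L X] [ContinuousConstSMul L X]
    (hL : ∀ H : Subgroup L, H.FiniteIndex → H = ⊤)
    (s : (Fin (d + 1 + 1) → Multiplicative (ZMod 2)) →* L) (hs : ∀ b g, s b * g = g * s b) :
    ∃ b, b ≠ 1 ∧ ∀ x : X, s b • x = x := by
  by_contra hcon
  push Not at hcon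
  have hsq : ∀ b : Fin (d + 1 + 1) → Multiplicative (ZMod 2), b * b = 1 := by
    intro b
    funext i
    have : ∀ z : Multiplicative (ZMod 2), z * z = 1 := by decide
    exact this (b i)
  let i2 : MulAction (Fin (d + 1 + 1) → Multiplicative (ZMod 2)) X := MulAction.compHom X s
  have : ContinuousConstSMul (Fin (d + 1 + 1) → Multiplicative (ZMod 2)) X :=
    ⟨fun c => continuous_const_smul (s c)⟩
  exact not_effective (L := L) (n := d + 1) (Nat.succ_pos d) hfin
    (topC_of_orient hRo hRd hRc hR hS hor)
    (fun ε hε => coloring (muH_zero hR hS) hε) hL (fun b => ⟨s b, fun y => rfl⟩)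
    (fun b c y => by
      change s b • c • y = c • s b • y
      rw [smul_smul, smul_smul, hs])
    (fun b hb => dense_moved hRo hRd hRc hR (g := s b) (by rw [← map_mul, hsq, map_one])
      (hcon b hb))

end Pool.Agent.AXS
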