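import Pool.Agent.AXS.Chain

/-!
# A chain map from the coarse lists to the fine chains
-/

set_option autoImplicit false

open Set Metric MeasureTheory Topology

namespace Pool.Agent.AXS

/-- The chain map, if small cycles bound. -/
theorem exists_lam_of {X : Type*} [MetricSpace X]
    (hF : ∀ ε : ℝ, 0 < ε → ∃ δ > 0, ∀ η > 0, ∃ η' > 0, ∀ (x : X) (k : ℕ) (c : Ch X),
      (∀ l ∈ c.support, l.length = k ∧ Sm η' l ∧ ∀ y ∈ l, dist y x < δ) → bd c = 0 →
      ∃ c' : Ch X, (∀ l ∈ c'.support, l.length = k + 1 ∧ Sm η l ∧ ∀ y ∈ l, dist y x < ε) ∧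
        bd c' = c) (K : ℕ) {ε : ℝ}
    (hε : 0 < ε) : ∃ δ > 0, ∀ η > 0, ∃ lam : List X → Ch X, IsLam K ε δ η lam := by
  induction K generalizing ε with
  | zero =>
    refine ⟨1, one_pos, fun η _ => ⟨fun _ => Finsupp.single [] 1, rfl, ?_⟩⟩
    intro l hl _
    have hl0 : l = [] := List.length_eq_zero_iff.1 (Nat.le_zero.1 hl)
    subst hl0
    refine ⟨?_, ?_⟩
    · intro w hw
      have hw' : w = [] := by
        have := Finsupp.support_single_subset hw
        simpa using this
      subst hw'
      refine ⟨rfl, ?_, ?_⟩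
      · intro x hx
        simp at hx
      · intro y hy
        simp at hy
    · show pr bdl _ = _
      rw [pr_single]
      show (1 : ℤ) • bdl ([] : List X) = pr _ (bdl ([] : List X))
      show (1 : ℤ) • (0 : Ch X) = pr _ (0 : Ch X)
      rw [map_zero, smul_zero]
  | succ K ih =>
    obtain ⟨δ₁, hδ₁, hfill⟩ := hF _ (half_pos hε)
    have hε₁ : 0 < min δ₁ ε / 2 := half_pos (lt_min hδ₁ hε)
    obtain ⟨δ₂, hδ₂, hlam⟩ := ih hε₁
    refine ⟨min δ₂ (min δ₁ ε / 2), lt_min hδ₂ hε₁, fun η hη => ?_⟩
    obtain ⟨η', hη', hf⟩ := hfill η hη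
    obtain ⟨lam, hl0, hl⟩ := hlam (min η' η) (lt_min hη' hη)
    have key : ∀ l : List X, ∃ c' : Ch X, l.length = K + 1 → Sm (min δ₂ (min δ₁ ε / 2)) l →
        (∀ w ∈ c'.support, w.length = l.length ∧ Sm η w ∧ ∀ y ∈ w, ∀ x ∈ l, dist y x < ε) ∧
        bd c' = pr lam (bdl l) := by
      intro l
      by_cases hlen : l.length = K + 1
      swap
      · exact ⟨0, fun h' => absurd h' hlen⟩
      by_cases hsm : Sm (min δ₂ (min δ₁ ε / 2)) l
      swap
      · exact ⟨0, fun _ h' => absurd h' hsm⟩
      obtain ⟨x₀, v, rfl⟩ : ∃ x₀ v, l = x₀ :: v := by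
        cases l with
        | nil => simp at hlen
        | cons x₀ v => exact ⟨x₀, v, rfl⟩
      have hx₀ : x₀ ∈ x₀ :: v := List.mem_cons_self
      have hface : ∀ w ∈ (bdl (x₀ :: v)).support, w ⊆ x₀ :: v ∧ w.length = K := by
        intro w hw
        obtain ⟨h1, h2⟩ := supp_bdl _ _ hw
        exact ⟨h1, by omega⟩
      have hface2 : ∀ w ∈ (bdl (x₀ :: v)).support, Sm δ₂ w := by
        intro w hw x hx y hy
        exact (hsm x ((hface w hw).1 hx) y ((hface w hw).1 hy)).trans_le (min_le_left _ _)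
      have hc1 : ∀ w ∈ (pr lam (bdl (x₀ :: v))).support,
          w.length = K ∧ Sm η' w ∧ ∀ y ∈ w, dist y x₀ < δ₁ := by
        intro w hw
        obtain ⟨l', hl', hwl'⟩ := supp_pr _ _ _ hw
        obtain ⟨h1, h2⟩ := hface l' hl'
        obtain ⟨h3, h4, h5⟩ := (hl l' h2.le (hface2 l' hl')).1 w hwl'
        refine ⟨h3.trans h2, fun x hx y hy => (h4 x hx y hy).trans_le (min_le_left _ _), ?_⟩
        intro y hy
        have hne : 0 < l'.length := by
          rw [← h3]
          exact List.length_pos_of_mem hy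
        obtain ⟨x, hx⟩ := List.exists_mem_of_length_pos hne
        have e1 := h5 y hy x hx
        have e2 := hsm x (h1 hx) x₀ hx₀
        have e3 := dist_triangle y x x₀
        have e4 : min δ₂ (min δ₁ ε / 2) ≤ min δ₁ ε / 2 := min_le_right _ _
        have e5 : min δ₁ ε ≤ δ₁ := min_le_left _ _
        linarith
      have hc2 : bd (pr lam (bdl (x₀ :: v))) = 0 := by
        rw [pr_hom]
        rw [pr_congr (fun l => bd (lam l)) (dd lam) _ (by
          intro w hw
          rw [(hl w (hface w hw).2.le (hface2 w hw)).2, pr_bdl])]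
        rw [← pr_bd, bd_bdl, map_zero]
      obtain ⟨c', hc', hbd⟩ := hf x₀ K _ hc1 hc2
      refine ⟨c', fun _ _ => ⟨?_, hbd⟩⟩
      intro w hw
      obtain ⟨h1, h2, h3⟩ := hc' w hw
      refine ⟨h1.trans hlen.symm, h2, ?_⟩
      intro y hy x hx
      have e1 := h3 y hy
      have e2 := hsm x₀ hx₀ x hx
      have e3 := dist_triangle y x₀ x
      have e4 : min δ₂ (min δ₁ ε / 2) ≤ min δ₁ ε / 2 := min_le_right _ _
      have e5 : min δ₁ ε ≤ ε := min_le_right _ _
      linarith
    choose cc hcc using key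
    have hagree : ∀ l : List X, l.length ≤ K + 1 →
        pr (fun l => if l.length = K + 1 then cc l else lam l) (bdl l) = pr lam (bdl l) := by
      intro l hll
      apply pr_congr
      intro w hw
      have := (supp_bdl _ _ hw).2
      rw [if_neg (by omega)]
    refine ⟨fun l => if l.length = K + 1 then cc l else lam l, ?_, ?_⟩
    · show (if ([] : List X).length = K + 1 then cc [] else lam []) = _
      rw [if_neg (by simp)]
      exact hl0
    · intro l hll hsm
      rw [hagree l hll]
      by_cases hlen : l.length = K + 1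
      · simp only [if_pos hlen]
        exact hcc l hlen hsm
      · simp only [if_neg hlen]
        obtain ⟨h1, h2⟩ := hl l (by omega)
          (fun x hx y hy => (hsm x hx y hy).trans_le (min_le_left _ _))
        refine ⟨?_, h2⟩
        intro w hw
        obtain ⟨h3, h4, h5⟩ := h1 w hw
        refine ⟨h3, fun x hx y hy => (h4 x hx y hy).trans_le (min_le_right _ _), ?_⟩
        intro y hy x hx
        have e1 := h5 y hy x hx
        have e5 : min δ₁ ε ≤ ε := min_le_right _ _
        linarith

end Pool.Agent.AXS
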