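import Pool.Agent.AXS.Fill
import Pool.Agent.AXS.Lam0

/-!
# The chain map from the coarse lists to the fine chains
-/

set_option autoImplicit false

open Set Metric MeasureTheory Topology

namespace Pool.Agent.AXS

theorem exists_lam {X : Type*} [MetricSpace X] [CompactSpace X] (h : LocContr X) (K : ℕ) {ε : ℝ}
    (hε : 0 < ε) : ∃ δ > 0, ∀ η > 0, ∃ lam : List X → Ch X, IsLam K ε δ η lam :=
  exists_lam_of (fun _ hε' => fill h hε') K hε

end Pool.Agent.AXS
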