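import Pool.Agent.AXS.Glue

/-!
# Actions which lift to a finite extension: non-orientable spaces, spaces with boundary
-/

set_option autoImplicit false

open Set Metric MeasureTheory Topology Matrix

namespace Pool.Agent.AXS

open Pool.Agent.Helper3.HS

/-- A finite extension of a group without proper subgroups of finite index contains a subgroup
without proper subgroups of finite index which maps onto the quotient. -/
theorem exists_perfect {H L : Type*} [Group H] [Group L] (p : H →* L)
    (hp : Function.Surjective p) (hK : {h : H | p h = 1}.Finite)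
    (hL : ∀ S : Subgroup L, S.FiniteIndex → S = ⊤) :
    ∃ H₁ : Subgroup H, (∀ S : Subgroup H₁, S.FiniteIndex → S = ⊤) ∧ ∀ a : L, ∃ h ∈ H₁, p h = a := by
  classical
  have surj : ∀ S : Subgroup H, S.FiniteIndex → ∀ a : L, ∃ h ∈ S, p h = a := by
    intro S hS a
    have h1 : (S.map p).FiniteIndex :=
      ⟨ne_zero_of_dvd_ne_zero hS.index_ne_zero (S.index_map_dvd hp)⟩
    have ha : a ∈ S.map p := (hL _ h1).symm ▸ Subgroup.mem_top a
    obtain ⟨h, hh, e⟩ := Subgroup.mem_map.1 ha
    exact ⟨h, hh, e⟩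
  let P : ℕ → Prop := fun k => ∃ S : Subgroup H, S.FiniteIndex ∧
    {h : H | h ∈ S ∧ p h = 1}.ncard = k
  have hP : ∃ k, P k := ⟨_, ⊤, inferInstance, rfl⟩
  obtain ⟨H₁, hH₁, hc⟩ := Nat.find_spec hP
  refine ⟨H₁, ?_, surj H₁ hH₁⟩
  intro S hS
  have hS' : (S.map H₁.subtype).FiniteIndex := by
    constructor
    rw [Subgroup.index_map_subtype]
    exact mul_ne_zero hS.index_ne_zero hH₁.index_ne_zero
  have hle : S.map H₁.subtype ≤ H₁ := Subgroup.map_subtype_le S
  have hsub : {h : H | h ∈ S.map H₁.subtype ∧ p h = 1} ⊆ {h : H | h ∈ H₁ ∧ p h = 1} :=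
    fun h hh => ⟨hle hh.1, hh.2⟩
  have hfin : {h : H | h ∈ H₁ ∧ p h = 1}.Finite := hK.subset fun h hh => hh.2
  have hcard : {h : H | h ∈ H₁ ∧ p h = 1}.ncard ≤
      {h : H | h ∈ S.map H₁.subtype ∧ p h = 1}.ncard := by
    rw [hc]
    exact Nat.find_min' hP ⟨_, hS', rfl⟩
  have heq := Set.eq_of_subset_of_ncard_le hsub hcard hfin
  rw [eq_top_iff]
  intro x _
  obtain ⟨s, hs, e⟩ := surj _ hS' (p x)
  have h1 : (x : H) * s⁻¹ ∈ {h : H | h ∈ S.map H₁.subtype ∧ p h = 1} := by
    rw [heq]
    exact ⟨H₁.mul_mem x.2 (H₁.inv_mem (hle hs)), by rw [map_mul, map_inv, e, mul_inv_cancel]⟩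
  have h2 : (x : H) ∈ S.map H₁.subtype := by
    have := (S.map H₁.subtype).mul_mem h1.1 hs
    rwa [inv_mul_cancel_right] at this
  obtain ⟨y, hy, hyx⟩ := Subgroup.mem_map.1 h2
  have : y = x := Subtype.ext hyx
  exact this ▸ hy

theorem DT_nil_eq {X V : Type*} [MetricSpace X] [AddCommGroup V] :
    (DT (fun l => l = []) : ℕ → AddSubgroup (Co X V)) = TT := by
  funext j
  refine le_antisymm le_top fun f _ => ⟨1, one_pos, fun l hl _ h => ?_⟩
  subst h
  simp at hl

/-- Finiteness of the cohomology with coefficients `ℤ/2^(m+1)`. -/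
theorem finH_abs {X : Type*} [MetricSpace X] {n : ℕ} (h : FinC X n) (m : ℕ) :
    ∀ j ≤ n, FinH (dH : Co X (ZMod (2 ^ (m + 1))) →+ Co X (ZMod (2 ^ (m + 1)))) TT (DT All) j := by
  intro j hj
  have hT : Her (fun l : List X => l = []) := by
    rintro l w hw rfl
    exact List.eq_nil_of_subset_nil hw
  have h1 := finH_two_pow hT (j := j) (by rw [DT_nil_eq]; exact h j hj) m
  rwa [DT_nil_eq] at h1

/-- **Lifting.** Let `π : Y → X` be a surjective map from a compact metric space to a set, such that the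
homeomorphisms of `Y` over `X` form a finite group which acts faithfully on `H^n(Y; V)`, a finite
group. Let `L` be a group without proper subgroups of finite index which acts on `X`, such that every
element of `L` lifts to a homeomorphism of `Y`. Then the action of `L` lifts to `Y`. -/
theorem lift_action {Y : Type*} [MetricSpace Y] [CompactSpace Y] {V : Type*} [AddCommGroup V]
    {n : ℕ} (hfin : FinH (dH : Co Y V →+ Co Y V) TT (DT All) n) {X : Type*} (π : Y → X)
    (hK : {h : Y ≃ₜ Y | ∀ y, π (h y) = π y}.Finite)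
    (hKc : ∀ h : Y ≃ₜ Y, (∀ y, π (h y) = π y) → h ≠ 1 →
      ∃ z ∈ (ZZ dH TT (DT All) n : AddSubgroup (Co Y V)),
        cm (h : Y → Y) z - z ∉ BB dH TT (DT All) n)
    {L : Type*} [Group L] [MulAction L X] (hL : ∀ H : Subgroup L, H.FiniteIndex → H = ⊤)
    (hlift : ∀ g : L, ∃ h : Y ≃ₜ Y, ∀ y, π (h y) = g • π y) :
    ∃ T : L →* (Y ≃ₜ Y), ∀ g y, π (T g y) = g • π y := by
  classical
  let H : Subgroup (L × (Y ≃ₜ Y)) :=
    { carrier := {c | ∀ y, π (c.2 y) = c.1 • π y}
      one_mem' := fun y => by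
        change π y = (1 : L) • π y
        rw [one_smul]
      mul_mem' := by
        intro a b ha hb y
        change π (a.2 (b.2 y)) = (a.1 * b.1) • π y
        rw [ha, hb, mul_smul]
      inv_mem' := by
        intro a ha y
        change π (a.2.symm y) = a.1⁻¹ • π y
        have := ha (a.2.symm y)
        rw [Homeomorph.apply_symm_apply] at this
        rw [this, inv_smul_smul] }
  let p : H →* L := (MonoidHom.fst _ _).comp H.subtype
  have hp : Function.Surjective p := by
    intro a
    obtain ⟨h, hh⟩ := hlift a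
    exact ⟨⟨(a, h), hh⟩, rfl⟩
  have hker : {c : H | p c = 1}.Finite := by
    apply Set.Finite.of_finite_image (f := fun c : H => c.1.2)
    · apply hK.subset
      rintro h ⟨c, hc, rfl⟩ y
      have h1 := c.2 y
      have h2 : c.1.1 = 1 := hc
      rw [h2, one_smul] at h1
      exact h1
    · intro c hc c' hc' h
      have h1 : c.1.1 = 1 := hc
      have h2 : c'.1.1 = 1 := hc'
      apply Subtype.ext
      exact Prod.ext (h1.trans h2.symm) h
  obtain ⟨H₁, hH₁, hsur⟩ := exists_perfect p hp hker hL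
  let i1 : MulAction H₁ Y :=
    { smul := fun c y => c.1.1.2 y
      one_smul := fun y => rfl
      mul_smul := fun a b y => rfl }
  have : ContinuousConstSMul H₁ Y := ⟨fun c => c.1.1.2.continuous⟩
  have hinj : ∀ c : H₁, p c.1 = 1 → c = 1 := by
    intro c hc
    have h1 : ∀ y, π (c.1.1.2 y) = π y := by
      intro y
      have h2 := c.1.2 y
      have h3 : c.1.1.1 = 1 := hc
      rw [h3, one_smul] at h2
      exact h2
    by_contra hne
    have h2 : c.1.1.2 ≠ 1 := by
      intro h
      apply hne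
      apply Subtype.ext
      apply Subtype.ext
      exact Prod.ext hc h
    obtain ⟨z, hz, hz'⟩ := hKc _ h1 h2
    apply hz'
    have h3 := act_trivial (δ := (dH : Co Y V →+ _)) dH_dH hH₁
      (cx_top her_all) (fun g f => dH_smul g f) (fun g j f _ => trivial)
      (fun g j f hf => smul_mem_DT (fun l _ => trivial) hf) hfin c⁻¹ hz
    have h4 : c⁻¹ • z = cm (c.1.1.2 : Y → Y) z := by
      funext l
      rw [Co.smul_apply, inv_inv]
      rfl
    rwa [h4] at h3
  let q : H₁ →* L := p.comp H₁.subtype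
  have hq : Function.Bijective q := by
    constructor
    · rw [injective_iff_map_eq_one]
      exact hinj
    · intro a
      obtain ⟨h, hh, e⟩ := hsur a
      exact ⟨⟨h, hh⟩, e⟩
  let σ : L →* H₁ := (MulEquiv.ofBijective q hq).symm.toMonoidHom
  refine ⟨((MonoidHom.snd _ _).comp (H.subtype.comp H₁.subtype)).comp σ, fun g y => ?_⟩
  have h2 : q (σ g) = g := (MulEquiv.ofBijective q hq).apply_symm_apply g
  have h3 := (σ g).1.2 y
  have h4 : (σ g).1.1.1 = g := h2
  rw [h4] at h3
  exact h3

end Pool.Agent.AXS
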