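import Mathlib.Tactic
import Mathlib.Data.List.Basic

/-!
# Cochains as functions on lists

`dd` is the Alexander-Spanier coboundary, `pp` the prism operator, `DD` a natural contraction for
cochains on lists of colours.
-/

set_option autoImplicit false

namespace Pool.Agent.AXS

variable {S T : Type*} {V W : Type*} [AddCommGroup V] [AddCommGroup W]

/-- The coboundary `(dd f) (x₀ ... x_j) = Σ (-1)^i f (... x_i omitted ...)`. -/
def dd : (List S → V) → List S → V
  | _, [] => 0
  | f, x :: v => f v - dd (fun w => f (x :: w)) v

@[simp] theorem dd_nil (f : List S → V) : dd f [] = 0 := rfl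

theorem dd_cons (f : List S → V) (x : S) (v : List S) :
    dd f (x :: v) = f v - dd (fun w => f (x :: w)) v := rfl

theorem dd_congr (u : List S) : ∀ f g : List S → V,
    (∀ w : List S, w ⊆ u → w.length + 1 = u.length → f w = g w) → dd f u = dd g u := by
  induction u with
  | nil => intro f g _; rfl
  | cons x v ih =>
    intro f g h
    rw [dd_cons, dd_cons, h v (List.subset_cons_self x v) rfl,
      ih (fun w => f (x :: w)) (fun w => g (x :: w))]
    intro w hw hl
    apply h (x :: w)
    · intro y hy
      rcases List.mem_cons.1 hy with rfl | hy
      · exact List.mem_cons_self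
      · exact List.mem_cons_of_mem _ (hw hy)
    · simp only [List.length_cons, hl]

theorem dd_add (u : List S) : ∀ f g : List S → V, dd (fun w => f w + g w) u = dd f u + dd g u := by
  induction u with
  | nil => intro f g; simp
  | cons x v ih => intro f g; rw [dd_cons, dd_cons, dd_cons, ih]; abel

theorem dd_neg (u : List S) : ∀ f : List S → V, dd (fun w => - f w) u = - dd f u := by
  induction u with
  | nil => intro f; simp
  | cons x v ih => intro f; rw [dd_cons, dd_cons, ih]; abel

theorem dd_sub (u : List S) (f g : List S → V) :
    dd (fun w => f w - g w) u = dd f u - dd g u := by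
  simp only [sub_eq_add_neg]
  rw [dd_add, dd_neg]

theorem dd_zero (u : List S) : dd (fun _ => (0 : V)) u = 0 := by
  induction u with
  | nil => rfl
  | cons x v ih => rw [dd_cons, ih, sub_zero]

theorem dd_comp (a : V →+ W) (u : List S) : ∀ f : List S → V,
    dd (fun w => a (f w)) u = a (dd f u) := by
  induction u with
  | nil => intro f; simp
  | cons x v ih => intro f; rw [dd_cons, dd_cons, ih, map_sub]

theorem dd_map (g : S → T) (u : List S) : ∀ f : List T → V,
    dd (fun w => f (w.map g)) u = dd f (u.map g) := by
  induction u with
  | nil => intro f; rfl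
  | cons x v ih =>
    intro f
    rw [dd_cons, List.map_cons, dd_cons, ← ih (fun w => f (g x :: w))]
    rfl

theorem dd_dd (u : List S) : ∀ f : List S → V, dd (dd f) u = 0 := by
  induction u with
  | nil => intro f; rfl
  | cons x v ih =>
    intro f
    rw [dd_cons]
    have : dd (fun w => dd f (x :: w)) v = dd f v - dd (dd (fun w => f (x :: w))) v := by
      rw [← dd_sub]
      rfl
    rw [this, ih, sub_zero, sub_self]

/-- The prism operator between the identity and `g`. -/
def pp (g : S → S) : (List S → V) → List S → V
  | _, [] => 0
  | f, x :: v => f (x :: (x :: v).map g) - pp g (fun w => f (x :: w)) v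

theorem pp_cons (g : S → S) (f : List S → V) (x : S) (v : List S) :
    pp g f (x :: v) = f (x :: (x :: v).map g) - pp g (fun w => f (x :: w)) v := rfl

theorem pp_congr (g : S → S) (u : List S) : ∀ f f' : List S → V,
    (∀ w : List S, w ⊆ u ++ u.map g → w.length = u.length + 1 → f w = f' w) →
    pp g f u = pp g f' u := by
  induction u with
  | nil => intro f g _; rfl
  | cons x v ih =>
    intro f f' h
    rw [pp_cons, pp_cons]
    congr 1
    · apply h
      · intro y hy
        rcases List.mem_cons.1 hy with rfl | hy
        · exact List.mem_append_left _ List.mem_cons_self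
        · exact List.mem_append_right _ hy
      · simp
    · apply ih
      intro w hw hl
      apply h
      · intro y hy
        rcases List.mem_cons.1 hy with rfl | hy
        · exact List.mem_append_left _ List.mem_cons_self
        · have := hw hy
          simp only [List.mem_append, List.mem_cons, List.map_cons] at this ⊢
          tauto
      · simp only [List.length_cons, hl]

theorem pp_comp (g : S → S) (a : V →+ W) (u : List S) : ∀ f : List S → V,
    pp g (fun w => a (f w)) u = a (pp g f u) := by
  induction u with
  | nil => intro f; exact (map_zero a).symm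
  | cons x v ih => intro f; rw [pp_cons, pp_cons, ih, map_sub]

theorem pp_add (g : S → S) (u : List S) : ∀ f f' : List S → V,
    pp g (fun w => f w + f' w) u = pp g f u + pp g f' u := by
  induction u with
  | nil => intro f f'; exact (add_zero _).symm
  | cons x v ih => intro f f'; rw [pp_cons, pp_cons, pp_cons, ih]; abel

theorem pp_neg (g : S → S) (u : List S) : ∀ f : List S → V,
    pp g (fun w => - f w) u = - pp g f u := by
  induction u with
  | nil => intro f; exact neg_zero.symm
  | cons x v ih => intro f; rw [pp_cons, pp_cons, ih]; abel

theorem pp_sub (g : S → S) (u : List S) (f f' : List S → V) :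
    pp g (fun w => f w - f' w) u = pp g f u - pp g f' u := by
  simp only [sub_eq_add_neg]
  rw [pp_add, pp_neg]

/-- The prism operator commutes with maps which commute with `g`. -/
theorem pp_map (g : S → S) (b : S → S) (hb : ∀ x, b (g x) = g (b x)) (u : List S) :
    ∀ f : List S → V, pp g (fun w => f (w.map b)) u = pp g f (u.map b) := by
  induction u with
  | nil => intro f; rfl
  | cons x v ih =>
    intro f
    have e1 : (x :: (x :: v).map g).map b = b x :: (b x :: v.map b).map g := by
      simp only [List.map_cons, List.map_map, hb]
      congr 2
      apply List.map_congr_left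
      intro y _
      exact hb y
    have e2 : pp g f ((x :: v).map b) = f (b x :: (b x :: v.map b).map g) -
        pp g (fun w => f (b x :: w)) (v.map b) := rfl
    rw [pp_cons, e1, e2, ← ih (fun w => f (b x :: w))]
    rfl

/-- The prism identity. -/
theorem dd_pp (g : S → S) (u : List S) : ∀ f : List S → V,
    dd (pp g f) u + pp g (dd f) u = f (u.map g) - f u := by
  induction u with
  | nil => intro f; simp [pp]
  | cons x v ih =>
    intro f
    have e1 : dd (fun w => pp g f (x :: w)) v =
        dd (fun w => f (x :: g x :: w)) (v.map g) - dd (pp g (fun w => f (x :: w))) v := by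
      rw [← dd_map, ← dd_sub]
      rfl
    have e2 : pp g (fun w => dd f (x :: w)) v =
        pp g f v - pp g (dd (fun w => f (x :: w))) v := by
      rw [← pp_sub]
      rfl
    have e3 : dd f (x :: (x :: v).map g) = f (g x :: v.map g) - (f (x :: v.map g) -
        dd (fun w => f (x :: g x :: w)) (v.map g)) := by
      rw [dd_cons, List.map_cons, dd_cons]
    have e4 := ih (fun w => f (x :: w))
    rw [dd_cons, pp_cons, e1, e2, e3, List.map_cons]
    have e5 : dd (pp g fun w => f (x :: w)) v =
        f (x :: v.map g) - f (x :: v) - pp g (dd fun w => f (x :: w)) v := by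
      rw [← e4]; abel
    rw [e5]
    abel

/-! ### Colours -/

/-- Remove the only entry equal to `k`, with sign; `0` if there is not exactly one. -/
def ex (k : ℕ) : (List ℕ → V) → List ℕ → V
  | _, [] => 0
  | s, x :: v => if x = k then (if k ∈ v then 0 else s v) else - ex k (fun w => s (x :: w)) v

theorem ex_cons (k : ℕ) (s : List ℕ → V) (x : ℕ) (v : List ℕ) : ex k s (x :: v) =
    if x = k then (if k ∈ v then 0 else s v) else - ex k (fun w => s (x :: w)) v := rfl

theorem ex_add (k : ℕ) (u : List ℕ) : ∀ f g : List ℕ → V,
    ex k (fun w => f w + g w) u = ex k f u + ex k g u := by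
  induction u with
  | nil => intro f g; exact (add_zero _).symm
  | cons x v ih =>
    intro f g
    rw [ex_cons, ex_cons, ex_cons]
    split_ifs
    · exact (add_zero _).symm
    · rfl
    · rw [ih]; abel

theorem ex_neg (k : ℕ) (u : List ℕ) : ∀ f : List ℕ → V,
    ex k (fun w => - f w) u = - ex k f u := by
  induction u with
  | nil => intro f; exact neg_zero.symm
  | cons x v ih =>
    intro f
    rw [ex_cons, ex_cons]
    split_ifs
    · exact neg_zero.symm
    · rfl
    · rw [ih]

theorem ex_sub (k : ℕ) (u : List ℕ) (f g : List ℕ → V) :
    ex k (fun w => f w - g w) u = ex k f u - ex k g u := by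
  simp only [sub_eq_add_neg]
  rw [ex_add, ex_neg]

theorem ex_comp (k : ℕ) (a : V →+ W) (u : List ℕ) : ∀ f : List ℕ → V,
    ex k (fun w => a (f w)) u = a (ex k f u) := by
  induction u with
  | nil => intro f; exact (map_zero a).symm
  | cons x v ih =>
    intro f
    rw [ex_cons, ex_cons]
    split_ifs
    · exact (map_zero a).symm
    · rfl
    · rw [ih, map_neg]

/-- `ex k s u` only depends on the values of `s` on the lists `w ⊆ u` without `k`, and is `0` if
`k ∉ u`. -/
theorem ex_congr (k : ℕ) (u : List ℕ) : ∀ f g : List ℕ → V,
    (∀ w : List ℕ, w ⊆ u → w.length + 1 = u.length → k ∉ w → k ∈ u → f w = g w) →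
    ex k f u = ex k g u := by
  induction u with
  | nil => intro f g _; rfl
  | cons x v ih =>
    intro f g h
    rw [ex_cons, ex_cons]
    split_ifs with h1 h2
    · rfl
    · exact h v (List.subset_cons_self x v) rfl h2 (h1 ▸ List.mem_cons_self)
    · rw [ih (fun w => f (x :: w)) (fun w => g (x :: w))]
      intro w hw hl hk hk'
      apply h (x :: w)
      · intro y hy
        rcases List.mem_cons.1 hy with rfl | hy
        · exact List.mem_cons_self
        · exact List.mem_cons_of_mem _ (hw hy)
      · simp only [List.length_cons, hl]
      · simp only [List.mem_cons, not_or]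
        exact ⟨fun h3 => h1 h3.symm, hk⟩
      · exact List.mem_cons_of_mem _ hk'

theorem ex_of_notMem (k : ℕ) (u : List ℕ) (hk : k ∉ u) (f : List ℕ → V) : ex k f u = 0 := by
  rw [ex_congr k u f (fun _ => 0) (fun w _ _ _ h => absurd h hk)]
  have := ex_comp k (0 : V →+ V) u f
  simpa using this

/-- The coboundary of a function supported on the lists without `k`. -/
theorem dd_no (k : ℕ) (u : List ℕ) : ∀ h : List ℕ → V,
    dd (fun w => if k ∈ w then 0 else h w) u = (if k ∈ u then 0 else dd h u) + ex k h u := by
  induction u with
  | nil => intro h; simp [ex]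
  | cons x v ih =>
    intro h
    rw [dd_cons, ex_cons]
    by_cases hx : x = k
    · have h1 : (fun w => if k ∈ x :: w then (0 : V) else h (x :: w)) = fun _ => 0 := by
        funext w
        rw [if_pos (hx ▸ List.mem_cons_self)]
      rw [h1, dd_zero, if_pos hx, if_pos (show k ∈ x :: v from hx ▸ List.mem_cons_self), sub_zero,
        zero_add]
    · have h1 : (fun w => if k ∈ x :: w then (0 : V) else h (x :: w)) =
          fun w => if k ∈ w then 0 else (fun w => h (x :: w)) w := by
        funext w
        have : k ∈ x :: w ↔ k ∈ w := by
          simp only [List.mem_cons]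
          exact ⟨fun h3 => h3.resolve_left fun h4 => hx h4.symm, Or.inr⟩
        simp only [this]
      have h2 : k ∈ x :: v ↔ k ∈ v := by
        simp only [List.mem_cons]
        exact ⟨fun h3 => h3.resolve_left fun h4 => hx h4.symm, Or.inr⟩
      rw [h1, ih, if_neg hx]
      simp only [h2]
      split_ifs with h3
      · abel
      · rw [dd_cons]; abel

/-- `dd` and `ex` anticommute. -/
theorem dd_ex (k : ℕ) (u : List ℕ) : ∀ s : List ℕ → V,
    dd (ex k s) u = - ex k (dd s) u := by
  induction u with
  | nil => intro s; simp [ex]
  | cons x v ih =>
    intro s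
    rw [dd_cons, ex_cons]
    by_cases hx : x = k
    · have h1 : (fun w => ex k s (x :: w)) = fun w => if k ∈ w then 0 else s w := by
        funext w
        rw [ex_cons, if_pos hx]
      rw [h1, dd_no, if_pos hx]
      split_ifs <;> abel
    · have h1 : (fun w => ex k s (x :: w)) = fun w => - ex k (fun w => s (x :: w)) w := by
        funext w
        rw [ex_cons, if_neg hx]
      have h2 : ex k (fun w => dd s (x :: w)) v = ex k s v - ex k (dd fun w => s (x :: w)) v := by
        rw [← ex_sub]
        rfl
      have h3 : (dd (fun w => - ex k (fun w => s (x :: w)) w) v) =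
          - dd (ex k (fun w => s (x :: w))) v := dd_neg v _
      rw [h1, h3, ih, if_neg hx, h2]
      abel

/-- The cone with vertex `k` on the lists that contain `k`. -/
def hh (k : ℕ) (F : List ℕ → V) (u : List ℕ) : V := if k ∈ u then F (k :: u) else 0

theorem dd_hh (k : ℕ) (F : List ℕ → V) (u : List ℕ) :
    dd (hh k F) u = (if k ∈ u then F u - dd F (k :: u) else 0) - ex k (fun w => F (k :: w)) u := by
  have h1 : hh k F = fun w => F (k :: w) - (fun w => if k ∈ w then 0 else F (k :: w)) w := by
    funext w
    simp only [hh]
    split_ifs
    · rw [sub_zero]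
    · rw [sub_self]
  rw [h1, dd_sub, dd_no, dd_cons]
  split_ifs <;> abel

/-- The natural contraction on lists of colours `< k`, in large degrees. -/
def DD : ℕ → (List ℕ → V) → List ℕ → V
  | 0, _, _ => 0
  | k + 1, F, u => hh k F u + (if k ∈ u then 0 else DD k F u) +
      ex k (DD k (fun w => DD k F w - F (k :: w))) u

theorem DD_congr (k : ℕ) : ∀ (F G : List ℕ → V) (u : List ℕ),
    (∀ w : List ℕ, w ⊆ u → w.length = u.length + 1 → F w = G w) → DD k F u = DD k G u := by
  induction k with
  | zero => intro F G u _; rfl
  | succ k ih =>
    intro F G u h
    simp only [DD]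
    congr 1
    · congr 1
      · simp only [hh]
        split_ifs with hk
        · apply h
          · intro y hy
            rcases List.mem_cons.1 hy with rfl | hy
            · exact hk
            · exact hy
          · rfl
        · rfl
      · split_ifs with hk
        · rfl
        · exact ih F G u h
    · apply ex_congr
      intro w hw hl _ hk
      apply ih
      intro w' hw' hl'
      have hl2 : w'.length = u.length := by omega
      have hw2 : w' ⊆ u := fun y hy => hw (hw' hy)
      rw [ih F G w' (fun w'' hw'' hl'' => h w'' (fun y hy => hw2 (hw'' hy)) (by omega))]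
      rw [h (k :: w')]
      · intro y hy
        rcases List.mem_cons.1 hy with rfl | hy
        · exact hk
        · exact hw2 hy
      · simp only [List.length_cons]; omega

theorem DD_sub (k : ℕ) : ∀ (F G : List ℕ → V) (u : List ℕ),
    DD k (fun w => F w - G w) u = DD k F u - DD k G u := by
  induction k with
  | zero => intro F G u; exact (sub_self _).symm
  | succ k ih =>
    intro F G u
    simp only [DD]
    have h1 : (fun w => DD k (fun w => F w - G w) w - (F (k :: w) - G (k :: w))) =
        fun w => (fun w => DD k F w - F (k :: w)) w - (fun w => DD k G w - G (k :: w)) w := by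
      funext w
      rw [ih]
      dsimp only
      abel
    rw [h1]
    have h2 : DD k (fun w => (fun w => DD k F w - F (k :: w)) w -
        (fun w => DD k G w - G (k :: w)) w) = fun w => DD k (fun w => DD k F w - F (k :: w)) w -
        DD k (fun w => DD k G w - G (k :: w)) w := by
      funext w
      rw [ih]
    rw [h2, ex_sub, ih]
    simp only [hh]
    split_ifs <;> abel

theorem DD_comp (k : ℕ) (a : V →+ W) : ∀ (F : List ℕ → V) (u : List ℕ),
    DD k (fun w => a (F w)) u = a (DD k F u) := by
  induction k with
  | zero => intro F u; exact (map_zero a).symm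
  | succ k ih =>
    intro F u
    simp only [DD]
    have h1 : (fun w => DD k (fun w => a (F w)) w - a (F (k :: w))) =
        fun w => a (DD k F w - F (k :: w)) := by
      funext w
      rw [ih, map_sub]
    have h2 : DD k (fun w => a ((fun w => DD k F w - F (k :: w)) w)) =
        fun w => a (DD k (fun w => DD k F w - F (k :: w)) w) := by
      funext w
      rw [ih]
    rw [h1, h2, ex_comp, ih, map_add, map_add]
    congr 2
    · simp only [hh]; split_ifs <;> simp
    · split_ifs <;> simp

/-- A cocycle of degree `≥ k` on the lists of colours `< k` is the coboundary of its contraction. -/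
theorem dd_DD (k : ℕ) : ∀ (F : List ℕ → V) (u : List ℕ), (∀ x ∈ u, x < k) → k < u.length →
    (∀ w : List ℕ, w ⊆ u → w.length = u.length + 1 → dd F w = 0) → dd (DD k F) u = F u := by
  induction k with
  | zero =>
    intro F u h0 h1 _
    exfalso
    obtain ⟨x, hx⟩ := List.exists_mem_of_length_pos h1
    exact absurd (h0 x hx) (Nat.not_lt_zero x)
  | succ k ih =>
    intro F u h0 h1 h2
    have e0 : DD (k + 1) F = fun w => (hh k F w + (fun w => if k ∈ w then 0 else DD k F w) w) +
        ex k (DD k (fun w => DD k F w - F (k :: w))) w := by
      funext w; rfl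
    rw [e0, dd_add, dd_add, dd_hh, dd_no, dd_ex]
    by_cases hk : k ∈ u
    · rw [if_pos hk, if_pos hk, h2 (k :: u)]
      · have e1 : ex k (dd (DD k fun w => DD k F w - F (k :: w))) u =
            ex k (fun w => DD k F w - F (k :: w)) u := by
          apply ex_congr
          intro v hv hl hkv _
          have hc : ∀ w : List ℕ, w ⊆ v → ∀ x ∈ w, x < k := by
            intro w hw x hx
            have h3 := h0 x (hv (hw hx))
            have h4 : x ≠ k := by
              rintro rfl
              exact hkv (hw hx)
            omega
          apply ih
          · exact hc v (fun _ h => h)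
          · omega
          · intro w hw hlw
            rw [dd_sub, ih F w (hc w hw) (by omega)]
            · have h5 := h2 (k :: w) (by
                intro y hy
                rcases List.mem_cons.1 hy with rfl | hy
                · exact hk
                · exact hv (hw hy)) (by simp only [List.length_cons]; omega)
              rw [dd_cons] at h5
              exact h5
            · intro w' hw' hl'
              exact h2 w' (fun y hy => hv (hw (hw' hy))) (by omega)
        rw [e1, ex_sub]
        abel
      · intro y hy
        rcases List.mem_cons.1 hy with rfl | hy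
        · exact hk
        · exact hy
      · rfl
    · rw [if_neg hk, if_neg hk, ex_of_notMem k u hk, ex_of_notMem k u hk, ex_of_notMem k u hk,
        ih F u]
      · abel
      · intro x hx
        have h3 := h0 x hx
        have h4 : x ≠ k := by
          rintro rfl
          exact hk hx
        omega
      · omega
      · exact h2

end Pool.Agent.AXS
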