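import Pool.Agent.AXS.Fin

/-!
# Mayer-Vietoris for sets of lists

The cochains which vanish on a union of sets of lists are the intersection, those which vanish on the
intersection are the sum of the subgroups.
-/

set_option autoImplicit false

open Set Metric MeasureTheory

namespace Pool.Agent.AXS

theorem DT_or20 {X : Type*} [MetricSpace X] {V : Type*} [AddCommGroup V] (T T' : List X → Prop)
    (j : ℕ) : (DT (fun l => T l ∨ T' l) j : AddSubgroup (Co X V)) = DT T j ⊓ DT T' j := by
  apply le_antisymm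
  · exact le_inf (DT_mono (fun l h => Or.inl h) j) (DT_mono (fun l h => Or.inr h) j)
  · rintro f ⟨⟨ε, hε, h⟩, ⟨ε', hε', h'⟩⟩
    refine ⟨min ε ε', lt_min hε hε', fun l hl hs hT => ?_⟩
    rcases hT with hT | hT
    · exact h l hl (fun x hx y hy => (hs x hx y hy).trans_le (min_le_left _ _)) hT
    · exact h' l hl (fun x hx y hy => (hs x hx y hy).trans_le (min_le_right _ _)) hT

theorem DT_and20 {X : Type*} [MetricSpace X] {V : Type*} [AddCommGroup V] (T T' : List X → Prop)
    (j : ℕ) : (DT (fun l => T l ∧ T' l) j : AddSubgroup (Co X V)) = DT T j ⊔ DT T' j := by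
  classical
  apply le_antisymm
  · rintro f ⟨ε, hε, h⟩
    refine AddSubgroup.mem_sup.2 ⟨fun l => if T l then 0 else f l, ⟨1, one_pos, fun l _ _ hT => ?_⟩,
      fun l => if T l then f l else 0, ⟨ε, hε, fun l hl hs hT' => ?_⟩, ?_⟩
    · exact if_pos hT
    · show (if T l then f l else 0) = 0
      split_ifs with hT
      · exact h l hl hs ⟨hT, hT'⟩
      · rfl
    · funext l
      show (if T l then 0 else f l) + (if T l then f l else 0) = f l
      split_ifs <;> simp
  · exact sup_le (DT_mono (fun l h => h.1) j) (DT_mono (fun l h => h.2) j)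

theorem finH_congr20 {X : Type*} [MetricSpace X] {V : Type*} [AddCommGroup V]
    {T T' : List X → Prop} (hT : ∀ l, T l ↔ T' l) {j : ℕ}
    (h : FinH (dH : Co X V →+ Co X V) TT (DT T) j) :
    FinH (dH : Co X V →+ Co X V) TT (DT T') j := by
  have : T = T' := funext fun l => propext (hT l)
  rwa [this] at h

theorem finH_union {X : Type*} [MetricSpace X] {B : Type*} [Group B] [MulAction B X]
    {V : Type*} [AddCommGroup V] {n : ℕ}
    (h : ∀ K : Set B, ∀ j ≤ n, FinH (dH : Co X V →+ Co X V) TT (DT (Fx K)) j)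
    (𝒮 : Finset (Set B)) :
    ∀ j ≤ n, FinH (dH : Co X V →+ Co X V) TT (DT (fun l => ∃ K ∈ 𝒮, Fx K l)) j := by
  classical
  suffices H : ∀ (m : ℕ) (𝒮 : Finset (Set B)), 𝒮.card ≤ m → ∀ j ≤ n,
      FinH (dH : Co X V →+ Co X V) TT (DT (fun l => ∃ K ∈ 𝒮, Fx K l)) j from
    H _ 𝒮 le_rfl
  intro m
  induction m with
  | zero =>
    intro 𝒮 hm j _
    have h0 : 𝒮 = ∅ := Finset.card_eq_zero.1 (Nat.le_zero.1 hm)
    subst h0
    refine ⟨{0}, Set.finite_singleton 0, fun s hs => ?_, fun z _ => ⟨0, rfl, ?_⟩⟩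
    · rw [Set.mem_singleton_iff.1 hs]
      exact AddSubgroup.zero_mem _
    · apply D_le_BB
      exact ⟨1, one_pos, fun l _ _ hT => by
        obtain ⟨K, hK, _⟩ := hT
        exact absurd hK (Finset.notMem_empty K)⟩
  | succ m ih =>
    intro 𝒮 hm j hj
    rcases 𝒮.eq_empty_or_nonempty with rfl | ⟨K, hK⟩
    · exact ih ∅ (by simp) j hj
    · set 𝒮' := 𝒮.erase K with h𝒮'
      have hc : 𝒮'.card ≤ m := by
        rw [h𝒮', Finset.card_erase_of_mem hK]
        omega
      have hT₂ : Her (fun l : List X => ∃ K ∈ 𝒮', Fx K l) := fun l w hw ⟨L, hL, hl⟩ =>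
        ⟨L, hL, her_Fx L l w hw hl⟩
      have key := finH_mv (δ := (dH : Co X V →+ Co X V)) dH_dH (N := TT) (D₁ := DT (Fx K))
        (D₂ := DT (fun l : List X => ∃ K ∈ 𝒮', Fx K l)) (cx_top (her_Fx K)) (cx_top hT₂)
        (h K j hj) (ih 𝒮' hc j hj) (fun i hi => by
          have e : (fun k => (DT (Fx K) k : AddSubgroup (Co X V)) ⊔
              DT (fun l : List X => ∃ K ∈ 𝒮', Fx K l) k) =
              DT (fun l : List X => ∃ L ∈ 𝒮'.image (fun L => K ∪ L), Fx L l) := by
            funext k
            rw [← DT_and20]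
            congr 1
            funext l
            apply propext
            constructor
            · rintro ⟨h1, L, hL, h2⟩
              refine ⟨K ∪ L, Finset.mem_image_of_mem _ hL, fun b hb => ?_⟩
              rcases hb with hb | hb
              · exact h1 b hb
              · exact h2 b hb
            · rintro ⟨L', hL', h1⟩
              obtain ⟨L, hL, rfl⟩ := Finset.mem_image.1 hL'
              exact ⟨fun b hb => h1 b (Or.inl hb), L, hL, fun b hb => h1 b (Or.inr hb)⟩
          rw [e]
          exact ih _ (Finset.card_image_le.trans hc) i (by omega))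
      have e2 : (fun k => (DT (Fx K) k : AddSubgroup (Co X V)) ⊓
          DT (fun l : List X => ∃ K ∈ 𝒮', Fx K l) k) =
          DT (fun l : List X => ∃ K ∈ 𝒮, Fx K l) := by
        funext k
        rw [← DT_or20]
        congr 1
        funext l
        apply propext
        constructor
        · rintro (h1 | ⟨L, hL, h2⟩)
          · exact ⟨K, hK, h1⟩
          · exact ⟨L, Finset.mem_of_mem_erase hL, h2⟩
        · rintro ⟨L, hL, h1⟩
          by_cases hLK : L = K
          · subst hLK
            exact Or.inl h1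
          · exact Or.inr ⟨L, Finset.mem_erase.2 ⟨hLK, hL⟩, h1⟩
      rwa [e2] at key

/-- The relative complex of the lists fixed by some `b ≠ 1`. -/
theorem finH_rel {X : Type*} [MetricSpace X] {B : Type*} [Group B] [Finite B] [MulAction B X]
    {V : Type*} [AddCommGroup V] {n : ℕ}
    (h : ∀ K : Set B, ∀ j ≤ n, FinH (dH : Co X V →+ Co X V) TT (DT (Fx K)) j) :
    ∀ j ≤ n, FinH (dH : Co X V →+ Co X V) (DT (Zp B)) (DT All) j := by
  classical
  intro j hj
  have : Fintype B := Fintype.ofFinite B
  refine finH_sub (δ := (dH : Co X V →+ Co X V)) dH_dH (N := TT) (cx_top her_Zp)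
    (cx_rel her_Zp her_all (fun _ _ => trivial)) (fun i hi => ?_) ?_
  · have h1 := finH_union h
      ((Finset.univ.filter (fun b : B => b ≠ 1)).image (fun b => ({b} : Set B))) i (by omega)
    refine finH_congr20 (fun l => ?_) h1
    constructor
    · rintro ⟨K, hK, hl⟩
      obtain ⟨b, hb, rfl⟩ := Finset.mem_image.1 hK
      exact ⟨b, (Finset.mem_filter.1 hb).2, hl b rfl⟩
    · rintro ⟨b, hb, hl⟩
      refine ⟨{b}, Finset.mem_image.2 ⟨b, Finset.mem_filter.2 ⟨Finset.mem_univ b, hb⟩, rfl⟩,
        fun c hc => ?_⟩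
      rw [Set.mem_singleton_iff.1 hc]
      exact hl
  · refine finH_congr20 (T := Fx (∅ : Set B)) (fun l => ?_) (h ∅ j hj)
    exact ⟨fun _ => trivial, fun _ b hb => absurd hb (Set.notMem_empty b)⟩

end Pool.Agent.AXS
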