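import Pool.Agent.AXS.Norm0
import Pool.Agent.AXS.Expo

/-! # The norm part, abstractly -/

set_option autoImplicit false

namespace Pool.Agent.AXS

variable {F : Type*} [AddCommGroup F]

theorem killed {r n e₀ : ℕ} [DistribMulAction (Fin r → Multiplicative (ZMod 2)) F]
    {δ : F →+ F} (hδ : ∀ f, δ (δ f) = 0) {N D : ℕ → AddSubgroup F} (hC : Cx δ N D)
    (hδB : ∀ (b : Fin r → Multiplicative (ZMod 2)) f, δ (b • f) = b • δ f)
    (hN : ∀ (b : Fin r → Multiplicative (ZMod 2)) j, ∀ f ∈ N j, b • f ∈ N j)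
    (hD : ∀ (b : Fin r → Multiplicative (ZMod 2)) j, ∀ f ∈ D j, b • f ∈ D j)
    (hac : ∀ j m, 2 ≤ m → KL (Fin r → Multiplicative (ZMod 2)) 1 m (N j) (D j))
    (htriv : ∀ j ≤ n, ∀ (b : Fin r → Multiplicative (ZMod 2)), ∀ z ∈ ZZ δ N D j,
      b • z - z ∈ BB δ N D j)
    (h₀ : (ZZ δ N D 0 ≤ D 0 ∧ e₀ = 1) ∨ e₀ = 2)
    (hsur : ∀ g ∈ N n, (∀ b : Fin r → Multiplicative (ZMod 2), b • g - g ∈ D n) →
      ∃ y ∈ N n, (∑ b : Fin r → Multiplicative (ZMod 2), b • y) - g ∈ D n)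
    (hvan : ∀ z ∈ N (n + 1), δ z ∈ D (n + 2) →
      (∑ b : Fin r → Multiplicative (ZMod 2), b • z) ∈ D (n + 1) →
      ∃ k ∈ N n, (∑ b : Fin r → Multiplicative (ZMod 2), b • k) ∈ D n ∧ z - δ k ∈ D (n + 1))
    (hcard : ∀ f : F, 2 ^ r • f = 0) (hn : 1 ≤ n) {w : F} (hw : w ∈ ZZ δ N D n) :
    (e₀ * 2 ^ (n - 1)) • w ∈ BB δ N D n := by
  have h1 : ∀ m, 2 ≤ m → KL (Fin r → Multiplicative (ZMod 2)) e₀ m (ZZ δ N D 0) (D 0) := by
    intro m hm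
    rcases h₀ with ⟨h0, rfl⟩ | rfl
    · exact KL_one_of_le h0 m
    · exact KL_trivial (D_le_ZZ hC 0) (fun b f hf => htriv 0 (Nat.zero_le n) b f hf)
        (fun b f hf => hD b 0 f hf) hm
  refine killed_of_invariant hδ hC hδB (fun b z hz => htriv n le_rfl b z hz) hsur hvan ?_ hw ?_
  · rw [card_pow_two]
    exact hcard
  · exact exists_invariant hδ hC hδB hN hD hac htriv h1 hn hw

end Pool.Agent.AXS
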