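import Pool.Agent.AXS.Fin

/-!
# The Smith step

`0 → II → TT → II ⊕ C(T^c) → 0` is exact for functions on lists, by downward induction on the degree
the cohomology of `C(T^c)` is finite.
-/

set_option autoImplicit false

open Set Metric MeasureTheory

namespace Pool.Agent.AXS

section Smith91

variable {X : Type*} {B : Type*} [Group B] [MulAction B X] {V : Type*} [AddCommGroup V]

/-- The lists of `T` fixed by `c`. -/
def Tc91 (c : B) (T : List X → Prop) : List X → Prop := fun l => T l ∧ ∀ x ∈ l, c • x = x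

theorem map_fix91 {c : B} {l : List X} (h : ∀ x ∈ l, c • x = x) :
    l.map (fun x => c⁻¹ • x) = l := by
  conv_rhs => rw [← List.map_id l]
  apply List.map_congr_left
  intro x hx
  change c⁻¹ • x = x
  rw [inv_smul_eq_iff]
  exact (h x hx).symm

theorem her_Tc91 {c : B} {T : List X → Prop} (hT : Her T) : Her (Tc91 c T) :=
  fun l w hw h => ⟨hT l w hw h.1, fun x hx => h.2 x (hw hx)⟩

theorem inv_of_sq91 {c : B} (hc : c * c = 1) : c⁻¹ = c := inv_eq_of_mul_eq_one_left hc

theorem smul_smul91 {c : B} (hc : c * c = 1) (f : Co X V) : c • c • f = f := by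
  rw [← mul_smul, hc, one_smul]

theorem two_co91 (hV : ∀ v : V, v + v = 0) (f : Co X V) : f + f = 0 := by
  funext l
  exact hV (f l)

theorem her_fixset91 {c : B} {l : List X} :
    (∀ x ∈ l.map (fun x => c⁻¹ • x), c • x = x) ↔ ∀ x ∈ l, c • x = x := by
  constructor
  · intro h x hx
    have h1 := h (c⁻¹ • x) (List.mem_map.2 ⟨x, hx, rfl⟩)
    rw [smul_inv_smul] at h1
    exact (eq_inv_smul_iff.1 h1)
  · intro h x hx
    obtain ⟨y, hy, rfl⟩ := List.mem_map.1 hx
    rw [smul_inv_smul, eq_inv_smul_iff]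
    exact h y hy

variable [MetricSpace X]

theorem II_le_Tc91 (hV : ∀ v : V, v + v = 0) {c : B} {T : List X → Prop} (j : ℕ) :
    (II c T j : AddSubgroup (Co X V)) ≤ DT (Tc91 c T) j := by
  rintro f ⟨g, ε, hε, h⟩
  refine ⟨ε, hε, fun l hl hs hT => ?_⟩
  have h1 := h l hl hs hT.1
  rw [Co.sub_apply, Co.add_apply, Co.smul_apply, map_fix91 hT.2, hV, sub_zero] at h1
  exact h1

theorem DT_le_II91 {c : B} {T : List X → Prop} (j : ℕ) :
    (DT T j : AddSubgroup (Co X V)) ≤ II c T j := by
  intro f hf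
  refine ⟨0, ?_⟩
  rw [smul_zero, add_zero, sub_zero]
  exact hf

/-- The membership test for the image of `1 + c`. -/
theorem mem_II91 (hV : ∀ v : V, v + v = 0) {c : B} (hc : c * c = 1) {T : List X → Prop} {j : ℕ}
    {f : Co X V} (h1 : f ∈ DT (Tc91 c T) j) (h2 : f + c • f ∈ DT T j) : f ∈ II c T j := by
  classical
  obtain ⟨ε₁, hε₁, h1⟩ := h1
  obtain ⟨ε₂, hε₂, h2⟩ := h2
  let r : List X → List X → Prop := WellOrderingRel
  let m : List X → List X := fun l => l.map (fun x => c⁻¹ • x)
  have hmm : ∀ l, m (m l) = l := by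
    intro l
    have : m (m l) = l.map (fun x => x) := by
      change (l.map (fun x => c⁻¹ • x)).map (fun x => c⁻¹ • x) = _
      rw [List.map_map]
      apply List.map_congr_left
      intro x _
      change c⁻¹ • c⁻¹ • x = x
      rw [← mul_smul, inv_of_sq91 hc, hc, one_smul]
    rw [this]
    exact List.map_id' l
  let g : Co X V := fun l => if r l (m l) then f l else 0
  refine ⟨g, min ε₁ ε₂, lt_min hε₁ hε₂, fun l hl hs hT => ?_⟩
  have hs1 : Sm ε₁ l := fun x hx y hy => (hs x hx y hy).trans_le (min_le_left _ _)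
  have hs2 : Sm ε₂ l := fun x hx y hy => (hs x hx y hy).trans_le (min_le_right _ _)
  have h3 : f l + f (m l) = 0 := h2 l hl hs2 hT
  have h4 : f (m l) = f l := by
    have := hV (f l)
    rw [← h3] at this
    exact (add_left_cancel this).symm
  rw [Co.sub_apply, Co.add_apply, Co.smul_apply]
  change f l - (g l + g (m l)) = 0
  have hg1 : g l = if r l (m l) then f l else 0 := rfl
  have hg2 : g (m l) = if r (m l) l then f (m l) else 0 := by
    change (if r (m l) (m (m l)) then f (m l) else 0) = _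
    rw [hmm]
  rw [hg1, hg2]
  rcases trichotomous_of r l (m l) with h | h | h
  · have h' : ¬ r (m l) l := fun h' => (asymm_of r h) h'
    rw [if_pos h, if_neg h', add_zero, sub_self]
  · have hirr : ¬ r l l := irrefl_of r l
    have hfix : ∀ x ∈ l, c • x = x := by
      have e : l.map (fun x => c⁻¹ • x) = l.map (fun x => x) := by
        rw [List.map_id' l]; exact h.symm
      intro x hx
      have := (List.map_inj_left.1 e) x hx
      rw [inv_smul_eq_iff] at this
      exact this.symm
    have hf0 : f l = 0 := h1 l hl hs1 ⟨hT, hfix⟩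
    rw [← h, if_neg hirr, hf0]
    simp
  · have h' : ¬ r l (m l) := fun h' => (asymm_of r h) h'
    rw [if_neg h', if_pos h, zero_add, h4, sub_self]

theorem cx_II91 {c : B} {T : List X → Prop} (hT : Her T) :
    Cx (dH : Co X V →+ Co X V) TT (II c T) := by
  refine ⟨fun _ => le_top, fun _ _ _ => trivial, ?_⟩
  rintro j f ⟨g, hg⟩
  refine ⟨dH g, ?_⟩
  rw [← dH_smul, ← map_add, ← map_sub]
  exact dH_mem_DT hT j _ hg

theorem cx_II_DT91 {c : B} {T : List X → Prop} (hT : Her T) :
    Cx (dH : Co X V →+ Co X V) (II c T) (DT T) :=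
  ⟨fun j => DT_le_II91 j, (cx_II91 hT).dD, fun j f hf => dH_mem_DT hT j f hf⟩

/-- Second half: the fixed part. -/
theorem smith_fix91 (hV : ∀ v : V, v + v = 0) {c : B} (hc : c * c = 1) {T : List X → Prop}
    {j : ℕ} (h : FinH (dH : Co X V →+ Co X V) TT (II c T) j) :
    FinH (dH : Co X V →+ Co X V) TT (DT (Tc91 c T)) j := by
  classical
  obtain ⟨S, hS, hSZ, hSr⟩ := h
  refine ⟨S, hS, fun s hs => ⟨trivial, II_le_Tc91 hV _ (hSZ s hs).2⟩, ?_⟩
  intro z hz
  let z' : Co X V := fun l => if ∀ x ∈ l, c • x = x then z l else 0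
  have hz'1 : ∀ l, (∀ x ∈ l, c • x = x) → z' l = z l := fun l hl => if_pos hl
  have hinv : c • z' = z' := by
    funext l
    rw [Co.smul_apply]
    by_cases hl : ∀ x ∈ l, c • x = x
    · rw [map_fix91 hl]
    · have h1 : z' l = 0 := if_neg hl
      have h2 : z' (l.map (fun x => c⁻¹ • x)) = 0 := if_neg (fun h => hl (her_fixset91.1 h))
      rw [h1, h2]
  have hmem : dH z' ∈ II c T (j + 1) := by
    apply mem_II91 hV hc
    · obtain ⟨ε, hε, h⟩ := hz.2
      refine ⟨ε, hε, fun l hl hs hTl => ?_⟩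
      rw [← h l hl hs hTl, dH_apply, dH_apply]
      apply dd_congr
      intro w hw _
      exact hz'1 w (fun x hx => hTl.2 x (hw hx))
    · rw [← dH_smul, hinv, two_co91 hV]
      exact (DT T (j + 1)).zero_mem
  obtain ⟨s, hs, hzs⟩ := hSr z' ⟨trivial, hmem⟩
  refine ⟨s, hs, ?_⟩
  have h1 : z' - s ∈ BB (dH : Co X V →+ Co X V) TT (DT (Tc91 c T)) j :=
    BB_le_of (fun _ => le_refl _) (fun j => II_le_Tc91 hV j) j hzs
  have h2 : z - z' ∈ (DT (Tc91 c T) j : AddSubgroup (Co X V)) := by
    refine ⟨1, one_pos, fun l _ _ hTl => ?_⟩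
    rw [Co.sub_apply, hz'1 l hTl.2, sub_self]
  have e : z - s = (z - z') + (z' - s) := by abel
  rw [e]
  exact (BB (dH : Co X V →+ Co X V) TT (DT (Tc91 c T)) j).add_mem (D_le_BB j h2) h1

variable [CompactSpace X] [ContinuousConstSMul B X]

theorem smul_DT91 {c : B} (hc : c * c = 1) {T : List X → Prop}
    (hTc : ∀ l : List X, T l → T (l.map (fun x => c • x))) {j : ℕ} {f : Co X V}
    (hf : f ∈ DT T j) : c • f ∈ DT T j := by
  refine smul_mem_DT ?_ hf
  rw [inv_of_sq91 hc]
  exact hTc

/-- `1 + c` kills the image of `1 + c`. -/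
theorem kill_II91 (hV : ∀ v : V, v + v = 0) {c : B} (hc : c * c = 1) {T : List X → Prop}
    (hTc : ∀ l : List X, T l → T (l.map (fun x => c • x))) {j : ℕ} {f : Co X V}
    (hf : f ∈ II c T j) : f + c • f ∈ DT T j := by
  obtain ⟨g, hg⟩ := hf
  have e : f + c • f = (f - (g + c • g)) + c • (f - (g + c • g)) := by
    rw [smul_sub, smul_add, smul_smul91 hc]
    have h1 := two_co91 hV (g + c • g)
    have h2 : f - (g + c • g) + (c • f - (c • g + g)) = f + c • f - ((g + c • g) + (g + c • g)) := by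
      abel
    rw [h2, h1, sub_zero]
  rw [e]
  exact (DT T j).add_mem hg (smul_DT91 hc hTc hg)

/-- First half: the image of `1 + c`. -/
theorem smith_im91 (hV : ∀ v : V, v + v = 0) {c : B} (hc : c * c = 1) {T : List X → Prop}
    (hT : Her T) (hTc : ∀ l : List X, T l → T (l.map (fun x => c • x))) {j : ℕ}
    (h : FinH (dH : Co X V →+ Co X V) TT (II c T) j) :
    FinH (dH : Co X V →+ Co X V) (II c T) (DT T) j := by
  classical
  obtain ⟨S, hS, hSZ, hSr⟩ := h
  refine ⟨(fun s => s + c • s) '' S, hS.image _, ?_, ?_⟩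
  · rintro _ ⟨s, hs, rfl⟩
    refine ⟨⟨s, ?_⟩, ?_⟩
    · rw [sub_self]; exact (DT T j).zero_mem
    · change dH (s + c • s) ∈ DT T (j + 1)
      rw [map_add, dH_smul]
      exact kill_II91 hV hc hTc (hSZ s hs).2
  · rintro z ⟨⟨g, hg⟩, hdz⟩
    let g' : Co X V := fun l => if ∀ x ∈ l, c • x = x then 0 else g l
    have hg'0 : ∀ l, (∀ x ∈ l, c • x = x) → g' l = 0 := fun l hl => if_pos hl
    have hg'1 : ∀ l, ¬ (∀ x ∈ l, c • x = x) → g' l = g l := fun l hl => if_neg hl
    have hgg : g' + c • g' = g + c • g := by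
      funext l
      rw [Co.add_apply, Co.add_apply, Co.smul_apply, Co.smul_apply]
      by_cases hl : ∀ x ∈ l, c • x = x
      · rw [map_fix91 hl, hg'0 l hl, hV, hV]
      · rw [hg'1 l hl, hg'1 _ (fun h => hl (her_fixset91.1 h))]
    have hmem : dH g' ∈ II c T (j + 1) := by
      apply mem_II91 hV hc
      · refine ⟨1, one_pos, fun l hl _ hTl => ?_⟩
        rw [dH_apply, dd_congr l g' (fun _ => 0), dd_zero]
        intro w hw _
        exact hg'0 w (fun x hx => hTl.2 x (hw hx))
      · rw [← dH_smul, ← map_add, hgg]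
        have e : dH (g + c • g) = dH z - dH (z - (g + c • g)) := by rw [map_sub]; abel
        rw [e]
        exact (DT T (j + 1)).sub_mem hdz (dH_mem_DT hT j _ hg)
    obtain ⟨s, hs, hgs⟩ := hSr g' ⟨trivial, hmem⟩
    refine ⟨s + c • s, ⟨s, hs, rfl⟩, ?_⟩
    have e : z - (s + c • s) = (z - (g + c • g)) + ((g' - s) + c • (g' - s)) := by
      rw [← hgg, smul_sub]; abel
    rw [e]
    refine (BB (dH : Co X V →+ Co X V) (II c T) (DT T) j).add_mem (D_le_BB j hg) ?_
    cases j with
    | zero => exact kill_II91 hV hc hTc hgs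
    | succ j =>
      obtain ⟨k, _, hk⟩ := mem_BB_succ.1 hgs
      refine mem_BB_succ.2 ⟨k + c • k, ⟨k, ?_⟩, ?_⟩
      · rw [sub_self]; exact (DT T j).zero_mem
      · have e2 : g' - s + c • (g' - s) - dH (k + c • k) =
            (g' - s - dH k) + c • (g' - s - dH k) := by
          rw [map_add, dH_smul, smul_sub (c) (g' - s) (dH k)]
          abel
        rw [e2]
        exact kill_II91 hV hc hTc hk

end Smith91

theorem smith_step {X : Type*} [MetricSpace X] [CompactSpace X] {B : Type*} [Group B] [MulAction B X]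
    [ContinuousConstSMul B X] {V : Type*} [AddCommGroup V] (hV : ∀ v : V, v + v = 0) {c : B}
    (hc : c * c = 1) {T : List X → Prop} (hT : Her T)
    (hTc : ∀ l : List X, T l → T (l.map (fun x => c • x))) {n : ℕ}
    (htop : FinH (dH : Co X V →+ Co X V) (II c T) (DT T) (n + 1))
    (h : ∀ j ≤ n, FinH (dH : Co X V →+ Co X V) TT (DT T) j) :
    ∀ j ≤ n, FinH (dH : Co X V →+ Co X V) TT (DT (fun l => T l ∧ ∀ x ∈ l, c • x = x)) j := by
  have key : ∀ i j, i + j = n → FinH (dH : Co X V →+ Co X V) TT (II c T) j ∧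
      FinH (dH : Co X V →+ Co X V) (II c T) (DT T) j := by
    intro i
    induction i with
    | zero =>
      intro j hj
      have e : j = n := by omega
      subst e
      have h1 := finH_quot dH_dH (cx_II91 hT) (cx_II_DT91 hT) (h j le_rfl) htop
      exact ⟨h1, smith_im91 hV hc hT hTc h1⟩
    | succ i ih =>
      intro j hj
      have h0 := (ih (j + 1) (by omega)).2
      have h1 := finH_quot dH_dH (cx_II91 hT) (cx_II_DT91 hT) (h j (by omega)) h0
      exact ⟨h1, smith_im91 hV hc hT hTc h1⟩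
  intro j hj
  exact smith_fix91 hV hc (key (n - j) j (by omega)).1

end Pool.Agent.AXS
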