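import Pool.Agent.AXS.Free
import Pool.Agent.AXS.Theta
import Pool.Agent.AXS.MV
import Pool.Agent.AXS.Coef
import Pool.Agent.AXS.Smith
import Pool.Agent.AXS.Norm
import Pool.Agent.AXS.Out

/-!
# Elementary abelian groups inside groups without finite quotients

`B = (ℤ/2)^r` acts on the compact space `X` through a group `L` without subgroups of finite index.
-/

set_option autoImplicit false

open Set Metric MeasureTheory

namespace Pool.Agent.AXS

/-- The mod 2 cohomology of `X` is finite in degrees `≤ n`. -/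
def FinC (X : Type*) [MetricSpace X] (n : ℕ) : Prop :=
  ∀ j ≤ n, FinH (dH : Co X (ZMod 2) →+ Co X (ZMod 2)) TT (DT All) j

/-- `X` is orientable, local form: for every nonempty open set `U` some class of degree `n` with
coefficients `ℤ/2^(n+1)` which vanishes outside `U` is not killed by `2^n`. -/
def TopC (X : Type*) [MetricSpace X] (n : ℕ) : Prop :=
  ∀ U : Set X, IsOpen U → U.Nonempty → ∃ w : Co X (ZMod (2 ^ (n + 1))),
    w ∈ DT (Out U) n ∧ dH w ∈ DT All (n + 1) ∧
    2 ^ n • w ∉ BB (dH : Co X (ZMod (2 ^ (n + 1))) →+ _) TT (DT All) n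

section FinRel

variable {X : Type*} [MetricSpace X] [CompactSpace X] [Nonempty X] {B : Type*} [CommGroup B]
  [Finite B] [MulAction B X] [ContinuousConstSMul B X]

/-- Smith theory: the cohomology of the fixed sets is finite. -/
theorem finH_Fx (h2 : ∀ b : B, b * b = 1) {n : ℕ} (hcol : HasCol B X n) (hfin : FinC X n)
    (K : Set B) : ∀ j ≤ n, FinH (dH : Co X (ZMod 2) →+ Co X (ZMod 2)) TT (DT (Fx K)) j := by
  induction K, Set.toFinite K using Set.Finite.induction_on with
  | empty =>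
    have : (Fx (∅ : Set B) : List X → Prop) = All := by
      funext l
      simp [Fx, All]
    rw [this]
    exact hfin
  | @insert c K _ _ ih =>
    have e : (Fx (insert c K) : List X → Prop) = fun l => Fx K l ∧ ∀ x ∈ l, c • x = x := by
      funext l
      apply propext
      constructor
      · intro h
        exact ⟨fun b hb => h b (Set.mem_insert_of_mem _ hb), h c (Set.mem_insert _ _)⟩
      · rintro ⟨h1, h2⟩ b hb
        rcases hb with rfl | hb
        · exact h2
        · exact h1 b hb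
    rw [e]
    apply smith_step (by decide) (h2 c) (her_Fx K) _ _ ih
    · intro l hl b hb x hx
      obtain ⟨y, hy, rfl⟩ := List.mem_map.1 hx
      rw [smul_smul, mul_comm, ← smul_smul, hl b hb y hy]
    · exact finH_II hcol c (her_Fx K) fun _ _ _ _ hc => pst_Fx hc K

theorem finH_pow (h2 : ∀ b : B, b * b = 1) {n : ℕ} (hcol : HasCol B X n) (hfin : FinC X n)
    (m : ℕ) : ∀ j ≤ n, FinH (dH : Co X (ZMod (2 ^ (m + 1))) →+ Co X (ZMod (2 ^ (m + 1))))
      (DT (Zp B)) (DT All) j := by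
  intro j hj
  exact finH_two_pow her_Zp (finH_rel (finH_Fx h2 hcol hfin) j hj) m

end FinRel

/-- The exponent theorem. -/
theorem killedX {X : Type*} [MetricSpace X] [CompactSpace X] [Nonempty X] {n m : ℕ} (hn : 1 ≤ n)
    (hfin : FinC X n) [MulAction (Fin (m + 1) → Multiplicative (ZMod 2)) X]
    [ContinuousConstSMul (Fin (m + 1) → Multiplicative (ZMod 2)) X]
    (hcol : HasCol (Fin (m + 1) → Multiplicative (ZMod 2)) X n)
    {L : Type*} [Group L] [MulAction L X] [ContinuousConstSMul L X]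
    (hL : ∀ H : Subgroup L, H.FiniteIndex → H = ⊤)
    (himg : ∀ b : Fin (m + 1) → Multiplicative (ZMod 2), ∃ g : L, ∀ x : X, b • x = g • x)
    (hZ : ∀ (g : L) (l : List X), Zp (Fin (m + 1) → Multiplicative (ZMod 2)) l →
      Zp (Fin (m + 1) → Multiplicative (ZMod 2)) (l.map (fun x => g • x)))
    {e₀ : ℕ} (h₀ : ((∃ (b : Fin (m + 1) → Multiplicative (ZMod 2)) (x : X), b ≠ 1 ∧ b • x = x) ∧
      IsPreconnected (univ : Set X) ∧ e₀ = 1) ∨ e₀ = 2)
    {w : Co X (ZMod (2 ^ (m + 1)))}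
    (hw : w ∈ DT (Zp (Fin (m + 1) → Multiplicative (ZMod 2))) n) (hdw : dH w ∈ DT All (n + 1)) :
    (e₀ * 2 ^ (n - 1)) • w ∈ BB (dH : Co X (ZMod (2 ^ (m + 1))) →+ _)
      (DT (Zp (Fin (m + 1) → Multiplicative (ZMod 2)))) (DT All) n := by
  set B := Fin (m + 1) → Multiplicative (ZMod 2) with hB
  have h2 : ∀ b : B, b * b = 1 := by
    intro b
    funext i
    have : ∀ z : Multiplicative (ZMod 2), z * z = 1 := by decide
    exact this (b i)
  have hsame : ∀ (b : B) (g : L), (∀ x : X, b • x = g • x) → ∀ f : Co X (ZMod (2 ^ (m + 1))),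
      b • f = g • f := by
    intro b g hbg f
    funext l
    rw [Co.smul_apply, Co.smul_apply]
    congr 1
    apply List.map_congr_left
    intro x _
    rw [inv_smul_eq_iff, hbg, smul_inv_smul]
  have hZi : ∀ (g : L) (j : ℕ) (f : Co X (ZMod (2 ^ (m + 1)))), f ∈ DT (Zp B) j →
      g • f ∈ DT (Zp B) j := fun g j f hf => smul_mem_DT (fun l hl => hZ g⁻¹ l hl) hf
  have hZb : ∀ (b : B) (j : ℕ) (f : Co X (ZMod (2 ^ (m + 1)))), f ∈ DT (Zp B) j →
      b • f ∈ DT (Zp B) j := fun b j f hf => smul_mem_DT (fun l hl => Zp_map b⁻¹ l hl) hf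
  have hAi : ∀ (g : L) (j : ℕ) (f : Co X (ZMod (2 ^ (m + 1)))), f ∈ DT All j →
      g • f ∈ DT All j := fun g j f hf => smul_mem_DT (fun _ _ => trivial) hf
  have hAb : ∀ (b : B) (j : ℕ) (f : Co X (ZMod (2 ^ (m + 1)))), f ∈ DT All j →
      b • f ∈ DT All j := fun b j f hf => smul_mem_DT (fun _ _ => trivial) hf
  have hC : Cx (dH : Co X (ZMod (2 ^ (m + 1))) →+ _) (DT (Zp B)) (DT All) :=
    cx_rel her_Zp her_all fun _ _ => trivial
  refine killed (r := m + 1) (n := n) dH_dH hC (fun b f => dH_smul b f)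
    (fun b j f hf => hZb b j f hf) (fun b j f hf => hAb b j f hf)
    (fun j k _ => KL_free j k) ?_ ?_ (fun g hg h => norm_surj hg h)
    (fun z hz hd hN => van_norm hcol hz hd hN) ?_ hn ⟨hw, hdw⟩
  · intro j hj b z hz
    obtain ⟨g, hg⟩ := himg b
    rw [hsame b g hg z]
    exact act_trivial dH_dH hL hC (fun g f => dH_smul g f) (fun g j f hf => hZi g j f hf)
      (fun g j f hf => hAi g j f hf) (finH_pow h2 hcol hfin m j hj) g hz
  · rcases h₀ with ⟨⟨b, x, hb, hbx⟩, hpc, he⟩ | he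
    · left
      refine ⟨?_, he⟩
      rintro f ⟨⟨ε, hε, hf⟩, ⟨ε', hε', hdf⟩⟩
      have hx : f [x] = 0 := by
        apply hf [x] rfl
        · intro y hy z hz
          rw [List.mem_singleton] at hy hz
          rw [hy, hz, dist_self]
          exact hε
        · exact ⟨b, hb, fun y hy => by rw [List.mem_singleton] at hy; rw [hy]; exact hbx⟩
      have hloc : ∀ y z : X, dist y z < ε' → f [y] = f [z] := by
        intro y z hyz
        have h3 := hdf [y, z] rfl (by
          intro a ha c hc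
          simp only [List.mem_cons, List.not_mem_nil, or_false] at ha hc
          rcases ha with rfl | rfl <;> rcases hc with rfl | rfl
          · rw [dist_self]; exact hε'
          · exact hyz
          · rw [dist_comm]; exact hyz
          · rw [dist_self]; exact hε') trivial
        have h4 : dd f [y, z] = f [z] - f [y] := by
          simp [dd_cons]
        rw [dH_apply, h4] at h3
        exact (sub_eq_zero.1 h3).symm
      have hconst : ∀ y : X, f [y] = 0 := by
        have hpre : PreconnectedSpace X := ⟨hpc⟩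
        have hlc : IsLocallyConstant (fun y : X => f [y]) := by
          rw [IsLocallyConstant.iff_eventually_eq]
          intro y
          filter_upwards [ball_mem_nhds y hε'] with z hz
          exact hloc z y hz
        intro y
        rw [hlc.apply_eq_of_preconnectedSpace y x]
        exact hx
      refine ⟨1, one_pos, fun l hl _ _ => ?_⟩
      obtain ⟨y, rfl⟩ := List.length_eq_one_iff.1 hl
      exact hconst y
    · exact Or.inr he
  · intro f
    funext l
    rw [Co.nsmul_apply, Co.zero_apply, nsmul_eq_mul]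
    have : ((2 ^ (m + 1) : ℕ) : ZMod (2 ^ (m + 1))) = 0 := ZMod.natCast_self _
    rw [this, zero_mul]

section Coeff

variable {X : Type*} {V W : Type*} [AddCommGroup V] [AddCommGroup W]

/-- Change of coefficients. -/
def cmV (a : V →+ W) (f : Co X V) : Co X W := fun l => a (f l)

theorem cmV_apply (a : V →+ W) (f : Co X V) (l : List X) : cmV a f l = a (f l) := rfl

theorem dH_comp (a : V →+ W) (f : Co X V) : dH (cmV a f) = cmV a (dH f) :=
  funext fun u => dd_comp a u f

variable [MetricSpace X]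

theorem DT_comp (a : V →+ W) {T : List X → Prop} {j : ℕ} {f : Co X V} (hf : f ∈ DT T j) :
    cmV a f ∈ DT T j := by
  obtain ⟨ε, hε, h⟩ := hf
  refine ⟨ε, hε, fun l hl hs hT => ?_⟩
  rw [cmV_apply, h l hl hs hT, map_zero]

theorem BB_comp (a : V →+ W) {j : ℕ} {f : Co X V}
    (hf : f ∈ BB (dH : Co X V →+ Co X V) TT (DT All) j) :
    cmV a f ∈ BB (dH : Co X W →+ Co X W) TT (DT All) j := by
  cases j with
  | zero => exact DT_comp a hf
  | succ j =>
    obtain ⟨g, -, h⟩ := mem_BB_succ.1 hf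
    refine mem_BB_succ.2 ⟨cmV a g, trivial, ?_⟩
    have h1 := DT_comp a h
    have h2 : cmV a f - dH (cmV a g) = cmV a (f - dH g) := by
      rw [dH_comp]
      funext l
      rw [Co.sub_apply, cmV_apply, cmV_apply, cmV_apply, Co.sub_apply, map_sub]
    rw [h2]
    exact h1

end Coeff

section Elem

variable {X : Type*} [MetricSpace X] {B : Type*} [Group B] [Finite B] [MulAction B X]
  [ContinuousConstSMul B X]

/-- The points with trivial stabiliser form a dense open set, if every `b ≠ 1` moves a dense set. -/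
theorem dense_free (heff : ∀ b : B, b ≠ 1 → Dense {x : X | b • x ≠ x}) :
    IsOpen {x : X | ∀ b : B, b ≠ 1 → b • x ≠ x} ∧ Dense {x : X | ∀ b : B, b ≠ 1 → b • x ≠ x} := by
  have e : {x : X | ∀ b : B, b ≠ 1 → b • x ≠ x} = ⋂ b ∈ {b : B | b ≠ 1}, {x : X | b • x ≠ x} := by
    ext x; simp
  have ho : ∀ b : B, IsOpen {x : X | b • x ≠ x} := fun b =>
    isOpen_ne_fun (continuous_const_smul b) continuous_id
  rw [e]
  have hfin : {b : B | b ≠ 1}.Finite := Set.toFinite _
  constructor
  · exact hfin.isOpen_biInter fun b _ => ho b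
  · have : ∀ s : Set B, s.Finite → s ⊆ {b : B | b ≠ 1} →
        Dense (⋂ b ∈ s, {x : X | b • x ≠ x}) ∧ IsOpen (⋂ b ∈ s, {x : X | b • x ≠ x}) := by
      intro s hs
      induction s, hs using Set.Finite.induction_on with
      | empty => intro _; simp
      | @insert c s _ _ ih =>
        intro hsub
        have h1 := ih fun b hb => hsub (Set.mem_insert_of_mem _ hb)
        rw [Set.biInter_insert]
        exact ⟨(heff c (hsub (Set.mem_insert _ _))).inter_of_isOpen_left h1.1 (ho c),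
          (ho c).inter h1.2⟩
    exact (this _ hfin subset_rfl).1

end Elem

section Final

variable {X : Type*} [MetricSpace X] [CompactSpace X] [Nonempty X]
  {L : Type*} [Group L] [MulAction L X] [ContinuousConstSMul L X]

theorem two_mul_pow {n : ℕ} (hn : 1 ≤ n) : 2 * 2 ^ (n - 1) = 2 ^ n := by
  obtain ⟨k, rfl⟩ := Nat.exists_eq_add_of_le' hn
  rw [Nat.add_sub_cancel, pow_succ, mul_comm]

omit [CompactSpace X] [Nonempty X] in
/-- If `w` is killed in the relative complex, it is killed. -/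
theorem BB_rel_le {V : Type*} [AddCommGroup V] {T : List X → Prop} {j : ℕ} {f : Co X V}
    (hf : f ∈ BB (dH : Co X V →+ Co X V) (DT T) (DT All) j) :
    f ∈ BB (dH : Co X V →+ Co X V) TT (DT All) j :=
  BB_le_of (fun _ => le_top) (fun _ => le_rfl) j hf

/-- **(A)** No `(ℤ/2)^(n+1)` in `L` acts freely. -/
theorem not_free {n : ℕ} (hn : 1 ≤ n) (hfin : FinC X n) (htop : TopC X n)
    [MulAction (Fin (n + 1) → Multiplicative (ZMod 2)) X]
    [ContinuousConstSMul (Fin (n + 1) → Multiplicative (ZMod 2)) X]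
    (hcol : HasCol (Fin (n + 1) → Multiplicative (ZMod 2)) X n)
    (hL : ∀ H : Subgroup L, H.FiniteIndex → H = ⊤)
    (himg : ∀ b : Fin (n + 1) → Multiplicative (ZMod 2), ∃ g : L, ∀ x : X, b • x = g • x)
    (hfree : ∀ b : Fin (n + 1) → Multiplicative (ZMod 2), b ≠ 1 → ∀ x : X, b • x ≠ x) : False := by
  obtain ⟨w, hwU, hdw, hw⟩ := htop univ isOpen_univ univ_nonempty
  have hnil : ∀ l : List X, Zp (Fin (n + 1) → Multiplicative (ZMod 2)) l → l = [] := by
    rintro l ⟨b, hb, h⟩
    rcases l with - | ⟨x, l⟩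
    · rfl
    · exact absurd (h x List.mem_cons_self) (hfree b hb x)
  have key := killedX hn hfin hcol hL himg (fun g l hl => by
    have := hnil l hl
    subst this
    exact hl) (e₀ := 2) (Or.inr rfl) (w := w) ⟨1, one_pos, fun l hl _ hZ => by
      rw [hnil l hZ] at hl
      simp at hl⟩ hdw
  rw [two_mul_pow hn] at key
  exact hw (BB_rel_le key)

/-- **(T)** A `(ℤ/2)^(n+1)` which centralises `L` does not act effectively. -/
theorem not_effective {n : ℕ} (hn : 1 ≤ n) (hfin : FinC X n) (htop : TopC X n)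
    [MulAction (Fin (n + 1) → Multiplicative (ZMod 2)) X]
    [ContinuousConstSMul (Fin (n + 1) → Multiplicative (ZMod 2)) X]
    (hcol : HasCol (Fin (n + 1) → Multiplicative (ZMod 2)) X n)
    (hL : ∀ H : Subgroup L, H.FiniteIndex → H = ⊤)
    (himg : ∀ b : Fin (n + 1) → Multiplicative (ZMod 2), ∃ g : L, ∀ x : X, b • x = g • x)
    (hcomm : ∀ (b : Fin (n + 1) → Multiplicative (ZMod 2)) (g : L) (x : X), b • g • x = g • b • x)
    (heff : ∀ b : Fin (n + 1) → Multiplicative (ZMod 2), b ≠ 1 → Dense {x : X | b • x ≠ x}) :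
    False := by
  obtain ⟨hUo, hUd⟩ := dense_free heff
  obtain ⟨w, hwU, hdw, hw⟩ := htop _ hUo hUd.nonempty
  have key := killedX hn hfin hcol hL himg (fun g l hl => by
    obtain ⟨b, hb, h⟩ := hl
    refine ⟨b, hb, fun y hy => ?_⟩
    obtain ⟨x, hx, rfl⟩ := List.mem_map.1 hy
    rw [hcomm, h x hx]) (e₀ := 2) (Or.inr rfl) (w := w)
    (DT_mono (fun l ⟨b, hb, h⟩ x hx hxU => hxU b hb (h x hx)) n hwU) hdw
  rw [two_mul_pow hn] at key
  exact hw (BB_rel_le key)

/-- Doubling `ℤ/2^(m+1) → ℤ/2^(m+2)`. -/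
theorem exists_double (m : ℕ) : ∃ (c : ZMod (2 ^ (m + 1 + 1)) →+ ZMod (2 ^ (m + 1)))
    (a : ZMod (2 ^ (m + 1)) →+ ZMod (2 ^ (m + 1 + 1))), ∀ v, a (c v) = 2 • v := by
  let c : ZMod (2 ^ (m + 1 + 1)) →+ ZMod (2 ^ (m + 1)) :=
    (ZMod.castHom (pow_dvd_pow 2 (Nat.le_succ (m + 1))) (ZMod (2 ^ (m + 1)))).toAddMonoidHom
  let f : {f : ℤ →+ ZMod (2 ^ (m + 1 + 1)) // f ((2 ^ (m + 1) : ℕ) : ℤ) = 0} :=
    ⟨zmultiplesHom _ 2, by
      rw [zmultiplesHom_apply, zsmul_eq_mul]
      have : ((((2 ^ (m + 1) : ℕ) : ℤ) : ZMod (2 ^ (m + 1 + 1)))) * 2 =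
          ((2 ^ (m + 1 + 1) : ℕ) : ZMod (2 ^ (m + 1 + 1))) := by
        push_cast
        ring
      rw [this, ZMod.natCast_self]⟩
  refine ⟨c, ZMod.lift (2 ^ (m + 1)) f, fun v => ?_⟩
  obtain ⟨k, rfl⟩ := ZMod.intCast_surjective v
  have h1 : c (k : ZMod (2 ^ (m + 1 + 1))) = (k : ZMod (2 ^ (m + 1))) :=
    map_intCast (ZMod.castHom (pow_dvd_pow 2 (Nat.le_succ (m + 1))) (ZMod (2 ^ (m + 1)))) k
  rw [h1, ZMod.lift_coe]
  change zmultiplesHom (ZMod (2 ^ (m + 1 + 1))) (2 : ZMod (2 ^ (m + 1 + 1))) k = _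
  rw [zmultiplesHom_apply, zsmul_eq_mul, nsmul_eq_mul]
  push_cast
  ring

/-- **(B)** A `(ℤ/2)^n` which centralises `L` and acts effectively acts freely (`n = m + 1`). -/
theorem central_free {m : ℕ} (hfin : FinC X (m + 1)) (htop : TopC X (m + 1))
    (hpc : IsPreconnected (univ : Set X))
    [MulAction (Fin (m + 1) → Multiplicative (ZMod 2)) X]
    [ContinuousConstSMul (Fin (m + 1) → Multiplicative (ZMod 2)) X]
    (hcol : HasCol (Fin (m + 1) → Multiplicative (ZMod 2)) X (m + 1))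
    (hL : ∀ H : Subgroup L, H.FiniteIndex → H = ⊤)
    (himg : ∀ b : Fin (m + 1) → Multiplicative (ZMod 2), ∃ g : L, ∀ x : X, b • x = g • x)
    (hcomm : ∀ (b : Fin (m + 1) → Multiplicative (ZMod 2)) (g : L) (x : X), b • g • x = g • b • x)
    (heff : ∀ b : Fin (m + 1) → Multiplicative (ZMod 2), b ≠ 1 → Dense {x : X | b • x ≠ x}) :
    ∀ b : Fin (m + 1) → Multiplicative (ZMod 2), b ≠ 1 → ∀ x : X, b • x ≠ x := by
  intro b₀ hb₀ x₀ hfix
  obtain ⟨hUo, hUd⟩ := dense_free heff
  obtain ⟨w, hwU, hdw, hw⟩ := htop _ hUo hUd.nonempty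
  obtain ⟨c, a, hac⟩ := exists_double m
  have h1 : dH (cmV c w) ∈ DT All (m + 1 + 1) := by
    rw [dH_comp]
    exact DT_comp c hdw
  have key := killedX (n := m + 1) (Nat.succ_pos m) hfin hcol hL himg (fun g l hl => by
    obtain ⟨b, hb, h⟩ := hl
    refine ⟨b, hb, fun y hy => ?_⟩
    obtain ⟨x, hx, rfl⟩ := List.mem_map.1 hy
    rw [hcomm, h x hx]) (e₀ := 1) (Or.inl ⟨⟨b₀, x₀, hb₀, hfix⟩, hpc, rfl⟩)
    (w := cmV c w)
    (DT_comp c (DT_mono (fun l ⟨b, hb, h⟩ x hx hxU => hxU b hb (h x hx)) (m + 1) hwU)) h1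
  have h2 := BB_comp a (BB_rel_le key)
  apply hw
  have h3 : cmV a ((1 * 2 ^ (m + 1 - 1)) • cmV c w) = 2 ^ (m + 1) • w := by
    funext l
    rw [cmV_apply, Co.nsmul_apply, cmV_apply, Co.nsmul_apply, map_nsmul, hac, one_mul,
      Nat.add_sub_cancel, smul_smul, ← pow_succ]
  rw [h3] at h2
  exact h2

end Final

end Pool.Agent.AXS
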