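import Pool.Agent.AXS.Defs

/-! # The norm argument, abstractly -/

set_option autoImplicit false

namespace Pool.Agent.AXS

variable {F : Type*} [AddCommGroup F]

theorem D_le_ZZ {δ : F →+ F} {N D : ℕ → AddSubgroup F} (h : Cx δ N D) (j : ℕ) :
    D j ≤ ZZ δ N D j := fun f hf => ⟨h.le j hf, h.dD j f hf⟩

/-- The core of the norm argument: an invariant cocycle is a coboundary if the coefficients are
killed by the order of the group. -/
theorem killed_core {B : Type*} [Group B] [Fintype B] [DistribMulAction B F] {n : ℕ}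
    {δ : F →+ F} (hδ : ∀ f, δ (δ f) = 0) {N D : ℕ → AddSubgroup F} (hC : Cx δ N D)
    (hδB : ∀ (b : B) f, δ (b • f) = b • δ f)
    (htriv : ∀ (b : B), ∀ z ∈ ZZ δ N D n, b • z - z ∈ BB δ N D n)
    (hsur : ∀ g ∈ N n, (∀ b : B, b • g - g ∈ D n) → ∃ y ∈ N n, (∑ b : B, b • y) - g ∈ D n)
    (hvan : ∀ z ∈ N (n + 1), δ z ∈ D (n + 2) → (∑ b : B, b • z) ∈ D (n + 1) →
      ∃ k ∈ N n, (∑ b : B, b • k) ∈ D n ∧ z - δ k ∈ D (n + 1))
    (hcard : ∀ f : F, Fintype.card B • f = 0) {g : F} (hg : g ∈ ZZ δ N D n)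
    (hinv : ∀ b : B, b • g - g ∈ D n) : g ∈ BB δ N D n := by
  obtain ⟨y, hy, hy2⟩ := hsur g hg.1 hinv
  have h1 : (∑ b : B, b • δ y) ∈ D (n + 1) := by
    have h2 : (∑ b : B, b • δ y) = δ ((∑ b : B, b • y) - g) + δ g := by
      rw [map_sub, sub_add_cancel, map_sum]
      exact Finset.sum_congr rfl fun b _ => (hδB b y).symm
    rw [h2]
    exact (D (n + 1)).add_mem (hC.dD n _ hy2) hg.2
  have h3 : δ (δ y) ∈ D (n + 2) := by
    rw [hδ]
    exact (D (n + 2)).zero_mem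
  obtain ⟨k, hk, hk2, hk3⟩ := hvan (δ y) (hC.dN n y hy) h3 h1
  have hyk : y - k ∈ ZZ δ N D n := by
    refine ⟨(N n).sub_mem hy hk, ?_⟩
    change δ (y - k) ∈ D (n + 1)
    rw [map_sub]
    exact hk3
  -- the norm of `y - k` is a coboundary
  have h4 : (∑ b : B, b • (y - k)) ∈ BB δ N D n := by
    have h5 : (∑ b : B, b • (y - k)) = ∑ b : B, (b • (y - k) - (y - k)) := by
      rw [Finset.sum_sub_distrib, Finset.sum_const, Finset.card_univ, hcard, sub_zero]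
    rw [h5]
    exact (BB δ N D n).sum_mem fun b _ => htriv b _ hyk
  have h6 : g = (∑ b : B, b • (y - k)) + (∑ b : B, b • k) - ((∑ b : B, b • y) - g) := by
    have h7 : (∑ b : B, b • (y - k)) = (∑ b : B, b • y) - ∑ b : B, b • k := by
      rw [← Finset.sum_sub_distrib]
      exact Finset.sum_congr rfl fun b _ => smul_sub b y k
    rw [h7]
    abel
  rw [h6]
  exact (BB δ N D n).sub_mem ((BB δ N D n).add_mem h4 (D_le_BB n hk2)) (D_le_BB n hy2)

/-- The form used: `E w - v` is invariant for a coboundary `v`, hence `E w` is a coboundary. -/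
theorem killed_of_invariant {B : Type*} [Group B] [Fintype B] [DistribMulAction B F] {n E : ℕ}
    {δ : F →+ F} (hδ : ∀ f, δ (δ f) = 0) {N D : ℕ → AddSubgroup F} (hC : Cx δ N D)
    (hδB : ∀ (b : B) f, δ (b • f) = b • δ f)
    (htriv : ∀ (b : B), ∀ z ∈ ZZ δ N D n, b • z - z ∈ BB δ N D n)
    (hsur : ∀ g ∈ N n, (∀ b : B, b • g - g ∈ D n) → ∃ y ∈ N n, (∑ b : B, b • y) - g ∈ D n)
    (hvan : ∀ z ∈ N (n + 1), δ z ∈ D (n + 2) → (∑ b : B, b • z) ∈ D (n + 1) →
      ∃ k ∈ N n, (∑ b : B, b • k) ∈ D n ∧ z - δ k ∈ D (n + 1))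
    (hcard : ∀ f : F, Fintype.card B • f = 0) {w : F} (hw : w ∈ ZZ δ N D n)
    (hex : ∃ v ∈ BB δ N D n, ∀ b : B, b • (E • w - v) - (E • w - v) ∈ D n) :
    E • w ∈ BB δ N D n := by
  obtain ⟨v, hv, hinv⟩ := hex
  have hv2 : v ∈ ZZ δ N D n := BB_le_ZZ hδ hC n hv
  have hg : E • w - v ∈ ZZ δ N D n :=
    (ZZ δ N D n).sub_mem ((ZZ δ N D n).nsmul_mem hw E) hv2
  have h1 := killed_core hδ hC hδB htriv hsur hvan hcard hg hinv
  have h2 : E • w = (E • w - v) + v := by abel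
  rw [h2]
  exact (BB δ N D n).add_mem h1 hv

/-- `ZZ 0 ≤ D 0`: nothing in degree `0`. -/
theorem KL_one_of_le {B : Type*} [Group B] [DistribMulAction B F] {N D : AddSubgroup F}
    (h : N ≤ D) (m : ℕ) : KL B 1 m N D := by
  intro φ hφ _ _
  refine ⟨fun _ => 0, fun _ => N.zero_mem, fun b u => (smul_zero b).symm, fun u _ => ?_⟩
  rw [one_smul]
  have h1 : dd (fun _ : List B => (0 : F)) u = 0 := dd_zero u
  rw [h1, sub_zero]
  exact h (hφ u)

theorem card_pow_two (r : ℕ) : Fintype.card (Fin r → Multiplicative (ZMod 2)) = 2 ^ r := by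
  rw [Fintype.card_fun, Fintype.card_fin]
  rfl

end Pool.Agent.AXS
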