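import Pool.Agent.AXS.MuH
import Pool.Agent.AXS.Taut

/-!
# Top cocycles vanish near a closed null set
-/

set_option autoImplicit false

open Set Metric MeasureTheory Topology

namespace Pool.Agent.AXS

open Pool.Agent.Helper3.HS

/-- Top cocycles vanish near a closed null set, up to coboundaries. -/
theorem null_near {X V : Type*} [MetricSpace X] [CompactSpace X] [MeasurableSpace X] [BorelSpace X]
    [AddCommGroup V] {n : ℕ} (hn : 1 ≤ n) {S : Set X} (hS : IsClosed S)
    (hμ : (μH[(n : ℝ)] : Measure X) S = 0) (f : Co X V) (hf : f ∈ ZZ dH TT (DT All) n) :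
    ∃ A : Set X, IsOpen A ∧ S ⊆ A ∧ ∃ f' : Co X V, f' ∈ DT (Out Aᶜ) n ∧
      f - f' ∈ BB dH TT (DT All) n := by
  obtain ⟨m, rfl⟩ : ∃ m, n = m + 1 := ⟨n - 1, by omega⟩
  rcases S.eq_empty_or_nonempty with h | h
  · refine ⟨∅, isOpen_empty, h.le, f, ⟨1, one_pos, ?_⟩, ?_⟩
    · intro l hl _ hO
      obtain ⟨x, hx⟩ := List.exists_mem_of_length_pos (l := l) (by omega)
      exact absurd (hO x hx) (by simp)
    · rw [sub_self]
      exact (BB dH TT (DT All) (m + 1)).zero_mem
  · have : Nonempty S := h.to_subtype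
    obtain ⟨B, _, _, hcol⟩ := hasCol_sub hS (m := m) (by push_cast at hμ; exact hμ)
    exact taut hS hcol hf

end Pool.Agent.AXS
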