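import Pool.Agent.AXS.SLn

/-!
# Row L: diagonal sign matrices are conjugate to block sign matrices (helper61)
-/

set_option autoImplicit false

open Matrix

namespace Pool.Agent.AXS

section Conj

variable {F : Type*} [Field F] {ι : Type*} [Fintype ι] [DecidableEq ι]

/-- a permutation matrix with a sign correction in the row `x₀` -/
def sgnPerm61 (F : Type*) [Field F] (σ : Equiv.Perm ι) (x₀ : ι) : Matrix ι ι F :=
  Matrix.diagonal (fun x => if x = x₀ then (((Equiv.Perm.sign σ : ℤˣ) : ℤ) : F) else 1) *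
    (σ.permMatrix F)

lemma det_sgnPerm61 (σ : Equiv.Perm ι) (x₀ : ι) : (sgnPerm61 F σ x₀).det = 1 := by
  unfold sgnPerm61
  rw [Matrix.det_mul, Matrix.det_permutation, Matrix.det_diagonal, Finset.prod_ite_eq' Finset.univ x₀]
  simp only [Finset.mem_univ, if_true]
  have h : ((Equiv.Perm.sign σ : ℤˣ) : ℤ) * ((Equiv.Perm.sign σ : ℤˣ) : ℤ) = 1 := by
    rw [← Units.val_mul, Int.units_mul_self]; rfl
  have h2 : (((Equiv.Perm.sign σ : ℤˣ) : ℤ) : F) * (((Equiv.Perm.sign σ : ℤˣ) : ℤ) : F) = 1 := by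
    exact_mod_cast congrArg (fun z : ℤ => (z : F)) h
  exact h2

lemma sgnPerm61_mul (σ : Equiv.Perm ι) (x₀ : ι) (D D' : ι → F) (h : ∀ x, D' x = D (σ x)) :
    sgnPerm61 F σ x₀ * Matrix.diagonal D = Matrix.diagonal D' * sgnPerm61 F σ x₀ := by
  unfold sgnPerm61
  ext x y
  simp only [Matrix.mul_diagonal, Matrix.diagonal_mul]
  by_cases hxy : σ x = y
  · subst hxy
    rw [h x]; ring
  · have : (σ.permMatrix F) x y = 0 := by
      simp [Equiv.Perm.permMatrix, PEquiv.toMatrix_apply, hxy]
    rw [this]; ring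

/-- Two diagonal matrices of determinant `1` which differ by a permutation of the entries are
conjugate in `SL`. -/
lemma conj_diag61 [Nonempty ι] (A A' : SpecialLinearGroup ι F) (D D' : ι → F)
    (hA : (A : Matrix ι ι F) = Matrix.diagonal D) (hA' : (A' : Matrix ι ι F) = Matrix.diagonal D')
    (σ : Equiv.Perm ι) (h : ∀ x, D' x = D (σ x)) : ∃ g, g * A * g⁻¹ = A' := by
  obtain ⟨x₀⟩ := ‹Nonempty ι›
  refine ⟨⟨sgnPerm61 F σ x₀, det_sgnPerm61 σ x₀⟩, ?_⟩
  rw [mul_inv_eq_iff_eq_mul]
  apply SpecialLinearGroup.coeMonoidHom_injective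
  rw [map_mul, map_mul]
  simp only [SpecialLinearGroup.coeMonoidHom_apply]
  rw [hA, hA']
  exact sgnPerm61_mul σ x₀ D D' h

/-- a number that is `1` or `-1`, the same for both -/
lemma perm_sign61 [CharZero F] (D D' : ι → F) (hD : ∀ x, D x = 1 ∨ D x = -1)
    (hD' : ∀ x, D' x = 1 ∨ D' x = -1)
    (hc : ∀ (S S' : Finset ι), (∀ x, x ∈ S ↔ D x ≠ 1) → (∀ x, x ∈ S' ↔ D' x ≠ 1) →
      S'.card = S.card) :
    ∃ σ : Equiv.Perm ι, ∀ x, D' x = D (σ x) := by
  classical
  set S : Finset ι := Finset.univ.filter (fun x => D x ≠ 1) with hS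
  set S' : Finset ι := Finset.univ.filter (fun x => D' x ≠ 1) with hS'
  have mS : ∀ x, x ∈ S ↔ D x ≠ 1 := fun x => by rw [hS]; simp
  have mS' : ∀ x, x ∈ S' ↔ D' x ≠ 1 := fun x => by rw [hS']; simp
  obtain ⟨σ, hσ⟩ := Equiv.Perm.exists_map_finset_eq S' S (hc S S' mS mS')
  refine ⟨σ, fun x => ?_⟩
  have hx : x ∈ S' ↔ σ x ∈ S := by
    rw [← hσ, Finset.mem_map]
    constructor
    · intro h
      exact ⟨x, h, rfl⟩
    · rintro ⟨y, hy, hyx⟩
      have : y = x := σ.injective hyx
      rwa [← this]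
  rw [mS, mS'] at hx
  rcases hD' x with h1 | h1
  · rw [h1]
    by_contra hne
    exact (hx.2 (Ne.symm hne)) h1
  · have h2 : D' x ≠ 1 := by
      rw [h1]
      intro h
      have h3 : (2 : F) = 0 := by linear_combination -h
      exact two_ne_zero h3
    rcases hD (σ x) with h3 | h3
    · exact absurd h3 (hx.1 h2)
    · rw [h1, h3]

end Conj

section Kernel

variable {F : Type*} [Field F]

lemma sgn1_or61 (b : Multiplicative (ZMod 2)) : sgn1 F b = 1 ∨ sgn1 F b = -1 := by
  show (if b = 1 then (1 : F) else -1) = 1 ∨ (if b = 1 then (1 : F) else -1) = -1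
  by_cases h : b = 1 <;> simp [h]

lemma sgn1_ne61 [CharZero F] (b : Multiplicative (ZMod 2)) : sgn1 F b ≠ 1 ↔ b ≠ 1 := by
  have hm : (-1 : F) ≠ 1 := by
    intro h
    have h3 : (2 : F) = 0 := by linear_combination -h
    exact two_ne_zero h3
  show (if b = 1 then (1 : F) else -1) ≠ 1 ↔ b ≠ 1
  by_cases h : b = 1
  · simp [h]
  · simp [h, hm]

variable {m n k : ℕ}

/-- the diagonal of `d c` -/
def dD61 (F : Type*) [Field F] {ι : Type*} (e : ι ≃ Fin (n + 1) ⊕ (Fin k ⊕ Unit))
    (c : Fin (n + 1) → Multiplicative (ZMod 2)) (i : ι) : F :=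
  Sum.elim (fun j => sgn1 F (c j)) (Sum.elim (fun _ => 1) (fun _ => ∏ j, sgn1 F (c j))) (e i)

variable {ι : Type*} [Fintype ι] [DecidableEq ι]

lemma prod_dD61 (e : ι ≃ Fin (n + 1) ⊕ (Fin k ⊕ Unit))
    (c : Fin (n + 1) → Multiplicative (ZMod 2)) : ∏ i, dD61 F e c i = 1 := by
  unfold dD61
  rw [Equiv.prod_comp e (fun y => Sum.elim (fun j => sgn1 F (c j))
    (Sum.elim (fun _ => 1) (fun _ => ∏ j, sgn1 F (c j))) y)]
  rw [Fintype.prod_sum_type, Fintype.prod_sum_type]
  simp only [Sum.elim_inl, Sum.elim_inr, Finset.prod_const_one, one_mul, Finset.univ_unique,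
    Finset.prod_singleton]
  rw [← Finset.prod_mul_distrib]
  exact Finset.prod_eq_one (fun j _ => sgn1_sq (c j))

lemma dD_or61 (e : ι ≃ Fin (n + 1) ⊕ (Fin k ⊕ Unit))
    (c : Fin (n + 1) → Multiplicative (ZMod 2)) (i : ι) :
    dD61 F e c i = 1 ∨ dD61 F e c i = -1 := by
  unfold dD61
  rcases e i with j | j | j
  · exact sgn1_or61 (c j)
  · left; rfl
  · show (∏ j, sgn1 F (c j)) = 1 ∨ (∏ j, sgn1 F (c j)) = -1
    have h : (∏ j, sgn1 F (c j)) * (∏ j, sgn1 F (c j)) = 1 := by
      rw [← Finset.prod_mul_distrib]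
      exact Finset.prod_eq_one (fun j _ => sgn1_sq (c j))
    exact mul_self_eq_one_iff.1 h

/-- the diagonal signs -/
def dHom61 (F : Type*) [Field F] (e : ι ≃ Fin (n + 1) ⊕ (Fin k ⊕ Unit)) :
    (Fin (n + 1) → Multiplicative (ZMod 2)) →* SpecialLinearGroup ι F where
  toFun c := ⟨Matrix.diagonal (dD61 F e c), by rw [Matrix.det_diagonal, prod_dD61]⟩
  map_one' := by
    apply SpecialLinearGroup.coeMonoidHom_injective
    show Matrix.diagonal (dD61 F e 1) = 1
    rw [← Matrix.diagonal_one]
    congr 1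
    funext i
    unfold dD61
    rcases e i with j | j | j
    · exact map_one _
    · rfl
    · show (∏ j : Fin (n + 1), sgn1 F 1) = 1
      rw [map_one]; exact Finset.prod_const_one
  map_mul' a b := by
    apply SpecialLinearGroup.coeMonoidHom_injective
    rw [map_mul]
    show Matrix.diagonal (dD61 F e (a * b)) = Matrix.diagonal (dD61 F e a) * Matrix.diagonal (dD61 F e b)
    rw [Matrix.diagonal_mul_diagonal]
    congr 1
    funext i
    unfold dD61
    rcases e i with j | j | j
    · exact map_mul _ _ _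
    · exact (one_mul _).symm
    · show (∏ j : Fin (n + 1), sgn1 F (a j * b j)) = (∏ j, sgn1 F (a j)) * (∏ j, sgn1 F (b j))
      rw [← Finset.prod_mul_distrib]
      exact Finset.prod_congr rfl (fun j _ => map_mul _ _ _)

lemma even_card61 [CharZero F] (D : ι → F) (hD : ∀ x, D x = 1 ∨ D x = -1) (hp : ∏ x, D x = 1)
    (S : Finset ι) (hS : ∀ x, x ∈ S ↔ D x ≠ 1) : Even S.card := by
  classical
  have h1 : ∏ x, D x = ∏ x ∈ S, D x := by
    symm
    apply Finset.prod_subset (Finset.subset_univ S)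
    intro x _ hx
    by_contra hne
    exact hx ((hS x).2 hne)
  have h2 : ∏ x ∈ S, D x = (-1) ^ S.card := by
    rw [← Finset.prod_const]
    apply Finset.prod_congr rfl
    intro x hx
    rcases hD x with h | h
    · exact absurd h ((hS x).1 hx)
    · exact h
  rw [h1, h2] at hp
  rcases Nat.even_or_odd S.card with h | h
  · exact h
  · exfalso
    rw [h.neg_one_pow] at hp
    have h3 : (2 : F) = 0 := by linear_combination -hp
    exact two_ne_zero h3

/-- Block signs in odd size, with the diagonal signs. -/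
theorem sl_kernel61 (F : Type*) [Field F] [CharZero F] {n m : ℕ} (hn : 1 ≤ n) (hm : 2 * n + 1 = m) :
    ∃ (J : (Fin n → SpecialLinearGroup (Fin 2) F) →* SpecialLinearGroup (Fin m) F)
      (s : (Fin n → Multiplicative (ZMod 2)) →* (Fin n → SpecialLinearGroup (Fin 2) F))
      (d : (Fin (n + 1) → Multiplicative (ZMod 2)) →* SpecialLinearGroup (Fin m) F),
      (∀ b g, s b * g = g * s b) ∧ (∀ b, b ≠ 1 → Subgroup.normalClosure {J (s b)} = ⊤) ∧
      ∀ c, c ≠ 1 → ∃ b, b ≠ 1 ∧ ∃ g, g * d c * g⁻¹ = J (s b) := by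
  classical
  have hcard : Fintype.card (Fin m) = Fintype.card ((Fin 2 × Fin n) ⊕ Fin (0 + 1)) := by
    simp [← hm]
  have hcard' : Fintype.card (Fin m) = Fintype.card (Fin (n + 1) ⊕ (Fin (n - 1) ⊕ Unit)) := by
    simp only [Fintype.card_fin, Fintype.card_sum, Fintype.card_unit]
    omega
  have e : Fin m ≃ (Fin 2 × Fin n) ⊕ Fin (0 + 1) := Fintype.equivOfCardEq hcard
  have e' : Fin m ≃ Fin (n + 1) ⊕ (Fin (n - 1) ⊕ Unit) := Fintype.equivOfCardEq hcard'
  have hne : Nonempty (Fin m) := ⟨⟨0, by omega⟩⟩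
  have hm1 : (-1 : F) ≠ 1 := by
    intro h
    have h3 : (2 : F) = 0 := by linear_combination -h
    exact two_ne_zero h3
  refine ⟨blockJ e, sgnPi F n, dHom61 F e', fun b g => ?_, fun b hb => ?_, fun c hc => ?_⟩
  · funext k
    exact sgn2_comm (b k) (g k)
  · obtain ⟨k, hk⟩ : ∃ k, b k ≠ 1 := by
      by_contra hno
      push Not at hno
      exact hb (funext hno)
    refine normalClosure_diagonal (D := blockJ e (sgnPi F n b)) (d := sgnD F e b)
      (blockM_sgn e b) (i₀ := e.symm (Sum.inl (0, k))) (j₀ := e.symm (Sum.inr 0)) ?_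
    have h1 : sgnD F e b (e.symm (Sum.inl (0, k))) = -1 := by
      unfold sgnD
      rw [Equiv.apply_symm_apply]
      show sgn1 F (b k) = -1
      unfold sgn1
      simp [hk]
    have h2 : sgnD F e b (e.symm (Sum.inr 0)) = 1 := by
      unfold sgnD
      rw [Equiv.apply_symm_apply]
      rfl
    rw [h1, h2]
    exact hm1
  · set S : Finset (Fin m) := Finset.univ.filter (fun x => dD61 F e' c x ≠ 1) with hS
    have mS : ∀ x, x ∈ S ↔ dD61 F e' c x ≠ 1 := fun x => by rw [hS]; simp
    have hev : Even S.card := even_card61 _ (dD_or61 e' c) (prod_dD61 e' c) S mS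
    have hpos : 0 < S.card := by
      rw [Finset.card_pos]
      obtain ⟨j, hj⟩ : ∃ j, c j ≠ 1 := by
        by_contra hno
        push Not at hno
        exact hc (funext hno)
      refine ⟨e'.symm (Sum.inl j), (mS _).2 ?_⟩
      unfold dD61
      rw [Equiv.apply_symm_apply]
      exact (sgn1_ne61 (c j)).2 hj
    have hle : S.card ≤ m := by
      have := Finset.card_le_univ S
      simpa using this
    obtain ⟨a, ha⟩ := hev
    have ha1 : 1 ≤ a := by omega
    have han : a ≤ n := by omega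
    let b : Fin n → Multiplicative (ZMod 2) := fun k =>
      if (k : ℕ) < a then Multiplicative.ofAdd 1 else 1
    have hb1 : ∀ k : Fin n, b k ≠ 1 ↔ (k : ℕ) < a := by
      intro k
      have hg : (Multiplicative.ofAdd (1 : ZMod 2)) ≠ 1 := by decide
      by_cases h : (k : ℕ) < a
      · simp only [b, if_pos h]
        exact ⟨fun _ => h, fun _ => hg⟩
      · simp only [b, if_neg h]
        exact ⟨fun h' => absurd rfl h', fun h' => absurd h' h⟩
    refine ⟨b, ?_, ?_⟩
    · intro hb
      have := (hb1 ⟨0, by omega⟩).2 (by show 0 < a; omega)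
      exact this (by rw [hb]; rfl)
    · have hsg : ∀ x, sgnD F e b x = 1 ∨ sgnD F e b x = -1 := by
        intro x
        unfold sgnD
        rcases e x with p | p
        · exact sgn1_or61 (b p.2)
        · left; rfl
      have hcnt : ∀ S' : Finset (Fin m), (∀ x, x ∈ S' ↔ sgnD F e b x ≠ 1) → S'.card = 2 * a := by
        intro S' mS'
        have himg : S'.map e.toEmbedding =
            (Finset.univ ×ˢ (Finset.univ.filter (fun k : Fin n => (k : ℕ) < a))).map
              (Function.Embedding.inl : (Fin 2 × Fin n) ↪ (Fin 2 × Fin n) ⊕ Fin (0 + 1)) := by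
          ext y
          simp only [Finset.mem_map, Equiv.coe_toEmbedding, Finset.mem_product, Finset.mem_univ,
            true_and, Finset.mem_filter, Function.Embedding.inl_apply]
          constructor
          · rintro ⟨x, hx, rfl⟩
            have h1 := (mS' x).1 hx
            unfold sgnD at h1
            rcases hex : e x with p | p
            · rw [hex] at h1
              exact ⟨p, (hb1 p.2).1 ((sgn1_ne61 (b p.2)).1 h1), rfl⟩
            · rw [hex] at h1
              exact absurd rfl h1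
          · rintro ⟨p, hp, rfl⟩
            refine ⟨e.symm (Sum.inl p), (mS' _).2 ?_, Equiv.apply_symm_apply _ _⟩
            unfold sgnD
            rw [Equiv.apply_symm_apply]
            exact (sgn1_ne61 (b p.2)).2 ((hb1 p.2).2 hp)
        have h1 := congrArg Finset.card himg
        rw [Finset.card_map, Finset.card_map, Finset.card_product, Finset.card_univ,
          Fintype.card_fin] at h1
        rw [h1]
        congr 1
        rw [Fin.card_filter_val_lt]
        omega
      obtain ⟨σ, hσ⟩ := perm_sign61 (dD61 F e' c) (sgnD F e b) (dD_or61 e' c) hsg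
        (fun T T' hT hT' => by
          have e1 : T = S := by
            ext x; rw [hT, mS]
          rw [hcnt T' hT', e1, ha]; ring)
      exact conj_diag61 (dHom61 F e' c) (blockJ e (sgnPi F n b)) (dD61 F e' c) (sgnD F e b) rfl
        (blockM_sgn e b) σ hσ

end Kernel

end Pool.Agent.AXS
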