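import Mathlib

/-!
# MP_afaf30, row L: the groups

`SL_2(F)^r` has no proper subgroup of finite index in characteristic `0`; the central sign matrices of
the block subgroup `SL_2(F)^r` of `SL_ι(F)`, `2 r + 1 ≤ |ι|`, have `SL_ι(F)` as normal closure.
-/

set_option autoImplicit false

open Matrix

namespace Pool.Agent.AXS

section gen

variable {F : Type*} [Field F] {ι : Type*} [Fintype ι] [DecidableEq ι]

theorem transvection_pow {i j : ι} (hij : i ≠ j) (b : F) (n : ℕ) :
    (SpecialLinearGroup.transvection hij b) ^ n = SpecialLinearGroup.transvection hij (n * b) := by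
  induction n with
  | zero => simp
  | succ n ih =>
    rw [pow_succ, ih, ← SpecialLinearGroup.transvection_add]
    congr 1
    push_cast
    ring

/-- a diagonal matrix conjugates a transvection to a transvection -/
theorem diag_mul_transvection {D : SpecialLinearGroup ι F} {d : ι → F}
    (hD : (D : Matrix ι ι F) = diagonal d) {i j : ι} (hij : i ≠ j) (t s : F)
    (hs : s * d j = d i * t) :
    D * SpecialLinearGroup.transvection hij t = SpecialLinearGroup.transvection hij s * D := by
  apply SpecialLinearGroup.coeMonoidHom_injective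
  rw [map_mul, map_mul]
  simp only [SpecialLinearGroup.coeMonoidHom_apply]
  rw [SpecialLinearGroup.transvection_coe, SpecialLinearGroup.transvection_coe, hD]
  ext k l
  rw [Matrix.diagonal_mul, Matrix.mul_diagonal]
  simp only [Matrix.add_apply, Matrix.single_apply, Matrix.one_apply]
  by_cases h1 : i = k ∧ j = l
  · obtain ⟨rfl, rfl⟩ := h1
    simp only [hij, if_false, zero_add, and_self, if_true]
    exact hs.symm
  · rw [if_neg h1, if_neg h1, add_zero]
    by_cases h2 : k = l
    · rw [if_pos h2, h2]
      ring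
    · rw [if_neg h2]
      ring

/-- the commutator of two transvections -/
theorem commutator_transvection {i m j : ι} (him : i ≠ m) (hmj : m ≠ j) (hij : i ≠ j) (a b : F) :
    SpecialLinearGroup.transvection him a * SpecialLinearGroup.transvection hmj b *
      (SpecialLinearGroup.transvection him a)⁻¹ * (SpecialLinearGroup.transvection hmj b)⁻¹ =
      SpecialLinearGroup.transvection hij (a * b) := by
  rw [SpecialLinearGroup.transvection_inv, SpecialLinearGroup.transvection_inv]
  apply SpecialLinearGroup.coeMonoidHom_injective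
  simp only [map_mul, SpecialLinearGroup.coeMonoidHom_apply, SpecialLinearGroup.transvection_coe]
  rw [← Matrix.single_neg, ← Matrix.single_neg]
  have e1 : single i m a * single i m a = (0 : Matrix ι ι F) :=
    Matrix.single_mul_single_of_ne _ _ _ _ him.symm _
  have e2 : single m j b * single m j b = (0 : Matrix ι ι F) :=
    Matrix.single_mul_single_of_ne _ _ _ _ hmj.symm _
  have e3 : single m j b * single i m a = (0 : Matrix ι ι F) :=
    Matrix.single_mul_single_of_ne _ _ _ _ hij.symm _
  have e4 : single i m a * single m j b = (single i j (a * b) : Matrix ι ι F) :=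
    Matrix.single_mul_single_same _ _ _ _ _
  have e5 : single i j (a * b) * single i m a = (0 : Matrix ι ι F) :=
    Matrix.single_mul_single_of_ne _ _ _ _ hij.symm _
  have e6 : single i j (a * b) * single m j b = (0 : Matrix ι ι F) :=
    Matrix.single_mul_single_of_ne _ _ _ _ hmj.symm _
  simp only [mul_add, add_mul, one_mul, mul_one, mul_neg, neg_mul, e1, e2, e3, e4, e5, e6,
    zero_mul]
  abel

/-- the element `diag (a, a⁻¹)` at the places `i, j` is a product of transvections -/
theorem diag2n_decompose {i j : ι} (hij : i ≠ j) (a : F) (ha : a ≠ 0) :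
    SpecialLinearGroup.diag2n hij a ha = SpecialLinearGroup.transvection hij a *
      SpecialLinearGroup.transvection hij.symm (-a⁻¹) * SpecialLinearGroup.transvection hij a *
      SpecialLinearGroup.transvection hij (-1) * SpecialLinearGroup.transvection hij.symm 1 *
      SpecialLinearGroup.transvection hij (-1) := by
  apply SpecialLinearGroup.coeMonoidHom_injective
  simp only [map_mul, SpecialLinearGroup.coeMonoidHom_apply, SpecialLinearGroup.transvection_coe,
    SpecialLinearGroup.diag2n_coe]
  have f1 : ∀ x y : F, single i j x * single i j y = (0 : Matrix ι ι F) := fun x y =>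
    Matrix.single_mul_single_of_ne _ _ _ _ hij.symm _
  have f2 : ∀ x y : F, single j i x * single j i y = (0 : Matrix ι ι F) := fun x y =>
    Matrix.single_mul_single_of_ne _ _ _ _ hij _
  have f3 : ∀ x y : F, single i j x * single j i y = (single i i (x * y) : Matrix ι ι F) :=
    fun x y => Matrix.single_mul_single_same _ _ _ _ _
  have f4 : ∀ x y : F, single j i x * single i j y = (single j j (x * y) : Matrix ι ι F) :=
    fun x y => Matrix.single_mul_single_same _ _ _ _ _
  have f5 : ∀ x y : F, single i i x * single i j y = (single i j (x * y) : Matrix ι ι F) :=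
    fun x y => Matrix.single_mul_single_same _ _ _ _ _
  have f6 : ∀ x y : F, single j j x * single i j y = (0 : Matrix ι ι F) := fun x y =>
    Matrix.single_mul_single_of_ne _ _ _ _ hij.symm _
  have f7 : ∀ x y : F, single i i x * single j i y = (0 : Matrix ι ι F) := fun x y =>
    Matrix.single_mul_single_of_ne _ _ _ _ hij _
  have f8 : ∀ x y : F, single j j x * single j i y = (single j i (x * y) : Matrix ι ι F) :=
    fun x y => Matrix.single_mul_single_same _ _ _ _ _
  simp only [mul_add, add_mul, one_mul, mul_one, f1, f2, f3, f4, f5, f6, f7, f8, mul_neg, neg_mul,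
    mul_inv_cancel₀ ha, inv_mul_cancel₀ ha, add_zero, neg_neg]
  ext k l
  simp only [Matrix.add_apply, Matrix.single_apply, Matrix.one_apply, Matrix.diagonal_apply]
  by_cases hk : k = i
  · subst hk
    by_cases hl : l = k
    · subst hl
      simp [hij.symm]
    · by_cases hl' : l = j
      · subst hl'
        simp [hij, hij.symm]
      · simp [hij.symm, Ne.symm hl, Ne.symm hl']
  · by_cases hk' : k = j
    · subst hk'
      by_cases hl : l = i
      · subst hl
        simp [hij, hij.symm]
      · by_cases hl' : l = k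
        · subst hl'
          simp [hij, hij.symm]
        · simp [hij, Ne.symm hl, Ne.symm hl']
    · simp [hk, hk', Ne.symm hk, Ne.symm hk']

/-- a subgroup which contains all transvections is the whole group -/
theorem eq_top_of_transvection [Nontrivial ι] (N : Subgroup (SpecialLinearGroup ι F))
    (hN : ∀ (i j : ι) (hij : i ≠ j) (c : F), SpecialLinearGroup.transvection hij c ∈ N) :
    N = ⊤ := by
  rw [eq_top_iff]
  intro g _
  refine SpecialLinearGroup.diagonal_transvection_induction' (fun g => g ∈ N) g ?_ hN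
    (fun A B hA hB => N.mul_mem hA hB)
  intro i j hij c hc
  rw [diag2n_decompose hij c hc]
  exact N.mul_mem (N.mul_mem (N.mul_mem (N.mul_mem (N.mul_mem (hN _ _ _ _) (hN _ _ _ _))
    (hN _ _ _ _)) (hN _ _ _ _)) (hN _ _ _ _)) (hN _ _ _ _)

/-- **the normal closure of a diagonal matrix which is not scalar** -/
theorem normalClosure_diagonal {D : SpecialLinearGroup ι F} {d : ι → F}
    (hD : (D : Matrix ι ι F) = diagonal d) {i₀ j₀ : ι} (h0 : d i₀ ≠ d j₀) :
    Subgroup.normalClosure {D} = ⊤ := by
  classical
  have hnt : Nontrivial ι := ⟨i₀, j₀, fun h => h0 (by rw [h])⟩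
  obtain ⟨N, hN⟩ : ∃ N : Subgroup (SpecialLinearGroup ι F), N = Subgroup.normalClosure {D} :=
    ⟨_, rfl⟩
  have hNn : N.Normal := by rw [hN]; exact Subgroup.normalClosure_normal
  have hDN : D ∈ N := by rw [hN]; exact Subgroup.subset_normalClosure (Set.mem_singleton D)
  have hd0 : ∀ i, d i ≠ 0 := by
    intro i
    refine SpecialLinearGroup.diagonal_neZero d ?_ i
    rw [← hD]
    exact D.2
  -- different entries
  have h1 : ∀ (i j : ι) (hij : i ≠ j) (c : F), d i ≠ d j →
      SpecialLinearGroup.transvection hij c ∈ N := by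
    intro i j hij c hd
    have hne : d i * (d j)⁻¹ - 1 ≠ 0 := by
      intro h
      apply hd
      have h2 : d i * (d j)⁻¹ = 1 := sub_eq_zero.1 h
      field_simp [hd0 j] at h2
      exact h2
    obtain ⟨t, ht⟩ : ∃ t : F, (d i * (d j)⁻¹ - 1) * t = c :=
      ⟨(d i * (d j)⁻¹ - 1)⁻¹ * c, by rw [← mul_assoc, mul_inv_cancel₀ hne, one_mul]⟩
    have h2 := diag_mul_transvection hD hij t (d i * (d j)⁻¹ * t) (by
      have := hd0 j
      field_simp)
    have h3 : D * (SpecialLinearGroup.transvection hij t * D⁻¹ *
        (SpecialLinearGroup.transvection hij t)⁻¹) ∈ N :=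
      N.mul_mem hDN (hNn.conj_mem _ (N.inv_mem hDN) _)
    have h4 : D * (SpecialLinearGroup.transvection hij t * D⁻¹ *
        (SpecialLinearGroup.transvection hij t)⁻¹) = SpecialLinearGroup.transvection hij c := by
      rw [← mul_assoc, ← mul_assoc, h2, mul_assoc _ D, mul_inv_cancel, mul_one,
        SpecialLinearGroup.transvection_inv, ← SpecialLinearGroup.transvection_add]
      congr 1
      rw [← ht]
      ring
    rwa [h4] at h3
  rw [← hN]
  refine eq_top_of_transvection N fun i j hij c => ?_
  by_cases hd : d i = d j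
  · -- a third place with a different entry
    obtain ⟨m, hm⟩ : ∃ m, d m ≠ d i := by
      by_contra hno
      push Not at hno
      exact h0 ((hno i₀).trans (hno j₀).symm)
    have him : i ≠ m := fun h => hm (by rw [h])
    have hmj : m ≠ j := fun h => hm (by rw [h, hd])
    have h2 := commutator_transvection him hmj hij c 1
    rw [mul_one] at h2
    rw [← h2]
    have e1 := h1 i m him c (Ne.symm hm)
    have e2 := h1 m j hmj 1 (fun h => hm (by rw [h, hd]))
    exact N.mul_mem (N.mul_mem (N.mul_mem e1 e2) (N.inv_mem e1)) (N.inv_mem e2)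
  · exact h1 i j hij c hd

end gen

/-- `SL_2(F) ^ r` has no proper subgroup of finite index in characteristic `0` -/
theorem sl2_pow {F : Type*} [Field F] [CharZero F] {r : ℕ}
    (H : Subgroup (Fin r → SpecialLinearGroup (Fin 2) F)) (hH : H.FiniteIndex) : H = ⊤ := by
  classical
  have hfin : H.normalCore.FiniteIndex := Subgroup.finiteIndex_normalCore H
  have hpow : ∀ g : Fin r → SpecialLinearGroup (Fin 2) F, g ^ H.normalCore.index ∈ H :=
    fun g => H.normalCore_le (H.normalCore.pow_index_mem g)
  have hidx : (H.normalCore.index : F) ≠ 0 := Nat.cast_ne_zero.2 hfin.index_ne_zero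
  rw [eq_top_iff]
  intro g _
  refine Subgroup.pi_mem_of_mulSingle_mem g fun k => ?_
  refine SL2.transvection_induction (fun A => Pi.mulSingle k A ∈ H) ?_ ?_ (g k)
  · intro i j hij c
    have h1 := hpow (Pi.mulSingle k
      (SpecialLinearGroup.transvection hij ((H.normalCore.index : F)⁻¹ * c)))
    rw [← Pi.mulSingle_pow, transvection_pow, ← mul_assoc, mul_inv_cancel₀ hidx, one_mul] at h1
    exact h1
  · intro A B hA hB
    have h1 : (Pi.mulSingle k (A * B) : Fin r → SpecialLinearGroup (Fin 2) F) =
        Pi.mulSingle k A * Pi.mulSingle k B :=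
      Pi.mulSingle_mul (f := fun _ => SpecialLinearGroup (Fin 2) F) k A B
    show Pi.mulSingle k (A * B) ∈ H
    rw [h1]
    exact H.mul_mem hA hB

section block

variable {F : Type*} [Field F] {r : ℕ} {ι κ : Type*} [Fintype ι] [DecidableEq ι] [Fintype κ]
  [DecidableEq κ]

/-- the block diagonal matrix with blocks `g k` and `1` -/
def blockM (e : ι ≃ (Fin 2 × Fin r) ⊕ κ) (g : Fin r → SpecialLinearGroup (Fin 2) F) :
    Matrix ι ι F :=
  (Matrix.fromBlocks (Matrix.blockDiagonal fun k => (g k : Matrix (Fin 2) (Fin 2) F)) 0 0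
    (1 : Matrix κ κ F)).submatrix e e

theorem det_blockM (e : ι ≃ (Fin 2 × Fin r) ⊕ κ) (g : Fin r → SpecialLinearGroup (Fin 2) F) :
    (blockM e g).det = 1 := by
  unfold blockM
  rw [Matrix.det_submatrix_equiv_self, Matrix.det_fromBlocks_zero₂₁, Matrix.det_blockDiagonal,
    Matrix.det_one, mul_one]
  exact Finset.prod_eq_one fun k _ => (g k).2

theorem blockM_one (e : ι ≃ (Fin 2 × Fin r) ⊕ κ) :
    blockM e (1 : Fin r → SpecialLinearGroup (Fin 2) F) = 1 := by
  unfold blockM
  have h1 : (fun k => ((1 : Fin r → SpecialLinearGroup (Fin 2) F) k : Matrix (Fin 2) (Fin 2) F)) =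
      1 := by
    funext k
    rfl
  rw [h1, Matrix.blockDiagonal_one, Matrix.fromBlocks_one, Matrix.submatrix_one_equiv]

theorem blockM_mul (e : ι ≃ (Fin 2 × Fin r) ⊕ κ) (g h : Fin r → SpecialLinearGroup (Fin 2) F) :
    blockM e (g * h) = blockM e g * blockM e h := by
  unfold blockM
  have h1 : (fun k => ((g * h) k : Matrix (Fin 2) (Fin 2) F)) =
      fun k => (g k : Matrix (Fin 2) (Fin 2) F) * (h k : Matrix (Fin 2) (Fin 2) F) := by
    funext k
    rfl
  rw [h1, Matrix.blockDiagonal_mul, Matrix.submatrix_mul_equiv, Matrix.fromBlocks_multiply]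
  simp

/-- the block embedding -/
def blockJ (e : ι ≃ (Fin 2 × Fin r) ⊕ κ) :
    (Fin r → SpecialLinearGroup (Fin 2) F) →* SpecialLinearGroup ι F where
  toFun g := ⟨blockM e g, det_blockM e g⟩
  map_one' := Subtype.ext (blockM_one e)
  map_mul' g h := Subtype.ext (blockM_mul e g h)

theorem coe_blockJ (e : ι ≃ (Fin 2 × Fin r) ⊕ κ) (g : Fin r → SpecialLinearGroup (Fin 2) F) :
    (blockJ e g : Matrix ι ι F) = blockM e g := rfl

/-- the sign of an element of `ℤ / 2` -/
def sgn1 (F : Type*) [Field F] : Multiplicative (ZMod 2) →* F where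
  toFun b := if b = 1 then 1 else -1
  map_one' := by simp
  map_mul' a b := by
    have h : ∀ x : Multiplicative (ZMod 2), x = 1 ∨ x = Multiplicative.ofAdd 1 := by decide
    have h1 : (Multiplicative.ofAdd (1 : ZMod 2)) ≠ 1 := by decide
    have h2 : Multiplicative.ofAdd (1 : ZMod 2) * Multiplicative.ofAdd (1 : ZMod 2) = 1 := by
      decide
    rcases h a with rfl | rfl <;> rcases h b with rfl | rfl <;> simp [h1, h2]

theorem sgn1_sq (b : Multiplicative (ZMod 2)) : sgn1 F b * sgn1 F b = 1 := by
  unfold sgn1
  by_cases h : b = 1 <;> simp [h]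

/-- the central elements `± 1` of `SL_2(F)` -/
def sgn2 (F : Type*) [Field F] : Multiplicative (ZMod 2) →* SpecialLinearGroup (Fin 2) F where
  toFun b := ⟨Matrix.diagonal fun _ => sgn1 F b, by
    rw [Matrix.det_diagonal, Fin.prod_univ_two, sgn1_sq]⟩
  map_one' := Subtype.ext (by
    show Matrix.diagonal (fun _ => sgn1 F 1) = (1 : Matrix (Fin 2) (Fin 2) F)
    rw [map_one, Matrix.diagonal_one])
  map_mul' a b := Subtype.ext (by
    show Matrix.diagonal (fun _ => sgn1 F (a * b)) = (Matrix.diagonal fun _ => sgn1 F a) *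
      (Matrix.diagonal fun _ => sgn1 F b : Matrix (Fin 2) (Fin 2) F)
    rw [map_mul, Matrix.diagonal_mul_diagonal])

theorem sgn2_comm (b : Multiplicative (ZMod 2)) (g : SpecialLinearGroup (Fin 2) F) :
    sgn2 F b * g = g * sgn2 F b := by
  apply Subtype.ext
  show (Matrix.diagonal fun _ => sgn1 F b) * (g : Matrix (Fin 2) (Fin 2) F) =
    (g : Matrix (Fin 2) (Fin 2) F) * (Matrix.diagonal fun _ => sgn1 F b)
  ext i j
  rw [Matrix.diagonal_mul, Matrix.mul_diagonal, mul_comm]

/-- the sign matrices of `SL_2(F) ^ r` -/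
def sgnPi (F : Type*) [Field F] (r : ℕ) :
    (Fin r → Multiplicative (ZMod 2)) →* (Fin r → SpecialLinearGroup (Fin 2) F) where
  toFun b := fun k => sgn2 F (b k)
  map_one' := by funext k; exact map_one _
  map_mul' a b := by funext k; exact map_mul _ _ _

/-- the diagonal of a sign matrix -/
def sgnD (F : Type*) [Field F] (e : ι ≃ (Fin 2 × Fin r) ⊕ κ) (b : Fin r → Multiplicative (ZMod 2))
    (i : ι) : F :=
  Sum.elim (fun p : Fin 2 × Fin r => sgn1 F (b p.2)) (fun _ => 1) (e i)

theorem blockM_sgn (e : ι ≃ (Fin 2 × Fin r) ⊕ κ) (b : Fin r → Multiplicative (ZMod 2)) :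
    blockM e (sgnPi F r b) = Matrix.diagonal (sgnD F e b) := by
  unfold blockM sgnD
  have h1 : (fun k => (sgnPi F r b k : Matrix (Fin 2) (Fin 2) F)) =
      fun k => Matrix.diagonal fun _ => sgn1 F (b k) := rfl
  rw [h1, Matrix.blockDiagonal_diagonal]
  have h2 : Matrix.fromBlocks (Matrix.diagonal fun p : Fin 2 × Fin r => sgn1 F (b p.2)) 0 0
      (1 : Matrix κ κ F) = Matrix.diagonal (Sum.elim (fun p : Fin 2 × Fin r => sgn1 F (b p.2))
        (fun _ => 1)) := by
    rw [← Matrix.diagonal_one, Matrix.fromBlocks_diagonal]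
  rw [h2]
  ext i j
  rw [Matrix.submatrix_apply, Matrix.diagonal_apply, Matrix.diagonal_apply]
  simp [e.injective.eq_iff]

end block

/-- Note `2 r + 1`: all `r` signs and one more coordinate, so that no `J (s b)`, `b ≠ 1`, is
scalar. -/
theorem sl_kernel {F : Type*} [Field F] [CharZero F] {r : ℕ} {ι : Type*} [Fintype ι] [DecidableEq ι]
    (hι : 2 * r + 1 ≤ Fintype.card ι) :
    ∃ (J : (Fin r → SpecialLinearGroup (Fin 2) F) →* SpecialLinearGroup ι F)
      (s : (Fin r → Multiplicative (ZMod 2)) →* (Fin r → SpecialLinearGroup (Fin 2) F)),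
      (∀ b g, s b * g = g * s b) ∧ ∀ b, b ≠ 1 → Subgroup.normalClosure {J (s b)} = ⊤ := by
  obtain ⟨c, hc⟩ : ∃ c, Fintype.card ι = 2 * r + (c + 1) := ⟨Fintype.card ι - (2 * r + 1), by omega⟩
  have hcard : Fintype.card ι = Fintype.card ((Fin 2 × Fin r) ⊕ Fin (c + 1)) := by
    simp [hc]
  have e : ι ≃ (Fin 2 × Fin r) ⊕ Fin (c + 1) := Fintype.equivOfCardEq hcard
  refine ⟨blockJ e, sgnPi F r, fun b g => ?_, fun b hb => ?_⟩
  · funext k
    exact sgn2_comm (b k) (g k)
  · obtain ⟨k, hk⟩ : ∃ k, b k ≠ 1 := by
      by_contra hno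
      push Not at hno
      exact hb (funext hno)
    refine normalClosure_diagonal (D := blockJ e (sgnPi F r b)) (d := sgnD F e b)
      (blockM_sgn e b) (i₀ := e.symm (Sum.inl (0, k))) (j₀ := e.symm (Sum.inr 0)) ?_
    have h1 : sgnD F e b (e.symm (Sum.inl (0, k))) = -1 := by
      unfold sgnD
      rw [Equiv.apply_symm_apply]
      show sgn1 F (b k) = -1
      unfold sgn1
      simp [hk]
    have h2 : sgnD F e b (e.symm (Sum.inr 0)) = 1 := by
      unfold sgnD
      rw [Equiv.apply_symm_apply]
      rfl
    rw [h1, h2]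
    intro h
    have h3 : (2 : F) = 0 := by linear_combination -h
    exact two_ne_zero h3

end Pool.Agent.AXS
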